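import Mathlib
import Pool.Agent.MP_4fffd4_nt.Count

/- Definitions for Chowla's conjecture over finite fields of odd characteristic. -/

set_option autoImplicit false

namespace Pool.Agent.MP_4fffd4_nt.Odd

open Polynomial Finset Filter Topology
open scoped BigOperators

section Basic

variable {F : Type*} [Field F]

/-- The Liouville function with real values. -/
noncomputable def lam (g : F[X]) : ℝ := (liou g : ℝ)

theorem abs_lam (g : F[X]) : |lam g| = 1 := by
  rcases liou_cases g with h | h <;> simp [lam, h]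

theorem lam_mul {f g : F[X]} (hf : f ≠ 0) (hg : g ≠ 0) : lam (f * g) = lam f * lam g := by
  rw [lam, liou_mul hf hg, Int.cast_mul, lam, lam]

theorem lam_mul_self (g : F[X]) : lam g * lam g = 1 := by
  rcases liou_cases g with h | h <;> simp [lam, h]

theorem abs_ind_le (P : Prop) : |ind P| ≤ 1 := by
  rw [abs_of_nonneg (ind_nonneg P)]; exact ind_le_one P

theorem ind_congr {P Q : Prop} (h : P ↔ Q) : ind P = ind Q := by rw [propext h]

theorem ind_and (P Q : Prop) : ind (P ∧ Q) = ind P * ind Q := by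
  by_cases hP : P
  · rw [ind_pos hP, one_mul]; exact ind_congr (and_iff_right hP)
  · rw [ind_neg hP, zero_mul, ind_neg fun h => hP h.1]

/-- `u` is a unitary divisor of `z` with squarefree cofactor. -/
def Dec (u z : F[X]) : Prop := ∃ w, z = u * w ∧ IsCoprime u w ∧ Squarefree w

/-- squarefull polynomials -/
def Full (u : F[X]) : Prop := ∀ P : F[X], Irreducible P → P ∣ u → P ^ 2 ∣ u

/-- the part of the Liouville function with squarefull part `u` -/
noncomputable def piece (u z : F[X]) : ℝ := ind (Dec u z) * lam z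

/-- `W` has a private prime factor of degree above `4 * lo` and at most `hi + lo`, and the rest
splits into pieces of degree at most `hi`. -/
def GoodW (ι : Type) [Fintype ι] (lo hi : ℕ) (W : F[X]) : Prop :=
  ∃ (l : F) (P : F[X]) (m : ι → F[X]), l ≠ 0 ∧ P.Monic ∧ Irreducible P ∧
    W = C l * P * ∏ j, m j ∧ 4 * lo < P.natDegree ∧ P.natDegree ≤ hi + lo ∧
    ∀ j, (m j).Monic ∧ (m j).natDegree ≤ hi ∧ ¬ P ∣ m j

/-- bounded functions of two polynomials, each invariant along a line -/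
def Adm {J : Type*} (α β : J → F[X]) (G : J → F[X] → F[X] → ℝ) : Prop :=
  ∀ j, (∀ y d, |G j y d| ≤ 1) ∧ ∀ y d v, G j (y + α j * v) (d + β j * v) = G j y d

/-- the directions -/
noncomputable def BB (p e : ℕ) (t : F[X]) : F[X] := X ^ e * (X + t ^ p)

/-- derivatives of polynomials of degree below `ν` represent every class modulo `e` -/
def Onto (ν : ℕ) (e : F[X]) : Prop :=
  ∀ x : F[X], ∃ v : F[X], v.degree < ν ∧ e ∣ x - derivative v

end Basic

section Fin

variable (F : Type*) [Field F] [Fintype F]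

open Classical in
/-- Monic irreducible polynomials of degree `d`. -/
noncomputable def prm (d : ℕ) : Finset F[X] := (monF F d).filter Irreducible

open Classical in
/-- Monic polynomials of degree at most `K`. -/
noncomputable def monLE (K : ℕ) : Finset F[X] := (range (K + 1)).biUnion (monF F)

open Classical in
/-- Monic squarefull polynomials of degree at most `K`. -/
noncomputable def fullLE (K : ℕ) : Finset F[X] := (monLE F K).filter Full

open Classical in
/-- Monic irreducible polynomials with degree in the interval from `lo` (excluded) to `hi`. -/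
noncomputable def prmI (lo hi : ℕ) : Finset F[X] := (Ioc lo hi).biUnion (prm F)

variable {F}

theorem mem_prm {d : ℕ} {P : F[X]} :
    P ∈ prm F d ↔ P.Monic ∧ Irreducible P ∧ P.natDegree = d := by
  classical
  rw [prm, mem_filter, mem_monF]; tauto

theorem mem_monLE {K : ℕ} {f : F[X]} : f ∈ monLE F K ↔ f.Monic ∧ f.natDegree ≤ K := by
  simp only [monLE, mem_biUnion, mem_range, mem_monF]
  exact ⟨fun ⟨d, h1, h2, h3⟩ => ⟨h2, by omega⟩, fun ⟨h1, h2⟩ => ⟨_, by omega, h1, rfl⟩⟩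

theorem mem_fullLE {K : ℕ} {f : F[X]} :
    f ∈ fullLE F K ↔ f.Monic ∧ f.natDegree ≤ K ∧ Full f := by
  classical
  rw [fullLE, mem_filter, mem_monLE]; tauto

theorem mem_prmI {lo hi : ℕ} {P : F[X]} :
    P ∈ prmI F lo hi ↔ P.Monic ∧ Irreducible P ∧ lo < P.natDegree ∧ P.natDegree ≤ hi := by
  simp only [prmI, mem_biUnion, mem_Ioc, mem_prm]
  exact ⟨fun ⟨d, h1, h2, h3, h4⟩ => ⟨h2, h3, by omega⟩,
    fun ⟨h1, h2, h3⟩ => ⟨_, h3, h1, h2, rfl⟩⟩

theorem sum_monLE {B : Type*} [AddCommMonoid B] (K : ℕ) (φ : F[X] → B) :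
    ∑ f ∈ monLE F K, φ f = ∑ d ∈ range (K + 1), ∑ f ∈ monF F d, φ f := by
  classical
  refine sum_biUnion fun a _ b _ hab => disjoint_left.2 fun f h1 h2 => hab ?_
  rw [← (mem_monF.1 h1).2, ← (mem_monF.1 h2).2]

theorem sum_prmI {B : Type*} [AddCommMonoid B] (lo hi : ℕ) (φ : F[X] → B) :
    ∑ f ∈ prmI F lo hi, φ f = ∑ d ∈ Ioc lo hi, ∑ f ∈ prm F d, φ f := by
  classical
  refine sum_biUnion fun a _ b _ hab => disjoint_left.2 fun f h1 h2 => hab ?_
  rw [← (mem_prm.1 h1).2.2, ← (mem_prm.1 h2).2.2]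

theorem card_monLE (K : ℕ) : (monLE F K).card ≤ Fintype.card F ^ (K + 1) := by
  rw [← card_ltF]
  refine card_le_card fun f hf => mem_ltF.2 ?_
  obtain ⟨h1, h2⟩ := mem_monLE.1 hf
  rw [degree_eq_natDegree h1.ne_zero]
  exact_mod_cast Nat.lt_succ_of_le h2

theorem sum_ltF {M : Type*} [AddCommMonoid M] (n : ℕ) (G : F[X] → M) :
    ∑ g ∈ ltF F n, G g = ∑ y : degreeLT F n, G y.1 := Finset.sum_map _ _ _

theorem expect_monF (n : ℕ) (G : F[X] → ℝ) :
    𝔼 g ∈ monF F n, G g = 𝔼 y : degreeLT F n, G (X ^ n + y.1) := by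
  rw [expect_eq_sum_div_card, Fintype.expect_eq_sum_div_card, sum_monF, card_monF, card_degreeLT]

theorem expect_ltF (n : ℕ) (G : F[X] → ℝ) :
    𝔼 g ∈ ltF F n, G g = 𝔼 y : degreeLT F n, G y.1 := by
  rw [expect_eq_sum_div_card, Fintype.expect_eq_sum_div_card, sum_ltF, card_ltF, card_degreeLT]

theorem expect_monF_eq (n : ℕ) (G : F[X] → ℝ) :
    𝔼 g ∈ monF F n, G g = (∑ g ∈ monF F n, G g) / (Fintype.card F : ℝ) ^ n := by
  rw [expect_eq_sum_div_card, card_monF, Nat.cast_pow]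

theorem expect_ltF_eq (n : ℕ) (G : F[X] → ℝ) :
    𝔼 g ∈ ltF F n, G g = (∑ g ∈ ltF F n, G g) / (Fintype.card F : ℝ) ^ n := by
  rw [expect_eq_sum_div_card, card_ltF, Nat.cast_pow]

theorem sum_monF_add {M : Type*} [AddCommMonoid M] {n : ℕ} {v : F[X]} (hv : v.degree < n)
    (G : F[X] → M) : ∑ g ∈ monF F n, G (g + v) = ∑ g ∈ monF F n, G g := by
  rw [sum_monF, sum_monF]
  refine Fintype.sum_equiv (Equiv.addRight ⟨v, mem_degreeLT.2 hv⟩) _ _ fun y => ?_
  simp [add_assoc]

theorem sum_ltF_add {M : Type*} [AddCommMonoid M] {n : ℕ} {v : F[X]} (hv : v.degree < n)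
    (G : F[X] → M) : ∑ g ∈ ltF F n, G (g + v) = ∑ g ∈ ltF F n, G g := by
  rw [sum_ltF, sum_ltF]
  exact Fintype.sum_equiv (Equiv.addRight ⟨v, mem_degreeLT.2 hv⟩) _ _ fun y => rfl

theorem expect_monF_add {n : ℕ} {v : F[X]} (hv : v.degree < n) (G : F[X] → ℝ) :
    𝔼 g ∈ monF F n, G (g + v) = 𝔼 g ∈ monF F n, G g := by
  rw [expect_monF_eq, expect_monF_eq, sum_monF_add hv]

theorem monF_nonempty (n : ℕ) : (monF F n).Nonempty :=
  ⟨X ^ n, mem_monF.2 ⟨monic_X_pow n, natDegree_X_pow n⟩⟩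

theorem ltF_nonempty (n : ℕ) : (ltF F n).Nonempty :=
  ⟨0, mem_ltF.2 (WithBot.bot_lt_coe _)⟩

open Classical in
/-- The Jacobi symbol with real values (for monic `f`). -/
noncomputable def jr (D f : F[X]) : ℝ := ((quadraticChar F (resultant f D) : ℤ) : ℝ)

/-- the averages that control Chowla's conjecture -/
noncomputable def TT {J : Type*} [Fintype J] (n D : ℕ) (φ : F[X] → ℝ)
    (G : J → F[X] → F[X] → ℝ) : ℝ :=
  𝔼 d ∈ monF F D, 𝔼 y ∈ monF F n, φ y * ∏ j, G j y d

/-- a weight supported on good polynomials and equidistributed among derivatives -/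
structure Weight (p : ℕ) (ι : Type) [Fintype ι] (g : ℕ → F[X] → ℝ) (ρ : ℕ → ℝ) (ρ₀ : ℝ)
    (lo hi : ℕ → ℕ) : Prop where
  pos : 0 < ρ₀
  good : ∀ (M : ℕ) (W : F[X]), W ≠ 0 → W.natDegree = M →
    0 ≤ g M W ∧ g M W ≤ 1 ∧ (g M W ≠ 0 → GoodW ι (lo M) (hi M) W)
  rho : ∀ᶠ M in atTop, ρ₀ ≤ ρ M ∧ ρ M ≤ 1
  lo_top : Tendsto lo atTop atTop
  hi_le : ∀ c : ℕ, ∀ᶠ M in atTop, hi M + c ≤ M / p
  equi : ∀ (Q : F[X]) (c : ℕ), Q ≠ 0 → ∀ᶠ M in atTop, ∀ (D₀ : F[X]) (ν : ℕ), M ≤ ν + c →
    𝔼 v ∈ ltF F ν, g M (D₀ + Q ^ p * derivative v) = ρ M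

/-- the index set of the pieces -/
abbrev WI (p : ℕ) : Type := Fin (p - 1) ⊕ Bool

/-- the width of the windows -/
def tt (p M : ℕ) : ℕ := M / (100 * p ^ 3)

variable (F) in
/-- the window number `j` -/
noncomputable def win (p M j : ℕ) : Finset F[X] :=
  prmI F (M / p - (j + 2) * tt p M) (M / p - (j + 1) * tt p M)

variable (F) in
/-- one prime from each window -/
noncomputable def TW (p M : ℕ) : Finset (Fin (p - 1) → F[X]) :=
  Fintype.piFinset fun j => win F p M j

/-- the weight -/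
noncomputable def gw (p M : ℕ) (W : F[X]) : ℝ :=
  (∑ P ∈ TW F p M, ind (Onto (M - tt p M) (∏ j, P j)) * ind (∏ j, P j ∣ W)) / (2 * p) ^ p

variable (F) in
/-- the mean value of the weight -/
noncomputable def rw0 (p M : ℕ) : ℝ :=
  (∑ P ∈ TW F p M, ind (Onto (M - tt p M) (∏ j, P j)) /
    (Fintype.card F : ℝ) ^ (∏ j, P j).natDegree) / (2 * p) ^ p

/-- the lower parameter of the good polynomials -/
def low (p M : ℕ) : ℕ := 10 * p ^ 2 * tt p M

/-- upper bound for the degrees in the windows -/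
def high (p M : ℕ) : ℕ := M / p - tt p M

/-- the entropy of the pattern of labels on an interval -/
noncomputable def entP {α : Type*} (ℓ : F[X] → α) (m H : ℕ) : ℝ :=
  𝔼 y ∈ monF F m, -Real.log (𝔼 y' ∈ monF F m,
    ind (∀ v : F[X], v.degree < H → ℓ (y' + v) = ℓ (y + v)))

end Fin

/-- the entropy of the pattern of labels along a family of shifts -/
noncomputable def entI {G A α : Type*} [AddCommGroup G] [Fintype G] (ℓ : G → α) (i : A → G) : ℝ :=
  𝔼 y : G, -Real.log (𝔼 y' : G, ind (∀ v, ℓ (y' + i v) = ℓ (y + i v)))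

/-- small on average over all long intervals -/
def BZ (u : ℕ → ℝ) : Prop :=
  ∀ ε : ℝ, 0 < ε → ∃ M₀ : ℕ, ∀ M, M₀ ≤ M → ∀ N : ℕ, ∑ n ∈ Ico N (N + M), |u n| ≤ ε * M

end Pool.Agent.MP_4fffd4_nt.Odd
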