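import Mathlib
import Pool.Agent.MP_4fffd4_nt.Odd.Defs

/- Entropy of patterns. -/

set_option autoImplicit false

namespace Pool.Agent.MP_4fffd4_nt.Odd

open Polynomial Finset Filter Topology
open scoped BigOperators

variable {G A α : Type*} [AddCommGroup G] [Fintype G]

/-- the probability of a pattern -/
noncomputable def xent0pr {β : Type*} (pat : G → β) (c : β) : ℝ := 𝔼 y' : G, ind (pat y' = c)

theorem xent0pr_nonneg {β : Type*} (pat : G → β) (c : β) : 0 ≤ xent0pr pat c :=
  expect_nonneg fun _ _ => ind_nonneg _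

theorem xent0pr_le {β : Type*} (pat : G → β) (c : β) : xent0pr pat c ≤ 1 :=
  expect_le univ_nonempty fun _ _ => ind_le_one _

theorem xent0pr_pos {β : Type*} (pat : G → β) (y : G) : 0 < xent0pr pat (pat y) := by
  rw [xent0pr, Fintype.expect_eq_sum_div_card]
  refine div_pos (sum_pos' (fun _ _ => ind_nonneg _) ⟨y, mem_univ _, ?_⟩) ?_
  · rw [ind_pos rfl]; exact one_pos
  · exact_mod_cast Fintype.card_pos

theorem xent0_fiber {β : Type*} [DecidableEq β] (pat : G → β) (φ : β → ℝ) :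
    𝔼 y : G, φ (pat y) = ∑ c ∈ univ.image pat, xent0pr pat c * φ c := by
  have h : ∀ y : G, φ (pat y) = ∑ c ∈ univ.image pat, ind (pat y = c) * φ c := fun y => by
    rw [sum_eq_single_of_mem (pat y) (mem_image_of_mem _ (mem_univ y)), ind_pos rfl, one_mul]
    intro c _ hc
    rw [ind_neg (Ne.symm hc), zero_mul]
  simp_rw [h]
  rw [expect_sum_comm]
  exact sum_congr rfl fun c _ => by rw [xent0pr, expect_mul]

theorem xent0_gibbs {β : Type*} [DecidableEq β] (pat : G → β) (f : β → ℝ)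
    (hf : ∀ y, 0 < f (pat y)) (hs : ∑ c ∈ univ.image pat, f c ≤ 1) :
    𝔼 y : G, -Real.log (xent0pr pat (pat y)) ≤ 𝔼 y : G, -Real.log (f (pat y)) := by
  have h1 : 𝔼 y : G, f (pat y) / xent0pr pat (pat y) = ∑ c ∈ univ.image pat, f c := by
    rw [xent0_fiber pat fun c => f c / xent0pr pat c]
    refine sum_congr rfl fun c hc => ?_
    obtain ⟨y, -, rfl⟩ := mem_image.1 hc
    exact mul_div_cancel₀ _ (xent0pr_pos pat y).ne'
  have h2 : 𝔼 y : G, -Real.log (xent0pr pat (pat y)) ≤
      𝔼 y : G, (-Real.log (f (pat y)) + (f (pat y) / xent0pr pat (pat y) - 1)) := by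
    refine expect_le_expect fun y _ => ?_
    have := Real.log_le_sub_one_of_pos (div_pos (hf y) (xent0pr_pos pat y))
    rw [Real.log_div (hf y).ne' (xent0pr_pos pat y).ne'] at this
    linarith
  rw [expect_add_distrib, expect_sub_distrib, h1, expect_const univ_nonempty] at h2
  linarith

theorem xent0_eq (ℓ : G → α) (i : A → G) : entI ℓ i =
    𝔼 y : G, -Real.log (xent0pr (fun y v => ℓ (y + i v)) fun v => ℓ (y + i v)) := by
  refine expect_congr rfl fun y _ => ?_
  rw [xent0pr]
  congr 2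
  exact expect_congr rfl fun y' _ => ind_congr funext_iff.symm

theorem xent0_shift (φ : G → ℝ) (g : G) : 𝔼 y : G, φ (y + g) = 𝔼 y : G, φ y :=
  Fintype.expect_equiv (Equiv.addRight g) _ _ fun _ => rfl

theorem xent0_unif {R : Type*} [AddCommGroup R] [Fintype R] (r : G →+ R)
    (hr : Function.Surjective r) (φ : R → ℝ) : 𝔼 y : G, φ (r y) = 𝔼 ρ : R, φ ρ := by
  have h1 : ∀ ρ : R, 𝔼 y : G, φ (r y) = 𝔼 y : G, φ (ρ + r y) := fun ρ => by
    obtain ⟨g, rfl⟩ := hr ρ
    rw [← xent0_shift (fun y => φ (r y)) g]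
    exact expect_congr rfl fun y _ => by rw [map_add, add_comm]
  calc 𝔼 y : G, φ (r y) = 𝔼 _ρ : R, 𝔼 y : G, φ (r y) := (expect_const univ_nonempty _).symm
    _ = 𝔼 ρ : R, 𝔼 y : G, φ (ρ + r y) := expect_congr rfl fun ρ _ => h1 ρ
    _ = 𝔼 y : G, 𝔼 ρ : R, φ (ρ + r y) := expect_comm _ _ _
    _ = 𝔼 _y : G, 𝔼 ρ : R, φ ρ := expect_congr rfl fun y _ => xent0_shift φ _
    _ = _ := expect_const univ_nonempty _

theorem entI_nonneg (ℓ : G → α) (i : A → G) : 0 ≤ entI ℓ i := by
  rw [xent0_eq]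
  exact expect_nonneg fun y _ =>
    neg_nonneg.2 (Real.log_nonpos (xent0pr_nonneg _ _) (xent0pr_le _ _))

theorem entI_le [Fintype A] [Fintype α] (ℓ : G → α) (i : A → G) :
    entI ℓ i ≤ Fintype.card A * Real.log (Fintype.card α) := by
  classical
  have : Nonempty α := ⟨ℓ 0⟩
  have hc : (0 : ℝ) < (Fintype.card α : ℝ) ^ Fintype.card A := by
    have : (0 : ℝ) < Fintype.card α := by exact_mod_cast Fintype.card_pos
    positivity
  rw [xent0_eq]
  refine (xent0_gibbs (fun y v => ℓ (y + i v))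
    (fun _ => ((Fintype.card α : ℝ) ^ Fintype.card A)⁻¹) (fun _ => inv_pos.2 hc) ?_).trans_eq ?_
  · rw [sum_const, nsmul_eq_mul, mul_inv_le_iff₀ hc, one_mul]
    have := card_le_univ (univ.image fun (y : G) (v : A) => ℓ (y + i v))
    rw [Fintype.card_fun] at this
    exact_mod_cast this
  · rw [expect_const univ_nonempty, Real.log_inv, neg_neg, Real.log_pow]

theorem entI_equiv {A' : Type*} (e : A' ≃ A) (ℓ : G → α) (i : A → G) :
    entI ℓ (fun v => i (e v)) = entI ℓ i := by
  refine expect_congr rfl fun y _ => ?_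
  congr 2
  exact expect_congr rfl fun y' _ =>
    ind_congr (e.forall_congr_right (q := fun v => ℓ (y' + i v) = ℓ (y + i v)))

/-- the entropy decrement -/
theorem entI_step {U R : Type*} [Fintype U] [AddCommGroup R] [Fintype R] (ℓ : G → α) (i : A → G)
    (s : U → G) (r : G →+ R) (hr : Function.Surjective r) (σ : G → R → ℝ)
    (hσ : ∀ y y', (∀ v, ℓ (y + i v) = ℓ (y' + i v)) → σ y = σ y') {Λ : ℝ}
    (hΛ : ∀ y, 𝔼 ρ, Real.exp (σ y ρ) ≤ Real.exp Λ) :
    entI ℓ (fun z : A × U => i z.1 + s z.2) ≤ Real.log (Fintype.card R) +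
      Fintype.card U * (entI ℓ i - (𝔼 y, σ y (r y)) + Λ) := by
  classical
  set pat : G → A → α := fun y v => ℓ (y + i v) with hpat
  set P : G → U → A → α := fun y u => pat (y + s u) with hP
  obtain ⟨sg, hsg⟩ : ∃ sg : (A → α) → R → ℝ, ∀ y, sg (pat y) = σ y := by
    refine ⟨fun c => if h : ∃ y, pat y = c then σ h.choose else 0, fun y => ?_⟩
    have h : ∃ y', pat y' = pat y := ⟨y, rfl⟩
    simp only [dif_pos h]
    exact hσ _ _ fun v => congrFun h.choose_spec v
  set Z : R → ℝ := fun ρ => 𝔼 y, Real.exp (σ y ρ) with hZ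
  have hZ0 : ∀ ρ, 0 < Z ρ := fun ρ => expect_pos (fun _ _ => Real.exp_pos _) univ_nonempty
  set π : R → (A → α) → ℝ := fun ρ c => xent0pr pat c * Real.exp (sg c ρ) / Z ρ with hπ
  have hπ0 : ∀ ρ c, 0 ≤ π ρ c := fun ρ c =>
    div_nonneg (mul_nonneg (xent0pr_nonneg _ _) (Real.exp_pos _).le) (hZ0 ρ).le
  have hπp : ∀ ρ y, 0 < π ρ (pat y) := fun ρ y =>
    div_pos (mul_pos (xent0pr_pos _ _) (Real.exp_pos _)) (hZ0 ρ)
  have hπ1 : ∀ ρ, ∑ c ∈ univ.image pat, π ρ c = 1 := fun ρ => by
    simp only [hπ]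
    rw [← sum_div, ← xent0_fiber pat fun c => Real.exp (sg c ρ), div_eq_one_iff_eq (hZ0 ρ).ne']
    exact expect_congr rfl fun y _ => by rw [hsg]
  have hR : (0 : ℝ) < Fintype.card R := by exact_mod_cast Fintype.card_pos
  set f : (U → A → α) → ℝ := fun c => (∑ ρ, ∏ u, π (ρ + r (s u)) (c u)) / Fintype.card R with hf
  have hf0 : ∀ c, 0 ≤ f c := fun c =>
    div_nonneg (sum_nonneg fun _ _ => prod_nonneg fun _ _ => hπ0 _ _) hR.le
  have hlow : ∀ y, (∏ u, π (r (y + s u)) (pat (y + s u))) / Fintype.card R ≤ f (P y) := fun y => by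
    refine div_le_div_of_nonneg_right ?_ hR.le
    have := single_le_sum (f := fun ρ => ∏ u, π (ρ + r (s u)) (P y u))
      (fun _ _ => prod_nonneg fun _ _ => hπ0 _ _) (mem_univ (r y))
    simpa only [map_add] using this
  have hpos : ∀ y, 0 < (∏ u, π (r (y + s u)) (pat (y + s u))) / Fintype.card R := fun y =>
    div_pos (prod_pos fun _ _ => hπp _ _) hR
  have hsum : ∑ c ∈ univ.image P, f c ≤ 1 := by
    refine (sum_le_sum_of_subset_of_nonneg (t := Fintype.piFinset fun _ => univ.image pat) ?_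
      fun c _ _ => hf0 c).trans_eq ?_
    · intro c hc
      obtain ⟨y, -, rfl⟩ := mem_image.1 hc
      exact Fintype.mem_piFinset.2 fun u => mem_image_of_mem _ (mem_univ _)
    · simp only [hf]
      rw [← sum_div, sum_comm, div_eq_one_iff_eq hR.ne']
      simp only [← prod_univ_sum, hπ1, prod_const_one, sum_const, card_univ, nsmul_eq_mul, mul_one]
  have e1 : entI ℓ (fun z : A × U => i z.1 + s z.2) =
      𝔼 y : G, -Real.log (xent0pr P (P y)) := by
    refine expect_congr rfl fun y _ => ?_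
    rw [xent0pr]
    congr 2
    refine expect_congr rfl fun y' _ => ind_congr ⟨fun h => ?_, fun h z => ?_⟩
    · funext u v
      have := h (v, u)
      simp only [hP, hpat]
      rwa [add_assoc, add_assoc, add_comm (s u)]
    · have := congrFun (congrFun h z.2) z.1
      simp only [hP, hpat] at this
      rwa [add_assoc, add_assoc, add_comm (s z.2)] at this
  set h : G → ℝ := fun y => -Real.log (xent0pr pat (pat y)) - σ y (r y) + Real.log (Z (r y))
    with hh
  have e2 : ∀ y, -Real.log (f (P y)) ≤ Real.log (Fintype.card R) + ∑ u, h (y + s u) := fun y => by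
    have h1 := Real.log_le_log (hpos y) (hlow y)
    rw [Real.log_div (prod_pos fun _ _ => hπp _ _).ne' hR.ne',
      Real.log_prod fun _ _ => (hπp _ _).ne'] at h1
    have h2 : ∑ u, h (y + s u) = -∑ u, Real.log (π (r (y + s u)) (pat (y + s u))) := by
      rw [← sum_neg_distrib]
      refine sum_congr rfl fun u _ => ?_
      simp only [hh, hπ]
      rw [Real.log_div (mul_pos (xent0pr_pos _ _) (Real.exp_pos _)).ne' (hZ0 _).ne',
        Real.log_mul (xent0pr_pos _ _).ne' (Real.exp_pos _).ne', Real.log_exp, hsg]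
      ring
    linarith
  have e3 : 𝔼 y : G, Real.log (Z (r y)) ≤ Λ := by
    have h1 : 𝔼 y : G, Z (r y) ≤ Real.exp Λ := by
      rw [xent0_unif r hr Z]
      simp only [hZ]
      rw [expect_comm]
      exact expect_le univ_nonempty fun y _ => hΛ y
    have h2 : 𝔼 y : G, Real.log (Z (r y)) ≤ 𝔼 y : G, (Z (r y) / Real.exp Λ + (Λ - 1)) := by
      refine expect_le_expect fun y _ => ?_
      have := Real.log_le_sub_one_of_pos (div_pos (hZ0 (r y)) (Real.exp_pos Λ))
      rw [Real.log_div (hZ0 _).ne' (Real.exp_pos _).ne', Real.log_exp] at this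
      linarith
    rw [expect_add_distrib, expect_const univ_nonempty, ← expect_div] at h2
    have h3 := (div_le_one (Real.exp_pos Λ)).2 h1
    linarith
  have e4 : 𝔼 y : G, h y ≤ entI ℓ i - (𝔼 y, σ y (r y)) + Λ := by
    simp only [hh]
    rw [expect_add_distrib, expect_sub_distrib, xent0_eq]
    linarith
  rw [e1]
  refine (xent0_gibbs P f (fun y => (hpos y).trans_le (hlow y)) hsum).trans ?_
  refine (expect_le_expect fun y _ => e2 y).trans ?_
  rw [expect_add_distrib, expect_const univ_nonempty, expect_sum_comm]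
  simp only [xent0_shift h, sum_const, card_univ, nsmul_eq_mul]
  gcongr

end Pool.Agent.MP_4fffd4_nt.Odd
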