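import Mathlib
import Pool.Agent.MP_4fffd4_nt.Odd.Ent0

/- Entropy of patterns of polynomials. -/

set_option autoImplicit false

namespace Pool.Agent.MP_4fffd4_nt.Odd

open Polynomial Finset Filter Topology
open scoped BigOperators

variable {F : Type*} [Field F] [Fintype F]

theorem xent1_eq {α A : Type*} (ℓ : F[X] → α) {m H : ℕ} (i : A → degreeLT F m)
    (h1 : ∀ a, (i a).1.degree < H) (h2 : ∀ v : F[X], v.degree < H → ∃ a, (i a).1 = v) :
    entP ℓ m H = entI (fun y : degreeLT F m => ℓ (X ^ m + y.1)) i := by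
  unfold entP entI
  rw [expect_monF]
  refine Finset.expect_congr rfl fun y _ => ?_
  rw [expect_monF]
  congr 2
  refine Finset.expect_congr rfl fun y' _ => ind_congr ?_
  simp only [Submodule.coe_add, ← add_assoc]
  refine ⟨fun h a => h _ (h1 a), fun h v hv => ?_⟩
  obtain ⟨a, rfl⟩ := h2 v hv
  exact h a

omit [Fintype F] in
theorem xent1_inc {m H : ℕ} (h : H ≤ m) :
    ∃ i : degreeLT F H → degreeLT F m, ∀ v, (i v).1 = v.1 :=
  ⟨fun v => ⟨v.1, mem_degreeLT.2 ((mem_degreeLT.1 v.2).trans_le (by exact_mod_cast h))⟩,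
    fun _ => Subtype.coe_mk _ _⟩

theorem xent1_eq_inc {α : Type*} (ℓ : F[X] → α) {m H : ℕ} {i : degreeLT F H → degreeLT F m}
    (hi : ∀ v, (i v).1 = v.1) :
    entP ℓ m H = entI (fun y : degreeLT F m => ℓ (X ^ m + y.1)) i :=
  xent1_eq ℓ _ (fun a => by rw [hi]; exact mem_degreeLT.1 a.2)
    fun v hv => ⟨⟨v, mem_degreeLT.2 hv⟩, by rw [hi]⟩

omit [Fintype F] in
theorem xent1_deg {H₁ H₂ : ℕ} (h12 : H₁ ≤ H₂) {u : F[X]} (hu : u.degree < (H₂ - H₁ : ℕ)) :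
    (X ^ H₁ * u : F[X]).degree < (H₂ : ℕ) := by
  by_cases h0 : u = 0
  · rw [h0, mul_zero, degree_zero]
    exact WithBot.bot_lt_coe _
  have h1 := (natDegree_lt_iff_degree_lt h0).2 hu
  refine (natDegree_lt_iff_degree_lt (mul_ne_zero (pow_ne_zero _ X_ne_zero) h0)).1 ?_
  rw [(monic_X_pow H₁).natDegree_mul' h0, natDegree_X_pow]
  omega

omit [Fintype F] in
theorem xent1_div {H₁ H₂ : ℕ} {v : F[X]} (hv : v.degree < H₂) :
    (v /ₘ X ^ H₁).degree < (H₂ - H₁ : ℕ) := by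
  by_cases h0 : v /ₘ X ^ H₁ = 0
  · rw [h0, degree_zero]
    exact WithBot.bot_lt_coe _
  have hv0 : v ≠ 0 := by
    rintro rfl
    exact h0 (zero_divByMonic _)
  have h1 := (natDegree_lt_iff_degree_lt hv0).2 hv
  have h2 : ¬ v.degree < (X ^ H₁ : F[X]).degree := fun h =>
    h0 ((divByMonic_eq_zero_iff (monic_X_pow H₁)).2 h)
  rw [degree_X_pow, ← natDegree_lt_iff_degree_lt hv0] at h2
  refine (natDegree_lt_iff_degree_lt h0).1 ?_
  rw [natDegree_divByMonic _ (monic_X_pow H₁), natDegree_X_pow]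
  omega

theorem entP_step {α R : Type*} [AddCommGroup R] [Fintype R] (ℓ : F[X] → α) {m H₁ H₂ : ℕ}
    (h12 : H₁ ≤ H₂) (h2 : H₂ ≤ m) (r : F[X] →+ R)
    (hr : ∀ ρ, ∃ g : F[X], g.degree < m ∧ r g = ρ) (σ : F[X] → R → ℝ)
    (hσ : ∀ y y', (∀ v : F[X], v.degree < H₁ → ℓ (y + v) = ℓ (y' + v)) → σ y = σ y') {Λ : ℝ}
    (hΛ : ∀ y, 𝔼 ρ, Real.exp (σ y ρ) ≤ Real.exp Λ) :
    entP ℓ m H₂ ≤ Real.log (Fintype.card R) + (Fintype.card F : ℝ) ^ (H₂ - H₁) *
      (entP ℓ m H₁ - (𝔼 y ∈ monF F m, σ y (r y)) + Λ) := by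
  have hm : (H₂ : WithBot ℕ) ≤ m := by exact_mod_cast h2
  have hm' : (H₁ : WithBot ℕ) ≤ H₂ := by exact_mod_cast h12
  obtain ⟨s, hs⟩ : ∃ s : degreeLT F (H₂ - H₁) → degreeLT F m, ∀ u, (s u).1 = X ^ H₁ * u.1 :=
    ⟨fun u => ⟨X ^ H₁ * u.1, mem_degreeLT.2 ((xent1_deg h12 (mem_degreeLT.1 u.2)).trans_le hm)⟩,
      fun _ => Subtype.coe_mk _ _⟩
  obtain ⟨i, hi⟩ := xent1_inc (F := F) (h12.trans h2)
  obtain ⟨r', hr'⟩ : ∃ r' : degreeLT F m →+ R, ∀ y, r' y = r y.1 :=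
    ⟨r.comp (degreeLT F m).subtype.toAddMonoidHom, fun _ => rfl⟩
  have key := entI_step (fun y : degreeLT F m => ℓ (X ^ m + y.1)) i s r'
    (fun ρ => by
      obtain ⟨g, h1, h3⟩ := hr ρ
      exact ⟨⟨g, mem_degreeLT.2 h1⟩, by rw [hr', h3]⟩)
    (fun y ρ => σ (X ^ m + y.1) (r (X ^ m) + ρ))
    (fun y y' h => by
      rw [hσ (X ^ m + y.1) (X ^ m + y'.1) fun v hv => ?_]
      have := h ⟨v, mem_degreeLT.2 hv⟩
      simp only [Submodule.coe_add, ← add_assoc, hi] at this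
      exact this) (Λ := Λ)
    (fun y => by
      refine le_of_eq_of_le ?_ (hΛ (X ^ m + y.1))
      exact Fintype.expect_equiv (Equiv.addLeft (r (X ^ m))) _ _ fun ρ => rfl)
  rw [← xent1_eq_inc ℓ hi, card_degreeLT, Nat.cast_pow, ← xent1_eq ℓ (H := H₂)] at key
  · rw [expect_monF]
    simp only [map_add]
    simp only [hr'] at key
    exact key
  · rintro ⟨a, u⟩
    rw [Submodule.coe_add, hi, hs]
    exact (degree_add_le _ _).trans_lt (max_lt ((mem_degreeLT.1 a.2).trans_le hm')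
      (xent1_deg h12 (mem_degreeLT.1 u.2)))
  · intro v hv
    have h3 := degree_modByMonic_lt v (monic_X_pow (R := F) H₁)
    rw [degree_X_pow] at h3
    refine ⟨(⟨v %ₘ X ^ H₁, mem_degreeLT.2 h3⟩, ⟨v /ₘ X ^ H₁, mem_degreeLT.2 (xent1_div hv)⟩), ?_⟩
    rw [Submodule.coe_add, hi, hs]
    exact modByMonic_add_div v _

theorem entP_mem {α : Type*} [Fintype α] (ℓ : F[X] → α) {m H : ℕ} (h : H ≤ m) :
    0 ≤ entP ℓ m H / (Fintype.card F : ℝ) ^ H ∧
      entP ℓ m H / (Fintype.card F : ℝ) ^ H ≤ Real.log (Fintype.card α) := by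
  have hq : (0 : ℝ) < (Fintype.card F : ℝ) ^ H := pow_pos card_pos' H
  obtain ⟨i, hi⟩ := xent1_inc (F := F) h
  rw [xent1_eq_inc ℓ hi]
  refine ⟨div_nonneg (entI_nonneg _ _) hq.le, ?_⟩
  have := entI_le (fun y : degreeLT F m => ℓ (X ^ m + y.1)) i
  rw [card_degreeLT, Nat.cast_pow] at this
  rwa [div_le_iff₀' hq]

theorem entP_anti {α : Type*} (ℓ : F[X] → α) {m H H' : ℕ} (h : H ≤ H') (h' : H' ≤ m) :
    entP ℓ m H' / (Fintype.card F : ℝ) ^ H' ≤ entP ℓ m H / (Fintype.card F : ℝ) ^ H := by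
  have hq : (0 : ℝ) < (Fintype.card F : ℝ) := card_pos'
  have key := entP_step (R := Unit) ℓ h h' 0
    (fun ρ => ⟨0, by rw [degree_zero]; exact WithBot.bot_lt_coe _, rfl⟩) (fun _ _ => 0)
    (fun _ _ _ => rfl) (Λ := 0) (fun _ => by simp)
  simp only [Fintype.card_punit, Nat.cast_one, Real.log_one, zero_add, expect_const_zero,
    sub_zero, add_zero] at key
  rw [div_le_iff₀ (pow_pos hq _)]
  refine key.trans_eq ?_
  rw [pow_sub₀ _ hq.ne' h]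
  field_simp

end Pool.Agent.MP_4fffd4_nt.Odd
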