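import Mathlib
import Pool.Agent.MP_4fffd4_nt.Odd.Ent1

/- The entropy decrement for divisibility by primes. -/

set_option autoImplicit false

namespace Pool.Agent.MP_4fffd4_nt.Odd

open Polynomial Finset Filter Topology
open scoped BigOperators

variable {F : Type*} [Field F] [Fintype F]

theorem xent2_pi {ι A : Type*} [Fintype ι] [DecidableEq ι] [Fintype A] (f : ι → A → ℝ) :
    𝔼 ρ : ι → A, ∏ i, f i (ρ i) = ∏ i, 𝔼 a, f i a := by
  simp only [Fintype.expect_eq_sum_div_card]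
  rw [prod_div_distrib, prod_univ_sum, Fintype.piFinset_univ, prod_const, card_univ,
    Fintype.card_fun, Nat.cast_pow]

theorem xent2_exp {A : Type*} [Fintype A] [Nonempty A] (Z : A → ℝ) (hZ : ∀ a, |Z a| ≤ 2)
    (h0 : 𝔼 a, Z a = 0) {θ : ℝ} (hθ : |θ| ≤ 1 / 2) :
    𝔼 a, Real.exp (θ * Z a) ≤ Real.exp (4 * θ ^ 2) := by
  calc _ ≤ 𝔼 a, (θ * Z a + (4 * θ ^ 2 + 1)) := by
        refine expect_le_expect fun a _ => ?_
        have h1 : |θ * Z a| ≤ 1 := by
          rw [abs_mul]
          nlinarith [hZ a, abs_nonneg θ, abs_nonneg (Z a)]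
        have h2 := (abs_le.1 (Real.abs_exp_sub_one_sub_id_le h1)).2
        have h3 : Z a ^ 2 ≤ 4 := by
          rw [← sq_abs]
          nlinarith [hZ a, abs_nonneg (Z a)]
        nlinarith [sq_nonneg θ]
    _ = 4 * θ ^ 2 + 1 := by
        rw [expect_add_distrib, ← mul_expect, h0, mul_zero, zero_add, Fintype.expect_const]
    _ ≤ _ := Real.add_one_le_exp _

theorem xent2_div {P : F[X]} (hP : P.Monic) {D m : ℕ} (hD : P.natDegree = D) (h : D ≤ m)
    (G : F[X] → ℝ) : 𝔼 y ∈ monF F m, G (y /ₘ P) = 𝔼 x ∈ monF F (m - D), G x := by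
  have hd : P.degree = D := by rw [degree_eq_natDegree hP.ne_zero, hD]
  have hq := card_pos' (F := F)
  have e : ∑ y ∈ monF F m, G (y /ₘ P) = ∑ z ∈ monF F (m - D) ×ˢ ltF F D, G z.1 := by
    refine sum_nbij' (fun y => (y /ₘ P, y %ₘ P)) (fun z => z.2 + P * z.1) ?_ ?_ ?_ ?_ fun _ _ => rfl
    · intro y hy
      obtain ⟨h1, h2⟩ := mem_monF.1 hy
      refine mem_product.2 ⟨mem_monF.2 ⟨?_, ?_⟩, mem_ltF.2 (hd ▸ degree_modByMonic_lt y hP)⟩
      · refine (leadingCoeff_divByMonic_of_monic hP ?_).trans h1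
        rw [hd, degree_eq_natDegree h1.ne_zero, h2]
        exact_mod_cast h
      · rw [natDegree_divByMonic _ hP, h2, hD]
    · rintro ⟨x, w⟩ hz
      obtain ⟨h1, h2⟩ := mem_product.1 hz
      obtain ⟨h3, h4⟩ := mem_monF.1 h1
      have h5 : (P * x).natDegree = m := by
        rw [hP.natDegree_mul h3, hD, h4]
        omega
      have h6 : w.degree < (P * x).degree := by
        rw [degree_eq_natDegree (hP.mul h3).ne_zero, h5]
        exact (mem_ltF.1 h2).trans_le (by exact_mod_cast h)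
      exact mem_monF.2 ⟨(hP.mul h3).add_of_right h6,
        (natDegree_add_eq_right_of_degree_lt h6).trans h5⟩
    · intro y _
      exact modByMonic_add_div y P
    · rintro ⟨x, w⟩ hz
      have := div_modByMonic_unique x w hP ⟨rfl, hd ▸ mem_ltF.1 (mem_product.1 hz).2⟩
      exact Prod.ext this.1 this.2
  rw [expect_monF_eq, expect_monF_eq, e, sum_product]
  simp only [sum_const, card_ltF, nsmul_eq_mul]
  rw [← mul_sum, pow_sub₀ _ hq.ne' h]
  push_cast
  field_simp

/-- The residues modulo the primes of degree `D`. -/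
noncomputable def xent2_r (D : ℕ) : F[X] →+ (prm F D → degreeLT F D) where
  toFun y P := ⟨y %ₘ P.1, mem_degreeLT.2 (by
    obtain ⟨h1, -, h2⟩ := mem_prm.1 P.2
    exact (degree_modByMonic_lt y h1).trans_eq (by rw [degree_eq_natDegree h1.ne_zero, h2]))⟩
  map_zero' := funext fun P => Subtype.ext (zero_modByMonic _)
  map_add' a b := funext fun P => Subtype.ext (add_modByMonic a b)

open Classical in
theorem xent2_card (D : ℕ) :
    Fintype.card (prm F D → degreeLT F D) = Fintype.card F ^ (D * (prm F D).card) := by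
  rw [Fintype.card_fun, card_degreeLT, Fintype.card_coe, pow_mul]

theorem xent2_surj (D : ℕ) (ρ : prm F D → degreeLT F D) :
    ∃ g : F[X], g.degree < (D * (prm F D).card : ℕ) ∧ xent2_r D g = ρ := by
  classical
  let f : degreeLT F (D * (prm F D).card) →+ (prm F D → degreeLT F D) :=
    (xent2_r D).comp (degreeLT F _).subtype.toAddMonoidHom
  have hf : Function.Injective f := (injective_iff_map_eq_zero f).2 fun y hy => by
    have h1 : ∏ P ∈ prm F D, P ∣ y.1 := by
      refine prod_dvd_of_coprime (fun P hP Q hQ hPQ => ?_) fun P hP => ?_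
      · obtain ⟨a1, a2, a3⟩ := mem_prm.1 hP
        obtain ⟨b1, -, b3⟩ := mem_prm.1 hQ
        exact a2.coprime_iff_not_dvd.2 fun h =>
          hPQ (eq_of_monic_of_dvd_of_natDegree_le a1 b1 h (by omega)).symm
      · exact (modByMonic_eq_zero_iff_dvd (mem_prm.1 hP).1).1
          (congrArg Subtype.val (congrFun hy ⟨P, hP⟩))
    refine Subtype.ext (eq_zero_of_dvd_of_degree_lt h1 ((mem_degreeLT.1 y.2).trans_eq ?_))
    have hm : ∀ P ∈ prm F D, P.Monic := fun P hP => (mem_prm.1 hP).1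
    rw [degree_eq_natDegree (monic_prod_of_monic _ _ hm).ne_zero, natDegree_prod_of_monic _ _ hm,
      sum_congr rfl fun P hP => (mem_prm.1 hP).2.2, sum_const, smul_eq_mul, mul_comm]
  obtain ⟨y, hy⟩ := ((Fintype.bijective_iff_injective_and_card f).2
    ⟨hf, by rw [card_degreeLT, xent2_card]⟩).2 ρ
  exact ⟨y.1, mem_degreeLT.1 y.2, hy⟩

theorem ent_step {α : Type*} (ℓ : F[X] → α) {m D H₁ H₂ : ℕ} (hD : D ≤ H₁) (h12 : H₁ ≤ H₂)
    (h2 : H₂ ≤ m) (hm : D * (prm F D).card ≤ m) (Φ : F[X] → F[X] → ℝ) (hb : ∀ P y, |Φ P y| ≤ 1)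
    (hloc : ∀ P ∈ prm F D, ∀ y y', (∀ w : F[X], w.degree < H₁ → ℓ (y + w) = ℓ (y' + w)) →
      ∀ v : F[X], v.degree < D → Φ P (y + v) = Φ P (y' + v)) {θ : ℝ} (hθ : |θ| ≤ 1 / 2) :
    entP ℓ m H₂ / (Fintype.card F : ℝ) ^ H₂ ≤ entP ℓ m H₁ / (Fintype.card F : ℝ) ^ H₁ -
      (θ * ∑ P ∈ prm F D, ((𝔼 x ∈ monF F (m - D), Φ P (P * x)) - 𝔼 y ∈ monF F m, Φ P y) -
        4 * θ ^ 2 * (prm F D).card) / (Fintype.card F : ℝ) ^ H₁ +
      D * (prm F D).card * Real.log (Fintype.card F) / (Fintype.card F : ℝ) ^ H₂ := by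
  classical
  have hq := card_pos' (F := F)
  have hDm : D ≤ m := by omega
  have key := entP_step ℓ h12 h2 (xent2_r D) (fun ρ => by
      obtain ⟨g, h1, h2⟩ := xent2_surj D ρ
      exact ⟨g, h1.trans_le (by exact_mod_cast hm), h2⟩)
    (fun y ρ => ∑ P : prm F D, θ * (Φ P (y + (-ρ P).1) - 𝔼 v : degreeLT F D, Φ P (y + v.1)))
    (fun y y' h => funext fun ρ => sum_congr rfl fun P _ => by
      simp only [fun v : degreeLT F D => hloc P P.2 y y' h v.1 (mem_degreeLT.1 v.2)])
    (Λ := 4 * θ ^ 2 * (prm F D).card) fun y => by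
      simp only [Real.exp_sum]
      rw [xent2_pi fun (P : prm F D) (w : degreeLT F D) => Real.exp
        (θ * (Φ P (y + (-w).1) - 𝔼 v : degreeLT F D, Φ P (y + v.1)))]
      refine (prod_le_prod (fun P _ => expect_nonneg fun _ _ => (Real.exp_pos _).le)
        fun P _ => xent2_exp _ (fun w => ?_) ?_ hθ).trans_eq ?_
      · have h1 := abs_le.1 (hb P (y + (-w).1))
        have h2 : 𝔼 v : degreeLT F D, Φ P (y + v.1) ≤ 1 :=
          expect_le univ_nonempty fun v _ => (abs_le.1 (hb _ _)).2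
        have h3 : -1 ≤ 𝔼 v : degreeLT F D, Φ P (y + v.1) :=
          le_expect univ_nonempty fun v _ => (abs_le.1 (hb _ _)).1
        rw [abs_le]
        constructor <;> linarith
      · rw [expect_sub_distrib, Fintype.expect_const, sub_eq_zero]
        exact Fintype.expect_equiv (Equiv.neg _) _ _ fun _ => rfl
      · rw [prod_const, card_univ, Fintype.card_coe, ← Real.exp_nat_mul, mul_comm]
  have e : 𝔼 y ∈ monF F m, ∑ P : prm F D, θ * (Φ P (y + (-xent2_r D y P).1) -
      𝔼 v : degreeLT F D, Φ P (y + v.1)) =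
      θ * ∑ P ∈ prm F D, ((𝔼 x ∈ monF F (m - D), Φ P (P * x)) - 𝔼 y ∈ monF F m, Φ P y) := by
    rw [expect_sum_comm, ← sum_coe_sort (prm F D), mul_sum]
    refine sum_congr rfl fun P _ => ?_
    obtain ⟨h1, -, h3⟩ := mem_prm.1 P.2
    rw [← mul_expect, expect_sub_distrib, expect_comm, ← xent2_div h1 h3 hDm fun x => Φ P (P * x)]
    congr 2
    · refine expect_congr rfl fun y _ => congrArg _ ?_
      have := modByMonic_add_div y P.1
      show y + -(y %ₘ P.1) = _
      linear_combination -this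
    · rw [expect_congr rfl fun (v : degreeLT F D) _ => expect_monF_add
        ((mem_degreeLT.1 v.2).trans_le (by exact_mod_cast hDm)) (Φ P), Fintype.expect_const]
  rw [e, xent2_card, Nat.cast_pow, Real.log_pow, pow_sub₀ _ hq.ne' h12] at key
  refine (div_le_div_of_nonneg_right key (by positivity)).trans_eq ?_
  push_cast
  field_simp
  ring

end Pool.Agent.MP_4fffd4_nt.Odd
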