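import Mathlib
import Pool.Agent.MP_4fffd4_nt.Odd.Defs
import Pool.Agent.MP_dd7250_nt.Jac

/- The real Jacobi symbol. -/

set_option autoImplicit false

namespace Pool.Agent.MP_4fffd4_nt.Odd

open Polynomial Finset Filter Topology
open scoped BigOperators

variable {F : Type*} [Field F] [Fintype F] {p : ℕ} [Fact p.Prime] [CharP F p]

open Classical in
/-- the quadratic character with real values -/
noncomputable def xjacEta (a : F) : ℝ := ((quadraticChar F a : ℤ) : ℝ)

theorem xjacEta_coe (a : F) : (xjacEta a : ℂ) = MP_dd7250_nt.eta F a := by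
  simp [xjacEta, MP_dd7250_nt.eta]

theorem xjacEta_tri (a : F) : xjacEta a = 0 ∨ xjacEta a = 1 ∨ xjacEta a = -1 := by
  classical
  unfold xjacEta
  rcases quadraticChar_isQuadratic F a with h | h | h <;> rw [h] <;> simp

theorem xjacEta_abs (a : F) : |xjacEta a| ≤ 1 := by
  rcases xjacEta_tri a with h | h | h <;> rw [h] <;> simp

theorem xjacEta_zero_iff (a : F) : xjacEta a = 0 ↔ a = 0 := by
  classical
  unfold xjacEta
  rw [Int.cast_eq_zero, quadraticChar_eq_zero_iff]

omit [Fintype F] in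
theorem xjac_char (hp : p ≠ 2) : ringChar F ≠ 2 := by
  rw [ringChar.eq F p]; exact hp

theorem xjac_coe (hp : p ≠ 2) (D : F[X]) {f : F[X]} (hf : f.Monic) :
    (jr D f : ℂ) = MP_dd7250_nt.jac D f := by
  rw [MP_dd7250_nt.jac_eq_eta (xjac_char hp) D hf, ← xjacEta_coe]
  rfl

theorem abs_jr_le (D f : F[X]) : |jr D f| ≤ 1 := by
  exact xjacEta_abs _

theorem jr_mul_left (hp : p ≠ 2) (D E : F[X]) {f : F[X]} (hf : f.Monic) :
    jr (D * E) f = jr D f * jr E f := by
  apply Complex.ofReal_injective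
  rw [Complex.ofReal_mul, xjac_coe hp _ hf, xjac_coe hp _ hf, xjac_coe hp _ hf,
    MP_dd7250_nt.jac_mul_left (xjac_char hp) D E hf]

theorem xjac_one (hp : p ≠ 2) {f : F[X]} (hf : f.Monic) : jr 1 f = 1 := by
  apply Complex.ofReal_injective
  rw [xjac_coe hp _ hf, MP_dd7250_nt.jac_one_left hf, Complex.ofReal_one]

theorem jr_prod_left (hp : p ≠ 2) {ι : Type*} (s : Finset ι) (D : ι → F[X]) {f : F[X]}
    (hf : f.Monic) : jr (∏ i ∈ s, D i) f = ∏ i ∈ s, jr (D i) f := by
  classical
  induction s using Finset.induction_on with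
  | empty => simpa using xjac_one hp hf
  | insert a s ha ih => rw [prod_insert ha, prod_insert ha, jr_mul_left hp _ _ hf, ih]

theorem jr_congr (hp : p ≠ 2) {D E f : F[X]} (hf : f.Monic) (h : f ∣ D - E) :
    jr D f = jr E f := by
  apply Complex.ofReal_injective
  rw [xjac_coe hp _ hf, xjac_coe hp _ hf, MP_dd7250_nt.jac_congr hf h]

theorem jr_pow_char (hp : p ≠ 2) (D : F[X]) {f : F[X]} (hf : f.Monic) :
    jr (D ^ p) f = jr D f := by
  have h1 : jr (D ^ p) f = jr D f ^ p := by
    have := jr_prod_left hp (range p) (fun _ => D) hf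
    rwa [prod_const, prod_const, card_range] at this
  have hpp : p.Prime := Fact.out
  have ho : Odd p := hpp.odd_of_ne_two hp
  have h2 : jr D f = xjacEta (resultant f D) := rfl
  rw [h1, h2]
  rcases xjacEta_tri (resultant f D) with h | h | h <;> rw [h]
  · exact zero_pow hpp.ne_zero
  · exact one_pow _
  · exact ho.neg_one_pow

theorem jr_mul_self (hp : p ≠ 2) {D f : F[X]} (hf : f.Monic) :
    jr D f * jr D f = ind (IsCoprime D f) := by
  have _ := hp
  have h2 : jr D f = xjacEta (resultant f D) := rfl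
  have h3 : xjacEta (resultant f D) = 0 ↔ ¬ IsCoprime D f := by
    rw [xjacEta_zero_iff, resultant_eq_zero_iff, isCoprime_comm]
    exact and_iff_right (Or.inl hf.ne_zero)
  rw [h2]
  by_cases hc : IsCoprime D f
  · rw [ind_pos hc]
    rcases xjacEta_tri (resultant f D) with h | h | h
    · exact absurd hc (h3.1 h)
    · rw [h, one_mul]
    · rw [h, neg_mul_neg, one_mul]
  · rw [ind_neg hc, h3.2 hc, zero_mul]

/-- constants -/
theorem jr_C (hp : p ≠ 2) (c : F) : ∃ s : ℕ → ℝ, (∀ n, |s n| ≤ 1) ∧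
    ∀ f : F[X], f.Monic → jr (C c) f = s f.natDegree := by
  refine ⟨fun n => xjacEta c ^ n, fun n => ?_, fun f hf => ?_⟩
  · rw [abs_pow]; exact pow_le_one₀ (abs_nonneg _) (xjacEta_abs c)
  · apply Complex.ofReal_injective
    rw [xjac_coe hp _ hf, MP_dd7250_nt.jac_C (xjac_char hp) c hf, Complex.ofReal_pow, xjacEta_coe]

/-- reciprocity -/
theorem jr_recip (hp : p ≠ 2) : ∃ s : ℕ → ℕ → ℝ, (∀ m n, |s m n| ≤ 1) ∧
    ∀ D f : F[X], D.Monic → f.Monic → jr D f = s D.natDegree f.natDegree * jr f D := by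
  refine ⟨fun m n => xjacEta (-1 : F) ^ (m * n), fun m n => ?_, fun D f hD hf => ?_⟩
  · rw [abs_pow]; exact pow_le_one₀ (abs_nonneg _) (xjacEta_abs _)
  · apply Complex.ofReal_injective
    rw [Complex.ofReal_mul, xjac_coe hp _ hf, xjac_coe hp _ hD,
      MP_dd7250_nt.jac_recip (xjac_char hp) hD hf, Complex.ofReal_pow, xjacEta_coe]

end Pool.Agent.MP_4fffd4_nt.Odd
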