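import Mathlib
import Pool.Agent.MP_4fffd4_nt.Odd.Jac
import Pool.Agent.MP_dd7250_nt.Weil

/- Complete character sums and the number of primes. -/

set_option autoImplicit false

namespace Pool.Agent.MP_4fffd4_nt.Odd

open Polynomial Finset Filter Topology
open scoped BigOperators

theorem xweil_avg {G K : Type*} [AddCommGroup G] [Fintype G] [AddCommGroup K] [Fintype K]
    (φ : G →+ K) (hφ : Function.Surjective φ) (f : K → ℝ) : 𝔼 v, f (φ v) = 𝔼 x, f x := by
  have h1 : ∀ x, 𝔼 v, f (φ v) = 𝔼 v, f (φ v + x) := fun x => by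
    obtain ⟨w, rfl⟩ := hφ x
    exact (Fintype.expect_equiv (Equiv.addRight w) _ _ fun v => by simp).symm
  have h2 : ∀ y, 𝔼 x, f (y + x) = 𝔼 x, f x := fun y =>
    Fintype.expect_equiv (Equiv.addLeft y) _ _ fun v => rfl
  calc 𝔼 v, f (φ v) = 𝔼 x, 𝔼 v, f (φ v + x) := by simp only [← h1, Fintype.expect_const]
    _ = _ := by rw [expect_comm]; simp only [h2, Fintype.expect_const]

open MP_dd7250_nt (eta prD mem_prD jac weil_sqfree jac_eq_eta qp jac_leg_eta leg weil_full
  weil_rest)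
open MP_d232b3_nt (VV card_VV)

theorem xweil_field {K : Type*} [Field K] [Fintype K] (hK : ringChar K ≠ 2) {ι : Type*}
    [Fintype ι] [Nonempty ι] {c : ι → K} (hc : Function.Injective c) :
    ‖∑ a : K, ∏ i, eta K (a + c i)‖ ≤ Fintype.card ι * √(Fintype.card K : ℝ) := by
  classical
  have hm : (∏ i, (X - C (-c i)) : K[X]).Monic := monic_prod_of_monic _ _ fun _ _ => monic_X_sub_C _
  have hd : (∏ i, (X - C (-c i)) : K[X]).natDegree = Fintype.card ι := by
    rw [natDegree_prod_of_monic _ _ fun _ _ => monic_X_sub_C _]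
    simp only [natDegree_X_sub_C, sum_const, card_univ, smul_eq_mul, mul_one]
  have h := weil_sqfree hK hm (separable_prod_X_sub_C_iff.2 (neg_injective.comp hc)).squarefree
    (hd ▸ Fintype.card_pos) 1
  have e : prD K 1 = univ.image fun a : K => X - C a := by
    ext f
    simp only [mem_prD, mem_image, mem_univ, true_and]
    refine ⟨fun ⟨h1, _, h2⟩ => ⟨-f.coeff 0, ?_⟩, ?_⟩
    · rw [map_neg, sub_neg_eq_add, ← h1.eq_X_add_C h2]
    · rintro ⟨a, rfl⟩
      exact ⟨monic_X_sub_C a, irreducible_X_sub_C a, natDegree_X_sub_C a⟩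
  rw [e, sum_image fun a _ b _ h => C_injective (sub_right_injective h), hd, qp, Nat.cast_one,
    ← Real.sqrt_eq_rpow] at h
  refine le_of_eq_of_le (congrArg _ (sum_congr rfl fun a _ => ?_)) h
  rw [jac_eq_eta hK _ (monic_X_sub_C a), natDegree_X_sub_C, resultant_X_sub_C_left _ _ _ le_rfl]
  simp [MP_dd7250_nt.eta, eval_prod]

variable {F : Type*} [Field F] [Fintype F] {p : ℕ} [Fact p.Prime] [CharP F p]

theorem weil_box (hp : p ≠ 2) {ι : Type*} [Fintype ι] [Nonempty ι] {P : F[X]} (hP : P.Monic)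
    (hPi : Irreducible P) {N : ℕ} (hN : P.natDegree ≤ N) (c : ι → F[X])
    (hc : ∀ i j, P ∣ c i - c j → i = j) :
    |𝔼 v : degreeLT F N, ∏ i, jr (v.1 + c i) P| ≤
      Fintype.card ι / √((Fintype.card F : ℝ) ^ P.natDegree) := by
  classical
  have hF : ringChar F ≠ 2 := by rwa [ringChar.eq F p]
  have : Fact (Irreducible P) := ⟨hPi⟩
  let pb := AdjoinRoot.powerBasis' hP
  have : Module.Finite F (AdjoinRoot P) := pb.finite
  have : Finite (AdjoinRoot P) := Module.finite_of_finite F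
  let _ : Fintype (AdjoinRoot P) := Fintype.ofFinite _
  have hcard : Fintype.card (AdjoinRoot P) = Fintype.card F ^ P.natDegree := by
    rw [Module.card_eq_pow_finrank (K := F), pb.finrank]
    rfl
  have hL : ringChar (AdjoinRoot P) ≠ 2 := by rwa [← Algebra.ringChar_eq F (AdjoinRoot P)]
  have h1 : ∀ D, jr D P = (eta (AdjoinRoot P) (AdjoinRoot.mk P D)).re := fun D => by
    have e1 : jr D P = (eta F (resultant P D)).re := by
      simp only [jr, MP_dd7250_nt.eta, Complex.intCast_re]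
    have e2 : IsSquare (AdjoinRoot.mk P D) ↔ ∃ y : F[X], P ∣ y ^ 2 - D := by
      constructor
      · rintro ⟨z, hz⟩
        obtain ⟨y, rfl⟩ := AdjoinRoot.mk_surjective z
        exact ⟨y, AdjoinRoot.mk_eq_mk.1 (by rw [pow_two, map_mul, hz])⟩
      · rintro ⟨y, hy⟩
        exact ⟨AdjoinRoot.mk P y, by
          rw [← map_mul, ← pow_two]; exact (AdjoinRoot.mk_eq_mk.2 hy).symm⟩
    rw [e1, ← jac_leg_eta hF D hP hPi, leg, MP_dd7250_nt.eta, quadraticChar_apply,
      quadraticCharFun]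
    simp only [AdjoinRoot.mk_eq_zero, e2]
    split_ifs <;> simp
  have h2 := xweil_avg (G := degreeLT F N)
    ((AdjoinRoot.mk P).toAddMonoidHom.comp (degreeLT F N).subtype.toAddMonoidHom)
    (fun x => by
      obtain ⟨x, rfl⟩ := AdjoinRoot.mk_surjective x
      refine ⟨⟨x %ₘ P, mem_degreeLT.2 ((degree_modByMonic_lt x hP).trans_le
        (degree_le_natDegree.trans (Nat.cast_le.2 hN)))⟩, AdjoinRoot.mk_eq_mk.2 ?_⟩
      exact ⟨-(x /ₘ P), by
        change x %ₘ P - x = _
        linear_combination modByMonic_add_div x P⟩)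
    fun a => ∏ i, (eta (AdjoinRoot P) (a + AdjoinRoot.mk P (c i))).re
  have h3 := xweil_field hL (c := fun i => AdjoinRoot.mk P (c i))
    fun i j h => hc i j (AdjoinRoot.mk_eq_mk.1 h)
  have h4 : ∀ a, ∏ i, (eta (AdjoinRoot P) (a + AdjoinRoot.mk P (c i))).re =
      (∏ i, eta (AdjoinRoot P) (a + AdjoinRoot.mk P (c i))).re := fun a => by
    simp only [MP_dd7250_nt.eta, Complex.intCast_re, ← Int.cast_prod]
  have h5 : (0 : ℝ) < Fintype.card (AdjoinRoot P) := Nat.cast_pos.2 Fintype.card_pos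
  simp only [h1, map_add]
  refine (congrArg _ h2).trans_le ?_
  simp only [h4]
  rw [Fintype.expect_eq_sum_div_card, ← Complex.re_sum, abs_div, abs_of_pos h5, ← Nat.cast_pow,
    ← hcard, div_le_iff₀ h5]
  refine ((Complex.abs_re_le_norm _).trans h3).trans_eq ?_
  rw [div_mul_eq_mul_div, mul_div_assoc, Real.div_sqrt]

/-- `p`-th roots modulo a prime -/
theorem exists_root_mod {P : F[X]} (hP : P.Monic) (hPi : Irreducible P) (z : F[X]) :
    ∃ ρ : F[X], P ∣ z - ρ ^ p := by
  have : Fact (Irreducible P) := ⟨hPi⟩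
  have : Module.Finite F (AdjoinRoot P) := (AdjoinRoot.powerBasis' hP).finite
  have : Finite (AdjoinRoot P) := Module.finite_of_finite F
  have : CharP (AdjoinRoot P) p :=
    charP_of_injective_algebraMap (algebraMap F (AdjoinRoot P)).injective p
  obtain ⟨r, hr⟩ := Finite.injective_iff_surjective.1 (frobenius (AdjoinRoot P) p).injective
    (AdjoinRoot.mk P z)
  obtain ⟨ρ, rfl⟩ := AdjoinRoot.mk_surjective r
  exact ⟨ρ, AdjoinRoot.mk_eq_mk.1 (by rw [← hr, map_pow, frobenius_def])⟩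

open Classical in
theorem xweil_card {d : ℕ} (hd : d ≠ 0) : d * (prm F d).card +
    ((VV F d).filter fun x => ¬ (minpoly F x).natDegree = d).card = Fintype.card F ^ d := by
  have e : prD F d = prm F d := by ext; rw [mem_prD, mem_prm]
  have h := weil_full (F := F) (fun _ => 1) hd
  simp only [sum_const, nsmul_one, e] at h
  rw [← card_VV hd, ← card_filter_add_card_filter_not (s := VV F d)
    fun x => (minpoly F x).natDegree = d, add_left_inj]
  exact_mod_cast h.symm

omit [Fact p.Prime] [CharP F p] in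
theorem card_prm_le {d : ℕ} (hd : d ≠ 0) : d * (prm F d).card ≤ Fintype.card F ^ d :=
  Nat.le.intro (xweil_card hd)

omit [Fact p.Prime] [CharP F p] in
theorem card_prm_ge : ∀ᶠ d in atTop, Fintype.card F ^ d ≤ 2 * d * (prm F d).card := by
  have h0 := (tendsto_pow_const_div_const_pow_of_one_lt 2 (one_lt_two (α := ℝ))).eventually_lt_const
    (show (0 : ℝ) < 1 / 4 by norm_num)
  filter_upwards [h0, eventually_ne_atTop 0] with d h1 hd
  have h2 := xweil_card (F := F) hd
  have h3 := weil_rest (F := F) hd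
  have h4 : qp F (d / 2) ^ 2 = (Fintype.card F : ℝ) ^ d := by
    rw [MP_dd7250_nt.qp_pow, ← MP_dd7250_nt.qp_nat]; congr 1; push_cast; ring
  have h5 : (2 : ℝ) ^ d ≤ (Fintype.card F : ℝ) ^ d := pow_le_pow_left₀ two_pos.le two_le_card d
  have h6 := MP_dd7250_nt.qp_pos (F := F) (d / 2)
  rw [div_lt_iff₀ (by positivity)] at h1
  have h7 : 2 * (d : ℝ) ≤ qp F (d / 2) := abs_le_of_sq_le_sq' (by nlinarith) h6.le |>.2
  have h8 := congrArg (Nat.cast : ℕ → ℝ) h2
  rw [← Nat.cast_le (α := ℝ)]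
  push_cast at h8 ⊢
  nlinarith

end Pool.Agent.MP_4fffd4_nt.Odd
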