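import Mathlib
import Pool.Agent.MP_4fffd4_nt.Odd.Weil

/- Short character sums modulo a prime. -/

set_option autoImplicit false

namespace Pool.Agent.MP_4fffd4_nt.Odd

open Polynomial Finset Filter Topology
open scoped BigOperators

variable {F : Type*} [Field F] [Fintype F] {p : ℕ} [Fact p.Prime] [CharP F p]

omit [Fact p.Prime] [CharP F p] in
theorem xshort_cnt {P : F[X]} (hP : P.Monic) (t : F[X]) {N m : ℕ} (hm : m ≤ N)
    (hd : m ≤ P.natDegree) :
    ∑ k ∈ ltF F N, ind (P ∣ t - k) ≤ (Fintype.card F : ℝ) ^ N / Fintype.card F ^ m := by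
  have hq := card_pos' (F := F)
  have h1 : ∀ s : F[X], ∑ w ∈ ltF F m, ind (P ∣ s - w) ≤ 1 := fun s => by
    rw [sum_ltF]
    refine (sum_ind_le ({()} : Finset Unit) (fun _ => ()) (fun x y hx hy _ => ?_)
      fun _ _ => mem_singleton_self _).trans_eq (by simp)
    have h2 : P ∣ (x - y).1 := by simpa using dvd_sub hy hx
    refine sub_eq_zero.1 (Subtype.ext (eq_zero_of_dvd_of_degree_lt h2
      ((mem_degreeLT.1 (x - y).2).trans_le ?_)))
    rw [degree_eq_natDegree hP.ne_zero]
    exact_mod_cast hd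
  rw [le_div_iff₀ (by positivity)]
  calc _ = ∑ w ∈ ltF F m, ∑ k ∈ ltF F N, ind (P ∣ t - (k + w)) := by
        rw [Finset.sum_congr rfl fun w hw => sum_ltF_add ((mem_ltF.1 hw).trans_le
          (by exact_mod_cast hm)) fun k => ind (P ∣ t - k), Finset.sum_const, card_ltF,
          nsmul_eq_mul, Nat.cast_pow, mul_comm]
    _ ≤ ∑ k ∈ ltF F N, (1 : ℝ) := by
        rw [Finset.sum_comm]
        refine Finset.sum_le_sum fun k _ => ?_
        simp only [← sub_sub]
        exact h1 _
    _ = _ := by rw [Finset.sum_const, card_ltF, nsmul_eq_mul, Nat.cast_pow, mul_one]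

omit [Fact p.Prime] [CharP F p] in
theorem xshort_sq (f : F[X] → ℝ) {N N' : ℕ} (h : N ≤ N') :
    (∑ v ∈ ltF F N, f v) ^ 2 ≤ ∑ k ∈ ltF F N, ∑ x ∈ ltF F N', f x * f (x + k) := by
  have hq := card_pos' (F := F)
  refine le_of_mul_le_mul_left (a := (Fintype.card F : ℝ) ^ N) ?_ (by positivity)
  calc _ = ∑ x ∈ ltF F N, (∑ v ∈ ltF F N, f (v + x)) ^ 2 := by
        symm
        rw [Finset.sum_congr rfl fun x hx => by rw [sum_ltF_add (mem_ltF.1 hx) f],
          Finset.sum_const, card_ltF, nsmul_eq_mul, Nat.cast_pow]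
    _ ≤ ∑ x ∈ ltF F N', (∑ v ∈ ltF F N, f (v + x)) ^ 2 :=
        Finset.sum_le_sum_of_subset_of_nonneg (fun x hx => mem_ltF.2 ((mem_ltF.1 hx).trans_le
          (by exact_mod_cast h))) fun _ _ _ => sq_nonneg _
    _ = ∑ v ∈ ltF F N, ∑ k ∈ ltF F N, ∑ x ∈ ltF F N', f x * f (x + k) := by
        simp only [sq, Finset.sum_mul_sum]
        rw [Finset.sum_comm]
        refine Finset.sum_congr rfl fun v hv => ?_
        rw [Finset.sum_comm, ← sum_ltF_add (mem_ltF.1 hv)]
        refine Finset.sum_congr rfl fun k _ => ?_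
        rw [← sum_ltF_add ((mem_ltF.1 hv).trans_le (by exact_mod_cast h))
          fun x => f x * f (x + k)]
        refine Finset.sum_congr rfl fun x _ => ?_
        congr 2 <;> ring
    _ = _ := by rw [Finset.sum_const, card_ltF, nsmul_eq_mul, Nat.cast_pow]

theorem xshort_T (hp : p ≠ 2) {ι : Type*} [Fintype ι] [Nonempty ι] {P : F[X]} (hP : P.Monic)
    (hPi : Irreducible P) {N : ℕ} (hN : P.natDegree ≤ N)
    (c : ι → F[X]) (hc : ∀ i j, P ∣ c i - c j → i = j) (k : F[X]) :
    ∑ x ∈ ltF F N, (∏ i, jr (x + c i) P) * ∏ i, jr (x + k + c i) P ≤ (Fintype.card F : ℝ) ^ N *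
      (2 * Fintype.card ι / √((Fintype.card F : ℝ) ^ P.natDegree) +
        ∑ ij : ι × ι, ind (P ∣ c ij.1 - c ij.2 - k)) := by
  have hq := card_pos' (F := F)
  have h0 : 0 ≤ ∑ ij : ι × ι, ind (P ∣ c ij.1 - c ij.2 - k) :=
    Finset.sum_nonneg fun _ _ => ind_nonneg _
  rw [mul_comm, ← div_le_iff₀ (by positivity), ← expect_ltF_eq]
  by_cases h : ∃ ij : ι × ι, P ∣ c ij.1 - c ij.2 - k
  · have h1 := ind_le_sum (s := univ) (P := True) (Q := fun ij : ι × ι => P ∣ c ij.1 - c ij.2 - k)
      fun _ => by simpa only [mem_univ, true_and] using h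
    rw [ind_pos trivial] at h1
    refine (expect_le (ltF_nonempty N) (a := 1) fun x _ => (le_abs_self _).trans ?_).trans
      (h1.trans (le_add_of_nonneg_left (by positivity)))
    rw [abs_mul, Finset.abs_prod, Finset.abs_prod]
    exact mul_le_one₀ (Finset.prod_le_one (fun _ _ => abs_nonneg _) fun _ _ => abs_jr_le _ _)
      (Finset.prod_nonneg fun _ _ => abs_nonneg _)
      (Finset.prod_le_one (fun _ _ => abs_nonneg _) fun _ _ => abs_jr_le _ _)
  · have h1 := weil_box hp hP hPi hN (Sum.elim c fun i => k + c i) (by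
      rintro (i | i) (j | j) hij
      · rw [hc i j hij]
      · exact absurd ⟨(i, j), by convert hij using 1; simp only [Sum.elim_inl, Sum.elim_inr]; ring⟩ h
      · exact absurd ⟨(j, i), by
          convert hij.neg_right using 1; simp only [Sum.elim_inl, Sum.elim_inr]; ring⟩ h
      · rw [hc i j (by simpa using hij)])
    simp only [Fintype.prod_sum_type, Sum.elim_inl, Sum.elim_inr, Fintype.card_sum, ← add_assoc,
      ← two_mul, Nat.cast_mul, Nat.cast_ofNat] at h1
    rw [expect_ltF]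
    exact ((le_abs_self _).trans h1).trans (le_add_of_nonneg_right h0)

theorem weil_short (hp : p ≠ 2) {ι : Type*} [Fintype ι] [Nonempty ι] {P : F[X]} (hP : P.Monic)
    (hPi : Irreducible P) {N lo : ℕ} (hN : P.natDegree ≤ N + lo) (hlo : 4 * lo < P.natDegree)
    (c : ι → F[X]) (hc : ∀ i j, P ∣ c i - c j → i = j) :
    |𝔼 v : degreeLT F N, ∏ i, jr (v.1 + c i) P| ≤
      2 * Fintype.card ι / √((Fintype.card F : ℝ) ^ lo) := by
  have hq := card_pos' (F := F)
  have hn : (1 : ℝ) ≤ Fintype.card ι := by exact_mod_cast Fintype.card_pos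
  have h1 := xshort_sq (fun x => ∏ i, jr (x + c i) P) (Nat.le_add_right N lo)
  have h2 := h1.trans (Finset.sum_le_sum fun k _ => xshort_T hp hP hPi hN c hc k)
  rw [← Finset.mul_sum, Finset.sum_add_distrib, Finset.sum_comm, Finset.sum_const, card_ltF,
    nsmul_eq_mul, Nat.cast_pow] at h2
  have h3 := Finset.sum_le_card_nsmul univ _ _ fun (ij : ι × ι) _ =>
    xshort_cnt hP (c ij.1 - c ij.2) (N := N) (m := 2 * lo) (by omega) (by omega)
  rw [card_univ, Fintype.card_prod, nsmul_eq_mul, Nat.cast_mul] at h3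
  have h4 : 2 * (Fintype.card ι : ℝ) / √((Fintype.card F : ℝ) ^ P.natDegree) ≤
      2 * Fintype.card ι / (Fintype.card F : ℝ) ^ (2 * lo) := by
    refine div_le_div_of_nonneg_left (by positivity) (by positivity) (Real.le_sqrt_of_sq_le ?_)
    rw [← pow_mul]
    exact pow_le_pow_right₀ (one_le_two.trans two_le_card) (by omega)
  rw [← expect_ltF N fun x => ∏ i, jr (x + c i) P, expect_ltF_eq]
  refine abs_le_of_sq_le_sq ?_ (by positivity)
  rw [div_pow, div_pow, Real.sq_sqrt (by positivity), div_le_iff₀ (by positivity)]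
  refine h2.trans ?_
  generalize (Fintype.card ι : ℝ) = n at *
  calc _ ≤ (Fintype.card F : ℝ) ^ (N + lo) * ((Fintype.card F : ℝ) ^ N *
          (2 * n / (Fintype.card F : ℝ) ^ (2 * lo)) +
        n * n * ((Fintype.card F : ℝ) ^ N / (Fintype.card F : ℝ) ^ (2 * lo))) := by gcongr
    _ = (2 * n + n * n) / (Fintype.card F : ℝ) ^ lo * ((Fintype.card F : ℝ) ^ N) ^ 2 := by
        field_simp
        ring
    _ ≤ _ := by
        gcongr
        nlinarith

end Pool.Agent.MP_4fffd4_nt.Odd
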