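import Mathlib
import Pool.Agent.MP_4fffd4_nt.Odd.Short

/- The box inequality and the box sum of a quadratic character. -/

set_option autoImplicit false

namespace Pool.Agent.MP_4fffd4_nt.Odd

open Polynomial Finset Filter Topology
open scoped BigOperators

theorem xbox_jensen {α : Type*} [Fintype α] [Nonempty α] (f : α → ℝ) (hf : ∀ x, 0 ≤ f x)
    (k : ℕ) : (𝔼 x, f x) ^ 2 ^ k ≤ 𝔼 x, f x ^ 2 ^ k := by
  induction k with
  | zero => simp
  | succ k ih =>
    simp only [pow_succ 2 k, pow_mul]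
    exact (pow_le_pow_left₀ (pow_nonneg (Finset.expect_nonneg fun x _ => hf x) _) ih 2).trans
      (sq_expect_le _)

theorem xbox_step {G H : Type*} [AddCommGroup G] [Fintype G] [AddCommGroup H] [Fintype H]
    (θ : H →+ G) (g t : G → ℝ) (ht : ∀ x, |t x| ≤ 1) (hinv : ∀ x h, t (x + θ h) = t x) :
    (𝔼 x, g x * t x) ^ 2 ≤ 𝔼 u, 𝔼 x, g x * g (x + θ u) := by
  rw [expect_avg (fun x => g x * t x) θ]
  simp only [hinv, ← Finset.expect_mul]
  refine (sq_expect_le _).trans ((Finset.expect_le_expect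
    (g := fun x => (𝔼 u, g (x + θ u)) ^ 2) fun x _ => ?_).trans_eq ?_)
  · rw [mul_pow]
    exact mul_le_of_le_one_right (sq_nonneg _) ((sq_le_one_iff_abs_le_one _).2 (ht x))
  simp only [sq, Fintype.expect_mul_expect]
  rw [Finset.expect_comm]
  have : ∀ u, 𝔼 x, 𝔼 u', g (x + θ u) * g (x + θ u') = 𝔼 u', 𝔼 x, g x * g (x + θ u') := by
    intro u
    rw [Finset.expect_comm, ← expect_shift (fun u' => 𝔼 x, g (x + θ u) * g (x + θ u')) u]
    refine Finset.expect_congr rfl fun u' _ => ?_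
    rw [← expect_shift (fun x => g x * g (x + θ u')) (θ u)]
    simp only [map_add, add_assoc, add_comm (θ u)]
  simp only [this]
  rw [Fintype.expect_const]

theorem xbox_ineq {G H J : Type*} [AddCommGroup G] [Fintype G] [AddCommGroup H] [Fintype H]
    [Fintype J] [DecidableEq J] (θ : J → H →+ G) (s : Finset J) :
    ∀ (T₀ : G → ℝ) (T : J → G → ℝ), (∀ j x, |T j x| ≤ 1) → (∀ j x h, T j (x + θ j h) = T j x) →
    |𝔼 x, T₀ x * ∏ j ∈ s, T j x| ^ 2 ^ s.card ≤
      𝔼 h : J → H, |𝔼 x, ∏ ω ∈ s.powerset, T₀ (x + ∑ j ∈ ω, θ j (h j))| := by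
  induction s using Finset.induction with
  | empty => intro T₀ T _ _; simp
  | insert a s ha IH =>
    intro T₀ T hT hinv
    have h1 := xbox_step (θ a) (fun x => T₀ x * ∏ j ∈ s, T j x) (T a) (hT a) (hinv a)
    have h2 : 𝔼 x, T₀ x * ∏ j ∈ insert a s, T j x = 𝔼 x, (T₀ x * ∏ j ∈ s, T j x) * T a x :=
      Finset.expect_congr rfl fun x _ => by rw [prod_insert ha]; ring
    rw [card_insert_of_notMem ha, pow_succ', pow_mul, sq_abs, h2]
    refine (pow_le_pow_left₀ (sq_nonneg _) (h1.trans (Finset.expect_le_expect fun u _ =>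
      le_abs_self _)) _).trans ((xbox_jensen _ (fun u => abs_nonneg _) _).trans ?_)
    have h3 : ∀ u, |𝔼 x, (T₀ x * ∏ j ∈ s, T j x) * (T₀ (x + θ a u) * ∏ j ∈ s, T j (x + θ a u))| ^
        2 ^ s.card ≤ 𝔼 h : J → H, |𝔼 x, ∏ ω ∈ s.powerset,
          T₀ (x + ∑ j ∈ ω, θ j (h j)) * T₀ (x + ∑ j ∈ ω, θ j (h j) + θ a u)| := by
      intro u
      refine le_trans (le_of_eq ?_) (IH (fun x => T₀ x * T₀ (x + θ a u))
        (fun j x => T j x * T j (x + θ a u)) (fun j x => ?_) fun j x h => ?_)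
      · congr 2
        refine Finset.expect_congr rfl fun x _ => ?_
        rw [prod_mul_distrib]
        ring
      · rw [abs_mul]
        exact mul_le_one₀ (hT _ _) (abs_nonneg _) (hT _ _)
      · rw [hinv, add_right_comm, hinv]
    refine (Finset.expect_le_expect fun u _ => h3 u).trans_eq ?_
    rw [Finset.expect_comm, expect_avg (fun h : J → H => |𝔼 x, ∏ ω ∈ (insert a s).powerset,
      T₀ (x + ∑ j ∈ ω, θ j (h j))|) (fun u : H => Pi.single a u)]
    refine Finset.expect_congr rfl fun h _ => ?_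
    rw [← expect_shift (fun u => |𝔼 x, ∏ ω ∈ s.powerset,
      T₀ (x + ∑ j ∈ ω, θ j (h j)) * T₀ (x + ∑ j ∈ ω, θ j (h j) + θ a u)|) (h a)]
    refine Finset.expect_congr rfl fun u _ => ?_
    congr 1
    refine Finset.expect_congr rfl fun x _ => ?_
    rw [prod_powerset_insert ha, ← prod_mul_distrib]
    refine prod_congr rfl fun ω hω => ?_
    have h4 : a ∉ ω := fun e => ha (mem_powerset.1 hω e)
    have h5 : ∑ j ∈ ω, θ j ((h + Pi.single a u : J → H) j) = ∑ j ∈ ω, θ j (h j) :=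
      sum_congr rfl fun j hj => by
        rw [Pi.add_apply, Pi.single_eq_of_ne (fun e : j = a => h4 (e ▸ hj)), add_zero]
    rw [sum_insert h4, h5, Pi.add_apply, Pi.single_eq_same, add_comm u, add_assoc,
      add_comm (θ a _)]

theorem box_ineq {G H J : Type*} [AddCommGroup G] [Fintype G] [AddCommGroup H] [Fintype H]
    [Fintype J] [DecidableEq J] (θ : J → H →+ G) (T₀ : G → ℝ) (T : J → G → ℝ)
    (hT : ∀ j x, |T j x| ≤ 1) (hinv : ∀ j x h, T j (x + θ j h) = T j x) :
    |𝔼 x, T₀ x * ∏ j, T j x| ^ 2 ^ Fintype.card J ≤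
      𝔼 h : J → H, |𝔼 x, ∏ ω ∈ (univ : Finset J).powerset, T₀ (x + ∑ j ∈ ω, θ j (h j))| := by
  exact xbox_ineq θ univ T₀ T hT hinv

theorem xbox_one {α : Type*} [Fintype α] {Q : α → Prop} (h : ∀ x y, Q x → Q y → x = y) :
    𝔼 x, ind (Q x) ≤ 1 / Fintype.card α := by
  rw [Fintype.expect_eq_sum_div_card]
  refine div_le_div_of_nonneg_right ?_ (Nat.cast_nonneg _)
  simpa using sum_ind_le {()} (fun _ => ()) (fun x y hx hy _ => h x y hx hy) fun _ _ => by simp

variable {F : Type*} [Field F] [Fintype F] {p : ℕ} [Fact p.Prime] [CharP F p]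

theorem xbox_prob {J : Type*} [Fintype J] [DecidableEq J] {P : F[X]} (hPi : Irreducible P)
    {L : ℕ} (hL : L ≤ P.natDegree) (μ : J → F[X]) (hμ : ∀ j, ¬ P ∣ μ j) (ω ω' : Finset J) :
    𝔼 h : J → degreeLT F L,
      ind (ω ≠ ω' ∧ P ∣ ∑ j ∈ ω, μ j * (h j).1 - ∑ j ∈ ω', μ j * (h j).1) ≤
      1 / (Fintype.card F : ℝ) ^ L := by
  by_cases hω : ω = ω'
  · simp only [hω, ne_eq, not_true, false_and, ind_neg, not_false_iff, expect_const_zero]
    positivity
  obtain ⟨a, ha⟩ : ∃ a, ¬ (a ∈ ω ↔ a ∈ ω') := not_forall.1 fun h => hω (Finset.ext h)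
  rw [expect_avg (fun h : J → degreeLT F L =>
    ind (ω ≠ ω' ∧ P ∣ ∑ j ∈ ω, μ j * (h j).1 - ∑ j ∈ ω', μ j * (h j).1))
    (fun u : degreeLT F L => Pi.single a u)]
  refine Finset.expect_le univ_nonempty fun h _ => ?_
  have h1 : ∀ (u : degreeLT F L) (s : Finset J),
      ∑ j ∈ s, μ j * ((h + Pi.single a u : J → degreeLT F L) j).1 =
        ∑ j ∈ s, μ j * (h j).1 + if a ∈ s then μ a * u.1 else 0 := by
    intro u s
    rw [← sum_ite_eq' s a fun _ => μ a * u.1, ← sum_add_distrib]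
    refine sum_congr rfl fun j _ => ?_
    by_cases hj : j = a
    · simp [hj, mul_add]
    · simp [hj]
  refine (xbox_one fun u u' hu hu' => ?_).trans_eq (by rw [card_degreeLT, Nat.cast_pow])
  have h2 := dvd_sub hu.2 hu'.2
  simp only [h1] at h2
  have h3 : P ∣ μ a * (u - u').1 := by
    by_cases h4 : a ∈ ω
    · have h5 : a ∉ ω' := fun h5 => ha (iff_of_true h4 h5)
      simp only [h4, h5, if_true, if_false] at h2
      convert h2 using 1
      rw [Submodule.coe_sub]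
      ring
    · have h5 : a ∈ ω' := by_contra fun h5 => ha (iff_of_false h4 h5)
      simp only [h4, h5, if_true, if_false] at h2
      convert h2.neg_right using 1
      rw [Submodule.coe_sub]
      ring
  have h6 := eq_zero_of_dvd_of_degree_lt ((hPi.prime.dvd_or_dvd h3).resolve_left (hμ a))
    ((mem_degreeLT.1 (u - u').2).trans_le (by
      rw [degree_eq_natDegree hPi.ne_zero]
      exact_mod_cast hL))
  exact sub_eq_zero.1 (Subtype.ext h6)

theorem local_box (hp : p ≠ 2) {J : Type*} [Fintype J] [DecidableEq J] {P : F[X]} (hP : P.Monic)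
    (hPi : Irreducible P) {N L lo : ℕ} (hN : P.natDegree ≤ N + lo) (hlo : 4 * lo < P.natDegree)
    (hL : L ≤ P.natDegree) (ρ c : F[X]) (hc : ¬ P ∣ c) (μ : J → F[X]) (hμ : ∀ j, ¬ P ∣ μ j) :
    𝔼 h : J → degreeLT F L, |𝔼 v : degreeLT F N, ∏ ω ∈ (univ : Finset J).powerset,
        jr (ρ + c * (v.1 + ∑ j ∈ ω, μ j * (h j).1)) P| ≤
      4 ^ Fintype.card J / (Fintype.card F : ℝ) ^ L +
        2 ^ (Fintype.card J + 1) / √((Fintype.card F : ℝ) ^ lo) := by
  obtain ⟨a, b, hab⟩ := hPi.coprime_iff_not_dvd.2 hc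
  have h1 : ∀ y, jr (ρ + c * y) P = jr c P * jr (y + b * ρ) P := fun y => by
    rw [← jr_mul_left hp _ _ hP]
    exact jr_congr hp hP ⟨a * ρ, by linear_combination (-ρ) * hab⟩
  have key : ∀ h : J → degreeLT F L, |𝔼 v : degreeLT F N, ∏ ω ∈ (univ : Finset J).powerset,
      jr (ρ + c * (v.1 + ∑ j ∈ ω, μ j * (h j).1)) P| ≤
      ∑ w : Finset J × Finset J,
        ind (w.1 ≠ w.2 ∧ P ∣ ∑ j ∈ w.1, μ j * (h j).1 - ∑ j ∈ w.2, μ j * (h j).1) +
        2 ^ (Fintype.card J + 1) / √((Fintype.card F : ℝ) ^ lo) := by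
    intro h
    by_cases hbad : ∃ w ∈ (univ : Finset (Finset J × Finset J)),
        w.1 ≠ w.2 ∧ P ∣ ∑ j ∈ w.1, μ j * (h j).1 - ∑ j ∈ w.2, μ j * (h j).1
    · refine le_trans ?_ (add_le_add ((ind_pos trivial).symm.le.trans (ind_le_sum fun _ => hbad))
        (show 0 ≤ _ by positivity))
      rw [add_zero]
      refine (Finset.abs_expect_le _ _).trans (Finset.expect_le univ_nonempty fun v _ => ?_)
      rw [abs_prod]
      exact prod_le_one (fun _ _ => abs_nonneg _) fun _ _ => abs_jr_le _ _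
    refine le_trans ?_ (le_add_of_nonneg_left (Finset.sum_nonneg fun _ _ => ind_nonneg _))
    have h2 := weil_short hp hP hPi hN hlo (fun ω : Finset J => ∑ j ∈ ω, μ j * (h j).1 + b * ρ)
      fun ω ω' hd => by_contra fun hne => hbad ⟨(ω, ω'), mem_univ _, hne, by simpa using hd⟩
    rw [Fintype.card_finset, Nat.cast_pow, Nat.cast_ofNat, ← pow_succ'] at h2
    simp only [h1, prod_mul_distrib, ← Finset.mul_expect, powerset_univ, add_assoc]
    rw [abs_mul, abs_prod]
    exact (mul_le_of_le_one_left (abs_nonneg _)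
      (prod_le_one (fun _ _ => abs_nonneg _) fun _ _ => abs_jr_le _ _)).trans h2
  refine (Finset.expect_le_expect fun h _ => key h).trans ?_
  rw [Finset.expect_add_distrib, Fintype.expect_const, Finset.expect_sum_comm]
  refine add_le_add ((Finset.sum_le_card_nsmul _ _ _ fun w _ =>
    xbox_prob hPi hL μ hμ w.1 w.2).trans_eq ?_) le_rfl
  rw [card_univ, Fintype.card_prod, Fintype.card_finset, nsmul_eq_mul, ← mul_pow]
  push_cast
  ring

end Pool.Agent.MP_4fffd4_nt.Odd
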