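import Mathlib
import Pool.Agent.MP_4fffd4_nt.Odd.Jac
import Pool.Agent.MP_4fffd4_nt.Stick

/- The formula of Pellet. -/

set_option autoImplicit false

namespace Pool.Agent.MP_4fffd4_nt.Odd

open Polynomial Finset Filter Topology
open scoped BigOperators

variable {F : Type*} [Field F] [Fintype F] {p : ℕ} [Fact p.Prime] [CharP F p]

theorem xpel_perm {K : Type*} [Field K] [Algebra F K] {w : F[X]} {n : ℕ} (a : Fin n → K)
    (ha : Function.Injective a) (hw : w.map (algebraMap F K) = ∏ i, (X - C (a i))) :
    ∃ σ : Equiv.Perm (Fin n), ∀ i, a (σ i) = a i ^ Fintype.card F := by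
  have h0 : ∀ x : K, aeval x w = 0 ↔ ∃ j, a j = x := fun x => by
    rw [← eval_map_algebraMap, hw, eval_prod, prod_eq_zero_iff]
    simp [sub_eq_zero, eq_comm]
  have h1 : ∀ i, ∃ j, a j = a i ^ Fintype.card F := fun i => (h0 _).1 (by
    have := aeval_algHom_apply (FiniteField.frobeniusAlgHom F K) (a i) w
    rw [(h0 _).2 ⟨i, rfl⟩, map_zero] at this
    exact this)
  choose s hs using h1
  have hi : Function.Injective s := fun i j h =>
    ha ((FiniteField.frobeniusAlgHom F K).toRingHom.injective
      (show a i ^ Fintype.card F = a j ^ Fintype.card F by rw [← hs, ← hs, h]))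
  exact ⟨Equiv.ofBijective s (Finite.injective_iff_bijective.1 hi), hs⟩

open Classical in
theorem xpel_int (hF : ringChar F ≠ 2) {w : F[X]} (hm : w.Monic) (hs : Squarefree w) :
    quadraticChar F ((sgn w.natDegree : F) * resultant w (derivative w)) =
      (-1) ^ w.natDegree * liou w := by
  let K := AlgebraicClosure F
  have hsep : w.Separable := PerfectField.separable_iff_squarefree.2 hs
  obtain ⟨a, ha, hw⟩ := exists_roots (K := K) hm hsep rfl
  obtain ⟨σ, hσ⟩ := xpel_perm a ha hw
  rw [← sign_frob hm hsep a ha hw σ hσ]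
  set δ := (Matrix.vandermonde a).det with hδ
  have h0 : δ ≠ 0 := Matrix.det_vandermonde_ne_zero_iff.2 ha
  have h1 : δ ^ Fintype.card F = ((Equiv.Perm.sign σ : ℤˣ) : ℤ) * δ := by
    rw [hδ, ← Matrix.det_permute]
    refine ((FiniteField.frobeniusAlgHom F K).toRingHom.map_det _).trans ?_
    congr 1
    ext i j
    simp [Matrix.vandermonde_apply, hσ, ← pow_mul, mul_comm]
  have h2 : algebraMap F K (resultant w (derivative w)) = sgn w.natDegree * δ ^ 2 := by
    have e : (w.map (algebraMap F K)).natDegree = w.natDegree := natDegree_map _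
    rw [← resultant_map_map, ← e, resultant_eq_prod_eval _ _ _ natDegree_map_le
      (IsAlgClosed.splits _), (hm.map _).leadingCoeff, one_pow, one_mul, e, ← prod_deriv_eq,
      ← derivative_map, hw, prod_eq_multiset_prod univ fun i => X - C (a i),
      show (fun i => X - C (a i)) = (fun x => X - C x) ∘ a from rfl, ← Multiset.map_map,
      roots_multiset_prod_X_sub_C, Multiset.map_map]
    rfl
  have h3 : algebraMap F K ((sgn w.natDegree : F) * resultant w (derivative w)) = δ ^ 2 := by
    rw [map_mul, h2, map_intCast, ← mul_assoc, ← Int.cast_mul, sgn_sq, Int.cast_one, one_mul]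
  have hq : 2 * (Fintype.card F / 2) + 1 = Fintype.card F := by
    have := FiniteField.odd_card_of_char_ne_two hF
    omega
  refine Int.cast_injOn_of_ringChar_ne_two hF (quadraticChar_isQuadratic F _) ?_ ?_
  · rcases Int.units_eq_one_or (Equiv.Perm.sign σ) with h | h <;> simp [h]
  · apply (algebraMap F K).injective
    apply mul_right_cancel₀ h0
    rw [quadraticChar_eq_pow_of_char_ne_two' hF, map_pow, h3, ← pow_mul, ← pow_succ, hq, h1,
      map_intCast]

/-- the formula of Pellet -/
theorem pellet (hp : p ≠ 2) : ∃ s : ℕ → ℝ, (∀ n, |s n| ≤ 1) ∧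
    ∀ w : F[X], w.Monic → Squarefree w → lam w = s w.natDegree * jr (derivative w) w := by
  classical
  have hF : ringChar F ≠ 2 := by rwa [ringChar.eq F p]
  refine ⟨fun n => (((-1) ^ n * quadraticChar F (sgn n : F) : ℤ) : ℝ), fun n => ?_,
    fun w hm hs => ?_⟩
  · rcases quadraticChar_isQuadratic F (sgn n : F) with h | h | h <;> simp [h, abs_pow]
  · have h := xpel_int hF hm hs
    rw [map_mul] at h
    rw [lam, jr, ← Int.cast_mul, mul_assoc]
    congr 1
    refine Eq.trans ?_ (congrArg _ h.symm)
    rw [← mul_assoc, ← mul_pow]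
    simp

end Pool.Agent.MP_4fffd4_nt.Odd
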