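import Mathlib
import Pool.Agent.MP_4fffd4_nt.Odd.Pel

/- Decomposition of the Liouville function along the squarefull part. -/

set_option autoImplicit false

namespace Pool.Agent.MP_4fffd4_nt.Odd

open Polynomial Finset Filter Topology
open scoped BigOperators

variable {F : Type*} [Field F] [Fintype F] {p : ℕ} [Fact p.Prime] [CharP F p]

omit [Fintype F] in
theorem xpiece_dec {u w : F[X]} (hu : u ≠ 0) : Dec u (u * w) ↔ IsCoprime u w ∧ Squarefree w := by
  refine ⟨?_, fun h => ⟨w, rfl, h⟩⟩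
  rintro ⟨w', e, h⟩
  rwa [mul_left_cancel₀ hu e]

omit [Fintype F] in
theorem xpiece_dvd {z u₁ u₂ : F[X]} (hz : z ≠ 0) (h1 : Full u₁) (d1 : Dec u₁ z) (d2 : Dec u₂ z) :
    u₁ ∣ u₂ := by
  obtain ⟨w₁, e1, -, -⟩ := d1
  obtain ⟨w₂, e2, c2, s2⟩ := d2
  have hu : u₁ ≠ 0 := fun h => hz (by rw [e1, h, zero_mul])
  have hc : IsCoprime u₁ w₂ := by
    refine (WfDvdMonoid.isRelPrime_of_no_irreducible_factors (fun h => hu h.1)
      fun P hP a1 a2 => ?_).isCoprime
    have a3 : P ^ 2 ∣ u₂ * w₂ := by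
      rw [← e2, e1]
      exact (h1 P hP a1).mul_right _
    have a4 : IsCoprime (P ^ 2) u₂ := (c2.symm.of_isCoprime_of_dvd_left a2).pow_left
    exact hP.not_isUnit (s2 P (by rw [← pow_two]; exact a4.dvd_of_dvd_mul_left a3))
  exact hc.dvd_of_dvd_mul_right (by rw [← e2, e1]; exact dvd_mul_right _ _)

omit [Fintype F] in
theorem xpiece_sq {z : F[X]} (hz : z ≠ 0) : ∃ a b : F[X], b ^ 2 * a = z ∧ Squarefree a := by
  induction z using (wellFounded_dvdNotUnit (α := F[X])).induction with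
  | _ z ih =>
  by_cases hs : Squarefree z
  · exact ⟨z, 1, by simp, hs⟩
  rw [Squarefree] at hs
  push Not at hs
  obtain ⟨x, ⟨y, hy⟩, hx⟩ := hs
  have hy0 : y ≠ 0 := fun h => hz (by rw [hy, h, mul_zero])
  obtain ⟨a, b, e, ha⟩ := ih y ⟨hy0, x * x, fun h => hx (isUnit_of_mul_isUnit_left h),
    by rw [hy, mul_comm]⟩ hy0
  exact ⟨a, x * b, by rw [hy, ← e]; ring, ha⟩

omit [Fintype F] in
theorem xpiece_ex {z : F[X]} (hz : z.Monic) : ∃ σ u : F[X], σ.Monic ∧ σ ^ 2 ∣ z ∧ u.Monic ∧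
    u.natDegree ≤ 3 * σ.natDegree ∧ Full u ∧ Dec u z := by
  classical
  obtain ⟨a, b, e, ha⟩ := xpiece_sq hz.ne_zero
  have hb : b ≠ 0 := fun h => hz.ne_zero (by rw [← e, h]; simp)
  obtain ⟨c, hc⟩ := associated_normalize b
  set σ := normalize b with hσ
  have hm : σ.Monic := monic_normalize hb
  set τ : F[X] := a * (↑c⁻¹ : F[X]) ^ 2 with hτ
  have e' : z = σ ^ 2 * τ := by
    rw [← e, ← hc, hτ, mul_pow, mul_mul_mul_comm, ← mul_pow, Units.mul_inv, one_pow, mul_one]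
  have hs : Squarefree τ :=
    ha.squarefree_of_dvd (((Units.isUnit c⁻¹).pow 2).mul_right_dvd.2 dvd_rfl)
  set γ := gcd σ τ with hγ
  have hγ0 : γ ≠ 0 := fun h => hm.ne_zero ((gcd_eq_zero_iff _ _).1 h).1
  have hγm : γ.Monic := by
    rw [hγ, ← _root_.normalize_gcd]
    exact monic_normalize hγ0
  have h1 : γ ∣ σ := gcd_dvd_left _ _
  obtain ⟨w, hw⟩ : γ ∣ τ := gcd_dvd_right _ _
  have h2 := hs
  rw [hw, squarefree_mul_iff] at h2
  have h3 : IsRelPrime σ w := fun d d1 d2 =>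
    h2.1 (dvd_gcd d1 (by rw [hw]; exact d2.mul_left _)) d2
  refine ⟨σ, σ ^ 2 * γ, hm, ⟨τ, e'⟩, (hm.pow 2).mul hγm, ?_, fun P hP h => ?_,
    w, by rw [e', hw, mul_assoc], h3.isCoprime.pow_left.mul_left h2.1.isCoprime, h2.2.2⟩
  · have := natDegree_le_of_dvd h1 hm.ne_zero
    rw [(hm.pow 2).natDegree_mul hγm, hm.natDegree_pow]
    omega
  · have h4 : P ∣ σ := (hP.prime.dvd_or_dvd h).elim hP.prime.dvd_of_dvd_pow fun h => h.trans h1
    exact (pow_dvd_pow_of_dvd h4 2).mul_right _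

omit [Fintype F] [Fact p.Prime] [CharP F p] in
theorem abs_piece_le (u z : F[X]) : |piece u z| ≤ 1 := by
  rw [piece, abs_mul, abs_lam, mul_one]
  exact abs_ind_le _

omit [Fintype F] [Fact p.Prime] [CharP F p] in
theorem piece_of_not_dvd {u z : F[X]} (h : ¬ u ∣ z) : piece u z = 0 := by
  rw [piece, ind_neg, zero_mul]
  rintro ⟨w, e, -⟩
  exact h ⟨w, e⟩

theorem piece_eq (hp : p ≠ 2) : ∃ s : ℕ → ℝ, (∀ n, |s n| ≤ 1) ∧
    ∀ u w : F[X], u.Monic → w.Monic →
      piece u (u * w) = lam u * s w.natDegree * jr u w * jr (derivative (u * w)) w := by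
  obtain ⟨s, hs, h⟩ := pellet (F := F) hp
  refine ⟨s, hs, fun u w hu hw => ?_⟩
  have e : jr (derivative (u * w)) w = jr u w * jr (derivative w) w := by
    rw [← jr_mul_left hp _ _ hw]
    exact jr_congr hp hw ⟨derivative u, by rw [derivative_mul]; ring⟩
  have e2 := jr_mul_self hp (D := u) hw
  rw [piece, ind_congr (xpiece_dec hu.ne_zero), ind_and, lam_mul hu.ne_zero hw.ne_zero, e, ← e2]
  by_cases hq : Squarefree w
  · rw [ind_pos hq, h w hw hq]
    ring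
  · have e3 := jr_mul_self hp (D := derivative w) hw
    rw [ind_neg fun hc : IsCoprime (derivative w) w =>
      hq (Separable.squarefree ((separable_def w).2 hc.symm)), mul_self_eq_zero] at e3
    rw [ind_neg hq, e3]
    ring

omit [Fact p.Prime] [CharP F p] in
theorem lam_decomp {z : F[X]} (hz : z.Monic) (K : ℕ) :
    |lam z - ∑ u ∈ fullLE F (3 * K), piece u z| ≤
      ind (∃ δ : F[X], δ.Monic ∧ K < δ.natDegree ∧ δ ^ 2 ∣ z) := by
  have hone : ∀ u ∈ fullLE F (3 * K), Dec u z → ∑ u ∈ fullLE F (3 * K), piece u z = lam z := by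
    intro u hu hd
    rw [sum_eq_single_of_mem u hu, piece, ind_pos hd, one_mul]
    intro u' hu' hne
    rw [piece, ind_neg, zero_mul]
    intro hd'
    obtain ⟨m1, -, f1⟩ := mem_fullLE.1 hu
    obtain ⟨m2, -, f2⟩ := mem_fullLE.1 hu'
    exact hne (eq_of_monic_of_associated m2 m1 (associated_of_dvd_dvd
      (xpiece_dvd hz.ne_zero f2 hd' hd) (xpiece_dvd hz.ne_zero f1 hd hd')))
  by_cases hex : ∃ u ∈ fullLE F (3 * K), Dec u z
  · obtain ⟨u, hu, hd⟩ := hex
    rw [hone u hu hd, sub_self, abs_zero]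
    exact ind_nonneg _
  · obtain ⟨σ, u, h1, h2, h3, h4, h5, h6⟩ := xpiece_ex hz
    have hK : K < σ.natDegree := by
      by_contra hK
      exact hex ⟨u, mem_fullLE.2 ⟨h3, by omega, h5⟩, h6⟩
    rw [sum_eq_zero fun u hu => by rw [piece, ind_neg fun hd => hex ⟨u, hu, hd⟩, zero_mul],
      sub_zero, abs_lam, ind_pos ⟨σ, h1, hK, h2⟩]

end Pool.Agent.MP_4fffd4_nt.Odd
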