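import Mathlib
import Pool.Agent.MP_4fffd4_nt.Odd.Defs

/- The span of the directions. -/

set_option autoImplicit false

namespace Pool.Agent.MP_4fffd4_nt.Odd

open Polynomial Finset Filter Topology
open scoped BigOperators

variable {F : Type*} [Field F] [Fintype F] {p : ℕ} [Fact p.Prime] [CharP F p]

theorem xspan_root (a : F) : ∃ b : F, b ^ p = a := surjective_frobenius F p a

theorem xspan_decomp (x : F[X]) : ∃ y : Fin p → F[X],
    (∀ r, p * (y r).natDegree ≤ x.natDegree) ∧ x = ∑ r : Fin p, X ^ (r : ℕ) * y r ^ p := by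
  classical
  have hp : 0 < p := (Fact.out : p.Prime).pos
  choose b hb using xspan_root (F := F) (p := p)
  let k : ℕ → Fin p := fun n => ⟨n % p, Nat.mod_lt n hp⟩
  refine ⟨fun r => ∑ n ∈ x.support with k n = r, monomial (n / p) (b (x.coeff n)),
    fun r => ?_, ?_⟩
  · refine le_trans (Nat.mul_le_mul_left p (natDegree_sum_le_of_forall_le _ _
      (n := x.natDegree / p) fun n hn => ?_)) (Nat.mul_div_le _ _)
    exact (natDegree_monomial_le _).trans
      (Nat.div_le_div_right (le_natDegree_of_mem_supp n (mem_filter.1 hn).1))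
  · conv_lhs => rw [x.as_sum_support, ← sum_fiberwise x.support k]
    refine sum_congr rfl fun r _ => ?_
    rw [sum_pow_char, mul_sum]
    refine sum_congr rfl fun n hn => ?_
    have h1 : n % p = r := congrArg Fin.val (mem_filter.1 hn).2
    rw [monomial_pow, hb, X_pow_mul_monomial, ← h1, Nat.div_add_mod']

theorem xspan_pow (τ : Fin p → F[X]) (r : Fin p) : ∃ u : Fin p → F[X],
    (Matrix.vandermonde τ).det ^ p * X ^ (r : ℕ) = ∑ i, (X + τ i ^ p) ^ (p - 1) * u i ^ p := by
  classical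
  have hp : p.Prime := Fact.out
  have hs : (r.rev : ℕ) ≤ p - 1 := by
    have := r.rev.2
    omega
  have hc : (((p - 1).choose r.rev : ℕ) : F) ≠ 0 := by
    rw [Ne, CharP.cast_eq_zero_iff F p]
    exact hp.coprime_iff_not_dvd.1 (hp.coprime_choose_of_lt (by have := hp.pos; omega) hs)
  obtain ⟨c, hc'⟩ := xspan_root (p := p) (((p - 1).choose r.rev : ℕ) : F)⁻¹
  refine ⟨fun i => C c * (Matrix.vandermonde τ).adjugate r.rev i, ?_⟩
  have h1 : ∀ i, (X + τ i ^ p) ^ (p - 1) =
      ∑ m : Fin p, (τ i ^ (m : ℕ)) ^ p * X ^ (p - 1 - m) * (((p - 1).choose m : ℕ) : F[X]) := by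
    intro i
    rw [add_comm, add_pow, Nat.sub_add_cancel hp.pos, sum_range]
    refine sum_congr rfl fun m _ => ?_
    rw [← pow_mul, ← pow_mul, mul_comm p]
  have h2 : ∀ m : Fin p, ∑ i, (Matrix.vandermonde τ).adjugate r.rev i * τ i ^ (m : ℕ) =
      if r.rev = m then (Matrix.vandermonde τ).det else 0 := by
    intro m
    have := congrFun (congrFun (Matrix.adjugate_mul (Matrix.vandermonde τ)) r.rev) m
    rw [Matrix.mul_apply, Matrix.smul_apply, Matrix.one_apply] at this
    simp only [Matrix.vandermonde_apply] at this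
    rw [this]
    split_ifs <;> simp
  simp only [h1, sum_mul]
  rw [sum_comm]
  have h3 : ∀ m : Fin p, ∑ i, (τ i ^ (m : ℕ)) ^ p * X ^ (p - 1 - m) *
      (((p - 1).choose m : ℕ) : F[X]) * (C c * (Matrix.vandermonde τ).adjugate r.rev i) ^ p =
      X ^ (p - 1 - m) * (((p - 1).choose m : ℕ) : F[X]) * C c ^ p *
        (if r.rev = m then (Matrix.vandermonde τ).det else 0) ^ p := by
    intro m
    rw [← h2, sum_pow_char, mul_sum]
    refine sum_congr rfl fun i _ => ?_
    rw [mul_pow, mul_pow]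
    ring
  rw [sum_congr rfl fun m _ => h3 m, sum_eq_single r.rev]
  · have h4 : p - 1 - r.rev = r := by
      rw [Fin.val_rev]
      have := r.2
      omega
    rw [if_pos rfl, h4, ← C_pow, hc', ← C_eq_natCast, mul_assoc (X ^ (r : ℕ)), ← C_mul,
      mul_inv_cancel₀ hc, C_1, mul_one, mul_comm]
  · intro m _ hm
    rw [if_neg (Ne.symm hm), zero_pow hp.ne_zero, mul_zero]
  · intro h
    exact absurd (mem_univ _) h

theorem xspan_one (τ : Fin p → F[X]) (w : F[X]) : ∃ c : ℕ, ∀ x : F[X],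
    ∃ u : Fin p → F[X], (∀ i, p * (u i).natDegree ≤ x.natDegree + c) ∧
      ((Matrix.vandermonde τ).det * w) ^ p * x = ∑ i, (X + τ i ^ p) ^ (p - 1) * u i ^ p := by
  choose v hv using xspan_pow τ
  refine ⟨p * (w.natDegree + ∑ r, ∑ i, (v r i).natDegree), fun x => ?_⟩
  obtain ⟨y, hy, hx⟩ := xspan_decomp (p := p) x
  refine ⟨fun i => ∑ r, w * v r i * y r, fun i => ?_, ?_⟩
  · refine le_trans (Nat.mul_le_mul_left p (natDegree_sum_le_of_forall_le _ _
      (n := x.natDegree / p + (w.natDegree + ∑ r, ∑ i, (v r i).natDegree)) fun r _ => ?_)) ?_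
    · have h1 : (v r i).natDegree ≤ ∑ r, ∑ i, (v r i).natDegree :=
        (single_le_sum (f := fun i => (v r i).natDegree) (fun _ _ => Nat.zero_le _)
          (mem_univ i)).trans (single_le_sum (f := fun r => ∑ i, (v r i).natDegree)
          (fun _ _ => Nat.zero_le _) (mem_univ r))
      have h2 : (y r).natDegree ≤ x.natDegree / p :=
        (Nat.le_div_iff_mul_le (Fact.out : p.Prime).pos).2 (by rw [mul_comm]; exact hy r)
      have h3 := natDegree_mul_le (p := w * v r i) (q := y r)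
      have h4 := natDegree_mul_le (p := w) (q := v r i)
      omega
    · rw [mul_add]
      exact Nat.add_le_add_right (Nat.mul_div_le _ _) _
  · conv_lhs => rw [hx]
    simp only [sum_pow_char, mul_sum]
    rw [sum_comm]
    refine sum_congr rfl fun r _ => ?_
    calc ((Matrix.vandermonde τ).det * w) ^ p * (X ^ (r : ℕ) * y r ^ p)
        = ((Matrix.vandermonde τ).det ^ p * X ^ (r : ℕ)) * (w * y r) ^ p := by ring
      _ = _ := by
        rw [hv r, sum_mul]
        refine sum_congr rfl fun i _ => ?_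
        ring

theorem exists_span (T : Finset F[X]) : ∃ (Ω : F[X]) (c : ℕ), Ω ≠ 0 ∧
    ∀ τ : Fin p → F[X], Function.Injective τ → (∀ i, τ i ∈ T) → ∀ x : F[X],
      ∃ u : Fin p → F[X], (∀ i, p * (u i).natDegree ≤ x.natDegree + c) ∧
        Ω ^ p * x = ∑ i, (X + τ i ^ p) ^ (p - 1) * u i ^ p := by
  classical
  let S : Finset (Fin p → F[X]) := (Fintype.piFinset fun _ => T).filter Function.Injective
  choose c hc using fun τ : Fin p → F[X] =>
    xspan_one τ (∏ σ ∈ S.erase τ, (Matrix.vandermonde σ).det)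
  refine ⟨∏ σ ∈ S, (Matrix.vandermonde σ).det, ∑ σ ∈ S, c σ,
    prod_ne_zero_iff.2 fun σ hσ => Matrix.det_vandermonde_ne_zero_iff.2 (mem_filter.1 hσ).2,
    fun τ h1 h2 x => ?_⟩
  have hτ : τ ∈ S := mem_filter.2 ⟨Fintype.mem_piFinset.2 h2, h1⟩
  obtain ⟨u, hu, hx⟩ := hc τ x
  refine ⟨u, fun i => (hu i).trans (Nat.add_le_add_left
    (single_le_sum (f := c) (fun _ _ => Nat.zero_le _) hτ) _), ?_⟩
  rw [← hx, mul_prod_erase S (fun σ => (Matrix.vandermonde σ).det) hτ]

end Pool.Agent.MP_4fffd4_nt.Odd
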