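import Mathlib
import Pool.Agent.MP_4fffd4_nt.Odd.Defs

/- An abstract variance bound. -/

set_option autoImplicit false

namespace Pool.Agent.MP_4fffd4_nt.Odd

open Polynomial Finset Filter Topology
open scoped BigOperators

/-- The Fourier transform. -/
noncomputable def xvarah {G : Type*} [AddCommGroup G] [Fintype G] (f : G → ℝ) (ξ : AddChar G ℂ) :
    ℂ := ∑ x, (f x : ℂ) * ξ x

theorem xvara_parseval {G : Type*} [AddCommGroup G] [Fintype G] (f : G → ℝ) :
    ∑ ξ : AddChar G ℂ, ‖xvarah f ξ‖ ^ 2 = Fintype.card G * ∑ x, f x ^ 2 := by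
  classical
  have h1 : ∀ ξ : AddChar G ℂ, ((‖xvarah f ξ‖ ^ 2 : ℝ) : ℂ) =
      ∑ x, ∑ y, (f x : ℂ) * f y * ξ (x - y) := fun ξ => by
    rw [Complex.ofReal_pow, ← Complex.mul_conj', xvarah, map_sum, Finset.sum_mul_sum]
    refine Finset.sum_congr rfl fun x _ => Finset.sum_congr rfl fun y _ => ?_
    rw [map_mul, Complex.conj_ofReal, ← AddChar.map_neg_eq_conj, sub_eq_add_neg,
      AddChar.map_add_eq_mul]
    ring
  apply Complex.ofReal_injective
  rw [Complex.ofReal_sum]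
  simp only [h1]
  rw [Finset.sum_comm]
  push_cast
  rw [Finset.mul_sum]
  refine Finset.sum_congr rfl fun x _ => ?_
  rw [Finset.sum_comm]
  simp only [← Finset.mul_sum, AddChar.sum_apply_eq_ite, sub_eq_zero, mul_ite, mul_zero]
  rw [Finset.sum_ite_eq]
  simp only [Finset.mem_univ, if_true]
  ring

theorem xvara_shift {G : Type*} [AddCommGroup G] [Fintype G] (f : G → ℝ) (ξ : AddChar G ℂ)
    (u : G) : xvarah (fun x => f (x + u)) ξ * ξ u = xvarah f ξ := by
  rw [xvarah, xvarah, Finset.sum_mul, ← Equiv.sum_comp (Equiv.addRight u)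
    fun x => (f x : ℂ) * ξ x]
  refine Finset.sum_congr rfl fun x _ => ?_
  rw [Equiv.coe_addRight, AddChar.map_add_eq_mul, mul_assoc]

theorem xvara_sum {G T : Type*} [AddCommGroup G] [Fintype G] [Fintype T] (φ : T → G → ℝ)
    (ξ : AddChar G ℂ) : xvarah (fun x => ∑ t, φ t x) ξ = ∑ t, xvarah (φ t) ξ := by
  simp only [xvarah]
  rw [Finset.sum_comm]
  refine Finset.sum_congr rfl fun x _ => ?_
  rw [Complex.ofReal_sum, Finset.sum_mul]

theorem var_abstract {G A T : Type*} [AddCommGroup G] [Fintype G] [AddCommGroup A] [Fintype A]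
    [Fintype T] [Nonempty T] (k : ℕ) (U : T → AddSubgroup G) (θ : T → A →+ G) (φ : T → G → ℝ)
    (hφ : ∀ t x, |φ t x| ≤ 1) (hU : ∀ t x, ∀ u ∈ U t, φ t (x + u) = φ t x)
    (hθ : ∀ t x, 𝔼 v : A, φ t (x + θ t v) = 0)
    (hsp : ∀ τ : Fin k → T, Function.Injective τ → ∀ t v,
      ∃ u : Fin k → G, (∀ i, u i ∈ U (τ i)) ∧ θ t v = ∑ i, u i) :
    𝔼 x, (𝔼 t, φ t x) ^ 2 ≤ k / Fintype.card T := by
  classical
  have h1 : ∀ t ξ, xvarah (φ t) ξ ≠ 0 → ∀ u ∈ U t, ξ u = 1 := fun t ξ h u hu => by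
    have := xvara_shift (φ t) ξ u
    simp only [hU t _ u hu] at this
    exact mul_left_cancel₀ h (this.trans (mul_one _).symm)
  have h2 : ∀ t (ξ : AddChar G ℂ), (∀ v, ξ (θ t v) = 1) → xvarah (φ t) ξ = 0 := fun t ξ h => by
    have e : ∀ x, ∑ v : A, φ t (x + θ t v) = 0 := fun x => by
      rw [← Fintype.card_mul_expect, hθ, mul_zero]
    have e2 := xvara_sum (fun (v : A) x => φ t (x + θ t v)) ξ
    have e3 : ∀ v : A, xvarah (fun x => φ t (x + θ t v)) ξ = xvarah (φ t) ξ := fun v => by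
      rw [← xvara_shift (φ t) ξ (θ t v), h, mul_one]
    simp only [e, e3, Finset.sum_const, Finset.card_univ, nsmul_eq_mul] at e2
    have e4 : xvarah (fun _ : G => (0 : ℝ)) ξ = 0 := by simp [xvarah]
    rw [e4] at e2
    exact (mul_eq_zero.1 e2.symm).resolve_left (Nat.cast_ne_zero.2 Fintype.card_ne_zero)
  have h3 : ∀ ξ : AddChar G ℂ, (Finset.univ.filter fun t => xvarah (φ t) ξ ≠ 0).card ≤ k := by
    intro ξ
    by_contra hc
    set S := Finset.univ.filter fun t => xvarah (φ t) ξ ≠ 0 with hS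
    obtain ⟨e⟩ := Function.Embedding.nonempty_of_card_le (α := Fin k) (β := S)
      (by rw [Fintype.card_fin, Fintype.card_coe]; omega)
    obtain ⟨t, ht⟩ := Finset.card_pos.1 (by omega : 0 < S.card)
    refine (Finset.mem_filter.1 ht).2 (h2 t ξ fun v => ?_)
    obtain ⟨u, hu, e'⟩ := hsp (fun i => (e i).1) (Subtype.val_injective.comp e.injective) t v
    rw [e']
    refine Finset.sum_induction u (fun g => ξ g = 1) (fun a b ha hb => ?_) ξ.map_zero_eq_one
      fun i _ => h1 _ ξ (Finset.mem_filter.1 (e i).2).2 _ (hu i)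
    rw [AddChar.map_add_eq_mul, ha, hb, mul_one]
  have h4 : ∀ ξ : AddChar G ℂ, ‖xvarah (fun x => ∑ t, φ t x) ξ‖ ^ 2 ≤
      k * ∑ t, ‖xvarah (φ t) ξ‖ ^ 2 := fun ξ => by
    rw [xvara_sum, ← Finset.sum_filter_ne_zero]
    set S := Finset.univ.filter fun t => xvarah (φ t) ξ ≠ 0 with hS
    calc ‖∑ t ∈ S, xvarah (φ t) ξ‖ ^ 2 ≤ (∑ t ∈ S, ‖xvarah (φ t) ξ‖) ^ 2 := by
          gcongr; exact norm_sum_le _ _
      _ ≤ S.card * ∑ t ∈ S, ‖xvarah (φ t) ξ‖ ^ 2 := sq_sum_le_card_mul_sum_sq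
      _ ≤ k * ∑ t, ‖xvarah (φ t) ξ‖ ^ 2 := by
          gcongr
          · exact h3 ξ
          · exact Finset.subset_univ _
  have hG : (0 : ℝ) < Fintype.card G := Nat.cast_pos.2 Fintype.card_pos
  have hT : (0 : ℝ) < Fintype.card T := Nat.cast_pos.2 Fintype.card_pos
  have h5 : ∑ x, (∑ t, φ t x) ^ 2 ≤ k * (Fintype.card T * Fintype.card G) := by
    refine le_of_mul_le_mul_left ?_ hG
    rw [← xvara_parseval]
    refine (Finset.sum_le_sum fun ξ _ => h4 ξ).trans ?_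
    rw [← Finset.mul_sum, Finset.sum_comm]
    simp only [xvara_parseval]
    have : ∀ t, ∑ x, φ t x ^ 2 ≤ (Fintype.card G : ℝ) := fun t => by
      refine (Finset.sum_le_sum fun x _ => (sq_le_one_iff_abs_le_one _).2 (hφ t x)).trans ?_
      simp
    calc (k : ℝ) * ∑ t, (Fintype.card G : ℝ) * ∑ x, φ t x ^ 2
        ≤ k * ∑ _t : T, (Fintype.card G : ℝ) * Fintype.card G := by
          gcongr with t; exact this t
      _ = _ := by simp only [Finset.sum_const, Finset.card_univ, nsmul_eq_mul]; ring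
  simp only [Fintype.expect_eq_sum_div_card, div_pow]
  rw [← Finset.sum_div, div_div, div_le_div_iff₀ (by positivity) hT]
  calc (∑ x, (∑ t, φ t x) ^ 2) * (Fintype.card T : ℝ)
      ≤ k * (Fintype.card T * Fintype.card G) * Fintype.card T := by gcongr
    _ = _ := by ring

end Pool.Agent.MP_4fffd4_nt.Odd
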