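import Mathlib
import Pool.Agent.MP_4fffd4_nt.Odd.VarA
import Pool.Agent.MP_4fffd4_nt.Odd.Span

/- The variance of the weight over the directions. -/

set_option autoImplicit false

namespace Pool.Agent.MP_4fffd4_nt.Odd

open Polynomial Finset Filter Topology
open scoped BigOperators

variable {F : Type*} [Field F] [Fintype F] {p : ℕ} [Fact p.Prime] [CharP F p]

omit [Fintype F] [Fact p.Prime] [CharP F p] in
theorem xvar_coeff {z : F[X]} (hz : z.Monic) (h : (z.natDegree : F) ≠ 0) :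
    (derivative z).coeff (z.natDegree - 1) ≠ 0 := by
  have h0 : z.natDegree ≠ 0 := fun e => h (by rw [e, Nat.cast_zero])
  have e : z.natDegree - 1 + 1 = z.natDegree := by omega
  rw [coeff_derivative, e, hz.coeff_natDegree, one_mul, ← Nat.cast_add_one, e]
  exact h

omit [Fintype F] [CharP F p] in
theorem xvar_pow (B : F[X]) : B * B ^ (p - 1) = B ^ p := by
  rw [← pow_succ', Nat.sub_add_cancel (Fact.out : p.Prime).one_le]

omit [Fintype F] [Fact p.Prime] in
theorem xvar_dpow (B : F[X]) : derivative (B ^ p) = 0 := by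
  rw [derivative_pow, CharP.cast_eq_zero F p, C_0, zero_mul, zero_mul]

omit [Fintype F] in
theorem xvar_deg {f : F[X]} {n : ℕ} (h : f.natDegree < n) : f.degree < n :=
  degree_le_natDegree.trans_lt (by exact_mod_cast h)

omit [Fintype F] in
theorem xvar_nat {f : F[X]} {n : ℕ} (hn : 0 < n) (h : f.degree < n) : f.natDegree < n := by
  by_cases h0 : f = 0
  · rwa [h0, natDegree_zero]
  · exact (natDegree_lt_iff_degree_lt h0).2 h

theorem xvar_coe {α : Type*} (s : Finset α) (f : α → ℝ) : 𝔼 t ∈ s, f t = 𝔼 t : s, f t.1 := by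
  rw [expect_eq_sum_div_card, Fintype.expect_eq_sum_div_card, Fintype.card_coe, sum_coe_sort]

theorem monic_BB (hp : p ≠ 2) (e : ℕ) {b : ℕ} (hb : 1 ≤ b) {t : F[X]} (ht : t ∈ monF F b) :
    (BB p e t).Monic ∧ (BB p e t).natDegree = p * b + e := by
  obtain ⟨hm, hd⟩ := mem_monF.1 ht
  have h2 : 2 ≤ p := (Fact.out : p.Prime).two_le
  have hd' : (t ^ p).natDegree = p * b := by rw [hm.natDegree_pow, hd]
  have hlt : (X : F[X]).natDegree < (t ^ p).natDegree := by
    rw [natDegree_X, hd']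
    nlinarith
  have hm' : (X + t ^ p).Monic := (hm.pow p).add_of_right (degree_lt_degree hlt)
  refine ⟨(monic_X_pow e).mul hm', ?_⟩
  rw [BB, (monic_X_pow e).natDegree_mul hm', natDegree_add_eq_right_of_natDegree_lt hlt, hd',
    natDegree_X_pow, add_comm]

omit [Fintype F] [Fact p.Prime] [CharP F p] in
theorem natDegree_deriv {z : F[X]} (hz : z.Monic) (h : (z.natDegree : F) ≠ 0) :
    (derivative z).natDegree = z.natDegree - 1 := by
  exact le_antisymm (natDegree_derivative_le z) (le_natDegree_of_ne_zero (xvar_coeff hz h))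

omit [Fintype F] [Fact p.Prime] [CharP F p] in
theorem deriv_ne_zero {z : F[X]} (hz : z.Monic) (h : (z.natDegree : F) ≠ 0) :
    derivative z ≠ 0 := by
  intro e
  apply xvar_coeff hz h
  rw [e, coeff_zero]

omit [Fintype F] in
theorem deriv_shift (B y s : F[X]) :
    derivative (B * (y + B ^ (p - 1) * s ^ p)) = derivative (B * y) := by
  have e : B * (y + B ^ (p - 1) * s ^ p) = B * y + (B * s) ^ p := by
    rw [mul_pow, mul_add, ← mul_assoc, xvar_pow]
  rw [e, derivative_add, xvar_dpow, add_zero]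

theorem variance (hp : p ≠ 2) {ι : Type} [Fintype ι] {g : ℕ → F[X] → ℝ} {ρ : ℕ → ℝ} {ρ₀ : ℝ}
    {lo hi : ℕ → ℕ} (hw : Weight p ι g ρ ρ₀ lo hi) {b : ℕ} (hb : 1 ≤ b) (e : ℕ) :
    ∀ᶠ n in atTop, ((n + (p * b + e) : ℕ) : F) ≠ 0 →
      𝔼 y ∈ monF F n, (𝔼 t ∈ monF F b,
        (g (n + (p * b + e) - 1) (derivative (BB p e t * y)) - ρ (n + (p * b + e) - 1))) ^ 2 ≤
      p / (Fintype.card F : ℝ) ^ b := by
  obtain ⟨Ω, c, hΩ, hspan⟩ := exists_span (p := p) (monF F b)
  set D := p * b + e with hD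
  set K := (p - 1) * D with hK
  set c' := 2 * K + e + c + p * (e + Ω.natDegree) with hc'
  have hp1 : 1 ≤ p := (Fact.out : p.Prime).one_le
  have htend : Tendsto (fun n : ℕ => n + D - 1) atTop atTop :=
    tendsto_atTop_atTop.2 fun N => ⟨N + 1, fun n hn => by omega⟩
  have hB0 : ∀ t ∈ monF F b, BB p e t ≠ 0 := fun t ht => (monic_BB hp e hb ht).1.ne_zero
  have hBK : ∀ t ∈ monF F b, (BB p e t ^ (p - 1)).natDegree = K := fun t ht => by
    rw [natDegree_pow, (monic_BB hp e hb ht).2]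
  have hev : ∀ᶠ M in atTop, ∀ t ∈ monF F b, ∀ (D₀ : F[X]) (ν : ℕ), M ≤ ν + (D + c') →
      𝔼 v ∈ ltF F ν, g M (D₀ + (X ^ e * Ω * BB p e t) ^ p * derivative v) = ρ M :=
    (eventually_all_finset _).2 fun t ht => hw.equi _ _
      (mul_ne_zero (mul_ne_zero (pow_ne_zero _ X_ne_zero) hΩ) (hB0 t ht))
  filter_upwards [htend.eventually hev, htend.eventually hw.rho, eventually_gt_atTop c']
    with n hequi hrho hn hne
  set M := n + D - 1 with hM
  have hv : ∀ v : degreeLT F (n - c'), v.1.natDegree < n - c' := fun v =>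
    xvar_nat (by omega) (mem_degreeLT.1 v.2)
  have hXΩ : ((X ^ e * Ω) ^ p).natDegree ≤ p * (e + Ω.natDegree) :=
    natDegree_pow_le.trans (Nat.mul_le_mul_left p
      (natDegree_mul_le.trans (by rw [natDegree_X_pow])))
  have hθm : ∀ (t : monF F b) (v : degreeLT F (n - c')),
      (X ^ e * Ω) ^ p * BB p e t.1 ^ (p - 1) * v.1 ∈ degreeLT F n := by
    intro t v
    refine mem_degreeLT.2 (xvar_deg ?_)
    have h1 := natDegree_mul_le (p := (X ^ e * Ω) ^ p * BB p e t.1 ^ (p - 1)) (q := v.1)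
    have h2 := natDegree_mul_le (p := (X ^ e * Ω) ^ p) (q := BB p e t.1 ^ (p - 1))
    have h3 := hBK t.1 t.2
    have h4 := hv v
    omega
  let θ : monF F b → degreeLT F (n - c') →+ degreeLT F n := fun t =>
    { toFun := fun v => ⟨_, hθm t v⟩
      map_zero' := Subtype.ext (by simp)
      map_add' := fun v w => Subtype.ext (by simp [mul_add]) }
  let U : monF F b → AddSubgroup (degreeLT F n) := fun t =>
    { carrier := {x | ∃ s : F[X], x.1 = BB p e t.1 ^ (p - 1) * s ^ p}
      zero_mem' := ⟨0, by simp [zero_pow (by omega : p ≠ 0)]⟩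
      add_mem' := by
        rintro x y ⟨s, hs⟩ ⟨s', hs'⟩
        exact ⟨s + s', by rw [Submodule.coe_add, hs, hs', add_pow_char, mul_add]⟩
      neg_mem' := by
        rintro x ⟨s, hs⟩
        exact ⟨-s, by rw [Submodule.coe_neg, hs, neg_pow, neg_one_pow_char]; ring⟩ }
  let φ : monF F b → degreeLT F n → ℝ := fun t x =>
    g M (derivative (BB p e t.1 * (X ^ n + x.1))) - ρ M
  have : Nonempty (monF F b) := (monF_nonempty b).coe_sort
  have key := var_abstract p U θ φ ?_ ?_ ?_ ?_
  · rw [expect_monF]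
    rw [Fintype.card_coe, card_monF, Nat.cast_pow] at key
    refine le_of_eq_of_le (expect_congr rfl fun x _ => ?_) key
    rw [xvar_coe]
  · intro t x
    obtain ⟨h1, h2⟩ := monic_BB hp e hb t.2
    obtain ⟨h3, h4⟩ := monic_add_LT x
    have h5 : (BB p e t.1 * (X ^ n + x.1)).natDegree = n + D := by
      rw [h1.natDegree_mul h3, h2, h4, add_comm]
    have h6 : ((BB p e t.1 * (X ^ n + x.1)).natDegree : F) ≠ 0 := by rwa [h5]
    obtain ⟨g0, g1, -⟩ := hw.good M _ (deriv_ne_zero (h1.mul h3) h6)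
      (by rw [natDegree_deriv (h1.mul h3) h6, h5])
    have := hw.pos
    rw [abs_le]
    constructor <;> simp only [φ] <;> linarith [hrho.1, hrho.2]
  · rintro t x u ⟨s, hs⟩
    simp only [φ]
    rw [Submodule.coe_add, hs, ← add_assoc, deriv_shift]
  · intro t x
    have e1 : ∀ v : degreeLT F (n - c'), φ t (x + θ t v) =
        g M (derivative (BB p e t.1 * (X ^ n + x.1)) +
          (X ^ e * Ω * BB p e t.1) ^ p * derivative v.1) - ρ M := by
      intro v
      have e2 : BB p e t.1 * (X ^ n + (x + θ t v).1) = BB p e t.1 * (X ^ n + x.1) +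
          (X ^ e * Ω * BB p e t.1) ^ p * v.1 := by
        change BB p e t.1 * (X ^ n + (x.1 + (X ^ e * Ω) ^ p * BB p e t.1 ^ (p - 1) * v.1)) = _
        rw [mul_pow (X ^ e * Ω), ← xvar_pow (p := p) (BB p e t.1)]
        ring
      simp only [φ]
      rw [e2, derivative_add, derivative_mul (f := _ ^ p), xvar_dpow, zero_mul, zero_add]
    simp only [e1]
    rw [expect_sub_distrib, Fintype.expect_const,
      ← expect_ltF (n - c') fun v => g M (derivative (BB p e t.1 * (X ^ n + x.1)) +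
          (X ^ e * Ω * BB p e t.1) ^ p * derivative v),
      hequi t.1 t.2 _ _ (by omega), sub_self]
  · intro τ hτ t v
    obtain ⟨u, hu, hsum⟩ := hspan (fun i => (τ i).1) (Subtype.val_injective.comp hτ)
      (fun i => (τ i).2) (X ^ e * BB p e t.1 ^ (p - 1) * v.1)
    have hx : (X ^ e * BB p e t.1 ^ (p - 1) * v.1).natDegree ≤ e + K + v.1.natDegree := by
      have h1 := natDegree_mul_le (p := X ^ e * BB p e t.1 ^ (p - 1)) (q := v.1)
      have h2 := natDegree_mul_le (p := (X ^ e : F[X])) (q := BB p e t.1 ^ (p - 1))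
      have h3 := hBK t.1 t.2
      rw [natDegree_X_pow] at h2
      omega
    have hm : ∀ i, BB p e (τ i).1 ^ (p - 1) * u i ^ p ∈ degreeLT F n := by
      intro i
      refine mem_degreeLT.2 (xvar_deg ?_)
      have h1 := natDegree_mul_le (p := BB p e (τ i).1 ^ (p - 1)) (q := u i ^ p)
      have h2 : (u i ^ p).natDegree ≤ p * (u i).natDegree := natDegree_pow_le
      have h3 := hBK (τ i).1 (τ i).2
      have h4 := hv v
      have h5 := hu i
      omega
    refine ⟨fun i => ⟨_, hm i⟩, fun i => ⟨u i, rfl⟩, Subtype.ext ?_⟩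
    rw [Submodule.coe_sum]
    change (X ^ e * Ω) ^ p * BB p e t.1 ^ (p - 1) * v.1 =
      ∑ i, BB p e (τ i).1 ^ (p - 1) * u i ^ p
    have e1 : ∀ i, BB p e (τ i).1 ^ (p - 1) * u i ^ p =
        (X ^ e) ^ (p - 1) * ((X + (τ i).1 ^ p) ^ (p - 1) * u i ^ p) := fun i => by
      rw [BB, mul_pow, mul_assoc]
    simp only [e1]
    rw [← mul_sum, ← hsum, mul_pow, ← xvar_pow (p := p) (X ^ e)]
    ring

end Pool.Agent.MP_4fffd4_nt.Odd
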