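import Mathlib
import Pool.Agent.MP_4fffd4_nt.Odd.Box
import Pool.Agent.MP_4fffd4_nt.Odd.Piece
import Pool.Agent.MP_4fffd4_nt.Odd.Var

/- Cancellation on a coset with a good derivative. -/

set_option autoImplicit false

namespace Pool.Agent.MP_4fffd4_nt.Odd

open Polynomial Finset Filter Topology
open scoped BigOperators

variable {F : Type*} [Field F] [Fintype F] {p : ℕ} [Fact p.Prime] [CharP F p]

omit [Fintype F] in
theorem xcoset_deg {γ h : F[X]} {k L D : ℕ} (hk : k ≠ 0) (hD : γ.natDegree + k * L ≤ D)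
    (hh : h.degree < L) : (γ * h ^ k).degree < D := by
  by_cases h0 : h = 0
  · rw [h0, zero_pow hk, mul_zero, degree_zero]
    exact WithBot.bot_lt_coe _
  have h₁ := (natDegree_lt_iff_degree_lt h0).2 hh
  have h₂ : (γ * h ^ k).natDegree ≤ γ.natDegree + k * h.natDegree :=
    natDegree_mul_le.trans (Nat.add_le_add_left natDegree_pow_le _)
  have h₃ := Nat.mul_lt_mul_of_pos_left (k := k) h₁ (Nat.pos_of_ne_zero hk)
  exact degree_le_natDegree.trans_lt (by exact_mod_cast (by omega))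

omit [Fintype F] in
theorem xcoset_theta {N D L : ℕ} {μ γ : F[X]} (hμ : μ.natDegree + L ≤ N)
    (hγ : ∀ h : F[X], h.degree < L → (γ * h ^ p).degree < D) :
    ∃ θ : degreeLT F L →+ degreeLT F N × degreeLT F D,
      ∀ h, (θ h).1.1 = μ * h.1 ∧ (θ h).2.1 = γ * h.1 ^ p :=
  ⟨AddMonoidHom.mk' (fun h => (⟨μ * h.1, mem_degreeLT.2 (by
      simpa using xcoset_deg (γ := μ) (k := 1) one_ne_zero (by omega) (mem_degreeLT.1 h.2))⟩,
    ⟨γ * h.1 ^ p, mem_degreeLT.2 (hγ _ (mem_degreeLT.1 h.2))⟩)) fun a b =>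
      Prod.ext (Subtype.ext (mul_add _ _ _)) (Subtype.ext (by
        simp only [Submodule.coe_add, Prod.snd_add, add_pow_char, mul_add])),
    fun _ => ⟨rfl, rfl⟩⟩

omit [Fintype F] [Fact p.Prime] [CharP F p] in
theorem xcoset_ndvd {P a : F[X]} (ha : a ≠ 0) (h : a.natDegree < P.natDegree) : ¬ P ∣ a :=
  fun e => (natDegree_le_of_dvd e ha).not_gt h

theorem xcoset_piece (hp : p ≠ 2) {ι : Type} [Fintype ι] {B u y w₀ P ρ : F[X]} {l : F}
    {m : ι → F[X]} (hB : B.Monic) (hu : u.Monic) (hy : y.Monic) (hw : B * y = u * w₀)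
    (hP : P.Monic) (hPi : Irreducible P) (hPu : ¬ P ∣ u) (hρ : P ∣ B * y - ρ ^ p)
    (hm : ∀ i, (m i).Monic) (hW : derivative (B * y) = C l * P * ∏ j, m j) {N : ℕ}
    (hN : (p - 1) * B.natDegree + p * (u.natDegree + N) ≤ y.natDegree) :
    ∃ c : ℝ, |c| ≤ 1 ∧ ∀ v : F[X], v.degree < N →
      piece u (B * (y + B ^ (p - 1) * (u * v) ^ p)) =
        c * (jr (ρ + B * u * v) P * ∏ i, jr (w₀ + u ^ (p - 1) * (B * v) ^ p) (m i)) := by
  have h2 := (Fact.out : p.Prime).two_le
  have pw : ∀ x : F[X], x * x ^ (p - 1) = x ^ p := fun x => mul_pow_sub_one (by omega) x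
  obtain ⟨s, hs, e₁⟩ := piece_eq (F := F) hp
  obtain ⟨s', hs', e₂⟩ := jr_C hp l
  obtain ⟨r, hr, e₃⟩ := jr_recip (F := F) hp
  set n := B.natDegree + y.natDegree - u.natDegree
  refine ⟨lam u * s n * (r u.natDegree n * jr w₀ u) * (s' n * (r P.natDegree n * jr u P) *
    ∏ i, r (m i).natDegree n), ?_, fun v hv => ?_⟩
  · have k : ∀ {a b : ℝ}, |a| ≤ 1 → |b| ≤ 1 → |a * b| ≤ 1 := fun ha hb =>
      (abs_mul _ _).trans_le (mul_le_one₀ ha (abs_nonneg _) hb)
    exact k (k (k (abs_lam u).le (hs _)) (k (hr _ _) (abs_jr_le _ _)))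
      (k (k (hs' _) (k (hr _ _) (abs_jr_le _ _)))
        ((abs_prod _ _).trans_le (prod_le_one (fun _ _ => abs_nonneg _) fun _ _ => hr _ _)))
  set w := w₀ + u ^ (p - 1) * (B * v) ^ p with hwd
  have f₁ : B * (y + B ^ (p - 1) * (u * v) ^ p) = u * w := by
    rw [hwd, mul_pow, mul_pow]
    linear_combination hw + u ^ p * v ^ p * pw B - B ^ p * v ^ p * pw u
  have f₂ : (B ^ (p - 1) * (u * v) ^ p).degree < y.degree := by
    rw [degree_eq_natDegree hy.ne_zero, mul_pow, ← mul_assoc]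
    refine xcoset_deg (by omega) (le_trans ?_ hN) hv
    rw [(hB.pow _).natDegree_mul (hu.pow _), hB.natDegree_pow, hu.natDegree_pow, mul_add,
      add_assoc]
  have f₃ : (u * w).Monic := f₁ ▸ hB.mul (hy.add_of_left f₂)
  have f₄ : w.Monic := hu.of_mul_monic_left f₃
  have f₅ : w.natDegree = n := by
    have := congrArg natDegree f₁
    rw [hB.natDegree_mul (hy.add_of_left f₂), hu.natDegree_mul f₄,
      natDegree_add_eq_left_of_degree_lt f₂] at this
    omega
  have f₆ : jr w u = jr w₀ u := jr_congr hp hu (by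
    rw [hwd, add_sub_cancel_left]
    exact (dvd_pow_self u (by omega)).mul_right _)
  have f₇ : jr w P = jr u P * jr (ρ + B * u * v) P := by
    have g₁ : jr u P * jr u P = 1 := by
      rw [jr_mul_self hp hP, ind_pos (hPi.coprime_iff_not_dvd.2 hPu).symm]
    have g₂ : jr (u * w) P = jr ((ρ + B * u * v) ^ p) P := jr_congr hp hP (by
      convert hρ using 1
      rw [← f₁, add_pow_char, mul_pow, mul_pow, mul_pow]
      linear_combination u ^ p * v ^ p * pw B)
    rw [jr_mul_left hp _ _ hP, jr_pow_char hp _ hP] at g₂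
    rw [← g₂, ← mul_assoc, g₁, one_mul]
  have f₈ : derivative (u * w) = C l * P * ∏ j, m j := by rw [← f₁, deriv_shift, hW]
  rw [f₁, e₁ u w hu f₄, f₈, jr_mul_left hp _ _ f₄, jr_mul_left hp _ _ f₄, jr_prod_left hp _ _ f₄,
    e₂ w f₄, e₃ u w hu f₄, e₃ P w hP f₄, prod_congr rfl fun i _ => e₃ (m i) w (hm i) f₄,
    prod_mul_distrib, f₅, f₆, f₇]
  ring

theorem coset_bound (hp : p ≠ 2) {J : Type*} {ι : Type} [Fintype J] [Fintype ι]
    {α β : J → F[X]} (hα : ∀ j, α j ≠ 0) {G : J → F[X] → F[X] → ℝ} (hG : Adm α β G)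
    {B u y : F[X]} (d : F[X]) (hB : B.Monic) (hu : u.Monic) (hy : y.Monic) {lo hi N L D : ℕ}
    (hW : GoodW ι lo hi (derivative (B * y)))
    (hN : (p - 1) * B.natDegree + p * (u.natDegree + N) ≤ y.natDegree)
    (hhi : hi + L ≤ N) (hL : L ≤ lo) (hBlo : B.natDegree ≤ lo) (hulo : u.natDegree ≤ lo)
    (hαlo : ∀ j, (α j).natDegree ≤ lo)
    (hD : ∀ j, (β j).natDegree + (p - 1) * ((α j).natDegree + B.natDegree) +
      p * (u.natDegree + L) ≤ D) :
    |𝔼 v ∈ ltF F N, 𝔼 e ∈ ltF F D, piece u (B * (y + B ^ (p - 1) * (u * v) ^ p)) *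
        ∏ j, G j (y + B ^ (p - 1) * (u * v) ^ p) (d + e)| ^
        2 ^ (Fintype.card J + Fintype.card ι) ≤
      4 ^ (Fintype.card J + Fintype.card ι) / (Fintype.card F : ℝ) ^ L +
        2 ^ (Fintype.card J + Fintype.card ι + 1) / √((Fintype.card F : ℝ) ^ lo) := by
  classical
  have h2 := (Fact.out : p.Prime).two_le
  have pw : ∀ x : F[X], x * x ^ (p - 1) = x ^ p := fun x => mul_pow_sub_one (by omega) x
  by_cases hw : ¬ u ∣ B * y
  · have : ∀ v, piece u (B * (y + B ^ (p - 1) * (u * v) ^ p)) = 0 := fun v =>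
      piece_of_not_dvd fun h => hw (by
        rw [mul_add] at h
        exact (dvd_add_left ((((dvd_mul_right u v).trans
          (dvd_pow_self _ (by omega))).mul_left _).mul_left _)).1 h)
    simp only [this, zero_mul, expect_const_zero, abs_zero]
    rw [zero_pow (by positivity)]
    positivity
  obtain ⟨w₀, hw⟩ := not_not.1 hw
  obtain ⟨l, P, m, -, hP, hPi, hW, hlo, hPhi, hm⟩ := hW
  obtain ⟨ρ, hρ⟩ := exists_root_mod (p := p) hP hPi (B * y)
  have hPu := xcoset_ndvd (P := P) hu.ne_zero (by omega)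
  obtain ⟨c, hc, e⟩ := xcoset_piece hp hB hu hy hw hP hPi hPu hρ (fun i => (hm i).1) hW hN
  have hθ : ∀ j : J ⊕ ι, ∃ θ : degreeLT F L →+ degreeLT F N × degreeLT F D, ∀ h,
      (θ h).1.1 = Sum.elim α m j * h.1 ∧ (θ h).2.1 = Sum.elim
        (fun j => β j * (α j ^ (p - 1) * B ^ (p - 1) * u ^ p)) (fun _ => 0) j * h.1 ^ p := by
    rintro (j | i)
    · refine xcoset_theta (by have := hαlo j; simp only [Sum.elim_inl]; omega) fun h hh =>
        xcoset_deg (by omega) (le_trans ?_ (hD j)) hh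
      have k₁ := natDegree_mul_le (p := β j) (q := α j ^ (p - 1) * B ^ (p - 1) * u ^ p)
      have k₂ := natDegree_mul_le (p := α j ^ (p - 1) * B ^ (p - 1)) (q := u ^ p)
      have k₃ := natDegree_mul_le (p := α j ^ (p - 1)) (q := B ^ (p - 1))
      rw [natDegree_pow] at k₂
      rw [natDegree_pow, natDegree_pow] at k₃
      simp only [Sum.elim_inl, mul_add]
      omega
    · refine xcoset_theta (by have := (hm i).2.1; simp only [Sum.elim_inr]; omega) fun h _ => ?_
      simp only [Sum.elim_inr, zero_mul, degree_zero]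
      exact WithBot.bot_lt_coe _
  choose θ hθ using hθ
  have key := box_ineq θ (fun x => jr (ρ + B * u * x.1.1) P)
    (Sum.elim (fun j x => G j (y + B ^ (p - 1) * (u * x.1.1) ^ p) (d + x.2.1))
      fun i x => jr (w₀ + u ^ (p - 1) * (B * x.1.1) ^ p) (m i))
    (by
      rintro (j | i) x
      exacts [(hG j).1 _ _, abs_jr_le _ _])
    (by
      rintro (j | i) x h
      · simp only [Sum.elim_inl, Prod.fst_add, Prod.snd_add, Submodule.coe_add, (hθ _ h).1,
          (hθ _ h).2]
        rw [← (hG j).2 (y + B ^ (p - 1) * (u * x.1.1) ^ p) (d + x.2.1)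
          (α j ^ (p - 1) * B ^ (p - 1) * u ^ p * h.1 ^ p)]
        congr 1
        · simp only [mul_add, add_pow_char, mul_pow]
          linear_combination -(B ^ (p - 1) * u ^ p * h.1 ^ p) * pw (α j)
        · ring
      · simp only [Sum.elim_inr, Prod.fst_add, Submodule.coe_add, (hθ _ h).1]
        refine jr_congr hp (hm i).1 ?_
        simp only [mul_add, add_pow_char, add_sub_add_left_eq_sub, add_sub_cancel_left]
        exact ((((dvd_mul_right (m i) h.1).mul_left B).trans (dvd_pow_self _ (by omega))).mul_left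
          _))
  have loc := local_box hp (J := J ⊕ ι) hP hPi (N := N) (L := L) (lo := lo) (by omega) hlo
    (by omega) ρ (B * u) (fun h => (hPi.prime.dvd_or_dvd h).elim
      (xcoset_ndvd hB.ne_zero (by omega)) hPu) (Sum.elim α m) (by
      rintro (j | i)
      exacts [xcoset_ndvd (a := α j) (hα j) (by have := hαlo j; omega), (hm i).2.2])
  rw [Fintype.card_sum] at key loc
  refine le_trans ?_ (key.trans (le_trans (le_of_eq ?_) loc))
  · refine pow_le_pow_left₀ (abs_nonneg _) ?_ _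
    refine le_trans (le_of_eq ?_) ((abs_mul c _).trans_le
      (mul_le_of_le_one_left (abs_nonneg _) hc))
    rw [expect_ltF, mul_expect, ← univ_product_univ, expect_product]
    refine congrArg _ (expect_congr rfl fun v _ => ?_)
    rw [expect_ltF, e _ (mem_degreeLT.1 v.2)]
    refine expect_congr rfl fun x _ => ?_
    simp only [Fintype.prod_sum_type, Sum.elim_inl, Sum.elim_inr]
    ring
  · refine expect_congr rfl fun h _ => congrArg _ ?_
    rw [← univ_product_univ, expect_product]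
    refine expect_congr rfl fun v _ => ?_
    simp only [Prod.fst_add, Prod.fst_sum, Submodule.coe_add, AddSubmonoidClass.coe_finsetSum,
      (hθ _ _).1]
    exact Fintype.expect_const _

end Pool.Agent.MP_4fffd4_nt.Odd
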