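import Mathlib
import Pool.Agent.MP_4fffd4_nt.Odd.Coset
import Pool.Agent.MP_4fffd4_nt.Odd.Var

/- The contribution of one direction. -/

set_option autoImplicit false

namespace Pool.Agent.MP_4fffd4_nt.Odd

open Polynomial Finset Filter Topology
open scoped BigOperators

variable {F : Type*} [Field F] [Fintype F] {p : ℕ} [Fact p.Prime] [CharP F p]

omit [Fact p.Prime] [CharP F p] in
/-- averaging over shifts does not change the average -/
theorem xloc1_shift {n N D : ℕ} (Φ : F[X] → F[X] → ℝ) (s : F[X] → F[X])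
    (hs : ∀ v ∈ ltF F N, (s v).degree < n) :
    𝔼 d ∈ monF F D, 𝔼 y ∈ monF F n, Φ y d =
      𝔼 d ∈ monF F D, 𝔼 y ∈ monF F n, 𝔼 v ∈ ltF F N, 𝔼 e ∈ ltF F D, Φ (y + s v) (d + e) := by
  have h1 : ∀ v ∈ ltF F N, ∀ e ∈ ltF F D,
      𝔼 d ∈ monF F D, 𝔼 y ∈ monF F n, Φ (y + s v) (d + e) =
        𝔼 d ∈ monF F D, 𝔼 y ∈ monF F n, Φ y d := by
    intro v hv e he
    rw [← expect_monF_add (mem_ltF.1 he) fun d => 𝔼 y ∈ monF F n, Φ y d]
    refine expect_congr rfl fun d _ => ?_
    exact expect_monF_add (hs v hv) fun y => Φ y (d + e)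
  symm
  calc 𝔼 d ∈ monF F D, 𝔼 y ∈ monF F n, 𝔼 v ∈ ltF F N, 𝔼 e ∈ ltF F D, Φ (y + s v) (d + e)
      = 𝔼 d ∈ monF F D, 𝔼 v ∈ ltF F N, 𝔼 e ∈ ltF F D, 𝔼 y ∈ monF F n,
          Φ (y + s v) (d + e) := by
        refine expect_congr rfl fun d _ => ?_
        rw [expect_comm]
        exact expect_congr rfl fun v _ => expect_comm _ _ _
    _ = 𝔼 v ∈ ltF F N, 𝔼 e ∈ ltF F D, 𝔼 d ∈ monF F D, 𝔼 y ∈ monF F n,
          Φ (y + s v) (d + e) := by
        rw [expect_comm]
        exact expect_congr rfl fun v _ => expect_comm _ _ _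
    _ = 𝔼 v ∈ ltF F N, 𝔼 e ∈ ltF F D, 𝔼 d ∈ monF F D, 𝔼 y ∈ monF F n, Φ y d :=
        expect_congr rfl fun v hv => expect_congr rfl fun e he => h1 v hv e he
    _ = _ := by rw [expect_const (ltF_nonempty N), expect_const (ltF_nonempty D)]

omit [Field F] [Fintype F] [Fact p.Prime] [CharP F p] in
/-- an average of numbers bounded by `x` is bounded by `x` -/
theorem xloc1_abs_le {α : Type*} {s : Finset α} (hs : s.Nonempty) {f : α → ℝ} {x : ℝ}
    (h : ∀ a ∈ s, |f a| ≤ x) : |𝔼 a ∈ s, f a| ≤ x :=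
  (abs_expect_le _ _).trans (expect_le hs h)

omit [Fintype F] [CharP F p] in
theorem xloc1_deg {B u v : F[X]} {n N : ℕ}
    (hN : (p - 1) * B.natDegree + p * (u.natDegree + N) ≤ n) (hv : v.degree < N) :
    (B ^ (p - 1) * (u * v) ^ p).degree < n := by
  have hp : 0 < p := (Fact.out : p.Prime).pos
  rcases eq_or_ne v 0 with rfl | h0
  · rw [mul_zero, zero_pow hp.ne', mul_zero, degree_zero]
    exact WithBot.bot_lt_coe _
  have h1 : v.natDegree < N := (natDegree_lt_iff_degree_lt h0).2 hv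
  refine degree_le_natDegree.trans_lt ?_
  have h2 : (B ^ (p - 1) * (u * v) ^ p).natDegree ≤
      (p - 1) * B.natDegree + p * (u.natDegree + v.natDegree) :=
    natDegree_mul_le.trans (add_le_add natDegree_pow_le
      (natDegree_pow_le.trans (Nat.mul_le_mul_left _ natDegree_mul_le)))
  have h3 : p * (u.natDegree + v.natDegree) < p * (u.natDegree + N) :=
    Nat.mul_lt_mul_of_pos_left (by omega) hp
  exact_mod_cast (by omega : (B ^ (p - 1) * (u * v) ^ p).natDegree < n)

omit [Fintype F] [Fact p.Prime] [CharP F p] in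
theorem xloc1_prod {J : Type*} [Fintype J] {α β : J → F[X]} {G : J → F[X] → F[X] → ℝ}
    (hG : Adm α β G) (y d : F[X]) : |∏ j, G j y d| ≤ 1 := by
  rw [Finset.abs_prod]
  exact Finset.prod_le_one (fun j _ => abs_nonneg _) fun j _ => (hG j).1 y d

/-- one direction, one squarefull part -/
theorem piece_avg (hp : p ≠ 2) {J : Type*} {ι : Type} [Fintype J] [Fintype ι]
    {α β : J → F[X]} (hα : ∀ j, α j ≠ 0) {G : J → F[X] → F[X] → ℝ} (hG : Adm α β G)
    {B u : F[X]} (hB : B.Monic) (hu : u.Monic) {n lo hi N L D : ℕ} (g : F[X] → ℝ)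
    (hg : ∀ y ∈ monF F n, |g (derivative (B * y))| ≤ 1 ∧
      (g (derivative (B * y)) ≠ 0 → GoodW ι lo hi (derivative (B * y))))
    (hn : 0 < N) (hN : (p - 1) * B.natDegree + p * (u.natDegree + N) ≤ n)
    (hhi : hi + L ≤ N) (hL : L ≤ lo) (hBlo : B.natDegree ≤ lo) (hulo : u.natDegree ≤ lo)
    (hαlo : ∀ j, (α j).natDegree ≤ lo)
    (hD : ∀ j, (β j).natDegree + (p - 1) * ((α j).natDegree + B.natDegree) +
      p * (u.natDegree + L) ≤ D) {x : ℝ} (hx : 0 ≤ x)
    (hxx : 4 ^ (Fintype.card J + Fintype.card ι) / (Fintype.card F : ℝ) ^ L +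
        2 ^ (Fintype.card J + Fintype.card ι + 1) / √((Fintype.card F : ℝ) ^ lo) ≤
      x ^ 2 ^ (Fintype.card J + Fintype.card ι)) :
    |TT n D (fun y => g (derivative (B * y)) * piece u (B * y)) G| ≤ x := by
  unfold TT
  rw [xloc1_shift (N := N)
    (fun y d => g (derivative (B * y)) * piece u (B * y) * ∏ j, G j y d)
    (fun v => B ^ (p - 1) * (u * v) ^ p) fun v hv => xloc1_deg hN (mem_ltF.1 hv)]
  refine xloc1_abs_le (monF_nonempty D) fun d _ => xloc1_abs_le (monF_nonempty n) fun y hy => ?_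
  obtain ⟨hy1, hy2⟩ := mem_monF.1 hy
  simp only [deriv_shift, mul_assoc (g _), ← mul_expect _ _ (g _)]
  by_cases h0 : g (derivative (B * y)) = 0
  · rw [h0, zero_mul, abs_zero]; exact hx
  have h1 := coset_bound hp hα hG d hB hu hy1 ((hg y hy).2 h0) (hy2.symm ▸ hN) hhi hL hBlo hulo
    hαlo hD
  have h2 := (pow_le_pow_iff_left₀ (abs_nonneg _) hx (by positivity)).1 (h1.trans hxx)
  rw [abs_mul]
  exact (mul_le_mul (hg y hy).1 h2 (abs_nonneg _) zero_le_one).trans_eq (one_mul x)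

/-- one direction -/
theorem dir_avg (hp : p ≠ 2) {J : Type*} {ι : Type} [Fintype J] [Fintype ι]
    {α β : J → F[X]} (hα : ∀ j, α j ≠ 0) {G : J → F[X] → F[X] → ℝ} (hG : Adm α β G)
    {B : F[X]} (hB : B.Monic) {n lo hi N K L D : ℕ} (g : F[X] → ℝ)
    (hg : ∀ y ∈ monF F n, |g (derivative (B * y))| ≤ 1 ∧
      (g (derivative (B * y)) ≠ 0 → GoodW ι lo hi (derivative (B * y))))
    (hn : 0 < N) (hN : (p - 1) * B.natDegree + p * (3 * K + N) ≤ n)
    (hhi : hi + L ≤ N) (hL : L ≤ lo) (hBlo : B.natDegree ≤ lo) (hK : 3 * K ≤ lo)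
    (hαlo : ∀ j, (α j).natDegree ≤ lo)
    (hD : ∀ j, (β j).natDegree + (p - 1) * ((α j).natDegree + B.natDegree) +
      p * (3 * K + L) ≤ D) {x : ℝ} (hx : 0 ≤ x)
    (hxx : 4 ^ (Fintype.card J + Fintype.card ι) / (Fintype.card F : ℝ) ^ L +
        2 ^ (Fintype.card J + Fintype.card ι + 1) / √((Fintype.card F : ℝ) ^ lo) ≤
      x ^ 2 ^ (Fintype.card J + Fintype.card ι)) :
    |TT n D (fun y => g (derivative (B * y)) * lam y) G| ≤
      (Fintype.card F : ℝ) ^ (3 * K + 1) * x + (Fintype.card F : ℝ) ^ B.natDegree / 2 ^ K := by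
  have hq := card_pos' (F := F)
  set E : F[X] → ℝ := fun z => ind (∃ δ : F[X], δ.Monic ∧ K < δ.natDegree ∧ δ ^ 2 ∣ z) with hE
  set R : F[X] → ℝ := fun z => lam z - ∑ u ∈ fullLE F (3 * K), piece u z with hR
  have h1 : TT n D (fun y => g (derivative (B * y)) * lam y) G =
      lam B * (∑ u ∈ fullLE F (3 * K),
        TT n D (fun y => g (derivative (B * y)) * piece u (B * y)) G +
        TT n D (fun y => g (derivative (B * y)) * R (B * y)) G) := by
    unfold TT
    simp only [← expect_sum_comm, ← expect_add_distrib, mul_expect]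
    refine expect_congr rfl fun d _ => expect_congr rfl fun y hy => ?_
    have h2 : lam y = lam B * lam (B * y) := by
      rw [lam_mul hB.ne_zero (mem_monF.1 hy).1.ne_zero, ← mul_assoc, lam_mul_self, one_mul]
    rw [← Finset.sum_mul, ← Finset.mul_sum, hR, h2]
    ring
  have h3 : |∑ u ∈ fullLE F (3 * K),
      TT n D (fun y => g (derivative (B * y)) * piece u (B * y)) G| ≤
      (Fintype.card F : ℝ) ^ (3 * K + 1) * x := by
    refine (abs_sum_le_sum_abs _ _).trans ((sum_le_card_nsmul _ _ x fun u hu => ?_).trans ?_)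
    · obtain ⟨hu1, hu2, -⟩ := mem_fullLE.1 hu
      refine piece_avg hp hα hG hB hu1 g hg hn (le_trans ?_ hN) hhi hL hBlo (hu2.trans hK) hαlo
        (fun j => le_trans ?_ (hD j)) hx hxx
      · gcongr
      · gcongr
    · rw [nsmul_eq_mul]
      refine mul_le_mul_of_nonneg_right ?_ hx
      have h4 : (fullLE F (3 * K)).card ≤ Fintype.card F ^ (3 * K + 1) := by
        classical
        exact (card_filter_le _ _).trans (card_monLE _)
      exact_mod_cast h4
  have h5 : 𝔼 y ∈ monF F n, E (B * y) ≤ (Fintype.card F : ℝ) ^ B.natDegree / 2 ^ K := by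
    rw [expect_monF_eq, sum_monF, div_le_iff₀ (by positivity)]
    refine (sum_sq_dvd (fun y : degreeLT F n => B * (X ^ n + y.1)) (m := B.natDegree + n)
      (fun a b hab => ?_) (fun y => ?_) K).trans_eq ?_
    · exact Subtype.ext (add_left_cancel (mul_left_cancel₀ hB.ne_zero hab))
    · obtain ⟨h6, h7⟩ := monic_add_LT y
      exact ⟨hB.mul h6, by rw [hB.natDegree_mul h6, h7]⟩
    · rw [pow_add]; ring
  have h8 : |TT n D (fun y => g (derivative (B * y)) * R (B * y)) G| ≤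
      (Fintype.card F : ℝ) ^ B.natDegree / 2 ^ K := by
    unfold TT
    refine xloc1_abs_le (monF_nonempty D) fun d _ => (abs_expect_le _ _).trans
      ((expect_le_expect fun y hy => ?_).trans h5)
    have h9 : |R (B * y)| ≤ E (B * y) := lam_decomp (hB.mul (mem_monF.1 hy).1) K
    rw [abs_mul, abs_mul]
    calc |g (derivative (B * y))| * |R (B * y)| * |∏ j, G j y d| ≤ 1 * E (B * y) * 1 :=
          mul_le_mul (mul_le_mul (hg y hy).1 h9 (abs_nonneg _) zero_le_one) (xloc1_prod hG y d)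
            (abs_nonneg _) (by rw [one_mul]; exact ind_nonneg _)
      _ = E (B * y) := by ring
  rw [h1, abs_mul, abs_lam, one_mul]
  exact (abs_add_le _ _).trans (add_le_add h3 h8)

end Pool.Agent.MP_4fffd4_nt.Odd
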