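import Mathlib
import Pool.Agent.MP_4fffd4_nt.Odd.Loc1

/- Local uniformity of the Liouville function. -/

set_option autoImplicit false

namespace Pool.Agent.MP_4fffd4_nt.Odd

open Polynomial Finset Filter Topology
open scoped BigOperators

section Aux

variable {F : Type*} [Field F] [Fintype F] {J : Type*} [Fintype J]

theorem xloc2_bound {α β : J → F[X]} {G : J → F[X] → F[X] → ℝ} (hG : Adm α β G) (n D : ℕ)
    (φ : F[X] → ℝ) : |TT n D φ G| ≤ 𝔼 y ∈ monF F n, |φ y| := by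
  refine (abs_expect_le _ _).trans (expect_le (monF_nonempty D) fun d _ => ?_)
  refine (abs_expect_le _ _).trans (expect_le_expect fun y _ => ?_)
  rw [abs_mul, Finset.abs_prod]
  refine mul_le_of_le_one_right (abs_nonneg _) ?_
  exact prod_le_one (fun j _ => abs_nonneg _) fun j _ => (hG j).1 y d

theorem xloc2_split (G : J → F[X] → F[X] → ℝ) (n D b : ℕ) (γ : F[X] → F[X] → ℝ) (r : ℝ) :
    r * TT n D lam G = 𝔼 t ∈ monF F b, TT n D (fun y => γ t y * lam y) G -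
      TT n D (fun y => (𝔼 t ∈ monF F b, (γ t y - r)) * lam y) G := by
  unfold TT
  rw [expect_comm (monF F b), ← expect_sub_distrib, mul_expect]
  refine expect_congr rfl fun d _ => ?_
  rw [expect_comm (monF F b), ← expect_sub_distrib, mul_expect]
  refine expect_congr rfl fun y _ => ?_
  beta_reduce
  rw [← expect_mul, ← expect_mul, expect_sub_distrib, expect_const (monF_nonempty b)]
  ring

theorem xloc2_amgm (n : ℕ) (f : F[X] → ℝ) {s : ℝ} (hs : 0 < s)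
    (h : 𝔼 y ∈ monF F n, f y ^ 2 ≤ s ^ 2) : 𝔼 y ∈ monF F n, |f y| ≤ s := by
  have h1 : 𝔼 y ∈ monF F n, |f y| ≤ 𝔼 y ∈ monF F n, (f y ^ 2 / (2 * s) + s / 2) := by
    refine expect_le_expect fun y _ => ?_
    rw [← sq_abs, div_add' _ _ _ (by positivity), le_div_iff₀ (by positivity)]
    nlinarith [sq_nonneg (|f y| - s)]
  rw [expect_add_distrib, ← expect_div, expect_const (monF_nonempty n)] at h1
  have h2 : (𝔼 y ∈ monF F n, f y ^ 2) / (2 * s) ≤ s / 2 := by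
    rw [div_le_iff₀ (by positivity)]
    nlinarith
  linarith

theorem xloc2_pow (Q a c : ℕ) (h : Q * a ≤ c) : (Q : ℝ) ^ a ≤ 2 ^ c := by
  have h1 : (Q : ℝ) ≤ 2 ^ Q := by exact_mod_cast Nat.lt_two_pow_self.le
  calc (Q : ℝ) ^ a ≤ (2 ^ Q) ^ a := pow_le_pow_left₀ (Nat.cast_nonneg _) h1 a
    _ = 2 ^ (Q * a) := by rw [← pow_mul]
    _ ≤ 2 ^ c := pow_le_pow_right₀ one_le_two h

theorem xloc2_hxx {Q : ℝ} (hQ : 2 ≤ Q) (j m L lo : ℕ) (hL : m + 2 * j + 1 ≤ L)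
    (hlo : 2 * (m + j + 2) ≤ lo) : 4 ^ j / Q ^ L + 2 ^ (j + 1) / √(Q ^ lo) ≤ 1 / 2 ^ m := by
  have h1 : (2 : ℝ) ^ (m + 2 * j + 1) ≤ Q ^ L :=
    (pow_le_pow_right₀ one_le_two hL).trans (pow_le_pow_left₀ two_pos.le hQ L)
  have h2 : (2 : ℝ) ^ (m + j + 2) ≤ √(Q ^ lo) := by
    refine Real.le_sqrt_of_sq_le ?_
    rw [← pow_mul, mul_comm]
    exact (pow_le_pow_right₀ one_le_two hlo).trans (pow_le_pow_left₀ two_pos.le hQ lo)
  have h3 : (4 : ℝ) ^ j / Q ^ L ≤ 4 ^ j / 2 ^ (m + 2 * j + 1) :=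
    div_le_div_of_nonneg_left (by positivity) (by positivity) h1
  have h4 : (2 : ℝ) ^ (j + 1) / √(Q ^ lo) ≤ 2 ^ (j + 1) / 2 ^ (m + j + 2) :=
    div_le_div_of_nonneg_left (by positivity) (by positivity) h2
  have h5 : (4 : ℝ) ^ j / 2 ^ (m + 2 * j + 1) = 1 / 2 ^ m / 2 := by
    rw [show (4 : ℝ) = 2 ^ 2 by norm_num, ← pow_mul]
    field_simp
    ring
  have h6 : (2 : ℝ) ^ (j + 1) / 2 ^ (m + j + 2) = 1 / 2 ^ m / 2 := by
    field_simp
    ring
  linarith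

theorem xloc2_half (b : ℕ) : (1 : ℝ) / 2 ^ b ≤ (3 / 4) ^ b := by
  rw [← one_div_pow]
  exact pow_le_pow_left₀ (by norm_num) (by norm_num) b

theorem xloc2_var {Q : ℝ} (hQ : 2 ≤ Q) {p : ℝ} (hp : 1 ≤ p) (b : ℕ) :
    p / Q ^ b ≤ (p * (3 / 4) ^ b) ^ 2 := by
  have h1 : 1 / Q ^ b ≤ ((3 / 4) ^ b) ^ 2 := by
    rw [← pow_mul, mul_comm, pow_mul, ← one_div_pow]
    refine pow_le_pow_left₀ (by positivity) ?_ b
    rw [div_le_iff₀ (by positivity)]
    nlinarith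
  have h2 : p ≤ p ^ 2 := by nlinarith
  rw [mul_pow, div_eq_mul_one_div]
  exact mul_le_mul h2 h1 (by positivity) (by positivity)

end Aux

variable {F : Type*} [Field F] [Fintype F] {p : ℕ} [Fact p.Prime] [CharP F p]

theorem xloc2_dir (hp : p ≠ 2) {ι : Type} [Fintype ι] {g : ℕ → F[X] → ℝ} {ρ : ℕ → ℝ} {ρ₀ : ℝ}
    {lo hi : ℕ → ℕ} (hw : Weight p ι g ρ ρ₀ lo hi) {J : Type*} [Fintype J] (α β : J → F[X])
    (hα : ∀ j, α j ≠ 0) : ∃ c₁ : ℕ, 0 < c₁ ∧ ∀ b, 1 ≤ b → ∀ D, c₁ * b ≤ D → ∀ e ≤ 1,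
      ∀ᶠ n in atTop, ((n + (p * b + e) : ℕ) : F) ≠ 0 → ∀ G : J → F[X] → F[X] → ℝ, Adm α β G →
        ∀ t ∈ monF F b, |TT n D (fun y => g (n + (p * b + e) - 1) (derivative (BB p e t * y)) *
          lam y) G| ≤ 2 * (3 / 4) ^ b := by
  obtain ⟨A, hA⟩ : ∃ A : ℕ, ∀ j, (α j).natDegree ≤ A ∧ (β j).natDegree ≤ A :=
    ⟨univ.sup fun j => (α j).natDegree + (β j).natDegree, fun j =>
      ⟨le_self_add.trans (le_sup (f := fun j => (α j).natDegree + (β j).natDegree) (mem_univ j)),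
       le_add_self.trans (le_sup (f := fun j => (α j).natDegree + (β j).natDegree) (mem_univ j))⟩⟩
  set q := Fintype.card F with hq
  set j' := Fintype.card J + Fintype.card ι with hj'
  obtain ⟨k₀, hk₀⟩ : ∃ k₀, k₀ = q * (p + 1) + 1 := ⟨_, rfl⟩
  obtain ⟨a₀, ha₀⟩ : ∃ a₀, a₀ = q * (3 * k₀ + 1) + 1 := ⟨_, rfl⟩
  obtain ⟨l₀, hl₀⟩ : ∃ l₀, l₀ = a₀ * 2 ^ j' + 2 * j' + 1 := ⟨_, rfl⟩
  refine ⟨A + p * (A + (p + 1)) + p * (3 * k₀ + l₀) + 1, Nat.succ_pos _, fun b hb D hD e he => ?_⟩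
  have hT : Tendsto (fun n => n + (p * b + e) - 1) atTop atTop :=
    (tendsto_sub_atTop_nat 1).comp (tendsto_add_atTop_nat _)
  have hs : p * b + e ≤ (p + 1) * b := by nlinarith
  have hp0 : 0 < p := (Fact.out : p.Prime).pos
  filter_upwards [hT.eventually (hw.hi_le (l₀ * b + 3 * (k₀ * b) + (p * b + e) + 1)),
    (hw.lo_top.comp hT).eventually_ge_atTop
      (l₀ * b + 3 * (k₀ * b) + (p * b + e) + A + 2 * (a₀ * b * 2 ^ j' + j' + 2)),
    eventually_ge_atTop 1] with n h1 h2 h3 hne G hG t ht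
  simp only [Function.comp] at h2
  obtain ⟨hB, hBd⟩ := monic_BB hp e hb ht
  set M := n + (p * b + e) - 1 with hM
  obtain ⟨N, hN⟩ : ∃ N, M / p = N + (p * b + e) + 3 * (k₀ * b) :=
    ⟨M / p - (p * b + e) - 3 * (k₀ * b), by omega⟩
  have hMp : p * (M / p) ≤ M := Nat.mul_div_le M p
  have h4 : (p - 1) * (p * b + e) + p * (3 * (k₀ * b) + N) ≤ n := by
    obtain ⟨r, hr⟩ : ∃ r, p = r + 1 := ⟨p - 1, by omega⟩
    have e1 : p - 1 = r := by omega
    have e2 : p * (N + (p * b + e) + 3 * (k₀ * b)) =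
        r * (p * b + e) + p * (3 * (k₀ * b) + N) + (p * b + e) := by
      generalize p * b + e = s
      rw [hr]
      ring
    rw [hN, e2] at hMp
    rw [e1]
    omega
  have hQ : (2 : ℝ) ≤ q := two_le_card
  have key := dir_avg (ι := ι) hp hα hG hB (n := n) (lo := lo M) (hi := hi M) (N := N)
    (K := k₀ * b) (L := l₀ * b) (D := D) (g M) (fun y hy => ?_) (by omega)
    (by rw [hBd]; exact h4) (by omega) (by omega) (by omega) (by omega)
    (fun j => by have := (hA j).1; omega) (fun j => ?_) (x := 1 / 2 ^ (a₀ * b)) (by positivity) ?_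
  · refine key.trans ?_
    have e1 : (q : ℝ) ^ (3 * (k₀ * b) + 1) ≤ 2 ^ (q * (3 * k₀ + 1) * b) :=
      xloc2_pow _ _ _ (by rw [mul_assoc]; exact Nat.mul_le_mul_left _ (by nlinarith))
    have e2 : (q : ℝ) ^ (BB p e t).natDegree ≤ 2 ^ (q * (p + 1) * b) :=
      xloc2_pow _ _ _ (by rw [mul_assoc, hBd]; exact Nat.mul_le_mul_left _ hs)
    have e3 : (q : ℝ) ^ (3 * (k₀ * b) + 1) * (1 / 2 ^ (a₀ * b)) ≤ 1 / 2 ^ b := by
      rw [mul_one_div, div_le_div_iff₀ (by positivity) (by positivity), one_mul, ha₀, add_mul,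
        one_mul, pow_add 2]
      exact mul_le_mul_of_nonneg_right e1 (by positivity)
    have e4 : (q : ℝ) ^ (BB p e t).natDegree / 2 ^ (k₀ * b) ≤ 1 / 2 ^ b := by
      rw [div_le_div_iff₀ (by positivity) (by positivity), one_mul, hk₀, add_mul,
        one_mul, pow_add 2]
      exact mul_le_mul_of_nonneg_right e2 (by positivity)
    have := xloc2_half b
    linarith
  · obtain ⟨hy1, hy2⟩ := mem_monF.1 hy
    have hz : (BB p e t * y).Monic := hB.mul hy1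
    have hzd : (BB p e t * y).natDegree = n + (p * b + e) := by
      rw [hB.natDegree_mul hy1, hBd, hy2, add_comm]
    have hne' : (((BB p e t * y).natDegree : ℕ) : F) ≠ 0 := by rw [hzd]; exact hne
    obtain ⟨g0, g1, g2⟩ := hw.good M _ (deriv_ne_zero hz hne') (by rw [natDegree_deriv hz hne', hzd])
    exact ⟨by rw [abs_of_nonneg g0]; exact g1, g2⟩
  · rw [hBd]
    refine le_trans ?_ hD
    have e1 : (p - 1) * ((α j).natDegree + (p * b + e)) ≤ p * ((A + (p + 1)) * b) :=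
      Nat.mul_le_mul (Nat.sub_le _ _) (by have := (hA j).1; nlinarith)
    have e2 : (β j).natDegree ≤ A * b := (hA j).2.trans (Nat.le_mul_of_pos_right _ hb)
    have e3 : (A + p * (A + (p + 1)) + p * (3 * k₀ + l₀) + 1) * b =
        A * b + p * ((A + (p + 1)) * b) + p * (3 * (k₀ * b) + l₀ * b) + b := by ring
    omega
  · rw [one_div_pow, ← pow_mul]
    refine xloc2_hxx hQ j' _ _ _ ?_ (le_add_self.trans h2)
    rw [hl₀]
    nlinarith

theorem loc_exp (hp : p ≠ 2) {ι : Type} [Fintype ι] {g : ℕ → F[X] → ℝ} {ρ : ℕ → ℝ} {ρ₀ : ℝ}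
    {lo hi : ℕ → ℕ} (hw : Weight p ι g ρ ρ₀ lo hi) {J : Type*} [Fintype J] (α β : J → F[X])
    (hα : ∀ j, α j ≠ 0) : ∃ (c₁ : ℕ) (c₂ : ℝ), 0 < c₁ ∧ ∀ b, 1 ≤ b → ∀ D, c₁ * b ≤ D →
      ∀ᶠ n in atTop, ∀ G : J → F[X] → F[X] → ℝ, Adm α β G →
        |TT n D lam G| ≤ c₂ * (3 / 4) ^ b := by
  obtain ⟨c₁, hc₁, hdir⟩ := xloc2_dir hp hw α β hα
  refine ⟨c₁, (2 + p) / ρ₀, hc₁, fun b hb D hD => ?_⟩
  have hp1 : (1 : ℝ) ≤ p := by exact_mod_cast (Fact.out : p.Prime).one_le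
  have main : ∀ e ≤ 1, ∀ᶠ n in atTop, ((n + (p * b + e) : ℕ) : F) ≠ 0 →
      ∀ G : J → F[X] → F[X] → ℝ, Adm α β G → |TT n D lam G| ≤ (2 + p) / ρ₀ * (3 / 4) ^ b := by
    intro e he
    have hT : Tendsto (fun n => n + (p * b + e) - 1) atTop atTop :=
      (tendsto_sub_atTop_nat 1).comp (tendsto_add_atTop_nat _)
    filter_upwards [hdir b hb D hD e he, variance hp hw hb e, hT.eventually hw.rho] with
      n h1 h2 h3 hne G hG
    set M := n + (p * b + e) - 1 with hM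
    have e0 := xloc2_split G n D b (fun t y => g M (derivative (BB p e t * y))) (ρ M)
    have e1 : |𝔼 t ∈ monF F b, TT n D (fun y => g M (derivative (BB p e t * y)) * lam y) G| ≤
        2 * (3 / 4) ^ b :=
      (abs_expect_le _ _).trans (expect_le (monF_nonempty b) (h1 hne G hG))
    have e2 : |TT n D (fun y => (𝔼 t ∈ monF F b, (g M (derivative (BB p e t * y)) - ρ M)) *
        lam y) G| ≤ p * (3 / 4) ^ b := by
      refine (xloc2_bound hG n D _).trans ?_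
      simp only [abs_mul, abs_lam, mul_one]
      exact xloc2_amgm n _ (by positivity) ((h2 hne).trans (xloc2_var two_le_card hp1 b))
    have e3 : |ρ M * TT n D lam G| ≤ (2 + p) * (3 / 4) ^ b := by
      rw [e0]
      refine (abs_sub _ _).trans ?_
      linarith
    rw [abs_mul, abs_of_pos (hw.pos.trans_le h3.1)] at e3
    rw [div_mul_eq_mul_div, le_div_iff₀ hw.pos, mul_comm]
    exact (mul_le_mul_of_nonneg_right h3.1 (abs_nonneg _)).trans e3
  filter_upwards [main 0 zero_le_one, main 1 le_rfl] with n h0 h1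
  by_cases h : ((n + (p * b + 0) : ℕ) : F) = 0
  · refine h1 ?_
    rw [← add_assoc, Nat.cast_add, Nat.cast_one, show n + p * b = n + (p * b + 0) from rfl, h,
      zero_add]
    exact one_ne_zero
  · exact h0 h

theorem loc_unif (hp : p ≠ 2) {ι : Type} [Fintype ι] {g : ℕ → F[X] → ℝ} {ρ : ℕ → ℝ} {ρ₀ : ℝ}
    {lo hi : ℕ → ℕ} (hw : Weight p ι g ρ ρ₀ lo hi) {J : Type*} [Fintype J] (α β : J → F[X])
    (hα : ∀ j, α j ≠ 0) {ε : ℝ} (hε : 0 < ε) : ∀ᶠ D : ℕ in atTop, ∀ᶠ n in atTop,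
      ∀ G : J → F[X] → F[X] → ℝ, Adm α β G → D * |TT n D lam G| ≤ ε := by
  obtain ⟨c₁, c₂, hc₁, h⟩ := loc_exp hp hw α β hα
  have h0 : Tendsto (fun b : ℕ => (c₁ * c₂ : ℝ) * (b * (3 / 4) ^ b + (3 / 4) ^ b)) atTop
      (𝓝 ((c₁ * c₂ : ℝ) * (0 + 0))) :=
    ((tendsto_self_mul_const_pow_of_lt_one (by norm_num) (by norm_num)).add
      (tendsto_pow_atTop_nhds_zero_of_lt_one (by norm_num) (by norm_num))).const_mul _
  rw [add_zero, mul_zero] at h0
  have hT := Nat.tendsto_div_const_atTop hc₁.ne'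
  filter_upwards [hT.eventually (h0.eventually (ge_mem_nhds hε)), hT.eventually_ge_atTop 1] with
    D h1 h2
  filter_upwards [h (D / c₁) h2 D (Nat.mul_div_le D c₁)] with n h3 G hG
  have h4 : (D : ℝ) ≤ c₁ * ((D / c₁ : ℕ) + 1) := by
    exact_mod_cast (Nat.lt_mul_div_succ D hc₁).le
  calc (D : ℝ) * |TT n D lam G| ≤ c₁ * ((D / c₁ : ℕ) + 1) * |TT n D lam G| :=
        mul_le_mul_of_nonneg_right h4 (abs_nonneg _)
    _ ≤ c₁ * ((D / c₁ : ℕ) + 1) * (c₂ * (3 / 4) ^ (D / c₁)) :=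
        mul_le_mul_of_nonneg_left (h3 G hG) (by positivity)
    _ ≤ ε := by
        refine le_of_eq_of_le ?_ h1
        ring

end Pool.Agent.MP_4fffd4_nt.Odd
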