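import Mathlib
import Pool.Agent.MP_4fffd4_nt.Odd.Defs

/- Sequences that are small on average. -/

set_option autoImplicit false

namespace Pool.Agent.MP_4fffd4_nt.Odd

open Polynomial Finset Filter Topology
open scoped BigOperators

theorem xbz_zero : BZ fun _ => 0 := fun ε hε => ⟨0, fun M _ N => by
  simp only [abs_zero, sum_const_zero]
  positivity⟩

theorem xbz_key {v : ℕ → ℝ}
    (h : ∀ ε : ℝ, 0 < ε → ∃ w, BZ w ∧ ∀ᶠ n in atTop, |v n| ≤ ε + |w n|) : BZ v := by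
  intro ε hε
  obtain ⟨w, hw, hv⟩ := h (ε / 3) (by positivity)
  obtain ⟨n₀, hn₀⟩ := eventually_atTop.1 hv
  obtain ⟨M₀, hM₀⟩ := hw (ε / 3) (by positivity)
  obtain ⟨M₁, hM₁⟩ := exists_nat_ge ((∑ n ∈ range n₀, |v n|) / (ε / 3))
  refine ⟨max M₀ M₁, fun M hM N => ?_⟩
  have h1 := hM₀ M (le_of_max_le_left hM) N
  have h2 : ∑ n ∈ range n₀, |v n| ≤ ε / 3 * M := by
    rw [div_le_iff₀ (by positivity)] at hM₁
    have h3 : (M₁ : ℝ) ≤ M := by exact_mod_cast le_of_max_le_right hM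
    nlinarith
  have h3 : ∑ n ∈ Ico N (N + M), (if n < n₀ then |v n| else 0) ≤ ∑ n ∈ range n₀, |v n| := by
    rw [← sum_filter]
    exact sum_le_sum_of_subset_of_nonneg (fun n hn => mem_range.2 (mem_filter.1 hn).2)
      fun _ _ _ => abs_nonneg _
  have h4 : ∑ n ∈ Ico N (N + M), |v n| ≤
      ∑ n ∈ Ico N (N + M), (ε / 3 + |w n| + if n < n₀ then |v n| else 0) := by
    refine sum_le_sum fun n _ => ?_
    split_ifs with hn
    · have := abs_nonneg (w n)
      linarith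
    · rw [add_zero]
      exact hn₀ n (not_lt.1 hn)
  rw [sum_add_distrib, sum_add_distrib, sum_const, Nat.card_Ico, Nat.add_sub_cancel_left,
    nsmul_eq_mul] at h4
  linarith

theorem BZ.add {u v : ℕ → ℝ} (hu : BZ u) (hv : BZ v) : BZ fun n => u n + v n := by
  intro ε hε
  obtain ⟨M₀, h₀⟩ := hu (ε / 2) (by positivity)
  obtain ⟨M₁, h₁⟩ := hv (ε / 2) (by positivity)
  refine ⟨max M₀ M₁, fun M hM N => ?_⟩
  have h2 := h₀ M (le_of_max_le_left hM) N
  have h3 := h₁ M (le_of_max_le_right hM) N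
  have h4 : ∑ n ∈ Ico N (N + M), |u n + v n| ≤ ∑ n ∈ Ico N (N + M), (|u n| + |v n|) :=
    sum_le_sum fun n _ => abs_add_le _ _
  rw [sum_add_distrib] at h4
  linarith

theorem BZ.const_mul {u : ℕ → ℝ} (hu : BZ u) (c : ℝ) : BZ fun n => c * u n := by
  intro ε hε
  have hc : 0 < |c| + 1 := by positivity
  obtain ⟨M₀, h₀⟩ := hu (ε / (|c| + 1)) (by positivity)
  refine ⟨M₀, fun M hM N => ?_⟩
  calc ∑ n ∈ Ico N (N + M), |c * u n| ≤ ∑ n ∈ Ico N (N + M), (|c| + 1) * |u n| := by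
        refine sum_le_sum fun n _ => ?_
        rw [abs_mul]
        exact mul_le_mul_of_nonneg_right (by linarith) (abs_nonneg _)
    _ = (|c| + 1) * ∑ n ∈ Ico N (N + M), |u n| := (mul_sum _ _ _).symm
    _ ≤ (|c| + 1) * (ε / (|c| + 1) * M) := mul_le_mul_of_nonneg_left (h₀ M hM N) hc.le
    _ = ε * M := by field_simp

theorem BZ.sum {ι : Type*} (s : Finset ι) {u : ι → ℕ → ℝ} (hu : ∀ i ∈ s, BZ (u i)) :
    BZ fun n => ∑ i ∈ s, u i n := by
  classical
  induction s using Finset.induction_on with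
  | empty => simpa using xbz_zero
  | insert a s ha ih =>
    simp only [sum_insert ha]
    exact (hu a (mem_insert_self _ _)).add (ih fun i hi => hu i (mem_insert_of_mem hi))

theorem BZ.shift {u : ℕ → ℝ} (hu : BZ u) (k : ℕ) : BZ fun n => u (n + k) := by
  intro ε hε
  obtain ⟨M₀, h₀⟩ := hu ε hε
  refine ⟨M₀, fun M hM N => ?_⟩
  have h1 := h₀ M hM (N + k)
  rwa [Nat.add_right_comm, ← sum_Ico_add' (fun n => |u n|)] at h1

theorem BZ.of_tendsto {u : ℕ → ℝ} (hu : Tendsto u atTop (𝓝 0)) : BZ u := by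
  refine xbz_key fun ε hε => ⟨_, xbz_zero, ?_⟩
  have h : Tendsto (fun n => |u n|) atTop (𝓝 0) := by simpa using hu.abs
  filter_upwards [h.eventually (Iic_mem_nhds hε)] with n hn
  rw [abs_zero, add_zero]
  exact hn

theorem BZ.of_le {u v : ℕ → ℝ} (hu : BZ u) (h : ∀ᶠ n in atTop, |v n| ≤ |u n|) : BZ v :=
  xbz_key fun ε hε => ⟨u, hu, h.mono fun n hn => by linarith⟩

theorem BZ.of_ind {u : ℕ → ℝ} {c : ℝ} (hb : ∀ n, |u n| ≤ c)
    (h : ∀ ε : ℝ, 0 < ε → BZ fun n => ind (ε ≤ |u n|)) : BZ u := by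
  refine xbz_key fun ε hε => ⟨_, (h ε hε).const_mul c, Eventually.of_forall fun n => ?_⟩
  by_cases hn : ε ≤ |u n|
  · rw [ind_pos hn, mul_one]
    have := le_abs_self c
    have := hb n
    linarith
  · rw [ind_neg hn, mul_zero, abs_zero, add_zero]
    exact (not_le.1 hn).le

end Pool.Agent.MP_4fffd4_nt.Odd
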