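import Mathlib
import Pool.Agent.MP_4fffd4_nt.Odd.Bz

/- Summation over scales. -/

set_option autoImplicit false

namespace Pool.Agent.MP_4fffd4_nt.Odd

open Polynomial Finset Filter Topology
open scoped BigOperators

theorem xscale_block (f : ℕ → ℝ) (a g : ℕ) (hg : g ≤ a)
    (anti : ∀ D D', D ≤ D' → D' ≤ 4 * a → f D' ≤ f D) :
    ∑ D ∈ Ico a (2 * a), (f D - f (D + g)) ≤ g * (f a - f (4 * a)) := by
  rw [sum_sub_distrib, sum_Ico_add' f a (2 * a) g,
    ← sum_Ico_consecutive f (show a ≤ a + g by omega) (show a + g ≤ 2 * a by omega),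
    ← sum_Ico_consecutive f (show a + g ≤ 2 * a by omega) (show 2 * a ≤ 2 * a + g by omega)]
  have h1 : ∑ D ∈ Ico a (a + g), f D ≤ g * f a := by
    have := sum_le_card_nsmul (Ico a (a + g)) f (f a) fun D hD => by
      rw [mem_Ico] at hD; exact anti _ _ hD.1 (by omega)
    simpa using this
  have h2 : g * f (4 * a) ≤ ∑ D ∈ Ico (2 * a) (2 * a + g), f D := by
    have := card_nsmul_le_sum (Ico (2 * a) (2 * a + g)) f (f (4 * a)) fun D hD => by
      rw [mem_Ico] at hD; exact anti _ _ (by omega) le_rfl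
    simpa using this
  linarith

theorem xscale_shift (u : ℕ → ℝ) (h0 : ∀ n, 0 ≤ u n) (h1 : ∀ n, u n ≤ 1) (N M T D : ℕ)
    (hD : D ≤ T) :
    ∑ n ∈ Ico N (N + M), u n - T ≤ ∑ m ∈ Ico (N + T) (N + T + M), u (m - D) := by
  obtain ⟨s, rfl⟩ := Nat.exists_eq_add_of_le hD
  have e1 : ∑ m ∈ Ico (N + (D + s)) (N + (D + s) + M), u (m - D)
      = ∑ n ∈ Ico (N + s) (N + s + M), u n := by
    rw [show N + (D + s) = N + s + D by ring, show N + s + D + M = N + s + M + D by ring,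
      ← sum_Ico_add' (fun m => u (m - D))]
    simp
  have e2 : ∑ n ∈ Ico N (N + M), u n ≤ ∑ n ∈ Ico N (N + s + M), u n :=
    sum_le_sum_of_subset_of_nonneg (Ico_subset_Ico le_rfl (by omega)) fun n _ _ => h0 n
  have e3 : ∑ n ∈ Ico N (N + s), u n ≤ s := by
    have := sum_le_card_nsmul (Ico N (N + s)) u 1 fun n _ => h1 n
    simpa using this
  rw [← sum_Ico_consecutive u (show N ≤ N + s by omega) (show N + s ≤ N + s + M by omega)] at e2
  rw [e1]
  push_cast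
  have : (0 : ℝ) ≤ D := Nat.cast_nonneg D
  linarith

theorem xscale_pow (i : ℕ) : 3 * i + 1 ≤ 4 ^ i := by
  induction i with
  | zero => simp
  | succ i ih => rw [pow_succ]; omega

theorem scale_lemma (h : ℕ → ℕ → ℝ) (bad : ℕ → Prop) {Λ c A : ℝ} (h₀ : ℕ) (hc : 0 < c)
    (hb : ∀ m H, H ≤ m → 0 ≤ h m H ∧ h m H ≤ Λ)
    (anti : ∀ m H H', H ≤ H' → H' ≤ m → h m H' ≤ h m H)
    (step : ∀ᶠ D : ℕ in atTop, ∀ᶠ m in atTop, bad (m - D) → ∀ H, D + h₀ ≤ H → H ≤ m →
      h m H ≤ h m (D + h₀) - c / D + A / 2 ^ (H - D)) :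
    BZ fun n => ind (bad n) := by
  intro ε hε
  obtain ⟨D0, hD0⟩ := eventually_atTop.1 step
  obtain ⟨g0, hg0⟩ : ∃ g0 : ℕ, 2 * |A| / c ≤ 2 ^ g0 :=
    (pow_unbounded_of_one_lt (2 * |A| / c) (one_lt_two (α := ℝ))).imp fun _ h => h.le
  obtain ⟨i0, hi1, hi2⟩ : ∃ i0 : ℕ, D0 ≤ i0 ∧ g0 + 2 ≤ i0 :=
    ⟨max D0 (g0 + 2), le_max_left _ _, le_max_right _ _⟩
  obtain ⟨G, hG⟩ : ∃ G : ℕ, G = 2 * i0 + 2 + g0 := ⟨_, rfl⟩
  have hG0 : (0 : ℝ) < G := by exact_mod_cast (show 0 < G by omega)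
  have hp0 := xscale_pow i0
  have hΛ : 0 ≤ Λ := (hb 0 0 le_rfl).1.trans (hb 0 0 le_rfl).2
  obtain ⟨J, hJ⟩ : ∃ J : ℕ, 8 * G * Λ / (c * ε) < ∑ j ∈ range J, (1 / ((j : ℝ) + 1)) :=
    (Real.tendsto_sum_range_one_div_nat_succ_atTop.eventually (eventually_gt_atTop _)).exists
  obtain ⟨K, hK⟩ : ∃ K : ℝ, K = ∑ j ∈ range J, (1 / ((j : ℝ) + 1)) := ⟨_, rfl⟩
  rw [← hK] at hJ
  have hK0 : 0 < K := lt_of_le_of_lt (by positivity) hJ
  obtain ⟨T0, hT0⟩ := eventually_atTop.1 ((eventually_all_finset (Ico D0 (4 ^ (i0 + J)))).2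
    fun D hD => hD0 D (mem_Ico.1 hD).1)
  obtain ⟨T, hT1, hT2⟩ : ∃ T : ℕ, T0 ≤ T ∧ 4 ^ (i0 + J) + h₀ ≤ T :=
    ⟨max _ _, le_max_left _ _, le_max_right _ _⟩
  have hle : ∀ j < J, 4 * 4 ^ (i0 + j) ≤ 4 ^ (i0 + J) := fun j hj => by
    rw [← pow_succ']; exact Nat.pow_le_pow_right (by norm_num) (by omega)
  have key : ∀ m, T ≤ m → ∑ j ∈ range J, c / (4 * G * 4 ^ (i0 + j)) * (1 / ((j : ℝ) + 1)) *
      ∑ D ∈ Ico (4 ^ (i0 + j)) (2 * 4 ^ (i0 + j)), ind (bad (m - D)) ≤ Λ := by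
    intro m hm
    have h1 : ∀ j ∈ range J, c / (4 * G * 4 ^ (i0 + j)) * (1 / ((j : ℝ) + 1)) *
        ∑ D ∈ Ico (4 ^ (i0 + j)) (2 * 4 ^ (i0 + j)), ind (bad (m - D)) ≤
        h m (4 ^ (i0 + j) + h₀) - h m (4 ^ (i0 + (j + 1)) + h₀) := by
      intro j hj
      have hj' := hle j (mem_range.1 hj)
      have hpj := xscale_pow j
      have hg : G * (j + 1) ≤ 4 ^ (i0 + j) := by
        rw [pow_add]; exact Nat.mul_le_mul (by omega) (by omega)
      have hg2 : 2 * (i0 + j) + 2 + g0 ≤ G * (j + 1) := by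
        have : 2 * j ≤ G * j := Nat.mul_le_mul_right j (by omega)
        rw [mul_add G j 1]; omega
      have hi0 : 4 ^ i0 ≤ 4 ^ (i0 + j) := Nat.pow_le_pow_right (by norm_num) (by omega)
      have hbl := xscale_block (fun D => h m (D + h₀)) (4 ^ (i0 + j)) (G * (j + 1)) hg
        fun D D' h1 h2 => anti m _ _ (by omega) (by omega)
      have hlow : ∀ D ∈ Ico (4 ^ (i0 + j)) (2 * 4 ^ (i0 + j)),
          c / (4 * 4 ^ (i0 + j)) * ind (bad (m - D)) ≤
            h m (D + h₀) - h m (D + G * (j + 1) + h₀) := by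
        intro D hD
        rw [mem_Ico] at hD
        by_cases hbad : bad (m - D)
        · rw [ind_pos hbad, mul_one]
          have h2 := hT0 m (hT1.trans hm) D (mem_Ico.2 ⟨by omega, by omega⟩) hbad
            (D + G * (j + 1) + h₀) (by omega) (by omega)
          have hD1 : (0 : ℝ) < D := by exact_mod_cast (show 0 < D by omega)
          have hD2 : (D : ℝ) ≤ 2 * 4 ^ (i0 + j) := by exact_mod_cast hD.2.le
          have h3 : c / (2 * 4 ^ (i0 + j)) ≤ c / D := div_le_div_of_nonneg_left hc.le hD1 hD2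
          have h4 : (4 : ℝ) * 4 ^ (i0 + j) * 2 ^ g0 ≤ 2 ^ (D + G * (j + 1) + h₀ - D) := by
            have : (4 : ℝ) * 4 ^ (i0 + j) * 2 ^ g0 = 2 ^ (2 * (i0 + j) + 2 + g0) := by
              rw [pow_add (2 : ℝ) _ g0, pow_add (2 : ℝ) _ 2, pow_mul]; norm_num; ring
            rw [this]
            exact pow_le_pow_right₀ (by norm_num) (by omega)
          have h5 : A / 2 ^ (D + G * (j + 1) + h₀ - D) ≤ c / (8 * 4 ^ (i0 + j)) := by
            rw [div_le_div_iff₀ (by positivity) (by positivity)]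
            rw [div_le_iff₀ hc] at hg0
            have h6 : A ≤ |A| := le_abs_self A
            have h7 : (0 : ℝ) < 4 ^ (i0 + j) := by positivity
            calc A * (8 * 4 ^ (i0 + j)) ≤ |A| * (8 * 4 ^ (i0 + j)) := by gcongr
              _ = 2 * |A| * (4 * 4 ^ (i0 + j)) := by ring
              _ ≤ 2 ^ g0 * c * (4 * 4 ^ (i0 + j)) := by gcongr
              _ = c * (4 * 4 ^ (i0 + j) * 2 ^ g0) := by ring
              _ ≤ _ := by gcongr
          have h8 : c / (2 * 4 ^ (i0 + j)) = 4 * (c / (8 * 4 ^ (i0 + j))) := by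
            field_simp; ring
          have h9 : c / (4 * 4 ^ (i0 + j)) = 2 * (c / (8 * 4 ^ (i0 + j))) := by
            field_simp; ring
          have h10 : 0 ≤ c / (8 * 4 ^ (i0 + j)) := by positivity
          linarith
        · rw [ind_neg hbad, mul_zero, sub_nonneg]
          exact anti m _ _ (by omega) (by omega)
      have h2 := (sum_le_sum hlow).trans hbl
      rw [← mul_sum] at h2
      have e : 4 ^ (i0 + (j + 1)) = 4 * 4 ^ (i0 + j) := by rw [← add_assoc, pow_succ']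
      rw [e]
      have hj0 : (0 : ℝ) < G * (j + 1) := by positivity
      refine le_of_mul_le_mul_left ?_ hj0
      refine le_of_eq_of_le ?_ (h2.trans_eq ?_)
      · field_simp
      · push_cast; ring
    refine (sum_le_sum h1).trans ?_
    rw [sum_range_sub' (fun j => h m (4 ^ (i0 + j) + h₀))]
    have hi0 : 4 ^ (i0 + 0) ≤ 4 ^ (i0 + J) := Nat.pow_le_pow_right (by norm_num) (by omega)
    linarith [(hb m (4 ^ (i0 + 0) + h₀) (by omega)).2, (hb m (4 ^ (i0 + J) + h₀) (by omega)).1]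
  obtain ⟨M₀, hM₀⟩ := exists_nat_ge (2 * T / ε)
  refine ⟨M₀, fun M hM N => ?_⟩
  simp only [abs_of_nonneg (ind_nonneg _)]
  obtain ⟨S, hS⟩ : ∃ S, S = ∑ n ∈ Ico N (N + M), ind (bad n) := ⟨_, rfl⟩
  rw [← hS]
  have h1 := sum_le_card_nsmul (Ico (N + T) (N + T + M)) _ Λ fun m hm =>
    key m (by rw [mem_Ico] at hm; omega)
  rw [sum_comm] at h1
  have h2 : ∀ j ∈ range J, c / (4 * G) * (S - T) * (1 / ((j : ℝ) + 1)) ≤
      ∑ m ∈ Ico (N + T) (N + T + M), c / (4 * G * 4 ^ (i0 + j)) * (1 / ((j : ℝ) + 1)) *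
        ∑ D ∈ Ico (4 ^ (i0 + j)) (2 * 4 ^ (i0 + j)), ind (bad (m - D)) := by
    intro j hj
    have hj' := hle j (mem_range.1 hj)
    rw [← mul_sum, sum_comm]
    have h3 := card_nsmul_le_sum (Ico (4 ^ (i0 + j)) (2 * 4 ^ (i0 + j)))
      (fun D => ∑ m ∈ Ico (N + T) (N + T + M), ind (bad (m - D))) (S - T) fun D hD => by
        rw [mem_Ico] at hD
        rw [hS]
        exact xscale_shift (fun n => ind (bad n)) (fun _ => ind_nonneg _) (fun _ => ind_le_one _)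
          N M T D (by omega)
    rw [Nat.card_Ico, show 2 * 4 ^ (i0 + j) - 4 ^ (i0 + j) = 4 ^ (i0 + j) by omega,
      nsmul_eq_mul] at h3
    refine le_of_eq_of_le ?_ (mul_le_mul_of_nonneg_left h3 (by positivity))
    push_cast
    field_simp
  have h3 := (sum_le_sum h2).trans h1
  rw [← mul_sum, ← hK, Nat.card_Ico, show N + T + M - (N + T) = M by omega, nsmul_eq_mul] at h3
  have hM' : (M₀ : ℝ) ≤ M := by exact_mod_cast hM
  have hM0 : (0 : ℝ) ≤ M := Nat.cast_nonneg M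
  rw [div_le_iff₀ hε] at hM₀
  rw [div_lt_iff₀ (by positivity)] at hJ
  have h4 : c * K * (S - T) ≤ 4 * G * Λ * M := by
    have : c / (4 * G) * (S - T) * K = c * K * (S - T) / (4 * G) := by field_simp
    rw [this, div_le_iff₀ (by positivity)] at h3
    linarith
  have h5 : c * K * (S - T) ≤ c * K * (ε * M / 2) := by
    nlinarith [mul_le_mul_of_nonneg_right hJ.le hM0]
  have h6 := le_of_mul_le_mul_left h5 (by positivity)
  nlinarith [mul_le_mul_of_nonneg_right hM' hε.le]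

end Pool.Agent.MP_4fffd4_nt.Odd
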