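import Mathlib
import Pool.Agent.MP_4fffd4_nt.Odd.Loc2
import Pool.Agent.MP_4fffd4_nt.Odd.Ent2
import Pool.Agent.MP_4fffd4_nt.Odd.Scale
import Pool.Agent.MP_4fffd4_nt.Odd.Weil

/- Correlations in odd characteristic. -/

set_option autoImplicit false

namespace Pool.Agent.MP_4fffd4_nt.Odd

open Polynomial Finset Filter Topology
open scoped BigOperators

variable {F : Type*} [Field F] [Fintype F] {p : ℕ} [Fact p.Prime] [CharP F p]

omit [Fintype F] in
theorem xcorr_lam_irr {P : F[X]} (hP : Irreducible P) : lam P = -1 := by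
  simp [lam, liou, UniqueFactorizationMonoid.card_factors_of_irreducible hP]

omit [Fintype F] in
theorem xcorr_abs {I : Type*} [Fintype I] (Q : Prop) (f : I → F[X]) :
    |ind Q * ∏ i, lam (f i)| ≤ 1 := by
  rw [abs_mul, Finset.abs_prod, Finset.prod_congr rfl fun i _ => abs_lam (f i), prod_const_one,
    mul_one]
  exact abs_ind_le Q

omit [Fintype F] in
theorem xcorr_deg {I : Type*} [Fintype I] (h : I → F[X]) :
    ∃ h₀ : ℕ, ∀ i, (h i).natDegree < h₀ :=
  ⟨univ.sup (fun i => (h i).natDegree) + 1, fun i =>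
    Nat.lt_succ_of_le (le_sup (f := fun i => (h i).natDegree) (mem_univ i))⟩

omit [Fintype F] in
theorem xcorr_deg_mul {P g : F[X]} {D k m : ℕ} (hP : P.natDegree = D) (hg : g.natDegree < k)
    (hm : D + k ≤ m) : (P * g).degree < m := by
  refine degree_le_natDegree.trans_lt ?_
  have := natDegree_mul_le (p := P) (q := g)
  exact_mod_cast (by omega : (P * g).natDegree < m)

theorem xcorr_sum_prm (D : ℕ) (φ : F[X] → ℝ) :
    ∑ P ∈ prm F D, φ P = ∑ d ∈ monF F D, ind (Irreducible d) * φ d := by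
  classical
  rw [prm, sum_filter]
  refine sum_congr rfl fun d _ => ?_
  split_ifs with hd
  · rw [ind_pos hd, one_mul]
  · rw [ind_neg hd, zero_mul]

/-- the correlations averaged over prime dilations of the shifts -/
theorem prime_avg (hp : p ≠ 2) {ι : Type} [Fintype ι] {g : ℕ → F[X] → ℝ} {ρ : ℕ → ℝ} {ρ₀ : ℝ}
    {lo hi : ℕ → ℕ} (hw : Weight p ι g ρ ρ₀ lo hi) {I : Type*} [Fintype I] (i₀ : I) {a : F[X]}
    (ha : a ≠ 0) {h : I → F[X]} (hh : Function.Injective h) {ε : ℝ} (hε : 0 < ε) :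
    ∀ᶠ D in atTop, ∀ᶠ m in atTop,
      |∑ P ∈ prm F D, 𝔼 y ∈ monF F m, ind (a ∣ y) * ∏ i, lam (y + P * h i)| ≤
        ε * (prm F D).card := by
  classical
  obtain ⟨h₀, hh₀⟩ := xcorr_deg h
  let α : I → F[X] := fun j => if j = i₀ then a else h j - h i₀
  let β : I → F[X] := fun j => if j = i₀ then 0 else -1
  let G : I → F[X] → F[X] → ℝ := fun j y d =>
    if j = i₀ then ind (Irreducible d) * ind (a ∣ y - d * h i₀) else lam (y + d * (h j - h i₀))
  have hα : ∀ j, α j ≠ 0 := fun j => by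
    simp only [α]
    split_ifs with hj
    · exact ha
    · exact sub_ne_zero.2 fun e => hj (hh e)
  have hG : Adm α β G := fun j => by
    simp only [α, β, G]
    split_ifs with hj
    · refine ⟨fun y d => ?_, fun y d v => ?_⟩
      · rw [← ind_and]
        exact abs_ind_le _
      · rw [zero_mul, add_zero, add_sub_right_comm]
        exact congrArg _ (ind_congr (dvd_add_left (dvd_mul_right a v)))
    · refine ⟨fun y d => (abs_lam _).le, fun y d v => congrArg lam ?_⟩
      ring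
  filter_upwards [loc_unif hp hw α β hα (half_pos hε), card_prm_ge (F := F)] with D h1 h2
  filter_upwards [h1, eventually_ge_atTop (D + h₀)] with m h3 hm
  have h4 := h3 G hG
  have hq := card_pos' (F := F)
  have key : ∑ P ∈ prm F D, 𝔼 y ∈ monF F m, ind (a ∣ y) * ∏ i, lam (y + P * h i) =
      (Fintype.card F : ℝ) ^ D * TT m D lam G := by
    rw [xcorr_sum_prm, TT, expect_monF_eq D, mul_div_cancel₀ _ (pow_pos hq D).ne']
    refine sum_congr rfl fun d hd => ?_
    have hv : (-(d * h i₀)).degree < m := by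
      rw [degree_neg]
      exact xcorr_deg_mul (mem_monF.1 hd).2 (hh₀ i₀) hm
    rw [← expect_monF_add hv, mul_expect]
    refine expect_congr rfl fun y _ => ?_
    rw [← mul_prod_erase univ _ (mem_univ i₀), ← mul_prod_erase univ _ (mem_univ i₀)]
    have e1 : ∏ j ∈ univ.erase i₀, G j y d =
        ∏ j ∈ univ.erase i₀, lam (y + -(d * h i₀) + d * h j) := by
      refine prod_congr rfl fun j hj => ?_
      simp only [G, if_neg (ne_of_mem_erase hj)]
      congr 1
      ring
    rw [e1]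
    simp only [G, if_pos, ← sub_eq_add_neg, sub_add_cancel]
    ring
  have h5 : (Fintype.card F : ℝ) ^ D ≤ 2 * D * (prm F D).card := by exact_mod_cast h2
  rw [key, abs_mul, abs_of_pos (pow_pos hq D)]
  calc _ ≤ 2 * D * (prm F D).card * |TT m D lam G| := by gcongr
    _ = 2 * (prm F D).card * (D * |TT m D lam G|) := by ring
    _ ≤ 2 * (prm F D).card * (ε / 2) := by gcongr
    _ = _ := by ring

omit [Fintype F] in
theorem xcorr_dil {I : Type*} [Fintype I] {a P x : F[X]} (ha : a ≠ 0) (hP : Irreducible P)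
    (hd : a.natDegree < P.natDegree) {h : I → F[X]} (hx : x.Monic)
    (hh : ∀ i, (h i).natDegree < x.natDegree) :
    ind (a ∣ P * x) * ∏ i, lam (P * x + P * h i) =
      (-1) ^ Fintype.card I * (ind (a ∣ x) * ∏ i, lam (x + h i)) := by
  have hc : IsCoprime a P := (hP.coprime_iff_not_dvd.2 fun hd' =>
    (natDegree_le_of_dvd hd' ha).not_gt hd).symm
  have e : ∀ i, lam (P * x + P * h i) = -1 * lam (x + h i) := fun i => by
    rw [← mul_add, lam_mul hP.ne_zero ?_, xcorr_lam_irr hP]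
    exact (hx.add_of_left (degree_lt_degree (hh i))).ne_zero
  rw [ind_congr (⟨hc.dvd_of_dvd_mul_left, fun h' => h'.mul_left P⟩ : a ∣ P * x ↔ a ∣ x),
    prod_congr rfl fun i _ => e i, prod_mul_distrib, prod_const, card_univ]
  ring

theorem corr_BZ (hp : p ≠ 2) {ι : Type} [Fintype ι] {g : ℕ → F[X] → ℝ} {ρ : ℕ → ℝ} {ρ₀ : ℝ}
    {lo hi : ℕ → ℕ} (hw : Weight p ι g ρ ρ₀ lo hi) {I : Type*} [Fintype I] (i₀ : I) {a : F[X]}
    (ha : a ≠ 0) {h : I → F[X]} (hh : Function.Injective h) :
    BZ fun n => 𝔼 x ∈ monF F n, ind (a ∣ x) * ∏ i, lam (x + h i) := by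
  obtain ⟨h₀, hh₀⟩ := xcorr_deg h
  have hq := card_pos' (F := F)
  have hq2 := two_le_card (F := F)
  obtain ⟨u, hu⟩ : ∃ u : ℕ → ℝ, u = fun n => 𝔼 x ∈ monF F n, ind (a ∣ x) * ∏ i, lam (x + h i) :=
    ⟨_, rfl⟩
  have hb : ∀ n, |u n| ≤ 1 := fun n => by
    rw [hu]
    exact (abs_expect_le _ _).trans (expect_le (monF_nonempty n) fun x _ => xcorr_abs _ _)
  rw [← hu]
  refine BZ.of_ind hb fun ε hε => ?_
  let ℓ : F[X] → Prop × Prop := fun y => (liou y = 1, a ∣ y)
  refine scale_lemma (fun m H => entP ℓ m H / (Fintype.card F : ℝ) ^ H) (fun n => ε ≤ |u n|)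
    (c := ε ^ 2 / (128 * (Fintype.card F : ℝ) ^ h₀)) (A := Real.log (Fintype.card F)) h₀
    (by positivity) (fun m H hH => entP_mem ℓ hH) (fun m H H' h1 h2 => entP_anti ℓ h1 h2) ?_
  filter_upwards [prime_avg hp hw i₀ ha hh (half_pos hε), card_prm_ge (F := F),
    eventually_gt_atTop a.natDegree] with D h1 h2 h3
  filter_upwards [h1, eventually_ge_atTop (Fintype.card F ^ D), eventually_ge_atTop (D + h₀)]
    with m h4 h5 h6 hbad H h7 h8
  have hD : D ≠ 0 := by omega
  have h9 := card_prm_le (F := F) hD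
  obtain ⟨s, hs, hs'⟩ : ∃ s : ℝ, |s| = 1 ∧ s * ((-1) ^ Fintype.card I * u (m - D)) = |u (m - D)| := by
    have e : |(-1) ^ Fintype.card I * u (m - D)| = |u (m - D)| := by
      rw [abs_mul, abs_pow, abs_neg, abs_one, one_pow, one_mul]
    rw [← e]
    rcases le_total 0 ((-1) ^ Fintype.card I * u (m - D)) with k | k
    · exact ⟨1, abs_one, by rw [one_mul, abs_of_nonneg k]⟩
    · exact ⟨-1, by rw [abs_neg, abs_one], by rw [neg_one_mul, abs_of_nonpos k]⟩
  have hε1 : ε ≤ 1 := hbad.trans (hb _)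
  have hθ : |s * (ε / 16)| ≤ 1 / 2 := by
    rw [abs_mul, hs, one_mul, abs_of_pos (by positivity)]
    linarith
  have main := ent_step ℓ (m := m) (D := D) (H₁ := D + h₀) (H₂ := H) (Nat.le_add_right _ _) h7 h8
    (h9.trans h5) (fun P y => ind (a ∣ y) * ∏ i, lam (y + P * h i)) (fun P y => xcorr_abs _ _)
    (fun P hP y y' e v hv => by
      have hv' : v.degree < (D + h₀ : ℕ) :=
        hv.trans_le (by exact_mod_cast Nat.le_add_right D h₀)
      have e1 : (a ∣ y + v) = (a ∣ y' + v) := congrArg Prod.snd (e v hv')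
      rw [e1]
      refine congrArg _ (prod_congr rfl fun i _ => ?_)
      have e2 : (liou (y + (v + P * h i)) = 1) = (liou (y' + (v + P * h i)) = 1) :=
        congrArg Prod.fst (e _ ((degree_add_le _ _).trans_lt
          (max_lt hv' (xcorr_deg_mul (mem_prm.1 hP).2.2 (hh₀ i) le_rfl))))
      rw [add_assoc, add_assoc, lam, lam]
      rcases liou_cases (y + (v + P * h i)) with k | k <;>
        rcases liou_cases (y' + (v + P * h i)) with k' | k'
      · rw [k, k']
      · rw [k, k'] at e2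
        simp at e2
      · rw [k, k'] at e2
        simp at e2
      · rw [k, k']) hθ
  have e3 : ∀ P ∈ prm F D, 𝔼 x ∈ monF F (m - D), ind (a ∣ P * x) * ∏ i, lam (P * x + P * h i) =
      (-1) ^ Fintype.card I * u (m - D) := fun P hP => by
    obtain ⟨-, k1, k2⟩ := mem_prm.1 hP
    rw [hu, mul_expect]
    refine expect_congr rfl fun x hx => ?_
    obtain ⟨k3, k4⟩ := mem_monF.1 hx
    refine xcorr_dil ha k1 (k2 ▸ h3) k3 fun i => ?_
    have := hh₀ i
    omega
  rw [sum_sub_distrib, sum_congr rfl e3, sum_const, nsmul_eq_mul] at main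
  refine main.trans (add_le_add (sub_le_sub_left ?_ _) ?_)
  · obtain ⟨S, hS⟩ : ∃ S : ℝ,
        S = ∑ P ∈ prm F D, 𝔼 y ∈ monF F m, ind (a ∣ y) * ∏ i, lam (y + P * h i) := ⟨_, rfl⟩
    rw [← hS] at h4 ⊢
    obtain ⟨N, hN⟩ : ∃ N : ℝ, N = (prm F D).card := ⟨_, rfl⟩
    have k0 : (Fintype.card F : ℝ) ^ D ≤ 2 * D * N := by
      rw [hN]
      exact_mod_cast h2
    have hN0 : 0 ≤ N := hN ▸ Nat.cast_nonneg _
    rw [← hN] at h4 ⊢
    have hD0 : (0 : ℝ) < D := by positivity
    have k1 : s * S ≤ ε / 2 * N := (le_abs_self _).trans (by rwa [abs_mul, hs, one_mul])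
    have k2 : s ^ 2 = 1 := by rw [← sq_abs, hs, one_pow]
    have k3 : ε ^ 2 / 64 * N ≤ s * (ε / 16) * (N * ((-1) ^ Fintype.card I * u (m - D)) - S) -
        4 * (s * (ε / 16)) ^ 2 * N := by
      have k4 : s * (ε / 16) * (N * ((-1) ^ Fintype.card I * u (m - D)) - S) =
          ε / 16 * (N * |u (m - D)| - s * S) := by
        rw [← hs']
        ring
      have k5 : N * ε ≤ N * |u (m - D)| := mul_le_mul_of_nonneg_left hbad hN0
      have k6 : ε / 16 * (ε / 2 * N) ≤ ε / 16 * (N * |u (m - D)| - s * S) :=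
        mul_le_mul_of_nonneg_left (by linarith) (by positivity)
      rw [k4, mul_pow, k2]
      linarith
    refine le_trans ?_ (div_le_div_of_nonneg_right k3 (by positivity))
    rw [div_div, div_le_div_iff₀ (by positivity) (by positivity), pow_add]
    calc _ = ε ^ 2 * (Fintype.card F : ℝ) ^ h₀ * (Fintype.card F : ℝ) ^ D := by ring
      _ ≤ ε ^ 2 * (Fintype.card F : ℝ) ^ h₀ * (2 * D * N) := by gcongr
      _ = _ := by ring
  · have k0 : (D : ℝ) * (prm F D).card ≤ (Fintype.card F : ℝ) ^ D := by exact_mod_cast h9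
    have k1 : 0 ≤ Real.log (Fintype.card F) := Real.log_nonneg (by linarith)
    obtain ⟨k, rfl⟩ : ∃ k, H = D + k := ⟨H - D, by omega⟩
    rw [Nat.add_sub_cancel_left, div_le_div_iff₀ (by positivity) (by positivity), pow_add]
    calc _ ≤ (Fintype.card F : ℝ) ^ D * Real.log (Fintype.card F) * (Fintype.card F : ℝ) ^ k := by
          gcongr
      _ = _ := by ring

end Pool.Agent.MP_4fffd4_nt.Odd
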