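import Mathlib
import Pool.Agent.MP_4fffd4_nt.Odd.Defs

/- Moduli onto which the derivatives map surjectively. -/

set_option autoImplicit false

namespace Pool.Agent.MP_4fffd4_nt.Odd

open Polynomial Finset Filter Topology
open scoped BigOperators

variable {F : Type*} [Field F] [Fintype F] {p : ℕ} [Fact p.Prime] [CharP F p]

omit [Fintype F] [Fact p.Prime] [CharP F p] in
theorem Onto.mono {ν ν' : ℕ} {e : F[X]} (h : Onto ν e) (hν : ν ≤ ν') : Onto ν' e := fun x =>
  let ⟨v, h1, h2⟩ := h x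
  ⟨v, h1.trans_le (by exact_mod_cast hν), h2⟩

omit [Fintype F] [Fact p.Prime] [CharP F p] in
theorem xsurj_mod {e : F[X]} (he : e.Monic) (x : F[X]) : (x %ₘ e).degree < e.natDegree := by
  rw [← degree_eq_natDegree he.ne_zero]; exact degree_modByMonic_lt x he

omit [Fintype F] [Fact p.Prime] [CharP F p] in
theorem xsurj_dvd (e x : F[X]) (he : e.Monic) : e ∣ x - x %ₘ e :=
  ⟨x /ₘ e, by rw [sub_eq_iff_eq_add', modByMonic_add_div]⟩

omit [Fintype F] [Fact p.Prime] [CharP F p] in
theorem xsurj_zero {e x : F[X]} (he : e.Monic) (h : e ∣ x) (hx : x.degree < e.natDegree) :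
    x = 0 :=
  eq_zero_of_dvd_of_degree_lt h (by rwa [degree_eq_natDegree he.ne_zero])

omit [Fact p.Prime] [CharP F p] in
theorem expect_dvd {e Q : F[X]} (he : e.Monic) (hQ : IsCoprime Q e) {ν : ℕ} (h : Onto ν e)
    (D₀ : F[X]) : 𝔼 v ∈ ltF F ν, ind (e ∣ D₀ + Q * derivative v) =
      1 / (Fintype.card F : ℝ) ^ e.natDegree := by
  classical
  let f : degreeLT F ν →+ degreeLT F e.natDegree :=
    { toFun := fun v => ⟨(Q * derivative v.1) %ₘ e, mem_degreeLT.2 (xsurj_mod he _)⟩
      map_zero' := Subtype.ext (by simp)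
      map_add' := fun v w => Subtype.ext (by simp [mul_add, add_modByMonic]) }
  have hf : Function.Surjective f := by
    intro x
    obtain ⟨a, b, hab⟩ := hQ
    obtain ⟨v, h1, h2⟩ := h (a * x.1)
    refine ⟨⟨v, mem_degreeLT.2 h1⟩, Subtype.ext ?_⟩
    refine sub_eq_zero.1 (xsurj_zero he ?_ (mem_degreeLT.1 (sub_mem (f _).2 x.2)))
    have h3 := xsurj_dvd e (Q * derivative v) he
    have : (Q * derivative v) %ₘ e - x.1 = -(Q * derivative v - (Q * derivative v) %ₘ e) -
        Q * (a * x.1 - derivative v) - e * (b * x.1) := by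
      linear_combination (x.1) * hab
    change e ∣ (Q * derivative v) %ₘ e - x.1
    rw [this]
    exact dvd_sub (dvd_sub (dvd_neg.2 h3) (h2.mul_left Q)) (dvd_mul_right _ _)
  let y₀ : degreeLT F e.natDegree := ⟨(-D₀) %ₘ e, mem_degreeLT.2 (xsurj_mod he _)⟩
  have key : ∀ y : degreeLT F e.natDegree, e ∣ D₀ + y.1 ↔ y = y₀ := by
    intro y
    have h3 := xsurj_dvd e (-D₀) he
    have h4 : D₀ + y.1 = (y.1 - y₀.1) - (-D₀ - (-D₀) %ₘ e) := by simp [y₀]; ring
    rw [h4, dvd_sub_left h3]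
    exact ⟨fun h5 => Subtype.ext (sub_eq_zero.1 (xsurj_zero he h5
      (mem_degreeLT.1 (sub_mem y.2 y₀.2)))), fun h5 => by simp [h5]⟩
  have h5 : ∀ v : degreeLT F ν, ind (e ∣ D₀ + Q * derivative v.1) = ind (f v = y₀) := by
    intro v
    refine ind_congr (Iff.trans ?_ (key _))
    have h3 := xsurj_dvd e (Q * derivative v.1) he
    have h4 : D₀ + Q * derivative v.1 = D₀ + (f v).1 +
        (Q * derivative v.1 - (Q * derivative v.1) %ₘ e) := by simp [f]
    rw [h4, dvd_add_left h3]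
  rw [expect_ltF, Finset.expect_congr rfl fun v _ => h5 v,
    expect_surj f hf fun y => ind (y = y₀), Fintype.expect_eq_sum_div_card, card_degreeLT,
    Finset.sum_eq_single y₀ (fun y _ hy => ind_neg hy) (by simp), ind_pos rfl, Nat.cast_pow]

/-- `β` has annihilator `e` and vanishes on derivatives -/
def XPrim (ν : ℕ) (e : F[X]) (β : F[X] →ₗ[F] F) : Prop :=
  (∀ s, (∀ x, β (s * x) = 0) ↔ e ∣ s) ∧ ∀ v : F[X], v.degree < ν → β (derivative v) = 0

omit [Fintype F] [Fact p.Prime] [CharP F p] in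
theorem xsurj_exists {ν : ℕ} {e : F[X]} (he : e ≠ 0) (h : ¬ Onto ν e) :
    ∃ (d : F[X]) (β : F[X] →ₗ[F] F), d.Monic ∧ d ∣ e ∧ 0 < d.natDegree ∧ XPrim ν d β := by
  simp only [Onto, not_forall, not_exists, not_and] at h
  obtain ⟨x, hx⟩ := h
  let S : Submodule F F[X] := (degreeLT F ν).map derivative ⊔ LinearMap.range (LinearMap.mulLeft F e)
  have hxS : x ∉ S := by
    intro h
    obtain ⟨_, ⟨v, hv, rfl⟩, _, ⟨w, rfl⟩, h1⟩ := Submodule.mem_sup.1 h
    exact hx v (mem_degreeLT.1 hv) ⟨w, by rw [← h1]; simp⟩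
  obtain ⟨β, h1, h2⟩ := Submodule.exists_le_ker_of_notMem hxS
  let I : Ideal F[X] :=
    { carrier := {s | ∀ x, β (s * x) = 0}
      add_mem' := fun {a b} ha hb x => by rw [add_mul, map_add, ha x, hb x, add_zero]
      zero_mem' := fun x => by simp
      smul_mem' := fun c s hs x => by rw [smul_eq_mul, mul_comm c, mul_assoc]; exact hs _ }
  have heI : e ∈ I := fun x => h2 (Submodule.mem_sup_right ⟨x, rfl⟩)
  set g := Submodule.IsPrincipal.generator I
  have hg : ∀ s, s ∈ I ↔ g ∣ s := fun s => Submodule.IsPrincipal.mem_iff_generator_dvd I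
  have hg0 : g ≠ 0 := ne_zero_of_dvd_ne_zero he ((hg e).1 heI)
  have hm : (g * C g.leadingCoeff⁻¹).Monic := monic_mul_leadingCoeff_inv hg0
  have hd : ∀ s, s ∈ I ↔ g * C g.leadingCoeff⁻¹ ∣ s := fun s => by
    rw [hg, IsUnit.mul_right_dvd
      (isUnit_C.2 (inv_ne_zero (leadingCoeff_ne_zero.2 hg0)).isUnit)]
  refine ⟨_, β, hm, (hd e).1 heI, Nat.pos_of_ne_zero fun h0 => h1 ?_, hd,
    fun v hv => h2 (Submodule.mem_sup_left ⟨v, mem_degreeLT.2 hv, rfl⟩)⟩
  have := (hd 1).2 (by rw [hm.natDegree_eq_zero.1 h0]) x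
  rwa [one_mul] at this

omit [Fact p.Prime] [CharP F p] in
theorem xsurj_lt {ν : ℕ} {e : F[X]} {β : F[X] →ₗ[F] F} (he : e.Monic) (hs : Squarefree e)
    (h0 : 0 < e.natDegree) (h : XPrim ν e β) : ν < 2 * e.natDegree := by
  by_contra hν
  have he0 : ∀ x, β (e * x) = 0 := (h.1 e).2 dvd_rfl
  have h1 : e ∣ derivative e := by
    refine (h.1 _).1 fun x => ?_
    have h2 : (e * (x %ₘ e)).degree < ν := by
      rw [degree_mul, degree_eq_natDegree he.ne_zero]
      refine (WithBot.add_lt_add_left (by simp) (xsurj_mod he x)).trans_le ?_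
      exact_mod_cast (by omega : e.natDegree + e.natDegree ≤ ν)
    have h3 := h.2 _ h2
    rw [derivative_mul, map_add, he0, add_zero] at h3
    conv_lhs => rw [← modByMonic_add_div x e, mul_add, map_add, h3, mul_left_comm, he0, add_zero]
  have h2 : IsUnit e := (PerfectField.separable_iff_squarefree.2 hs).isUnit_of_dvd' dvd_rfl h1
  rw [he.isUnit_iff.1 h2] at h0
  simp at h0

omit [Fact p.Prime] [CharP F p] in
open Classical in
theorem xsurj_ker {e : F[X]} {β : F[X] →ₗ[F] F} (he : e.Monic)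
    (h : ∀ s, (∀ x, β (s * x) = 0) ↔ e ∣ s) {r : ℕ} (hr : r ≤ e.natDegree) :
    ((ltF F e.natDegree).filter fun δ => ∀ x : F[X], x.degree < r → β (δ * x) = 0).card =
      Fintype.card F ^ (e.natDegree - r) := by
  set D := e.natDegree
  let B : degreeLT F D →ₗ[F] degreeLT F r →ₗ[F] F :=
    ((LinearMap.mul F F[X]).compr₂ β).compl₁₂ (degreeLT F D).subtype (degreeLT F r).subtype
  have hB : ∀ a b, B a b = β (a.1 * b.1) := fun a b => rfl
  haveI : ∀ n, FiniteDimensional F (degreeLT F n) := fun n => Module.Finite.of_finite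
  have hfr : ∀ n, Module.finrank F (degreeLT F n) = n := fun n => by
    rw [(degreeLTEquiv F n).finrank_eq]; simp
  have hinj : Function.Injective B.flip := by
    rw [injective_iff_map_eq_zero]
    intro x hx
    refine Subtype.ext (xsurj_zero he ((h _).1 fun y => ?_)
      ((mem_degreeLT.1 x.2).trans_le (by exact_mod_cast hr)))
    have h1 := LinearMap.congr_fun hx ⟨y %ₘ e, mem_degreeLT.2 (xsurj_mod he y)⟩
    rw [LinearMap.flip_apply, hB, LinearMap.zero_apply, mul_comm] at h1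
    conv_lhs => rw [← modByMonic_add_div y e, mul_add, map_add, h1, mul_left_comm,
      (h e).2 dvd_rfl, add_zero]
  have hs := LinearMap.flip_injective_iff₁.1 hinj
  have h2 := B.finrank_range_add_finrank_ker
  rw [LinearMap.range_eq_top.2 hs, finrank_top, hfr] at h2
  have h3 : Module.finrank F (degreeLT F r →ₗ[F] F) = r := by
    rw [Module.finrank_linearMap, hfr, Module.finrank_self, mul_one]
  have h4 : Module.finrank F (LinearMap.ker B) = D - r := by omega
  rw [← h4, ← Module.card_eq_pow_finrank (K := F) (V := LinearMap.ker B), Fintype.card_subtype]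
  symm
  refine card_bij (fun δ _ => δ.1) (fun δ hδ => ?_) (fun _ _ _ _ => Subtype.ext) fun δ hδ => ?_
  · refine mem_filter.2 ⟨mem_ltF.2 (mem_degreeLT.1 δ.2), fun x hx => ?_⟩
    exact LinearMap.congr_fun (LinearMap.mem_ker.1 (mem_filter.1 hδ).2) ⟨x, mem_degreeLT.2 hx⟩
  · obtain ⟨h5, h6⟩ := mem_filter.1 hδ
    exact ⟨⟨δ, mem_degreeLT.2 (mem_ltF.1 h5)⟩, mem_filter.2 ⟨mem_univ _,
      LinearMap.mem_ker.2 (LinearMap.ext fun x => h6 x.1 (mem_degreeLT.1 x.2))⟩, rfl⟩

omit [Fintype F] in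
theorem xsurj_agree {ν : ℕ} {β γ : F[X] →ₗ[F] F}
    (hβ : ∀ v : F[X], v.degree < ν → β (derivative v) = 0)
    (hγ : ∀ v : F[X], v.degree < ν → γ (derivative v) = 0)
    (h : ∀ i : Fin (ν / p), β (X ^ (p * (i + 1) - 1)) = γ (X ^ (p * (i + 1) - 1)))
    {x : F[X]} (hx : x.degree < (ν - 1 : ℕ)) : β x = γ x := by
  have hp := (Fact.out : p.Prime).pos
  have key : ∀ j, j < ν - 1 → β (X ^ j) = γ (X ^ j) := by
    intro j hj
    by_cases hd : p ∣ j + 1
    · obtain ⟨i, hi⟩ := hd
      obtain ⟨i, rfl⟩ : ∃ k, i = k + 1 := ⟨i - 1, by rcases i with _ | i <;> simp at hi ⊢⟩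
      have h1 : i < ν / p := by
        rw [Nat.lt_iff_add_one_le, Nat.le_div_iff_mul_le hp, mul_comm]; omega
      have := h ⟨i, h1⟩
      rwa [show p * (i + 1) - 1 = j by omega] at this
    · have h1 : ((j + 1 : ℕ) : F) ≠ 0 := fun h0 => hd ((CharP.cast_eq_zero_iff F p _).1 h0)
      have h2 : (X ^ (j + 1) : F[X]).degree < ν := by
        rw [degree_X_pow]; exact_mod_cast (by omega : j + 1 < ν)
      have h3 : derivative (X ^ (j + 1) : F[X]) = ((j + 1 : ℕ) : F) • X ^ j := by
        rw [derivative_X_pow, Nat.add_sub_cancel, smul_eq_C_mul]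
      have h4 := hβ _ h2
      have h5 := hγ _ h2
      rw [h3, map_smul, smul_eq_mul, mul_eq_zero] at h4 h5
      rw [h4.resolve_left h1, h5.resolve_left h1]
  by_cases h0 : x = 0
  · simp [h0]
  rw [as_sum_range' x _ ((natDegree_lt_iff_degree_lt h0).2 hx), map_sum, map_sum]
  refine sum_congr rfl fun j hj => ?_
  rw [← smul_X_eq_monomial, map_smul, map_smul, key j (mem_range.1 hj)]

open Classical in
theorem xsurj_card {ν D : ℕ} (h1 : D < ν) (h2 : ν < 2 * D) :
    ((monF F D).filter fun e => ∃ β, XPrim ν e β).card ≤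
      Fintype.card F ^ (ν / p) * Fintype.card F ^ (2 * D + 1 - ν) := by
  set S := (monF F D).filter fun e => ∃ β, XPrim ν e β
  have hS : ∀ e ∈ S, ∃ β, XPrim ν e β := fun e he => (mem_filter.1 he).2
  choose! β hβ using hS
  let τ : F[X] → Fin (ν / p) → F := fun e i => β e (X ^ (p * (i + 1) - 1))
  have := card_le_mul_card_image_of_maps_to (s := S) (t := univ) (f := τ) (fun _ _ => mem_univ _)
    (Fintype.card F ^ (2 * D + 1 - ν)) fun c _ => ?_
  · rwa [card_univ, Fintype.card_fun, Fintype.card_fin, mul_comm] at this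
  rcases (S.filter fun e => τ e = c).eq_empty_or_nonempty with h | ⟨e₀, h₀⟩
  · simp [h]
  obtain ⟨h3, h4⟩ := mem_filter.1 h₀
  obtain ⟨h5, h6⟩ := mem_monF.1 (mem_filter.1 h3).1
  have h7 := xsurj_ker h5 (hβ e₀ h3).1 (r := ν - 1 - D) (by omega)
  rw [h6, show D - (ν - 1 - D) = 2 * D + 1 - ν by omega] at h7
  rw [← h7]
  refine card_le_card_of_injOn (fun e => e - e₀) (fun e he => ?_) fun a _ b _ h =>
    sub_left_injective h
  obtain ⟨h8, h9⟩ := mem_filter.1 he
  obtain ⟨h10, h11⟩ := mem_monF.1 (mem_filter.1 h8).1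
  have hd : e.degree = D := by rw [degree_eq_natDegree h10.ne_zero, h11]
  refine mem_filter.2 ⟨mem_ltF.2 ?_, fun x hx => ?_⟩
  · rw [← hd]
    exact degree_sub_lt (by rw [hd, degree_eq_natDegree h5.ne_zero, h6]) h10.ne_zero
      (by rw [h10, h5])
  · have h12 : (e * x).degree < (ν - 1 : ℕ) := by
      rw [degree_mul, hd]
      refine (WithBot.add_lt_add_left (by simp) hx).trans_le ?_
      exact_mod_cast (by omega : D + (ν - 1 - D) ≤ ν - 1)
    rw [sub_mul, map_sub, ((hβ e₀ h3).1 e₀).2 dvd_rfl, sub_zero,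
      ← xsurj_agree (p := p) (hβ e h8).2 (hβ e₀ h3).2 (fun i => congrFun (h9.trans h4.symm) i) h12]
    exact ((hβ e h8).1 e).2 dvd_rfl x

theorem card_bad {ν D : ℕ} (hD : D < ν) :
    ∑ e ∈ monF F D, ind (Squarefree e ∧ ¬ Onto ν e) ≤
      (D + 1) * (Fintype.card F : ℝ) ^ (ν / p + 1 + 2 * D) / (Fintype.card F : ℝ) ^ ν := by
  classical
  have hq := card_pos' (F := F)
  have hq1 : (1 : ℝ) ≤ Fintype.card F := one_le_two.trans two_le_card
  let S : ℕ → Finset F[X] := fun k =>
    if ν < 2 * k then (monF F k).filter fun e => ∃ β, XPrim ν e β else ∅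
  calc _ ≤ ∑ e ∈ monF F D, ∑ k ∈ range (D + 1), ∑ d ∈ S k, ind (d ∣ e) := by
        refine sum_le_sum fun e he => ?_
        obtain ⟨h1, h2⟩ := mem_monF.1 he
        rw [sum_sigma']
        refine ind_le_sum fun ⟨h3, h4⟩ => ?_
        obtain ⟨d, β, h5, h6, h7, h8⟩ := xsurj_exists h1.ne_zero h4
        have h9 := natDegree_le_of_dvd h6 h1.ne_zero
        refine ⟨⟨d.natDegree, d⟩, mem_sigma.2 ⟨mem_range.2 (by simp only; omega), ?_⟩, h6⟩
        simp only [S, if_pos (xsurj_lt h5 (h3.squarefree_of_dvd h6) h7 h8)]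
        exact mem_filter.2 ⟨mem_monF.2 ⟨h5, rfl⟩, β, h8⟩
    _ ≤ ∑ k ∈ range (D + 1),
          (Fintype.card F : ℝ) ^ (ν / p + 1 + 2 * D) / (Fintype.card F : ℝ) ^ ν := by
        rw [sum_comm]
        refine sum_le_sum fun k hk => ?_
        have hk' := mem_range.1 hk
        rw [sum_comm]
        by_cases h : ν < 2 * k
        swap
        · simp only [S, if_neg h, sum_empty]; positivity
        have h1 : ∀ d ∈ S k, ∑ e ∈ monF F D, ind (d ∣ e) ≤
            (Fintype.card F : ℝ) ^ D / Fintype.card F ^ k := by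
          intro d hd
          simp only [S, if_pos h] at hd
          obtain ⟨h2, h3⟩ := mem_monF.1 (mem_filter.1 hd).1
          rw [sum_monF, ← h3]
          exact sum_dvd_monic (fun y : degreeLT F D => X ^ D + y.1)
            (fun _ _ h => Subtype.ext (add_left_cancel h)) monic_add_LT h2
        refine (sum_le_card_nsmul _ _ _ h1).trans ?_
        have h2 : ((S k).card : ℝ) ≤ Fintype.card F ^ (ν / p) * Fintype.card F ^ (2 * k + 1 - ν) := by
          simp only [S, if_pos h]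
          exact_mod_cast xsurj_card (F := F) (p := p) (by omega) h
        rw [nsmul_eq_mul]
        refine (mul_le_mul_of_nonneg_right h2 (by positivity)).trans ?_
        rw [← mul_div_assoc, div_le_div_iff₀ (by positivity) (by positivity), ← pow_add, ← pow_add,
          ← pow_add, ← pow_add]
        exact pow_le_pow_right₀ hq1 (by omega)
    _ = _ := by rw [sum_const, card_range, nsmul_eq_mul, Nat.cast_add_one, mul_div_assoc]

end Pool.Agent.MP_4fffd4_nt.Odd
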