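import Mathlib
import Pool.Agent.MP_4fffd4_nt.Odd.Defs

/- The windows: degrees and good polynomials. -/

set_option autoImplicit false

namespace Pool.Agent.MP_4fffd4_nt.Odd

open Polynomial Finset Filter Topology
open scoped BigOperators

variable {F : Type*} [Field F] [Fintype F] {p M : ℕ}

theorem xwin1_tt (hp : 3 ≤ p) : 100 * p ^ 2 * tt p M ≤ M / p := by
  rw [Nat.le_div_iff_mul_le (by omega)]
  have := Nat.div_mul_le_self M (100 * p ^ 3)
  calc 100 * p ^ 2 * tt p M * p = M / (100 * p ^ 3) * (100 * p ^ 3) := by rw [tt]; ring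
    _ ≤ M := this

theorem xwin1_pt (hp : 3 ≤ p) : 3 * (p * tt p M) ≤ p ^ 2 * tt p M ∧ 3 * tt p M ≤ p * tt p M := by
  refine ⟨?_, Nat.mul_le_mul_right _ hp⟩
  rw [sq, mul_assoc]
  exact Nat.mul_le_mul_right _ hp

theorem xwin1_mem (hp : 3 ≤ p) {j : ℕ} (hj : j < p - 1) {R : F[X]} (hR : R ∈ win F p M j) :
    R.Monic ∧ Irreducible R ∧ M / p < R.natDegree + (j + 2) * tt p M ∧
      R.natDegree + (j + 1) * tt p M ≤ M / p ∧ (j + 2) * tt p M ≤ p * tt p M := by
  obtain ⟨h1, h2, h3, h4⟩ := mem_prmI.1 hR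
  have h5 : (j + 2) * tt p M ≤ p * tt p M := Nat.mul_le_mul_right _ (by omega)
  have h6 : (j + 1) * tt p M ≤ (j + 2) * tt p M := Nat.mul_le_mul_right _ (by omega)
  have h7 := xwin1_tt (M := M) hp
  have h8 := xwin1_pt (M := M) hp
  rw [mul_assoc] at h7
  exact ⟨h1, h2, by omega, by omega, h5⟩

theorem xwin1_memTW (hp : 3 ≤ p) {P : Fin (p - 1) → F[X]} (hP : P ∈ TW F p M) (j : Fin (p - 1)) :
    (P j).Monic ∧ Irreducible (P j) ∧ M / p < (P j).natDegree + (j + 2) * tt p M ∧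
      (P j).natDegree + (j + 1) * tt p M ≤ M / p ∧ (j + 2) * tt p M ≤ p * tt p M :=
  xwin1_mem hp j.2 (Fintype.mem_piFinset.1 hP j)

omit [Fintype F] in
theorem xwin1_coprime {R S : F[X]} (hR : R.Monic) (hR' : Irreducible R) (hS : S.Monic)
    (hS' : Irreducible S) (h : R ≠ S) : IsCoprime R S :=
  hR'.coprime_iff_not_dvd.2 fun hd =>
    h (eq_of_monic_of_associated hR hS (hR'.associated_of_dvd hS' hd))

theorem xwin1_ne (hp : 3 ≤ p) {P : Fin (p - 1) → F[X]} (hP : P ∈ TW F p M) {i j : Fin (p - 1)}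
    (h : i ≠ j) : IsCoprime (P i) (P j) := by
  obtain ⟨a1, a2, a3, a4, -⟩ := xwin1_memTW hp hP i
  obtain ⟨b1, b2, b3, b4, -⟩ := xwin1_memTW hp hP j
  refine xwin1_coprime a1 a2 b1 b2 fun e => ?_
  rw [e] at a3 a4
  rcases lt_or_gt_of_ne (fun e' => h (Fin.ext e') : (i : ℕ) ≠ j) with hl | hl
  · have : (i + 2) * tt p M ≤ (j + 1) * tt p M := Nat.mul_le_mul_right _ (by omega)
    omega
  · have : (j + 2) * tt p M ≤ (i + 1) * tt p M := Nat.mul_le_mul_right _ (by omega)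
    omega

theorem xwin1_sum {k : ℕ} (hk : 2 ≤ k) : 3 ≤ ∑ j : Fin k, ((j : ℕ) + 1) := by
  obtain ⟨n, rfl⟩ := Nat.exists_eq_add_of_le' hk
  rw [Fin.sum_univ_succ, Fin.sum_univ_succ]
  simp only [Fin.val_zero, Fin.val_succ]
  omega

theorem xwin1_lt (hp : 3 ≤ p) : M < p * (M / p + 1) := Nat.lt_mul_div_succ M (by omega)

theorem xwin1_count (hp : 3 ≤ p) {W : F[X]} (h0 : W ≠ 0) (hW : W.natDegree ≤ M) {j : ℕ}
    (hj : j < p - 1) : ∑ R ∈ win F p M j, ind (R ∣ W) ≤ (2 * p : ℝ) := by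
  classical
  have e : ∑ R ∈ win F p M j, ind (R ∣ W) = (((win F p M j).filter (· ∣ W)).card : ℝ) := by
    rw [card_filter]
    push_cast
    refine sum_congr rfl fun R _ => ?_
    by_cases h : R ∣ W
    · rw [ind_pos h, if_pos h]
    · rw [ind_neg h, if_neg h]
  rw [e]
  set S := (win F p M j).filter (· ∣ W) with hS
  have hm : ∀ R ∈ S, R.Monic ∧ Irreducible R ∧ M / p - p * tt p M + 1 ≤ R.natDegree ∧ R ∣ W := by
    intro R hR
    obtain ⟨h1, h2⟩ := mem_filter.1 hR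
    obtain ⟨a1, a2, a3, a4, a5⟩ := xwin1_mem hp hj h1
    have h7 := xwin1_tt (M := M) hp
    have h8 := xwin1_pt (M := M) hp
    rw [mul_assoc] at h7
    exact ⟨a1, a2, by omega, h2⟩
  have hd : (∏ R ∈ S, R) ∣ W := prod_dvd_of_coprime (fun R hR T hT hne =>
    xwin1_coprime (hm R hR).1 (hm R hR).2.1 (hm T hT).1 (hm T hT).2.1 hne)
    fun R hR => (hm R hR).2.2.2
  have h1 := natDegree_le_of_dvd hd h0
  rw [natDegree_prod_of_monic _ _ fun R hR => (hm R hR).1] at h1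
  have h2 : S.card * (M / p - p * tt p M + 1) ≤ ∑ R ∈ S, R.natDegree := by
    rw [← smul_eq_mul]
    exact card_nsmul_le_sum _ _ _ fun R hR => (hm R hR).2.2.1
  have h7 := xwin1_tt (M := M) hp
  have h8 := xwin1_pt (M := M) hp
  rw [mul_assoc] at h7
  have h3 : p * (M / p + 1) ≤ 2 * p * (M / p - p * tt p M + 1) := by
    rw [mul_comm 2 p, mul_assoc]
    exact Nat.mul_le_mul_left _ (by omega)
  have h4 := xwin1_lt (M := M) hp
  have h5 : S.card ≤ 2 * p := Nat.le_of_mul_le_mul_right (c := M / p - p * tt p M + 1)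
    (by omega) (Nat.succ_pos _)
  exact_mod_cast h5

theorem mem_TW (hp : 3 ≤ p) {P : Fin (p - 1) → F[X]} (hP : P ∈ TW F p M) (j : Fin (p - 1)) :
    (P j).Monic ∧ Irreducible (P j) ∧ M / p - p * tt p M < (P j).natDegree ∧
      (P j).natDegree ≤ high p M := by
  obtain ⟨a1, a2, a3, a4, a5⟩ := xwin1_memTW hp hP j
  have h7 := xwin1_tt (M := M) hp
  have h8 := xwin1_pt (M := M) hp
  rw [mul_assoc] at h7
  have h6 : tt p M ≤ (j + 1) * tt p M := Nat.le_mul_of_pos_left _ (Nat.succ_pos _)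
  refine ⟨a1, a2, by omega, ?_⟩
  rw [high]
  omega

theorem deg_TW (hp : 3 ≤ p) {P : Fin (p - 1) → F[X]} (hP : P ∈ TW F p M) :
    (∏ j, P j).natDegree + 3 * tt p M ≤ (p - 1) * (M / p) ∧
      M ≤ (∏ j, P j).natDegree + high p M + low p M := by
  rw [natDegree_prod_of_monic _ _ fun j _ => (xwin1_memTW hp hP j).1]
  have hc : ∀ b : ℕ, ∑ _j : Fin (p - 1), b = (p - 1) * b := fun b => by simp
  constructor
  · have h1 : ∑ j : Fin (p - 1), ((P j).natDegree + (j + 1) * tt p M) ≤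
        ∑ _j : Fin (p - 1), M / p := sum_le_sum fun j _ => (xwin1_memTW hp hP j).2.2.2.1
    rw [hc, sum_add_distrib, ← sum_mul] at h1
    have h2 := Nat.mul_le_mul_right (tt p M) (xwin1_sum (k := p - 1) (by omega))
    omega
  · have h1 : ∑ _j : Fin (p - 1), (M / p + 1) ≤
        ∑ j : Fin (p - 1), ((P j).natDegree + p * tt p M) := sum_le_sum fun j _ => by
      obtain ⟨-, -, a3, -, a5⟩ := xwin1_memTW hp hP j
      omega
    rw [hc, sum_add_distrib, hc] at h1
    have h4 := xwin1_lt (M := M) hp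
    have h7 := xwin1_tt (M := M) hp
    have h8 := xwin1_pt (M := M) hp
    rw [mul_assoc] at h7
    have h5 : p * (M / p + 1) = (p - 1) * (M / p + 1) + (M / p + 1) := by
      obtain ⟨n, rfl⟩ : ∃ n, p = n + 1 := ⟨p - 1, by omega⟩
      rw [Nat.add_sub_cancel]; ring
    have h6 : (p - 1) * (p * tt p M) ≤ p ^ 2 * tt p M := by
      rw [sq, mul_assoc]
      exact Nat.mul_le_mul_right _ (by omega)
    rw [high, low, mul_assoc]
    omega

theorem sqf_TW (hp : 3 ≤ p) {P : Fin (p - 1) → F[X]} (hP : P ∈ TW F p M) :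
    (∏ j, P j).Monic ∧ Squarefree (∏ j, P j) := by
  exact ⟨monic_prod_of_monic _ _ fun j _ => (xwin1_memTW hp hP j).1,
    squarefree_prod_of_pairwise_isCoprime (fun i _ j _ h => (xwin1_ne hp hP h).isRelPrime)
      fun j _ => (xwin1_memTW hp hP j).2.1.squarefree⟩

theorem count_TW (hp : 3 ≤ p) {W : F[X]} (h0 : W ≠ 0) (hW : W.natDegree ≤ M) :
    ∑ P ∈ TW F p M, ind (∏ j, P j ∣ W) ≤ (2 * p : ℝ) ^ p := by
  have hp' : (1 : ℝ) ≤ 2 * p := by
    have : (3 : ℝ) ≤ p := by exact_mod_cast hp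
    linarith
  calc ∑ P ∈ TW F p M, ind (∏ j, P j ∣ W)
      ≤ ∑ P ∈ TW F p M, ∏ j, ind (P j ∣ W) := sum_le_sum fun P _ => by
        by_cases h : ∏ j, P j ∣ W
        · rw [ind_pos h, prod_eq_one fun j _ => ind_pos ((dvd_prod_of_mem P (mem_univ j)).trans h)]
        · rw [ind_neg h]
          exact prod_nonneg fun j _ => ind_nonneg _
    _ = ∏ j : Fin (p - 1), ∑ R ∈ win F p M j, ind (R ∣ W) :=
        (prod_univ_sum (fun j : Fin (p - 1) => win F p M j) fun _ R => ind (R ∣ W)).symm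
    _ ≤ ∏ _j : Fin (p - 1), (2 * p : ℝ) := prod_le_prod
        (fun j _ => sum_nonneg fun R _ => ind_nonneg _) fun j _ => xwin1_count hp h0 hW j.2
    _ = (2 * p : ℝ) ^ (p - 1) := by simp
    _ ≤ (2 * p : ℝ) ^ p := pow_le_pow_right₀ hp' (Nat.sub_le _ _)

omit [Fintype F] in
theorem split_two {c : F[X]} (hc : c.Monic) {lo hi : ℕ} (h2 : 2 * lo ≤ hi)
    (hd : c.natDegree ≤ hi + lo) (hs : ∀ R : F[X], Irreducible R → R ∣ c → R.natDegree ≤ hi) :
    ∃ c₁ c₂ : F[X], c₁.Monic ∧ c₂.Monic ∧ c = c₁ * c₂ ∧ c₁.natDegree ≤ hi ∧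
      c₂.natDegree ≤ hi := by
  classical
  by_cases h : c.natDegree ≤ hi
  · exact ⟨c, 1, hc, monic_one, (mul_one c).symm, h, by simp⟩
  have hex : ∃ n, ∃ d : F[X], d.Monic ∧ d ∣ c ∧ lo ≤ d.natDegree ∧ d.natDegree = n :=
    ⟨_, c, hc, dvd_rfl, by omega, rfl⟩
  obtain ⟨c₁, m1, ⟨c₂, e⟩, hl, hn⟩ := Nat.find_spec hex
  have hmin : ∀ d : F[X], d.Monic → d ∣ c → lo ≤ d.natDegree → c₁.natDegree ≤ d.natDegree :=
    fun d h1 h2 h3 => hn ▸ Nat.find_min' hex ⟨d, h1, h2, h3, rfl⟩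
  have m2 : c₂.Monic := m1.of_mul_monic_left (e ▸ hc)
  have hdeg : c.natDegree = c₁.natDegree + c₂.natDegree := by rw [e, m1.natDegree_mul m2]
  refine ⟨c₁, c₂, m1, m2, e, ?_, by omega⟩
  by_contra hlt
  have hu : ¬ IsUnit c₁ := fun hu => by
    have := natDegree_eq_zero_of_isUnit hu
    omega
  obtain ⟨R, r1, r2, d, e'⟩ := exists_monic_irreducible_factor c₁ hu
  have m3 : d.Monic := r1.of_mul_monic_left (e' ▸ m1)
  have hdeg' : c₁.natDegree = R.natDegree + d.natDegree := by rw [e', r1.natDegree_mul m3]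
  have hR : R ∣ c := ⟨d * c₂, by rw [e, e', mul_assoc]⟩
  have hd' : d ∣ c := ⟨R * c₂, by rw [e, e']; ring⟩
  have h3 := hs R r2 hR
  have h4 := r2.natDegree_pos
  have h5 := hmin R r1 hR
  have h6 := hmin d m3 hd'
  omega

theorem gw_good (hp : 3 ≤ p) {W : F[X]} (h0 : W ≠ 0) (hW : W.natDegree = M) :
    0 ≤ gw p M W ∧ gw p M W ≤ 1 ∧ (gw p M W ≠ 0 → GoodW (WI p) (low p M) (high p M) W) := by
  classical
  have hp' : (0 : ℝ) < (2 * p) ^ p := by
    have : (0 : ℝ) < p := by exact_mod_cast (show 0 < p by omega)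
    positivity
  refine ⟨div_nonneg (sum_nonneg fun P _ => mul_nonneg (ind_nonneg _) (ind_nonneg _)) hp'.le,
    ?_, fun hne => ?_⟩
  · rw [gw, div_le_one hp']
    refine le_trans (sum_le_sum fun P _ => ?_) (count_TW hp h0 hW.le)
    exact mul_le_of_le_one_left (ind_nonneg _) (ind_le_one _)
  obtain ⟨P, hP, hz⟩ := exists_ne_zero_of_sum_ne_zero (div_ne_zero_iff.1 hne).1
  have hd : ∏ j, P j ∣ W := by
    by_contra h
    exact hz (by rw [ind_neg h, mul_zero])
  obtain ⟨W', e⟩ := hd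
  have h0' : W' ≠ 0 := fun h => h0 (by rw [e, h, mul_zero])
  have hl : W'.leadingCoeff ≠ 0 := leadingCoeff_ne_zero.2 h0'
  obtain ⟨c, hc, ec, hcd⟩ : ∃ c : F[X], c.Monic ∧ W' = C W'.leadingCoeff * c ∧
      c.natDegree = W'.natDegree := by
    refine ⟨W' * C W'.leadingCoeff⁻¹, monic_mul_leadingCoeff_inv h0', ?_,
      natDegree_mul_leadingCoeff_inv _ h0'⟩
    rw [mul_left_comm, ← C_mul, mul_inv_cancel₀ hl, C_1, mul_one]
  have hm := (sqf_TW hp hP).1
  have hdeg : (∏ j, P j).natDegree + c.natDegree = M := by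
    rw [← hW, e, natDegree_mul hm.ne_zero h0', hcd]
  have hcl : c.natDegree ≤ high p M + low p M := by
    have := (deg_TW hp hP).2
    omega
  have h7 := xwin1_tt (M := M) hp
  have h8 := xwin1_pt (M := M) hp
  rw [mul_assoc] at h7
  have hlow : low p M = 10 * (p ^ 2 * tt p M) := by rw [low, mul_assoc]
  have hhigh : high p M = M / p - tt p M := rfl
  by_cases hA : ∃ R : F[X], R.Monic ∧ Irreducible R ∧ R ∣ c ∧ high p M < R.natDegree
  · obtain ⟨R, r1, r2, ⟨d, ed⟩, r4⟩ := hA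
    have md : d.Monic := r1.of_mul_monic_left (ed ▸ hc)
    have hdd : c.natDegree = R.natDegree + d.natDegree := by rw [ed, r1.natDegree_mul md]
    have key : ∀ g : F[X], g.Monic → g.natDegree ≤ high p M →
        g.Monic ∧ g.natDegree ≤ high p M ∧ ¬ R ∣ g := fun g g1 g2 =>
      ⟨g1, g2, fun h => by have := natDegree_le_of_dvd h g1.ne_zero; omega⟩
    refine ⟨W'.leadingCoeff, R, Sum.elim P fun b => cond b d 1, hl, r1, r2, ?_, by omega,
      by omega, ?_⟩
    · rw [Fintype.prod_sum_type, Fintype.prod_bool]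
      simp only [Sum.elim_inl, Sum.elim_inr, cond_true, cond_false]
      rw [e]
      conv_lhs => rw [ec, ed]
      ring
    · rintro (j | b)
      · exact key _ (mem_TW hp hP j).1 (mem_TW hp hP j).2.2.2
      · cases b
        · exact key _ monic_one (by simp)
        · exact key d md (by omega)
  · have hs : ∀ R : F[X], Irreducible R → R ∣ c → R.natDegree ≤ high p M := by
      intro R r1 r2
      obtain ⟨S, s1, s2, s3⟩ := exists_monic_irreducible_factor R r1.not_isUnit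
      have h1 : R.natDegree ≤ S.natDegree :=
        natDegree_le_of_dvd (s2.associated_of_dvd r1 s3).symm.dvd s1.ne_zero
      by_contra h
      exact hA ⟨S, s1, s2, s3.trans r2, by omega⟩
    obtain ⟨c₁, c₂, m1, m2, e12, d1, d2⟩ := split_two hc (lo := low p M) (by omega) hcl hs
    obtain ⟨j₀, hj₀⟩ : ∃ j₀, ¬ P j₀ ∣ c := by
      by_contra h
      push Not at h
      let i₀ : Fin (p - 1) := ⟨0, by omega⟩
      let i₁ : Fin (p - 1) := ⟨1, by omega⟩
      have hne' : i₀ ≠ i₁ := fun h => absurd (congrArg Fin.val h) (by simp [i₀, i₁])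
      have h1 := natDegree_le_of_dvd ((xwin1_ne hp hP hne').mul_dvd (h i₀) (h i₁)) hc.ne_zero
      rw [(mem_TW hp hP i₀).1.natDegree_mul (mem_TW hp hP i₁).1] at h1
      have h2 := (mem_TW hp hP i₀).2.2.1
      have h3 := (mem_TW hp hP i₁).2.2.1
      omega
    obtain ⟨a1, a2, a3, a4⟩ := mem_TW hp hP j₀
    refine ⟨W'.leadingCoeff, P j₀, Sum.elim (fun j => if j = j₀ then 1 else P j)
      fun b => cond b c₁ c₂, hl, a1, a2, ?_, by omega, by omega, ?_⟩
    · rw [Fintype.prod_sum_type, Fintype.prod_bool]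
      simp only [Sum.elim_inl, Sum.elim_inr, cond_true, cond_false]
      have e1 : ∏ j, P j = P j₀ * ∏ j, (if j = j₀ then 1 else P j) := by
        have : P j₀ = ∏ j, (if j = j₀ then P j else 1) := by simp
        rw [this, ← prod_mul_distrib]
        refine prod_congr rfl fun j _ => ?_
        split_ifs <;> simp
      rw [e, e1]
      conv_lhs => rw [ec, e12]
      ring
    · rintro (j | b)
      · simp only [Sum.elim_inl]
        split_ifs with hj
        · exact ⟨monic_one, by simp, fun h => a2.not_isUnit (isUnit_of_dvd_one h)⟩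
        · exact ⟨(mem_TW hp hP j).1, (mem_TW hp hP j).2.2.2,
            a2.coprime_iff_not_dvd.1 (xwin1_ne hp hP (Ne.symm hj))⟩
      · cases b
        · exact ⟨m2, d2, fun h => hj₀ (e12 ▸ dvd_mul_of_dvd_right h _)⟩
        · exact ⟨m1, d1, fun h => hj₀ (e12 ▸ dvd_mul_of_dvd_left h _)⟩

end Pool.Agent.MP_4fffd4_nt.Odd
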