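import Mathlib
import Pool.Agent.MP_4fffd4_nt.Odd.Win1
import Pool.Agent.MP_4fffd4_nt.Odd.Surj
import Pool.Agent.MP_4fffd4_nt.Odd.Weil

/- Existence of the weight. -/

set_option autoImplicit false

namespace Pool.Agent.MP_4fffd4_nt.Odd

open Polynomial Finset Filter Topology
open scoped BigOperators

variable {F : Type*} [Field F] [Fintype F] {p : ℕ} [Fact p.Prime] [CharP F p]

omit [Fact p.Prime] in
theorem xwin2_t (hp : 3 ≤ p) (M : ℕ) :
    100 * p ^ 2 * tt p M ≤ M / p ∧ M / p < 100 * p ^ 2 * (tt p M + 1) := by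
  have e : tt p M = M / p / (100 * p ^ 2) := by
    rw [tt, Nat.div_div_eq_div_mul]
    congr 1
    ring
  have h : 0 < 100 * p ^ 2 := by positivity
  rw [e]
  exact ⟨Nat.mul_div_le _ _, Nat.lt_mul_div_succ _ h⟩

omit [Fact p.Prime] in
theorem xwin2_low (hp : 3 ≤ p) (M : ℕ) : p * tt p M + tt p M ≤ M / p := by
  refine le_trans ?_ (xwin2_t hp M).1
  rw [← Nat.succ_mul]
  refine Nat.mul_le_mul_right _ ?_
  nlinarith

omit [Fact p.Prime] in
theorem xwin2_top (hp : 3 ≤ p) : Tendsto (tt p) atTop atTop :=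
  Nat.tendsto_div_const_atTop (by positivity)

omit [Fact p.Prime] [CharP F p] in
theorem xwin2_win (hp : 3 ≤ p) : ∀ᶠ M in atTop, ∀ j : ℕ, j + 2 ≤ p →
    1 / (400 * (p : ℝ) ^ 2) ≤ ∑ R ∈ win F p M j, 1 / (Fintype.card F : ℝ) ^ R.natDegree ∧
      ∑ R ∈ win F p M j, 1 / (Fintype.card F : ℝ) ^ R.natDegree ≤ 1 := by
  obtain ⟨d₀, hd₀⟩ := eventually_atTop.1 (card_prm_ge (F := F))
  filter_upwards [(xwin2_top hp).eventually_ge_atTop (d₀ + 1)] with M hM j hj
  have hq := card_pos' (F := F)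
  have h1 := xwin2_low hp M
  have h2 := (xwin2_t hp M).2
  have h3 : (j + 2) * tt p M ≤ p * tt p M := Nat.mul_le_mul_right _ hj
  have h4 : (j + 2) * tt p M = (j + 1) * tt p M + tt p M := by ring
  have hc : (Ioc (M / p - (j + 2) * tt p M) (M / p - (j + 1) * tt p M)).card = tt p M := by
    rw [Nat.card_Ioc]
    omega
  have e : ∑ R ∈ win F p M j, 1 / (Fintype.card F : ℝ) ^ R.natDegree =
      ∑ d ∈ Ioc (M / p - (j + 2) * tt p M) (M / p - (j + 1) * tt p M),
        ((prm F d).card : ℝ) / (Fintype.card F : ℝ) ^ d := by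
    rw [win, sum_prmI]
    refine sum_congr rfl fun d _ => ?_
    rw [sum_congr rfl fun R hR => by rw [(mem_prm.1 hR).2.2], sum_const, nsmul_eq_mul, mul_one_div]
  have ht : (1 : ℝ) ≤ tt p M := by exact_mod_cast (by omega : 1 ≤ tt p M)
  have hp' : (0 : ℝ) < p := by exact_mod_cast (by omega : 0 < p)
  rw [e]
  constructor
  · refine le_trans ?_ (card_nsmul_le_sum _ _ (1 / (400 * (p : ℝ) ^ 2 * tt p M)) fun d hd => ?_)
    · rw [hc, nsmul_eq_mul]
      apply le_of_eq
      field_simp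
    · rw [mem_Ioc] at hd
      have a : (Fintype.card F : ℝ) ^ d ≤ 2 * d * (prm F d).card := by
        exact_mod_cast hd₀ d (by omega)
      have b : (d : ℝ) ≤ 100 * p ^ 2 * (tt p M + 1) := by
        exact_mod_cast (by omega : d ≤ 100 * p ^ 2 * (tt p M + 1))
      have c : 2 * (d : ℝ) ≤ 400 * p ^ 2 * tt p M := by nlinarith [sq_nonneg (p : ℝ)]
      rw [div_le_div_iff₀ (by positivity) (by positivity), one_mul]
      refine a.trans ?_
      rw [mul_comm]
      gcongr
  · refine (sum_le_card_nsmul _ _ (1 / (tt p M : ℝ)) fun d hd => ?_).trans_eq ?_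
    · rw [mem_Ioc] at hd
      have a : (d : ℝ) * (prm F d).card ≤ (Fintype.card F : ℝ) ^ d := by
        exact_mod_cast card_prm_le (F := F) (d := d) (by omega)
      have b : (tt p M : ℝ) ≤ d := by exact_mod_cast (by omega : tt p M ≤ d)
      rw [div_le_div_iff₀ (by positivity) (by positivity), one_mul]
      refine le_trans ?_ a
      rw [mul_comm]
      gcongr
    · rw [hc, nsmul_eq_mul]
      field_simp

omit [Fact p.Prime] [CharP F p] in
theorem sum_TW (hp : 3 ≤ p) : ∀ᶠ M in atTop,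
    (1 / (400 * (p : ℝ) ^ 2)) ^ (p - 1) ≤
        ∑ P ∈ TW F p M, 1 / (Fintype.card F : ℝ) ^ (∏ j, P j).natDegree ∧
      ∑ P ∈ TW F p M, 1 / (Fintype.card F : ℝ) ^ (∏ j, P j).natDegree ≤ 1 := by
  filter_upwards [xwin2_win (F := F) hp] with M hM
  have hq := card_pos' (F := F)
  have e : ∑ P ∈ TW F p M, 1 / (Fintype.card F : ℝ) ^ (∏ j, P j).natDegree =
      ∏ j : Fin (p - 1), ∑ R ∈ win F p M j, 1 / (Fintype.card F : ℝ) ^ R.natDegree := by
    rw [prod_univ_sum]
    refine sum_congr rfl fun P hP => ?_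
    rw [natDegree_prod_of_monic _ _ fun j _ => (mem_TW hp hP j).1, ← prod_pow_eq_pow_sum,
      prod_div_distrib, prod_const_one]
  have h : ∀ j : Fin (p - 1), (j : ℕ) + 2 ≤ p := fun j => by
    have := j.2
    omega
  rw [e]
  constructor
  · refine le_trans (le_of_eq ?_) (prod_le_prod (f := fun _ => 1 / (400 * (p : ℝ) ^ 2))
      (fun _ _ => by positivity) fun j _ => (hM j (h j)).1)
    rw [prod_const, card_univ, Fintype.card_fin]
  · exact prod_le_one (fun j _ => sum_nonneg fun _ _ => by positivity) fun j _ => (hM j (h j)).2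

omit [Fact p.Prime] [CharP F p] in
theorem xwin2_group (hp : 3 ≤ p) (M ν : ℕ) : ∑ P ∈ TW F p M,
    ind (¬ Onto ν (∏ j, P j)) / (Fintype.card F : ℝ) ^ (∏ j, P j).natDegree ≤
      (2 * p : ℝ) ^ p * ∑ D ∈ range ((p - 1) * (M / p) - 3 * tt p M + 1),
        (∑ e ∈ monF F D, ind (Squarefree e ∧ ¬ Onto ν e)) / (Fintype.card F : ℝ) ^ D := by
  classical
  have hq := card_pos' (F := F)
  have hK : (p - 1) * (M / p) ≤ M :=
    (Nat.mul_le_mul_right _ (Nat.sub_le p 1)).trans (Nat.mul_div_le M p)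
  have e : ∑ D ∈ range ((p - 1) * (M / p) - 3 * tt p M + 1),
      (∑ e ∈ monF F D, ind (Squarefree e ∧ ¬ Onto ν e)) / (Fintype.card F : ℝ) ^ D =
      ∑ e ∈ monLE F ((p - 1) * (M / p) - 3 * tt p M),
        ind (Squarefree e ∧ ¬ Onto ν e) / (Fintype.card F : ℝ) ^ e.natDegree := by
    rw [sum_monLE]
    refine sum_congr rfl fun D _ => ?_
    rw [sum_div]
    exact sum_congr rfl fun e he => by rw [(mem_monF.1 he).2]
  rw [e, mul_sum, ← sum_fiberwise_of_maps_to (s := TW F p M)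
    (t := monLE F ((p - 1) * (M / p) - 3 * tt p M)) (g := fun P => ∏ j, P j) fun P hP =>
      mem_monLE.2 ⟨(sqf_TW hp hP).1, by have := (deg_TW hp hP).1; omega⟩]
  refine sum_le_sum fun e he => ?_
  obtain ⟨h1, h2⟩ := mem_monLE.1 he
  refine le_trans ?_ (mul_le_mul_of_nonneg_right (count_TW (M := M) hp h1.ne_zero (by omega))
    (div_nonneg (ind_nonneg _) (by positivity)))
  rw [sum_mul, sum_filter]
  refine sum_le_sum fun P hP => ?_
  split_ifs with h
  · rw [ind_pos (h ▸ dvd_rfl : ∏ j, P j ∣ e), one_mul, h,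
      ind_congr (and_iff_right (h ▸ (sqf_TW hp hP).2 : Squarefree e))]
  · exact mul_nonneg (ind_nonneg _) (div_nonneg (ind_nonneg _) (by positivity))

theorem xwin2_bound (hp : 3 ≤ p) {M : ℕ} (hM : 1 ≤ tt p M) : ∑ P ∈ TW F p M,
    ind (¬ Onto (M - tt p M) (∏ j, P j)) / (Fintype.card F : ℝ) ^ (∏ j, P j).natDegree ≤
      (2 * p : ℝ) ^ p * (100 * p ^ 3) ^ 2 * Fintype.card F * 2 *
        (((tt p M + 1 : ℕ) : ℝ) ^ 2 / 2 ^ (tt p M + 1)) := by
  have hq := card_pos' (F := F)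
  have hq2 := two_le_card (F := F)
  have h1 := xwin2_low hp M
  have h2 : (p - 1) * (M / p) + M / p ≤ M := by
    rw [← Nat.succ_mul, Nat.succ_eq_add_one, Nat.sub_add_cancel (by omega)]
    exact Nat.mul_div_le M p
  have h3 : M < 100 * p ^ 3 * (tt p M + 1) := Nat.lt_mul_div_succ _ (by positivity)
  have h4 : (M - tt p M) / p ≤ M / p := Nat.div_le_div_right (Nat.sub_le _ _)
  have h5 : 3 * tt p M ≤ p * tt p M := Nat.mul_le_mul_right _ hp
  have h6 : M / p ≤ (p - 1) * (M / p) := Nat.le_mul_of_pos_left _ (by omega)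
  have hK : (((p - 1) * (M / p) - 3 * tt p M + 1 : ℕ) : ℝ) ≤
      100 * p ^ 3 * ((tt p M + 1 : ℕ) : ℝ) := by
    exact_mod_cast (by omega : (p - 1) * (M / p) - 3 * tt p M + 1 ≤ 100 * p ^ 3 * (tt p M + 1))
  refine (xwin2_group hp M _).trans ?_
  rw [mul_assoc, mul_assoc, mul_assoc]
  refine mul_le_mul_of_nonneg_left ?_ (by positivity)
  refine (sum_le_card_nsmul _ _ (100 * p ^ 3 * ((tt p M + 1 : ℕ) : ℝ) *
    (Fintype.card F / 2 ^ tt p M)) fun D hD => ?_).trans ?_
  · rw [mem_range] at hD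
    have a := card_bad (F := F) (p := p) (ν := M - tt p M) (D := D) (by omega)
    have b : (D : ℝ) + 1 ≤ 100 * p ^ 3 * ((tt p M + 1 : ℕ) : ℝ) := by
      refine le_trans ?_ hK
      exact_mod_cast (by omega : D + 1 ≤ (p - 1) * (M / p) - 3 * tt p M + 1)
    refine (div_le_div_of_nonneg_right a (by positivity)).trans ?_
    rw [mul_div_assoc, mul_div_assoc]
    refine mul_le_mul b ?_ (by positivity) (by positivity)
    rw [div_div, div_le_div_iff₀ (by positivity) (by positivity), ← pow_add, ← pow_succ']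
    calc (Fintype.card F : ℝ) ^ ((M - tt p M) / p + 1 + 2 * D) * 2 ^ tt p M
        ≤ (Fintype.card F : ℝ) ^ ((M - tt p M) / p + 1 + 2 * D) *
          (Fintype.card F : ℝ) ^ tt p M := by gcongr
      _ ≤ _ := by
        rw [← pow_add]
        exact pow_le_pow_right₀ (by linarith) (by omega)
  · rw [card_range, nsmul_eq_mul]
    refine (mul_le_mul_of_nonneg_right hK (by positivity)).trans_eq ?_
    rw [pow_succ (2 : ℝ)]
    field_simp

theorem bad_TW (hp : 3 ≤ p) : Tendsto (fun M : ℕ => ∑ P ∈ TW F p M,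
    ind (¬ Onto (M - tt p M) (∏ j, P j)) / (Fintype.card F : ℝ) ^ (∏ j, P j).natDegree)
    atTop (𝓝 0) := by
  have hq := card_pos' (F := F)
  have h := ((tendsto_pow_const_div_const_pow_of_one_lt 2 (r := 2) one_lt_two).comp
    ((tendsto_add_atTop_nat 1).comp (xwin2_top hp))).const_mul
    ((2 * p : ℝ) ^ p * (100 * p ^ 3) ^ 2 * Fintype.card F * 2)
  rw [mul_zero] at h
  refine squeeze_zero' (Eventually.of_forall fun M => sum_nonneg fun _ _ =>
    div_nonneg (ind_nonneg _) (by positivity)) ?_ h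
  filter_upwards [(xwin2_top hp).eventually_ge_atTop 1] with M hM
  exact xwin2_bound hp hM

omit [Fact p.Prime] [CharP F p] in
theorem equi_gw (hp : 3 ≤ p) {Q : F[X]} (c : ℕ) (hQ : Q ≠ 0) :
    ∀ᶠ M in atTop, ∀ (D₀ : F[X]) (ν : ℕ), M ≤ ν + c →
      𝔼 v ∈ ltF F ν, gw p M (D₀ + Q ^ p * derivative v) = rw0 F p M := by
  filter_upwards [(xwin2_top hp).eventually_ge_atTop c,
    (xwin2_top hp).eventually_ge_atTop Q.natDegree] with M h1 h2 D₀ ν hν
  have h3 := xwin2_low hp M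
  simp only [gw, rw0]
  rw [← expect_div, expect_sum_comm]
  congr 1
  refine sum_congr rfl fun P hP => ?_
  rw [← mul_expect]
  by_cases h : Onto (M - tt p M) (∏ j, P j)
  · rw [expect_dvd (sqf_TW hp hP).1 (IsCoprime.pow_left (IsCoprime.prod_right fun j _ => ?_))
      (h.mono (by omega)), mul_one_div]
    obtain ⟨-, a, b, -⟩ := mem_TW hp hP j
    refine (a.coprime_iff_not_dvd.2 fun hd => ?_).symm
    have := natDegree_le_of_dvd hd hQ
    omega
  · rw [ind_neg h, zero_mul, zero_div]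

theorem exists_weight (hp : p ≠ 2) :
    ∃ ρ₀ : ℝ, Weight p (WI p) (gw p : ℕ → F[X] → ℝ) (rw0 F p) ρ₀ (low p) (high p) := by
  have h3 : 3 ≤ p := by
    have := (Fact.out : p.Prime).two_le
    omega
  have hq := card_pos' (F := F)
  have hp' : (3 : ℝ) ≤ p := by exact_mod_cast h3
  have hc : (0 : ℝ) < (1 / (400 * (p : ℝ) ^ 2)) ^ (p - 1) / 2 := by positivity
  refine ⟨(1 / (400 * (p : ℝ) ^ 2)) ^ (p - 1) / 2 / (2 * p) ^ p, by positivity,
    fun M W h0 hW => gw_good h3 h0 hW, ?_, ?_, fun c => ?_, fun Q c hQ => equi_gw h3 c hQ⟩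
  · filter_upwards [sum_TW (F := F) h3, (bad_TW (F := F) h3).eventually (gt_mem_nhds hc)]
      with M h1 h2
    have e : ∑ P ∈ TW F p M, ind (Onto (M - tt p M) (∏ j, P j)) /
        (Fintype.card F : ℝ) ^ (∏ j, P j).natDegree + ∑ P ∈ TW F p M,
        ind (¬ Onto (M - tt p M) (∏ j, P j)) / (Fintype.card F : ℝ) ^ (∏ j, P j).natDegree =
        ∑ P ∈ TW F p M, 1 / (Fintype.card F : ℝ) ^ (∏ j, P j).natDegree := by
      rw [← sum_add_distrib]
      refine sum_congr rfl fun P _ => ?_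
      by_cases h : Onto (M - tt p M) (∏ j, P j)
      · rw [ind_pos h, ind_neg (not_not.2 h), zero_div, add_zero]
      · rw [ind_neg h, ind_pos h, zero_div, zero_add]
    have n : 0 ≤ ∑ P ∈ TW F p M,
        ind (¬ Onto (M - tt p M) (∏ j, P j)) / (Fintype.card F : ℝ) ^ (∏ j, P j).natDegree :=
      sum_nonneg fun _ _ => div_nonneg (ind_nonneg _) (by positivity)
    have o : (1 : ℝ) ≤ (2 * p) ^ p := one_le_pow₀ (by linarith)
    rw [rw0]
    exact ⟨div_le_div_of_nonneg_right (by linarith [h1.1]) (by positivity),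
      (div_le_one (by positivity)).2 (by linarith [h1.2])⟩
  · exact tendsto_atTop_mono (fun M => Nat.le_mul_of_pos_left _ (by positivity)) (xwin2_top h3)
  · filter_upwards [(xwin2_top h3).eventually_ge_atTop c] with M hM
    have := xwin2_low h3 M
    rw [high]
    omega

end Pool.Agent.MP_4fffd4_nt.Odd
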