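import Mathlib
import Pool.Agent.MP_4fffd4_nt.Odd.Corr
import Pool.Agent.MP_4fffd4_nt.Odd.Win2
import Pool.Agent.MP_4fffd4_nt.Chowla

/- Chowla on average over the degree, for every finite field. -/

set_option autoImplicit false

namespace Pool.Agent.MP_4fffd4_nt.Odd

open Polynomial Finset Filter Topology
open scoped BigOperators

variable {F : Type*} [Field F] [Fintype F]

theorem xfin_sum {a : F[X]} (ha : a.Monic) (n : ℕ) (G : F[X] → ℝ) :
    ∑ x ∈ monF F (n + a.natDegree), ind (a ∣ x) * G x = ∑ f ∈ monF F n, G (a * f) := by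
  classical
  rw [← sum_filter_add_sum_filter_not _ (a ∣ ·),
    sum_eq_zero (s := filter (fun x => ¬ a ∣ x) _) fun x hx => by
      rw [ind_neg (mem_filter.1 hx).2, zero_mul], add_zero]
  symm
  refine sum_bij (fun f _ => a * f) (fun f hf => ?_) (fun f _ g _ => mul_left_cancel₀ ha.ne_zero)
    (fun x hx => ?_) fun f _ => by rw [ind_pos (dvd_mul_right _ _), one_mul]
  · obtain ⟨h1, h2⟩ := mem_monF.1 hf
    exact mem_filter.2 ⟨mem_monF.2 ⟨ha.mul h1, by rw [ha.natDegree_mul h1, h2, add_comm]⟩,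
      dvd_mul_right _ _⟩
  · obtain ⟨h1, f, rfl⟩ := mem_filter.1 hx
    obtain ⟨h2, h3⟩ := mem_monF.1 h1
    have h4 := ha.of_mul_monic_left h2
    rw [ha.natDegree_mul h4] at h3
    exact ⟨f, mem_monF.2 ⟨h4, by omega⟩, rfl⟩

theorem chowla_BZ {I : Type*} [Fintype I] (i₀ : I) (a h : I → F[X]) (ha : ∀ i, a i ≠ 0)
    (hind : ∀ i j, i ≠ j → a i * h j ≠ a j * h i) :
    BZ fun n => (∑ f ∈ monF F n, ∏ i, (liou (a i * f + h i) : ℝ)) / Fintype.card F ^ n := by
  obtain ⟨p, hp⟩ := CharP.exists F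
  haveI : Fact p.Prime := ⟨CharP.char_is_prime F p⟩
  by_cases h2 : p = 2
  · subst h2
    exact BZ.of_tendsto (chowla i₀ a h ha fun i hi => hind i i₀ hi)
  obtain ⟨ρ₀, hw⟩ := exists_weight (F := F) h2
  have hA : ∏ i, a i ≠ 0 := prod_ne_zero_iff.2 fun i _ => ha i
  set A := (∏ i, a i) * C (∏ i, a i).leadingCoeff⁻¹
  have hm : A.Monic := monic_mul_leadingCoeff_inv hA
  choose c hc using fun i => show a i ∣ A from (dvd_prod_of_mem a (mem_univ i)).mul_right _
  have hc0 : ∀ i, c i ≠ 0 := fun i h0 => hm.ne_zero (by rw [hc i, h0, mul_zero])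
  have hinj : Function.Injective fun i => c i * h i := by
    intro i j e
    by_contra hij
    refine hind i j hij (mul_left_cancel₀ hm.ne_zero ?_)
    simp only at e
    linear_combination (a i * h j) * hc j - (a j * h i) * hc i - (a i * a j) * e
  have hq := card_pos' (F := F)
  refine (((corr_BZ h2 hw i₀ hm.ne_zero hinj).shift A.natDegree).const_mul
    ((∏ i, lam (c i)) * Fintype.card F ^ A.natDegree)).of_le ?_
  filter_upwards [eventually_gt_atTop (∑ i, (h i).natDegree)] with n hn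
  refine le_of_eq (congrArg _ ?_)
  rw [expect_monF_eq, xfin_sum hm n fun x => ∏ i, lam (x + c i * h i), pow_add]
  have : ∑ f ∈ monF F n, ∏ i, (liou (a i * f + h i) : ℝ) =
      (∏ i, lam (c i)) * ∑ f ∈ monF F n, ∏ i, lam (A * f + c i * h i) := by
    rw [mul_sum]
    refine sum_congr rfl fun f hf => ?_
    obtain ⟨h3, h4⟩ := mem_monF.1 hf
    rw [← prod_mul_distrib]
    refine prod_congr rfl fun i _ => ?_
    have := single_le_sum (f := fun i => (h i).natDegree) (fun _ _ => Nat.zero_le _) (mem_univ i)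
    rw [show A * f + c i * h i = c i * (a i * f + h i) by rw [hc i]; ring,
      lam_mul (hc0 i) (lin_ne_zero (ha i) h3 (by omega)), ← mul_assoc, lam_mul_self, one_mul, lam]
  rw [this]
  field_simp

theorem pattern_BZ {I : Type*} [Fintype I] (a h : I → F[X]) (ha : ∀ i, a i ≠ 0)
    (hind : ∀ i j, i ≠ j → a i * h j ≠ a j * h i) (ε : I → ℤ) (hε : ∀ i, ε i = 1 ∨ ε i = -1) :
    BZ fun n => (Set.ncard {f : F[X] | f.Monic ∧ f.natDegree = n ∧
      ∀ i, a i * f + h i ≠ 0 ∧ liou (a i * f + h i) = ε i} : ℝ) / Fintype.card F ^ n -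
        1 / 2 ^ Fintype.card I := by
  classical
  have hq := card_pos' (F := F)
  have h1 : BZ fun n : ℕ => 1 / 2 ^ Fintype.card I *
      ∑ S ∈ (univ : Finset I).powerset.erase ∅, (∏ i ∈ S, (ε i : ℝ)) *
        ((∑ f ∈ monF F n, ∏ i ∈ S, (liou (a i * f + h i) : ℝ)) / Fintype.card F ^ n) := by
    refine (BZ.sum _ fun S hS => ?_).const_mul _
    obtain ⟨i₀, hi₀⟩ := nonempty_iff_ne_empty.2 (mem_erase.1 hS).1
    refine ((chowla_BZ (I := S) ⟨i₀, hi₀⟩ (fun i => a i) (fun i => h i) (fun i => ha i)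
      fun i j hi => hind _ _ fun e => hi (Subtype.ext e)).const_mul
        (∏ i ∈ S, (ε i : ℝ))).of_le (Eventually.of_forall fun n => le_of_eq ?_)
    congr 3
    exact sum_congr rfl fun f _ =>
      (prod_coe_sort S fun i => (liou (a i * f + h i) : ℝ)).symm
  refine h1.of_le ?_
  filter_upwards [eventually_gt_atTop (∑ i, (h i).natDegree)] with n hn
  refine le_of_eq (congrArg _ ?_)
  have h2 : {f : F[X] | f.Monic ∧ f.natDegree = n ∧
      ∀ i, a i * f + h i ≠ 0 ∧ liou (a i * f + h i) = ε i} =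
      ((monF F n).filter fun f => ∀ i, liou (a i * f + h i) = ε i : Finset F[X]) := by
    ext f
    simp only [Set.mem_setOf_eq, coe_filter, mem_monF]
    refine ⟨fun ⟨x, y, z⟩ => ⟨⟨x, y⟩, fun i => (z i).2⟩, fun ⟨⟨x, y⟩, z⟩ =>
      ⟨x, y, fun i => ⟨lin_ne_zero (ha i) x ?_, z i⟩⟩⟩
    have := single_le_sum (f := fun i => (h i).natDegree) (fun _ _ => Nat.zero_le _) (mem_univ i)
    omega
  have h3 : (1 : ℝ) = (∏ i ∈ (∅ : Finset I), (ε i : ℝ)) *
      ((∑ f ∈ monF F n, ∏ i ∈ (∅ : Finset I), (liou (a i * f + h i) : ℝ)) /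
        Fintype.card F ^ n) := by
    simp only [prod_empty, sum_const, card_monF, nsmul_eq_mul]
    push_cast
    field_simp
  rw [sub_eq_iff_eq_add, ← mul_add_one]
  conv_rhs => rw [h3]; rw [← h3]; congr; rfl; congr; rfl; rw [h3]
  rw [sum_erase_add _ _ (empty_mem_powerset _), h2, Set.ncard_coe_finset, card_filter]
  simp only [← mul_div_assoc, ← sum_div, mul_sum, ← prod_mul_distrib]
  congr 1
  rw [sum_comm]
  push_cast
  refine sum_congr rfl fun f _ => ?_
  rw [← mul_sum, ← prod_one_add]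
  split_ifs with hf
  · rw [prod_congr rfl (g := fun _ => 2), prod_const, card_univ]
    · field_simp
    · intro i _
      rw [hf i]
      rcases hε i with e | e <;> rw [e] <;> norm_num
  · push Not at hf
    obtain ⟨i, hi⟩ := hf
    rw [prod_eq_zero (mem_univ i), mul_zero]
    rcases hε i with e | e <;> rcases liou_cases (a i * f + h i) with e' | e' <;>
      rw [e, e'] at hi ⊢ <;> simp at hi ⊢

end Pool.Agent.MP_4fffd4_nt.Odd
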