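import Mathlib
import Pool.Agent.MP_4fffd4_nt.Odd.Defs

/- Definitions for the two-point Chowla conjecture in every degree. -/

set_option autoImplicit false

namespace Pool.Agent.MP_4fffd4_nt.Odd

open Polynomial Finset Filter Topology
open scoped BigOperators

variable {F : Type*} [Field F]

/-- `W` splits into pieces of degree at most `hi`, one of which is a private prime of degree
above `4 * lo`. -/
def GoodS (ι : Type) [Fintype ι] (lo hi : ℕ) (W : F[X]) : Prop :=
  ∃ (l : F) (P : F[X]) (m : ι → F[X]), l ≠ 0 ∧ P.Monic ∧ Irreducible P ∧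
    W = C l * P * ∏ j, m j ∧ 4 * lo < P.natDegree ∧ P.natDegree ≤ hi ∧
    ∀ j, (m j).Monic ∧ (m j).natDegree ≤ hi ∧ ¬ P ∣ m j

/-- the derivative attached to the form `A * z + h` and the direction `B` -/
noncomputable def WA (p : ℕ) (B A h z : F[X]) : F[X] :=
  derivative (A ^ (p - 1) * B * (A * z + h))

variable [Fintype F]

variable (F) in
/-- good polynomials have positive density in every coset of derivatives -/
structure PosW (p : ℕ) (ι : Type) [Fintype ι] (δ : ℝ) (lo hi : ℕ → ℕ) : Prop where
  pos : 0 < δ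
  lo_top : Tendsto lo atTop atTop
  hi_le : ∀ c : ℕ, ∀ᶠ M in atTop, hi M + c ≤ M / p
  dens : ∀ (Q : F[X]) (c : ℕ), Q ≠ 0 → ∀ᶠ M in atTop, ∀ (D₀ : F[X]) (ν : ℕ),
    D₀.natDegree = M → ν + p * Q.natDegree ≤ M → M ≤ ν + c →
    δ ≤ 𝔼 v ∈ ltF F ν, ind (GoodS ι (lo M) (hi M) (D₀ + Q ^ p * derivative v))

/-- the error in the probability that `e` divides -/
noncomputable def er (ν : ℕ) (Q D₀ e : F[X]) : ℝ :=
  |(𝔼 v ∈ ltF F ν, ind (e ∣ D₀ + Q * derivative v)) - 1 / (Fintype.card F : ℝ) ^ e.natDegree|

variable (F) in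
/-- the sum of the reciprocals of the norms of the primes in an interval of degrees -/
noncomputable def LL (a b : ℕ) : ℝ := ∑ P ∈ prmI F a b, 1 / (Fintype.card F : ℝ) ^ P.natDegree

/-- the width of the narrow windows -/
def yy (K p M : ℕ) : ℕ := tt p M / K

variable (F) in
/-- one prime from each of the first `r` wide windows -/
noncomputable def T3 (p M r : ℕ) : Finset (Fin r → F[X]) :=
  Fintype.piFinset fun j => prmI F (M / p / 3 - (j + 2) * tt p M) (M / p / 3 - (j + 1) * tt p M)

variable (F) in
/-- the narrow window for the last prime -/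
noncomputable def lastW (K p M S : ℕ) : Finset F[X] :=
  prmI F (M - M / p - 3 * yy K p M - S) (M - M / p - 2 * yy K p M - S)

variable (F) in
/-- the narrow window for the large prime -/
noncomputable def bigW (K p M : ℕ) : Finset F[X] :=
  prmI F (M / p - yy K p M) (M / p + 3 * yy K p M)

/-- the index set of the pieces -/
abbrev SI (p : ℕ) : Type := Fin (3 * p - 4) ⊕ Fin 3

end Pool.Agent.MP_4fffd4_nt.Odd
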