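import Mathlib
import Pool.Agent.MP_4fffd4_nt.Odd.Defs2
import Pool.Agent.MP_4fffd4_nt.Odd.Coset

/- Cancellation on a coset with two good derivatives. -/

set_option autoImplicit false

namespace Pool.Agent.MP_4fffd4_nt.Odd

open Polynomial Finset Filter Topology
open scoped BigOperators

variable {F : Type*} [Field F] [Fintype F] {p : ℕ} [Fact p.Prime] [CharP F p]

omit [Fintype F] in
theorem xcoset2_theta {N L : ℕ} {μ : F[X]} (hμ : μ.natDegree + L ≤ N) :
    ∃ θ : degreeLT F L →+ degreeLT F N, ∀ h, (θ h).1 = μ * h.1 :=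
  ⟨AddMonoidHom.mk' (fun h => ⟨μ * h.1, mem_degreeLT.2 (by
      simpa using xcoset_deg (γ := μ) (k := 1) one_ne_zero (by omega) (mem_degreeLT.1 h.2))⟩)
    fun _ _ => Subtype.ext (mul_add _ _ _), fun _ => rfl⟩

omit [Fintype F] [CharP F p] in
theorem xcoset2_zero {B u y : F[X]} (hw : ¬ u ∣ B * y) (v : F[X]) :
    piece u (B * (y + B ^ (p - 1) * (u * v) ^ p)) = 0 :=
  piece_of_not_dvd fun h => hw (by
    rw [mul_add] at h
    exact (dvd_add_left ((((dvd_mul_right u v).trans
      (dvd_pow_self _ (Fact.out : p.Prime).ne_zero)).mul_left _).mul_left _)).1 h)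

omit [Fintype F] in
theorem xcoset2_deg (κ : F[X]) {v : F[X]} {N : ℕ} (hv : v.degree < N) :
    (κ * v).degree < (κ.natDegree + N : ℕ) := by
  simpa using xcoset_deg (γ := κ) (k := 1) (D := κ.natDegree + N) one_ne_zero (by omega) hv

theorem xcoset2_inv (hp : p ≠ 2) {m : F[X]} (hm : m.Monic) (w a B κ v h : F[X]) :
    jr (w + a * (B * (κ * (v + m * h))) ^ p) m = jr (w + a * (B * (κ * v)) ^ p) m := by
  refine jr_congr hp hm ?_
  simp only [mul_add, add_pow_char, add_sub_add_left_eq_sub, add_sub_cancel_left]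
  exact (((((dvd_mul_right m h).mul_left κ).mul_left B).trans
    (dvd_pow_self _ (Fact.out : p.Prime).ne_zero)).mul_left _)

theorem coset_two (hp : p ≠ 2) {ι : Type} [Fintype ι] {B B' u u' y y' κ κ' : F[X]}
    (hB : B.Monic) (hB' : B'.Monic) (hu : u.Monic) (hu' : u'.Monic) (hy : y.Monic)
    (hy' : y'.Monic) (hκ : κ.Monic) {lo hi N L : ℕ}
    (hW : GoodS ι lo hi (derivative (B * y))) (hW' : GoodS ι lo hi (derivative (B' * y')))
    (hR : ∀ P : F[X], Irreducible P → lo < P.natDegree → P ∣ derivative (B * y) →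
      ¬ P ∣ derivative (B' * y'))
    (hN : (p - 1) * B.natDegree + p * (u.natDegree + (κ.natDegree + N)) ≤ y.natDegree)
    (hN' : (p - 1) * B'.natDegree + p * (u'.natDegree + (κ'.natDegree + N)) ≤ y'.natDegree)
    (hhi : hi + L ≤ N) (hL : L ≤ lo) (hBlo : B.natDegree ≤ lo) (hulo : u.natDegree ≤ lo)
    (hulo' : u'.natDegree ≤ lo) (hκlo : κ.natDegree ≤ lo) :
    |𝔼 v ∈ ltF F N, piece u (B * (y + B ^ (p - 1) * (u * (κ * v)) ^ p)) *
        piece u' (B' * (y' + B' ^ (p - 1) * (u' * (κ' * v)) ^ p))| ^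
        2 ^ (2 * Fintype.card ι + 1) ≤
      4 ^ (2 * Fintype.card ι + 1) / (Fintype.card F : ℝ) ^ L +
        2 ^ (2 * Fintype.card ι + 1 + 1) / √((Fintype.card F : ℝ) ^ lo) := by
  classical
  by_cases hw : ¬ u ∣ B * y
  · simp only [xcoset2_zero hw, zero_mul, expect_const_zero, abs_zero]
    rw [zero_pow (by positivity)]
    positivity
  by_cases hw' : ¬ u' ∣ B' * y'
  · simp only [xcoset2_zero hw', mul_zero, expect_const_zero, abs_zero]
    rw [zero_pow (by positivity)]
    positivity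
  obtain ⟨w₀, hw⟩ := not_not.1 hw
  obtain ⟨w₀', hw'⟩ := not_not.1 hw'
  obtain ⟨l, P, m, -, hP, hPi, hW, hlo, hPhi, hm⟩ := hW
  obtain ⟨l', P', m', -, hP', hPi', hW', hlo', hPhi', hm'⟩ := hW'
  obtain ⟨ρ, hρ⟩ := exists_root_mod (p := p) hP hPi (B * y)
  obtain ⟨ρ', hρ'⟩ := exists_root_mod (p := p) hP' hPi' (B' * y')
  have hPu := xcoset_ndvd (P := P) hu.ne_zero (by omega)
  have hPu' := xcoset_ndvd (P := P') hu'.ne_zero (by omega)
  obtain ⟨c, hc, e⟩ := xcoset_piece hp hB hu hy hw hP hPi hPu hρ (fun i => (hm i).1) hW hN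
  obtain ⟨c', hc', e'⟩ :=
    xcoset_piece hp hB' hu' hy' hw' hP' hPi' hPu' hρ' (fun i => (hm' i).1) hW' hN'
  have hPW := hR P hPi (by omega) (hW ▸ (dvd_mul_left P (C l)).mul_right _)
  rw [hW'] at hPW
  set μ : ι ⊕ Option ι → F[X] := Sum.elim m fun o => o.elim P' m' with hμ
  have hθ : ∀ j : ι ⊕ Option ι, ∃ θ : degreeLT F L →+ degreeLT F N, ∀ h, (θ h).1 = μ j * h.1 := by
    rintro (i | _ | i)
    · exact xcoset2_theta (μ := m i) (by have := (hm i).2.1; omega)
    · exact xcoset2_theta (μ := P') (by omega)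
    · exact xcoset2_theta (μ := m' i) (by have := (hm' i).2.1; omega)
  choose θ hθ using hθ
  have key := box_ineq θ (fun x => jr (ρ + B * u * (κ * x.1)) P)
    (Sum.elim (fun i x => jr (w₀ + u ^ (p - 1) * (B * (κ * x.1)) ^ p) (m i))
      fun o x => o.elim (jr (ρ' + B' * u' * (κ' * x.1)) P')
        fun i => jr (w₀' + u' ^ (p - 1) * (B' * (κ' * x.1)) ^ p) (m' i))
    (by
      rintro (i | _ | i) x
      exacts [abs_jr_le _ _, abs_jr_le _ _, abs_jr_le _ _])
    (by
      rintro (i | _ | i) x h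
      · simp only [Sum.elim_inl, Submodule.coe_add, hθ, hμ]
        exact xcoset2_inv hp (hm i).1 ..
      · simp only [Sum.elim_inr, Submodule.coe_add, hθ, hμ, Option.elim_none]
        exact jr_congr hp hP' ⟨B' * u' * κ' * h.1, by ring⟩
      · simp only [Sum.elim_inr, Submodule.coe_add, hθ, hμ, Option.elim_some]
        exact xcoset2_inv hp (hm' i).1 ..)
  have loc := local_box hp (J := ι ⊕ Option ι) hP hPi (N := N) (L := L) (lo := lo) (by omega) hlo
    (by omega) ρ (B * u * κ) (fun h => (hPi.prime.dvd_or_dvd h).elim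
      (fun h => (hPi.prime.dvd_or_dvd h).elim (xcoset_ndvd hB.ne_zero (by omega)) hPu)
      (xcoset_ndvd hκ.ne_zero (by omega))) μ (by
      rintro (i | _ | i)
      exacts [(hm i).2.2, fun h => hPW ((Dvd.dvd.mul_left h _).mul_right _),
        fun h => hPW ((Dvd.dvd.trans h (dvd_prod_of_mem m' (mem_univ i))).mul_left _)])
  have hcard : Fintype.card (ι ⊕ Option ι) = 2 * Fintype.card ι + 1 := by
    rw [Fintype.card_sum, Fintype.card_option]
    ring
  rw [hcard] at key loc
  refine le_trans ?_ (key.trans (le_trans (le_of_eq ?_) loc))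
  · refine pow_le_pow_left₀ (abs_nonneg _) ?_ _
    refine le_trans (le_of_eq ?_) ((abs_mul (c * c') _).trans_le
      (mul_le_of_le_one_left (abs_nonneg _)
        ((abs_mul _ _).trans_le (mul_le_one₀ hc (abs_nonneg _) hc'))))
    rw [expect_ltF, mul_expect]
    refine congrArg _ (expect_congr rfl fun v _ => ?_)
    rw [e _ (xcoset2_deg κ (mem_degreeLT.1 v.2)), e' _ (xcoset2_deg κ' (mem_degreeLT.1 v.2))]
    simp only [Fintype.prod_sum_type, Fintype.prod_option, Sum.elim_inl, Sum.elim_inr,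
      Option.elim_none, Option.elim_some]
    ring
  · refine expect_congr rfl fun h _ => congrArg _ ?_
    refine expect_congr rfl fun v _ => ?_
    simp only [Submodule.coe_add, AddSubmonoidClass.coe_finsetSum, hθ, mul_assoc]

end Pool.Agent.MP_4fffd4_nt.Odd
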