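import Mathlib
import Pool.Agent.MP_4fffd4_nt.Odd.Coset2
import Pool.Agent.MP_4fffd4_nt.Odd.Loc2

/- Orthogonality of two weighted forms. -/

set_option autoImplicit false

namespace Pool.Agent.MP_4fffd4_nt.Odd

open Polynomial Finset Filter Topology
open scoped BigOperators

variable {F : Type*} [Field F] [Fintype F] {p : ℕ} [Fact p.Prime] [CharP F p]

omit [Fintype F] in
theorem xpair_monic {A h z : F[X]} (hA : A.Monic) (hz : z.Monic) (hh : h.natDegree < z.natDegree) :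
    (A * z + h).Monic ∧ (A * z + h).natDegree = A.natDegree + z.natDegree := by
  have h1 := hA.natDegree_mul hz
  have h2 : h.natDegree < (A * z).natDegree := by omega
  exact ⟨(hA.mul hz).add_of_left (degree_lt_degree h2),
    by rw [natDegree_add_eq_left_of_natDegree_lt h2, h1]⟩

theorem xpair_err {B A h : F[X]} (hB : B.Monic) (hA : A.Monic) {n : ℕ} (hh : h.natDegree < n)
    (K : ℕ) : 𝔼 z ∈ monF F n, ind (∃ δ : F[X], δ.Monic ∧ K < δ.natDegree ∧ δ ^ 2 ∣ B * (A * z + h))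
      ≤ (Fintype.card F : ℝ) ^ (B.natDegree + A.natDegree) / 2 ^ K := by
  have hq := card_pos' (F := F)
  rw [expect_monF_eq, sum_monF, div_le_iff₀ (by positivity)]
  refine (sum_sq_dvd (fun y : degreeLT F n => B * (A * (X ^ n + y.1) + h))
    (m := B.natDegree + A.natDegree + n) (fun a b hab => ?_) (fun y => ?_) K).trans_eq ?_
  · exact Subtype.ext (add_left_cancel (mul_left_cancel₀ hA.ne_zero
      (add_right_cancel (mul_left_cancel₀ hB.ne_zero hab))))
  · obtain ⟨h6, h7⟩ := monic_add_LT y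
    obtain ⟨h8, h9⟩ := xpair_monic hA h6 (h7.symm ▸ hh)
    exact ⟨hB.mul h8, by rw [hB.natDegree_mul h8, h9, h7, add_assoc]⟩
  · rw [pow_add _ _ n]; ring

omit [Fintype F] [CharP F p] in
theorem xpair_id (hp : p ≠ 2) (A A' B u u' a v z h : F[X]) :
    A * (z + B ^ (p - 1) * (u * u' * a * (A * A') ^ (p - 2) * v) ^ p) + h =
      A * z + h + (A ^ (p - 1) * B) ^ (p - 1) * (u * (u' * a * A' ^ (p - 2) * v)) ^ p := by
  have h2 := (Fact.out : p.Prime).two_le
  obtain ⟨s, hs⟩ : ∃ s, p = s + 2 := ⟨p - 2, by omega⟩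
  have e1 : p - 1 = s + 1 := by omega
  have e2 : p - 2 = s := by omega
  rw [e1, e2, hs]
  ring

omit [Fintype F] in
theorem xpair_res (A A' B h z : F[X]) :
    A' ^ p * derivative (A ^ (p - 1) * B * (A * z + h)) -
      A ^ p * derivative (A' ^ (p - 1) * B * (A' * z + h)) =
      derivative ((A * A') ^ (p - 1) * B * h * (A' - A)) := by
  have h0 : ∀ x y : F[X], x ^ p * derivative y = derivative (x ^ p * y) := fun x y => by
    rw [derivative_mul, xvar_dpow, zero_mul, zero_add]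
  rw [h0, h0, ← derivative_sub]
  congr 1
  have h2 := (Fact.out : p.Prime).two_le
  obtain ⟨s, hs⟩ : ∃ s, p = s + 1 := ⟨p - 1, by omega⟩
  have e1 : p - 1 = s := by omega
  rw [e1, hs]
  ring

theorem xpair_piece (hp : p ≠ 2) {ι : Type} [Fintype ι] {A A' B h a u u' : F[X]} (hA : A.Monic)
    (hA' : A'.Monic) (hB : B.Monic) (ha : a.Monic) (hu : u.Monic) (hu' : u'.Monic)
    (hR : derivative ((A * A') ^ (p - 1) * B * h * (A' - A)) ≠ 0) {n lo hi N L T : ℕ}
    {G G' Φ : F[X] → ℝ} (hG : ∀ W, |G W| ≤ 1 ∧ (G W ≠ 0 → GoodS ι lo hi W))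
    (hG' : ∀ W, |G' W| ≤ 1 ∧ (G' W ≠ 0 → GoodS ι lo hi W)) (hΦ : ∀ z, |Φ z| ≤ 1)
    (hΦ' : ∀ z v, Φ (z + a * v) = Φ z) (hh : h.natDegree < n)
    (hRlo : (derivative ((A * A') ^ (p - 1) * B * h * (A' - A))).natDegree ≤ lo)
    (hT : p * (A.natDegree + A'.natDegree) + B.natDegree + u.natDegree + u'.natDegree +
      a.natDegree ≤ T) (hN : p * (3 * T + N) ≤ n) (hTlo : T ≤ lo) (hhi : hi + L ≤ N)
    (hL : L ≤ lo) {x : ℝ} (hx : 0 ≤ x)
    (hxx : 4 ^ (2 * Fintype.card ι + 1) / (Fintype.card F : ℝ) ^ L +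
        2 ^ (2 * Fintype.card ι + 1 + 1) / √((Fintype.card F : ℝ) ^ lo) ≤
      x ^ 2 ^ (2 * Fintype.card ι + 1)) :
    |𝔼 z ∈ monF F n, Φ z * G (WA p B A h z) * G' (WA p B A' h z) *
      (piece u (A ^ (p - 1) * B * (A * z + h)) * piece u' (A' ^ (p - 1) * B * (A' * z + h)))| ≤
      x := by
  have hp0 : 0 < p := (Fact.out : p.Prime).pos
  have d1 : ∀ {A : F[X]} (k : ℕ), A.Monic → (A ^ (p - k)).natDegree ≤ p * A.natDegree :=
    fun k h => by rw [h.natDegree_pow]; exact Nat.mul_le_mul_right _ (Nat.sub_le _ _)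
  have e0 := mul_add p A.natDegree A'.natDegree
  have hB1 : (A ^ (p - 1) * B).natDegree ≤ T :=
    natDegree_mul_le.trans (by have := d1 1 hA; omega)
  have hB2 : (A' ^ (p - 1) * B).natDegree ≤ T :=
    natDegree_mul_le.trans (by have := d1 1 hA'; omega)
  have hκ1 : (u' * a * A' ^ (p - 2)).natDegree ≤ T :=
    natDegree_mul_le.trans (by
      have := d1 2 hA'; have : (u' * a).natDegree ≤ _ := natDegree_mul_le; omega)
  have hκ2 : (u * a * A ^ (p - 2)).natDegree ≤ T :=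
    natDegree_mul_le.trans (by
      have := d1 2 hA; have : (u * a).natDegree ≤ _ := natDegree_mul_le; omega)
  have hr : (u * u' * a * (A * A') ^ (p - 2)).natDegree ≤ T :=
    natDegree_mul_le.trans (by
      have h1 := d1 2 (hA.mul hA')
      rw [hA.natDegree_mul hA'] at h1
      have : (u * u' * a).natDegree ≤ _ := natDegree_mul_le
      have : (u * u').natDegree ≤ _ := natDegree_mul_le
      omega)
  have key : ∀ b c d : ℕ, b ≤ T → c ≤ T → d ≤ T → (p - 1) * b + p * (c + (d + N)) ≤ n := by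
    intro b c d h1 h2 h3
    refine le_trans ?_ hN
    have h4 : (p - 1) * b ≤ p * T := Nat.mul_le_mul (Nat.sub_le _ _) h1
    have h5 : p * (c + (d + N)) ≤ p * (T + (T + N)) := Nat.mul_le_mul_left _ (by omega)
    have h6 : p * (3 * T + N) = p * T + p * (T + (T + N)) := by ring
    omega
  set r := u * u' * a * (A * A') ^ (p - 2) with hrdef
  set Ψ : F[X] → ℝ := fun z => Φ z * G (WA p B A h z) * G' (WA p B A' h z) *
      (piece u (A ^ (p - 1) * B * (A * z + h)) * piece u' (A' ^ (p - 1) * B * (A' * z + h)))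
    with hΨ
  have h1 : 𝔼 z ∈ monF F n, Ψ z =
      𝔼 z ∈ monF F n, 𝔼 v ∈ ltF F N, Ψ (z + B ^ (p - 1) * (r * v) ^ p) := by
    rw [expect_comm, ← expect_const (ltF_nonempty (F := F) N) (𝔼 z ∈ monF F n, Ψ z)]
    refine expect_congr rfl fun v hv => (expect_monF_add (xloc1_deg ?_ (mem_ltF.1 hv)) Ψ).symm
    have := key B.natDegree 0 r.natDegree (by omega) (Nat.zero_le _) hr
    rwa [zero_add] at this
  change |𝔼 z ∈ monF F n, Ψ z| ≤ x
  rw [h1]
  refine xloc1_abs_le (monF_nonempty n) fun z hz => ?_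
  obtain ⟨hz1, hz2⟩ := mem_monF.1 hz
  obtain ⟨hy1, hd1⟩ := xpair_monic hA hz1 (hz2.symm ▸ hh)
  obtain ⟨hy2, hd2⟩ := xpair_monic hA' hz1 (hz2.symm ▸ hh)
  have h2 : ∀ v, Ψ (z + B ^ (p - 1) * (r * v) ^ p) =
      Φ z * G (WA p B A h z) * G' (WA p B A' h z) *
      (piece u (A ^ (p - 1) * B * (A * z + h + (A ^ (p - 1) * B) ^ (p - 1) *
        (u * (u' * a * A' ^ (p - 2) * v)) ^ p)) *
       piece u' (A' ^ (p - 1) * B * (A' * z + h + (A' ^ (p - 1) * B) ^ (p - 1) *
        (u' * (u * a * A ^ (p - 2) * v)) ^ p))) := by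
    intro v
    have i1 := xpair_id hp A A' B u u' a v z h
    have i2 := xpair_id hp A' A B u' u a v z h
    rw [mul_comm u' u, mul_comm A' A] at i2
    have i3 : a ∣ B ^ (p - 1) * (r * v) ^ p :=
      (((((dvd_mul_left a (u * u')).mul_right _).mul_right v).trans
        (dvd_pow_self _ hp0.ne')).mul_left _)
    obtain ⟨w, hw⟩ := i3
    have i4 : Φ (z + B ^ (p - 1) * (r * v) ^ p) = Φ z := by rw [hw, hΦ']
    simp only [hΨ, WA, i4]
    rw [hrdef, i1, i2, deriv_shift, deriv_shift]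
  simp only [h2, ← mul_expect]
  by_cases g1 : G (WA p B A h z) = 0
  · rw [g1, mul_zero, zero_mul, zero_mul, abs_zero]; exact hx
  by_cases g2 : G' (WA p B A' h z) = 0
  · rw [g2, mul_zero, zero_mul, abs_zero]; exact hx
  have h3 := coset_two hp (κ' := u * a * A ^ (p - 2)) ((hA.pow _).mul hB) ((hA'.pow _).mul hB)
    hu hu' hy1 hy2 ((hu'.mul ha).mul (hA'.pow (p - 2))) ((hG _).2 g1) ((hG' _).2 g2)
    (fun P hP hlo c1 c2 => by
      have c3 : P ∣ derivative ((A * A') ^ (p - 1) * B * h * (A' - A)) := by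
        rw [← xpair_res A A' B h z]
        exact (c1.mul_left _).sub (c2.mul_left _)
      have := natDegree_le_of_dvd c3 hR
      omega)
    ((key _ _ _ hB1 (by omega) hκ1).trans (by omega))
    ((key _ _ _ hB2 (by omega) hκ2).trans (by omega)) hhi hL (hB1.trans hTlo) (by omega)
    (by omega) (hκ1.trans hTlo)
  have h4 := (pow_le_pow_iff_left₀ (abs_nonneg _) hx (by positivity)).1 (h3.trans hxx)
  rw [abs_mul, abs_mul, abs_mul]
  refine (mul_le_mul ?_ h4 (abs_nonneg _) zero_le_one).trans_eq (one_mul x)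
  exact mul_le_one₀ (mul_le_one₀ (hΦ z) (abs_nonneg _) (hG _).1) (abs_nonneg _) (hG' _).1

theorem pair_avg (hp : p ≠ 2) {ι : Type} [Fintype ι] {lo hi : ℕ → ℕ}
    (hlo : Tendsto lo atTop atTop) (hhi : ∀ c : ℕ, ∀ᶠ M in atTop, hi M + c ≤ M / p)
    {A A' B h a : F[X]} (hA : A.Monic) (hA' : A'.Monic) (hB : B.Monic) (ha : a.Monic)
    (hD : A'.natDegree = A.natDegree)
    (hR : derivative ((A * A') ^ (p - 1) * B * h * (A' - A)) ≠ 0) {ε : ℝ} (hε : 0 < ε) :
    ∀ᶠ n in atTop, ∀ G G' Φ : F[X] → ℝ,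
      (∀ W, |G W| ≤ 1 ∧ (G W ≠ 0 → GoodS ι (lo (n + p * A.natDegree + B.natDegree - 1))
        (hi (n + p * A.natDegree + B.natDegree - 1)) W)) →
      (∀ W, |G' W| ≤ 1 ∧ (G' W ≠ 0 → GoodS ι (lo (n + p * A.natDegree + B.natDegree - 1))
        (hi (n + p * A.natDegree + B.natDegree - 1)) W)) →
      (∀ z, |Φ z| ≤ 1) → (∀ z v, Φ (z + a * v) = Φ z) →
      |𝔼 z ∈ monF F n, Φ z * (G (WA p B A h z) * lam (A * z + h)) *
        (G' (WA p B A' h z) * lam (A' * z + h))| ≤ ε := by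
  have hq := card_pos' (F := F)
  have hp0 : 0 < p := (Fact.out : p.Prime).pos
  set q : ℝ := (Fintype.card F : ℝ) with hqdef
  set B1 := A ^ (p - 1) * B with hB1
  set B2 := A' ^ (p - 1) * B with hB2
  have mB1 : B1.Monic := (hA.pow _).mul hB
  have mB2 : B2.Monic := (hA'.pow _).mul hB
  have half : Tendsto (fun k : ℕ => (1 : ℝ) / 2 ^ k) atTop (𝓝 0) := by
    simpa using tendsto_pow_atTop_nhds_zero_of_lt_one (r := (1 / 2 : ℝ)) (by norm_num)
      (by norm_num)
  set c := q ^ (B1.natDegree + A.natDegree) + 2 * q ^ (B2.natDegree + A'.natDegree) with hc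
  obtain ⟨K, hK⟩ := (half.eventually (ge_mem_nhds (show 0 < ε / 2 / c by positivity))).exists
  set x := ε / 2 / (q ^ (3 * K + 1) * q ^ (3 * K + 1)) with hx
  have hx0 : 0 < x := by positivity
  set j := 2 * Fintype.card ι + 1 with hj
  obtain ⟨m, hm⟩ := (half.eventually (ge_mem_nhds (show 0 < x ^ 2 ^ j by positivity))).exists
  obtain ⟨T, hT⟩ : ∃ T, T = p * (A.natDegree + A'.natDegree) + B.natDegree + 3 * K + 3 * K +
    a.natDegree := ⟨_, rfl⟩
  have hM : Tendsto (fun n => n + p * A.natDegree + B.natDegree - 1) atTop atTop :=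
    (tendsto_sub_atTop_nat 1).comp ((tendsto_add_atTop_nat _).comp (tendsto_add_atTop_nat _))
  filter_upwards [hM.eventually (hhi (m + 2 * j + 1 + 3 * T + A.natDegree + B.natDegree)),
    (hlo.comp hM).eventually_ge_atTop (m + 2 * j + 1 + T + 2 * (m + j + 2) +
      (derivative ((A * A') ^ (p - 1) * B * h * (A' - A))).natDegree),
    eventually_gt_atTop h.natDegree] with n h1 h2 h3 G G' Φ hG hG' hΦ hΦ'
  simp only [Function.comp] at h2
  set M := n + p * A.natDegree + B.natDegree - 1 with hMdef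
  have h4 : M / p ≤ n / p + (A.natDegree + B.natDegree) := by
    rw [← Nat.add_mul_div_left _ _ hp0]
    refine Nat.div_le_div_right ?_
    have := Nat.le_mul_of_pos_left B.natDegree hp0
    rw [mul_add]
    omega
  obtain ⟨N, hN⟩ : ∃ N, n / p = 3 * T + N := ⟨n / p - 3 * T, by omega⟩
  have h5 : p * (3 * T + N) ≤ n := hN ▸ Nat.mul_div_le n p
  set E : F[X] → ℝ := fun z => ind (∃ δ : F[X], δ.Monic ∧ K < δ.natDegree ∧ δ ^ 2 ∣ z) with hE
  set S : F[X] → ℝ := fun z => ∑ u ∈ fullLE F (3 * K), piece u z with hS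
  set Θ : F[X] → ℝ := fun z => Φ z * G (WA p B A h z) * G' (WA p B A' h z) with hΘ
  have hΘ1 : ∀ z, |Θ z| ≤ 1 := fun z => by
    simp only [hΘ, abs_mul]
    exact mul_le_one₀ (mul_le_one₀ (hΦ z) (abs_nonneg _) (hG _).1) (abs_nonneg _) (hG' _).1
  have e1 : 𝔼 z ∈ monF F n, Φ z * (G (WA p B A h z) * lam (A * z + h)) *
        (G' (WA p B A' h z) * lam (A' * z + h)) = lam B1 * lam B2 *
      (∑ u ∈ fullLE F (3 * K), ∑ u' ∈ fullLE F (3 * K), 𝔼 z ∈ monF F n,
        Θ z * (piece u (B1 * (A * z + h)) * piece u' (B2 * (A' * z + h))) +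
       𝔼 z ∈ monF F n, Θ z * (lam (B1 * (A * z + h)) * lam (B2 * (A' * z + h)) -
        S (B1 * (A * z + h)) * S (B2 * (A' * z + h)))) := by
    simp only [← expect_sum_comm, ← expect_add_distrib, mul_expect]
    refine expect_congr rfl fun z hz => ?_
    obtain ⟨hz1, hz2⟩ := mem_monF.1 hz
    have a1 := (xpair_monic hA hz1 (hz2.symm ▸ h3)).1.ne_zero
    have a2 := (xpair_monic hA' hz1 (hz2.symm ▸ h3)).1.ne_zero
    simp only [← Finset.mul_sum, ← Finset.sum_mul, hS, hΘ]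
    rw [lam_mul mB1.ne_zero a1, lam_mul mB2.ne_zero a2]
    have b1 := lam_mul_self B1
    have b2 := lam_mul_self B2
    linear_combination (-(Φ z * G (WA p B A h z) * G' (WA p B A' h z) * lam (A * z + h) *
      lam (A' * z + h))) * (lam B2 * lam B2 * b1 + b2)
  have hcard : ((fullLE F (3 * K)).card : ℝ) ≤ q ^ (3 * K + 1) := by
    have h4 : (fullLE F (3 * K)).card ≤ Fintype.card F ^ (3 * K + 1) := by
      classical
      exact (card_filter_le _ _).trans (card_monLE _)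
    rw [hqdef]
    exact_mod_cast h4
  have e2 : |∑ u ∈ fullLE F (3 * K), ∑ u' ∈ fullLE F (3 * K), 𝔼 z ∈ monF F n,
      Θ z * (piece u (B1 * (A * z + h)) * piece u' (B2 * (A' * z + h)))| ≤ ε / 2 := by
    refine (abs_sum_le_sum_abs _ _).trans
      ((sum_le_card_nsmul _ _ (q ^ (3 * K + 1) * x) fun u hu => ?_).trans ?_)
    · refine (abs_sum_le_sum_abs _ _).trans ((sum_le_card_nsmul _ _ x fun u' hu' => ?_).trans ?_)
      · obtain ⟨hu1, hu2, -⟩ := mem_fullLE.1 hu
        obtain ⟨hu1', hu2', -⟩ := mem_fullLE.1 hu'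
        exact xpair_piece hp hA hA' hB ha hu1 hu1' hR (L := m + 2 * j + 1) (T := T) hG hG' hΦ hΦ'
          h3 (by omega) (by omega) h5 (by omega) (by omega) (by omega) hx0.le
          ((xloc2_hxx two_le_card j m _ _ le_rfl (by omega)).trans hm)
      · rw [nsmul_eq_mul]
        exact mul_le_mul_of_nonneg_right hcard hx0.le
    · rw [nsmul_eq_mul]
      refine (mul_le_mul_of_nonneg_right hcard (by positivity)).trans_eq ?_
      rw [hx]
      field_simp
  have e3 : |𝔼 z ∈ monF F n, Θ z * (lam (B1 * (A * z + h)) * lam (B2 * (A' * z + h)) -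
        S (B1 * (A * z + h)) * S (B2 * (A' * z + h)))| ≤ ε / 2 := by
    have f1 := xpair_err mB1 hA h3 K
    have f2 := xpair_err mB2 hA' h3 K
    refine (abs_expect_le _ _).trans ((expect_le_expect (g := fun z =>
      E (B1 * (A * z + h)) + 2 * E (B2 * (A' * z + h))) fun z hz => ?_).trans ?_)
    · obtain ⟨hz1, hz2⟩ := mem_monF.1 hz
      have a1 : |lam (B1 * (A * z + h)) - S (B1 * (A * z + h))| ≤ E (B1 * (A * z + h)) :=
        lam_decomp (mB1.mul (xpair_monic hA hz1 (hz2.symm ▸ h3)).1) K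
      have a2 : |lam (B2 * (A' * z + h)) - S (B2 * (A' * z + h))| ≤ E (B2 * (A' * z + h)) :=
        lam_decomp (mB2.mul (xpair_monic hA' hz1 (hz2.symm ▸ h3)).1) K
      have a3 : E (B1 * (A * z + h)) ≤ 1 := ind_le_one _
      have a4 := abs_lam (B1 * (A * z + h))
      have a5 := abs_lam (B2 * (A' * z + h))
      generalize lam (B1 * (A * z + h)) = l1 at *
      generalize lam (B2 * (A' * z + h)) = l2 at *
      generalize S (B1 * (A * z + h)) = s1 at *
      generalize S (B2 * (A' * z + h)) = s2 at *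
      have a6 : |s1| ≤ 2 := by
        have := abs_sub_abs_le_abs_sub s1 l1
        rw [abs_sub_comm] at this
        linarith
      rw [abs_mul, show l1 * l2 - s1 * s2 = (l1 - s1) * l2 + s1 * (l2 - s2) by ring]
      refine (mul_le_of_le_one_left (abs_nonneg _) (hΘ1 z)).trans ((abs_add_le _ _).trans ?_)
      rw [abs_mul, abs_mul, a5, mul_one]
      exact add_le_add a1 (mul_le_mul a6 a2 (abs_nonneg _) two_pos.le)
    · rw [expect_add_distrib, ← mul_expect]
      have f3 : c * (1 / 2 ^ K) ≤ ε / 2 := by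
        rw [le_div_iff₀ (by positivity)] at hK
        linarith
      refine le_trans ?_ f3
      rw [hc, add_mul, mul_one_div, mul_assoc, mul_one_div]
      exact add_le_add f1 (mul_le_mul_of_nonneg_left f2 two_pos.le)
  rw [e1, abs_mul, abs_mul, abs_lam, abs_lam, one_mul, one_mul]
  exact (abs_add_le _ _).trans ((add_le_add e2 e3).trans_eq (add_halves ε))

end Pool.Agent.MP_4fffd4_nt.Odd
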