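import Mathlib
import Pool.Agent.MP_4fffd4_nt.Odd.Defs2
import Pool.Agent.MP_4fffd4_nt.Odd.Var

/- The variance of the normalised weight over the directions. -/

set_option autoImplicit false

namespace Pool.Agent.MP_4fffd4_nt.Odd

open Polynomial Finset Filter Topology
open scoped BigOperators

variable {F : Type*} [Field F] [Fintype F] {p : ℕ} [Fact p.Prime] [CharP F p]

omit [Fintype F] in
theorem xvar2_add (B A h z w : F[X]) :
    WA p B A h (z + w) = WA p B A h z + A ^ p * derivative (B * w) := by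
  have e : A ^ (p - 1) * B * (A * (z + w) + h) =
      A ^ (p - 1) * B * (A * z + h) + A ^ p * (B * w) := by
    rw [← xvar_pow (p := p) A]
    ring
  rw [WA, WA, e, derivative_add, derivative_mul (f := A ^ p), xvar_dpow, zero_mul, zero_add]

omit [Fintype F] in
theorem xvar2_deg {B A h z : F[X]} (hB : B.Monic) (hA : A.Monic) (hz : z.Monic)
    (hh : h.natDegree < z.natDegree) (hne : ((z.natDegree + B.natDegree : ℕ) : F) ≠ 0) :
    (WA p B A h z).natDegree = z.natDegree + p * A.natDegree + B.natDegree - 1 := by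
  have h1 : h.natDegree < (A * z).natDegree := by rw [hA.natDegree_mul hz]; omega
  have h2 : (A * z + h).Monic := (hA.mul hz).add_of_left (degree_lt_degree h1)
  have h3 := ((hA.pow (p - 1)).mul hB).mul h2
  have h4 : (A ^ (p - 1) * B * (A * z + h)).natDegree =
      z.natDegree + p * A.natDegree + B.natDegree := by
    rw [((hA.pow (p - 1)).mul hB).natDegree_mul h2, (hA.pow (p - 1)).natDegree_mul hB,
      hA.natDegree_pow, natDegree_add_eq_left_of_natDegree_lt h1, hA.natDegree_mul hz]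
    obtain ⟨k, rfl⟩ := Nat.exists_eq_add_of_le' (Fact.out : p.Prime).one_le
    rw [Nat.add_sub_cancel]
    ring
  rw [WA, natDegree_deriv h3, h4]
  rw [h4, add_right_comm, Nat.cast_add, Nat.cast_mul, CharP.cast_eq_zero F p, zero_mul, add_zero]
  exact hne

theorem variance_two (hp : p ≠ 2) {ι : Type} [Fintype ι] {δ : ℝ} {lo hi : ℕ → ℕ}
    (hw : PosW F p ι δ lo hi) {b : ℕ} (hb : 1 ≤ b) (e : ℕ) {A : F[X]} (hA : A.Monic) (h : F[X]) :
    ∀ᶠ n in atTop, ((n + (p * b + e) : ℕ) : F) ≠ 0 → ∃ G : F[X] → F[X] → ℝ,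
      (∀ t W, |G t W| ≤ 1 ∧ (G t W ≠ 0 → GoodS ι (lo (n + p * A.natDegree + (p * b + e) - 1))
        (hi (n + p * A.natDegree + (p * b + e) - 1)) W)) ∧
      𝔼 z ∈ monF F n, (𝔼 t ∈ monF F b, (G t (WA p (BB p e t) A h z) - δ)) ^ 2 ≤
        p / (Fintype.card F : ℝ) ^ b := by
  obtain ⟨Ω, c, hΩ, hspan⟩ := exists_span (p := p) (monF F b)
  set D := p * b + e with hD
  set K := (p - 1) * D with hK
  set c' := 2 * K + e + c + p * (e + Ω.natDegree) + 1 with hc'
  have hp1 : 1 ≤ p := (Fact.out : p.Prime).one_le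
  have htend : Tendsto (fun n : ℕ => n + p * A.natDegree + D - 1) atTop atTop :=
    tendsto_atTop_atTop.2 fun N => ⟨N + 1, fun n hn => by omega⟩
  have hB0 : ∀ t ∈ monF F b, BB p e t ≠ 0 := fun t ht => (monic_BB hp e hb ht).1.ne_zero
  have hBK : ∀ t ∈ monF F b, (BB p e t ^ (p - 1)).natDegree = K := fun t ht => by
    rw [natDegree_pow, (monic_BB hp e hb ht).2]
  have hev := (eventually_all_finset (monF F b)).2 fun t ht =>
    hw.dens (A * (X ^ e * Ω * BB p e t)) (p * A.natDegree + D + c')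
      (mul_ne_zero hA.ne_zero (mul_ne_zero (mul_ne_zero (pow_ne_zero _ X_ne_zero) hΩ) (hB0 t ht)))
  filter_upwards [htend.eventually hev, eventually_gt_atTop c', eventually_gt_atTop h.natDegree]
    with n hdens hn hnh hne
  set M := n + p * A.natDegree + D - 1 with hM
  let ρ : F[X] → F[X] → ℝ := fun t W => 𝔼 v ∈ ltF F (n - c'),
    ind (GoodS ι (lo M) (hi M) (W + (A * (X ^ e * Ω * BB p e t)) ^ p * derivative v))
  let G : F[X] → F[X] → ℝ := fun t W => ind (GoodS ι (lo M) (hi M) W) * min 1 (δ / ρ t W)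
  have hρ0 : ∀ t W, 0 ≤ ρ t W := fun t W => expect_nonneg fun _ _ => ind_nonneg _
  have hρ1 : ∀ t W, ρ t W ≤ 1 := fun t W => expect_le (ltF_nonempty _) fun _ _ => ind_le_one _
  have hG : ∀ t W, 0 ≤ G t W ∧ G t W ≤ 1 := fun t W =>
    have h0 := le_min zero_le_one (div_nonneg hw.pos.le (hρ0 t W))
    ⟨mul_nonneg (ind_nonneg _) h0, mul_le_one₀ (ind_le_one _) h0 (min_le_left _ _)⟩
  have hδ : ∀ (t : monF F b) (x : degreeLT F n),
      δ ≤ ρ t.1 (WA p (BB p e t.1) A h (X ^ n + x.1)) := fun t x => by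
    obtain ⟨h1, h2⟩ := monic_BB hp e hb t.2
    obtain ⟨h3, h4⟩ := monic_add_LT x
    refine hdens t.1 t.2 _ _ ?_ ?_ (by omega)
    · rw [xvar2_deg h1 hA h3 (by omega) (by rwa [h2, h4]), h2, h4]
    · have a1 := natDegree_mul_le (p := A) (q := X ^ e * Ω * BB p e t.1)
      have a2 := natDegree_mul_le (p := X ^ e * Ω) (q := BB p e t.1)
      have a3 := natDegree_mul_le (p := (X ^ e : F[X])) (q := Ω)
      rw [natDegree_X_pow] at a3
      have a4 := Nat.mul_le_mul_left p (show (A * (X ^ e * Ω * BB p e t.1)).natDegree ≤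
        A.natDegree + (e + Ω.natDegree) + D by omega)
      have a5 : p * D = K + D := by
        rw [hK, ← Nat.succ_mul, Nat.succ_eq_add_one, Nat.sub_add_cancel hp1]
      rw [mul_add, mul_add p A.natDegree] at a4
      omega
  refine ⟨G, fun t W => ⟨abs_le.2 ⟨by linarith [(hG t W).1], (hG t W).2⟩, fun h0 => ?_⟩, ?_⟩
  · by_contra h1
    exact h0 (by simp only [G]; rw [ind_neg h1, zero_mul])
  have hv : ∀ v : degreeLT F (n - c'), v.1.natDegree < n - c' := fun v =>
    xvar_nat (by omega) (mem_degreeLT.1 v.2)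
  have hXΩ : ((X ^ e * Ω) ^ p).natDegree ≤ p * (e + Ω.natDegree) :=
    natDegree_pow_le.trans (Nat.mul_le_mul_left p
      (natDegree_mul_le.trans (by rw [natDegree_X_pow])))
  have hθm : ∀ (t : monF F b) (v : degreeLT F (n - c')),
      (X ^ e * Ω) ^ p * BB p e t.1 ^ (p - 1) * v.1 ∈ degreeLT F n := by
    intro t v
    refine mem_degreeLT.2 (xvar_deg ?_)
    have h1 := natDegree_mul_le (p := (X ^ e * Ω) ^ p * BB p e t.1 ^ (p - 1)) (q := v.1)
    have h2 := natDegree_mul_le (p := (X ^ e * Ω) ^ p) (q := BB p e t.1 ^ (p - 1))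
    have h3 := hBK t.1 t.2
    have h4 := hv v
    omega
  let θ : monF F b → degreeLT F (n - c') →+ degreeLT F n := fun t =>
    { toFun := fun v => ⟨_, hθm t v⟩
      map_zero' := Subtype.ext (by simp)
      map_add' := fun v w => Subtype.ext (by simp [mul_add]) }
  let U : monF F b → AddSubgroup (degreeLT F n) := fun t =>
    { carrier := {x | ∃ s : F[X], x.1 = BB p e t.1 ^ (p - 1) * s ^ p}
      zero_mem' := ⟨0, by simp [zero_pow (by omega : p ≠ 0)]⟩
      add_mem' := by
        rintro x y ⟨s, hs⟩ ⟨s', hs'⟩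
        exact ⟨s + s', by rw [Submodule.coe_add, hs, hs', add_pow_char, mul_add]⟩
      neg_mem' := by
        rintro x ⟨s, hs⟩
        exact ⟨-s, by rw [Submodule.coe_neg, hs, neg_pow, neg_one_pow_char]; ring⟩ }
  let φ : monF F b → degreeLT F n → ℝ := fun t x =>
    G t.1 (WA p (BB p e t.1) A h (X ^ n + x.1)) - δ
  have : Nonempty (monF F b) := (monF_nonempty b).coe_sort
  have key := var_abstract p U θ φ ?_ ?_ ?_ ?_
  · rw [expect_monF]
    rw [Fintype.card_coe, card_monF, Nat.cast_pow] at key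
    refine le_of_eq_of_le (expect_congr rfl fun x _ => ?_) key
    rw [xvar_coe]
  · intro t x
    have h1 := (hδ t x).trans (hρ1 _ _)
    have h2 := hG t.1 (WA p (BB p e t.1) A h (X ^ n + x.1))
    have := hw.pos
    rw [abs_le]
    constructor <;> simp only [φ] <;> linarith [h2.1, h2.2]
  · rintro t x u ⟨s, hs⟩
    simp only [φ]
    rw [Submodule.coe_add, hs, ← add_assoc, xvar2_add, ← mul_assoc, xvar_pow, ← mul_pow, xvar_dpow,
      mul_zero, add_zero]
  · intro t x
    set W := WA p (BB p e t.1) A h (X ^ n + x.1) with hW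
    have e1 : ∀ v : degreeLT F (n - c'), φ t (x + θ t v) = ind (GoodS ι (lo M) (hi M)
        (W + (A * (X ^ e * Ω * BB p e t.1)) ^ p * derivative v.1)) * (δ / ρ t.1 W) - δ := by
      intro v
      have e2 : BB p e t.1 * (θ t v).1 = (X ^ e * Ω * BB p e t.1) ^ p * v.1 := by
        change BB p e t.1 * ((X ^ e * Ω) ^ p * BB p e t.1 ^ (p - 1) * v.1) = _
        rw [mul_pow (X ^ e * Ω), ← xvar_pow (p := p) (BB p e t.1)]
        ring
      have e3 : ρ t.1 (W + (A * (X ^ e * Ω * BB p e t.1)) ^ p * derivative v.1) = ρ t.1 W := by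
        simp only [ρ]
        rw [expect_ltF_eq, expect_ltF_eq, ← sum_ltF_add (mem_degreeLT.1 v.2) fun w =>
          ind (GoodS ι (lo M) (hi M) (W + (A * (X ^ e * Ω * BB p e t.1)) ^ p * derivative w))]
        simp only [derivative_add, mul_add, add_assoc, add_comm (_ * derivative v.1)]
      simp only [φ, G]
      rw [Submodule.coe_add, ← add_assoc, xvar2_add, e2, derivative_mul (f := _ ^ p), xvar_dpow,
        zero_mul, zero_add, ← mul_assoc, ← mul_pow, ← hW, e3,
        min_eq_right (div_le_one_of_le₀ (hδ t x) (hρ0 _ _))]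
    simp only [e1]
    rw [expect_sub_distrib, Fintype.expect_const, ← expect_mul,
      ← expect_ltF (n - c') fun v => ind (GoodS ι (lo M) (hi M)
        (W + (A * (X ^ e * Ω * BB p e t.1)) ^ p * derivative v))]
    exact sub_eq_zero.2 (mul_div_cancel₀ δ (hw.pos.trans_le (hδ t x)).ne')
  · intro τ hτ t v
    obtain ⟨u, hu, hsum⟩ := hspan (fun i => (τ i).1) (Subtype.val_injective.comp hτ)
      (fun i => (τ i).2) (X ^ e * BB p e t.1 ^ (p - 1) * v.1)
    have hx : (X ^ e * BB p e t.1 ^ (p - 1) * v.1).natDegree ≤ e + K + v.1.natDegree := by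
      have h1 := natDegree_mul_le (p := X ^ e * BB p e t.1 ^ (p - 1)) (q := v.1)
      have h2 := natDegree_mul_le (p := (X ^ e : F[X])) (q := BB p e t.1 ^ (p - 1))
      have h3 := hBK t.1 t.2
      rw [natDegree_X_pow] at h2
      omega
    have hm : ∀ i, BB p e (τ i).1 ^ (p - 1) * u i ^ p ∈ degreeLT F n := by
      intro i
      refine mem_degreeLT.2 (xvar_deg ?_)
      have h1 := natDegree_mul_le (p := BB p e (τ i).1 ^ (p - 1)) (q := u i ^ p)
      have h2 : (u i ^ p).natDegree ≤ p * (u i).natDegree := natDegree_pow_le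
      have h3 := hBK (τ i).1 (τ i).2
      have h4 := hv v
      have h5 := hu i
      omega
    refine ⟨fun i => ⟨_, hm i⟩, fun i => ⟨u i, rfl⟩, Subtype.ext ?_⟩
    rw [Submodule.coe_sum]
    change (X ^ e * Ω) ^ p * BB p e t.1 ^ (p - 1) * v.1 =
      ∑ i, BB p e (τ i).1 ^ (p - 1) * u i ^ p
    have e1 : ∀ i, BB p e (τ i).1 ^ (p - 1) * u i ^ p =
        (X ^ e) ^ (p - 1) * ((X + (τ i).1 ^ p) ^ (p - 1) * u i ^ p) := fun i => by
      rw [BB, mul_pow, mul_assoc]
    simp only [e1]
    rw [← mul_sum, ← hsum, mul_pow, ← xvar_pow (p := p) (X ^ e)]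
    ring

end Pool.Agent.MP_4fffd4_nt.Odd
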