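import Mathlib
import Pool.Agent.MP_4fffd4_nt.Odd.Pair
import Pool.Agent.MP_4fffd4_nt.Odd.Var2

/- Almost orthogonality of linear forms. -/

set_option autoImplicit false

namespace Pool.Agent.MP_4fffd4_nt.Odd

open Polynomial Finset Filter Topology
open scoped BigOperators

section Aux

variable {F : Type*} [Field F] [Fintype F]

theorem xgram_mul_le {x y : ℝ} (hx : |x| ≤ 1) (hy : |y| ≤ 1) : |x * y| ≤ 1 := by
  rw [abs_mul]
  exact mul_le_one₀ hx (abs_nonneg _) hy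

/-- The first moment of a sum of almost orthogonal functions. -/
theorem xgram_first (n : ℕ) (S : Finset F[X]) (f : F[X] → F[X] → ℝ) {s : ℝ} (hs : 0 < s)
    (hf : ∀ A ∈ S, ∀ z, |f A z| ≤ 1)
    (h : ∀ A ∈ S, ∀ A' ∈ S, A ≠ A' → |𝔼 z ∈ monF F n, f A z * f A' z| ≤ s ^ 2) :
    𝔼 z ∈ monF F n, |∑ A ∈ S, f A z| ≤ √S.card + (S.card + 1) * s := by
  classical
  have hN : (0 : ℝ) ≤ S.card := Nat.cast_nonneg _
  refine xloc2_amgm n _ (by positivity) ?_
  have e1 : 𝔼 z ∈ monF F n, (∑ A ∈ S, f A z) ^ 2 =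
      ∑ A ∈ S, ∑ A' ∈ S, 𝔼 z ∈ monF F n, f A z * f A' z := by
    simp only [sq, sum_mul_sum, expect_sum_comm]
  have e2 : ∀ A ∈ S, ∑ A' ∈ S, 𝔼 z ∈ monF F n, f A z * f A' z ≤ 1 + S.card * s ^ 2 := by
    intro A hA
    have e3 : ∀ A' ∈ S, 𝔼 z ∈ monF F n, f A z * f A' z ≤
        (if A = A' then 1 else 0) + s ^ 2 := by
      intro A' hA'
      by_cases k : A = A'
      · rw [if_pos k]
        refine le_add_of_le_of_nonneg (expect_le (monF_nonempty n) fun z _ => ?_) (sq_nonneg s)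
        exact (le_abs_self _).trans (xgram_mul_le (hf A hA z) (hf A' hA' z))
      · rw [if_neg k, zero_add]
        exact (le_abs_self _).trans (h A hA A' hA' k)
    refine (sum_le_sum e3).trans_eq ?_
    rw [sum_add_distrib, sum_ite_eq, if_pos hA, sum_const, nsmul_eq_mul]
  rw [e1]
  refine (sum_le_card_nsmul _ _ _ e2).trans ?_
  rw [nsmul_eq_mul, add_sq, Real.sq_sqrt hN]
  have e4 : 0 ≤ 2 * √(S.card : ℝ) * ((S.card + 1) * s) := by positivity
  have e5 : 0 ≤ (2 * (S.card : ℝ) + 1) * s ^ 2 := by positivity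
  nlinarith

theorem xgram_split (n b : ℕ) (u : F[X] → ℝ) (γ : F[X] → F[X] → ℝ) (δ : ℝ) :
    δ * 𝔼 z ∈ monF F n, u z = 𝔼 t ∈ monF F b, 𝔼 z ∈ monF F n, u z * γ t z -
      𝔼 z ∈ monF F n, u z * 𝔼 t ∈ monF F b, (γ t z - δ) := by
  rw [expect_comm (monF F b), ← expect_sub_distrib, mul_expect]
  refine expect_congr rfl fun z _ => ?_
  rw [← mul_expect, expect_sub_distrib, expect_const (monF_nonempty b)]
  ring

theorem xgram_core (n b : ℕ) (S : Finset F[X]) (φ : F[X] → ℝ) (u : F[X] → F[X] → ℝ)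
    (γ : F[X] → F[X] → F[X] → ℝ) {δ s : ℝ} (hs : 0 < s) (hφ : ∀ z, |φ z| ≤ 1)
    (hu : ∀ A z, |u A z| ≤ 1) (hγ : ∀ A ∈ S, ∀ t z, |γ A t z| ≤ 1)
    (h1 : ∀ A ∈ S, 𝔼 z ∈ monF F n, (𝔼 t ∈ monF F b, (γ A t z - δ)) ^ 2 ≤ s ^ 2)
    (h2 : ∀ t ∈ monF F b, ∀ A ∈ S, ∀ A' ∈ S, A ≠ A' →
      |𝔼 z ∈ monF F n, (u A z * γ A t z) * (u A' z * γ A' t z)| ≤ s ^ 2) :
    |δ * ∑ A ∈ S, 𝔼 z ∈ monF F n, φ z * u A z| ≤ √S.card + (2 * S.card + 1) * s := by
  have e0 : δ * ∑ A ∈ S, 𝔼 z ∈ monF F n, φ z * u A z =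
      𝔼 t ∈ monF F b, 𝔼 z ∈ monF F n, φ z * ∑ A ∈ S, u A z * γ A t z -
        ∑ A ∈ S, 𝔼 z ∈ monF F n, φ z * u A z * 𝔼 t ∈ monF F b, (γ A t z - δ) := by
    rw [mul_sum, sum_congr rfl fun A _ => xgram_split n b (fun z => φ z * u A z) (γ A) δ,
      sum_sub_distrib]
    simp only [mul_sum, expect_sum_comm, mul_assoc]
  have e1 : |𝔼 t ∈ monF F b, 𝔼 z ∈ monF F n, φ z * ∑ A ∈ S, u A z * γ A t z| ≤
      √S.card + (S.card + 1) * s := by
    refine (abs_expect_le _ _).trans (expect_le (monF_nonempty b) fun t ht => ?_)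
    refine (abs_expect_le _ _).trans (le_trans (expect_le_expect fun z _ => ?_)
      (xgram_first n S (fun A z => u A z * γ A t z) hs
        (fun A hA z => xgram_mul_le (hu A z) (hγ A hA t z)) (h2 t ht)))
    rw [abs_mul]
    exact mul_le_of_le_one_left (abs_nonneg _) (hφ z)
  have e2 : |∑ A ∈ S, 𝔼 z ∈ monF F n, φ z * u A z * 𝔼 t ∈ monF F b, (γ A t z - δ)| ≤
      S.card * s := by
    rw [← nsmul_eq_mul]
    refine (abs_sum_le_sum_abs _ _).trans (sum_le_card_nsmul _ _ _ fun A hA => ?_)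
    refine (abs_expect_le _ _).trans (le_trans (expect_le_expect fun z _ => ?_)
      (xloc2_amgm n _ hs (h1 A hA)))
    rw [abs_mul]
    exact mul_le_of_le_one_left (abs_nonneg _) (xgram_mul_le (hφ z) (hu A z))
  rw [e0]
  refine (abs_sub _ _).trans ?_
  linarith

theorem xgram_small (x : ℝ) {y : ℝ} (hy : 0 < y) :
    ∀ᶠ b : ℕ in atTop, x / (Fintype.card F : ℝ) ^ b ≤ y :=
  ((tendsto_pow_atTop_atTop_of_one_lt (one_lt_two.trans_le two_le_card)).const_div_atTop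
    x).eventually (ge_mem_nhds hy)

end Aux

variable {F : Type*} [Field F] [Fintype F] {p : ℕ} [Fact p.Prime] [CharP F p]

omit [Fintype F] in
theorem deriv_mul_ne {R t : F[X]} (hR : R ≠ 0) (h : R.natDegree < (X + t ^ p).natDegree) :
    derivative (R * (X + t ^ p)) ≠ 0 := by
  intro h0
  have h1 : derivative (X + t ^ p : F[X]) = 1 := by
    rw [derivative_add, derivative_X, derivative_pow, CharP.cast_eq_zero F p]
    simp
  rw [derivative_mul, h1, mul_one] at h0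
  exact (natDegree_le_of_dvd ⟨-derivative R, by linear_combination h0⟩ hR).not_gt h

theorem xgram_ne (hp : p ≠ 2) {A A' h t : F[X]} {D b e : ℕ} (hA : A ∈ monF F D)
    (hA' : A' ∈ monF F D) (hne : A ≠ A') (hh : h ≠ 0) (ht : t ∈ monF F b) (he : e ≤ 1)
    (hb : 3 * D + h.natDegree + 2 ≤ b) :
    derivative ((A * A') ^ (p - 1) * BB p e t * h * (A' - A)) ≠ 0 := by
  obtain ⟨a1, a2⟩ := mem_monF.1 hA
  obtain ⟨b1, b2⟩ := mem_monF.1 hA'
  have h0 := (monic_BB hp 0 (by omega) ht).2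
  rw [BB, pow_zero, one_mul, add_zero] at h0
  have hm : ((A * A') ^ (p - 1) * X ^ e).Monic := ((a1.mul b1).pow _).mul (monic_X_pow e)
  have hs : A' - A ≠ 0 := sub_ne_zero.2 hne.symm
  have e1 : (A * A') ^ (p - 1) * BB p e t * h * (A' - A) =
      (A * A') ^ (p - 1) * X ^ e * h * (A' - A) * (X + t ^ p) := by
    rw [BB]
    ring
  rw [e1]
  refine deriv_mul_ne (mul_ne_zero (mul_ne_zero hm.ne_zero hh) hs) ?_
  have e2 : (A' - A).natDegree ≤ D := (natDegree_sub_le _ _).trans (by rw [a2, b2, max_self])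
  rw [h0, natDegree_mul (mul_ne_zero hm.ne_zero hh) hs, natDegree_mul hm.ne_zero hh,
    ((a1.mul b1).pow _).natDegree_mul (monic_X_pow e), natDegree_X_pow,
    (a1.mul b1).natDegree_pow, a1.natDegree_mul b1, a2, b2]
  obtain ⟨r, hr⟩ : ∃ r, p = r + 1 := ⟨p - 1, by have := (Fact.out : p.Prime).pos; omega⟩
  have e3 : r * (D + D) ≤ r * b := Nat.mul_le_mul_left _ (by omega)
  rw [hr, Nat.add_sub_cancel, add_mul r 1 b]
  omega

theorem gram (hp : p ≠ 2) {ι : Type} [Fintype ι] {δ : ℝ} {lo hi : ℕ → ℕ}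
    (hw : PosW F p ι δ lo hi) (S : Finset F[X]) {D : ℕ} (hS : S ⊆ monF F D) {h a : F[X]}
    (hh : h ≠ 0) (ha : a.Monic) {ε : ℝ} (hε : 0 < ε) :
    ∀ᶠ n in atTop, ∀ (φ : F[X] → ℝ) (κ : F[X] → F[X] → ℝ), (∀ z, |φ z| ≤ 1) →
      (∀ A z, |κ A z| ≤ 1) → (∀ A z v, κ A (z + a * v) = κ A z) →
      |∑ A ∈ S, 𝔼 z ∈ monF F n, φ z * (κ A z * lam (A * z + h))| ≤ √S.card / δ + ε := by
  have hδ := hw.pos
  obtain ⟨s, hs, hs'⟩ : ∃ s : ℝ, 0 < s ∧ (2 * S.card + 1) * s = δ * ε :=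
    ⟨δ * ε / (2 * S.card + 1), by positivity, by field_simp⟩
  obtain ⟨b, hb1, hb2⟩ := ((xgram_small (F := F) p (pow_pos hs 2)).and
    (eventually_ge_atTop (3 * D + h.natDegree + 2))).exists
  have hb : 1 ≤ b := by omega
  have main : ∀ e ≤ 1, ∀ᶠ n in atTop, ((n + (p * b + e) : ℕ) : F) ≠ 0 →
      ∀ (φ : F[X] → ℝ) (κ : F[X] → F[X] → ℝ), (∀ z, |φ z| ≤ 1) →
      (∀ A z, |κ A z| ≤ 1) → (∀ A z v, κ A (z + a * v) = κ A z) →
      |∑ A ∈ S, 𝔼 z ∈ monF F n, φ z * (κ A z * lam (A * z + h))| ≤ √S.card / δ + ε := by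
    intro e he
    have V := (eventually_all_finset S).2 fun A hA =>
      variance_two hp hw hb e (mem_monF.1 (hS hA)).1 h
    have P := (eventually_all_finset (monF F b)).2 fun t ht =>
      (eventually_all_finset S).2 fun A hA => (eventually_all_finset S).2 fun A' hA' =>
        eventually_all.2 fun hne : A ≠ A' =>
          pair_avg (ι := ι) hp hw.lo_top hw.hi_le (mem_monF.1 (hS hA)).1 (mem_monF.1 (hS hA')).1
            (monic_BB hp e hb ht).1 ha
            ((mem_monF.1 (hS hA')).2.trans (mem_monF.1 (hS hA)).2.symm)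
            (xgram_ne hp (hS hA) (hS hA') hne hh ht he hb2) (pow_pos hs 2)
    filter_upwards [V, P] with n hV hP hne φ κ hφ hκ hκ'
    choose! G hG hG' using fun A hA => hV A hA hne
    have key := xgram_core n b S φ (fun A z => κ A z * lam (A * z + h))
      (fun A t z => G A t (WA p (BB p e t) A h z)) (δ := δ) hs hφ
      (fun A z => xgram_mul_le (hκ A z) (abs_lam _).le) (fun A hA t z => (hG A hA t _).1)
      (fun A hA => (hG' A hA).trans hb1) (fun t ht A hA A' hA' hAA => by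
        have k := hP t ht A hA A' hA' hAA (G A t) (G A' t) (fun z => κ A z * κ A' z)
          (by rw [(monic_BB hp e hb ht).2]; exact hG A hA t)
          (by
            rw [(monic_BB hp e hb ht).2, (mem_monF.1 (hS hA)).2, ← (mem_monF.1 (hS hA')).2]
            exact hG A' hA' t)
          (fun z => xgram_mul_le (hκ A z) (hκ A' z)) (fun z v => by rw [hκ', hκ'])
        refine le_of_eq_of_le (congrArg _ (expect_congr rfl fun z _ => ?_)) k
        ring)
    rw [abs_mul, abs_of_pos hδ, hs'] at key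
    rw [div_add' _ _ _ hδ.ne', le_div_iff₀ hδ]
    linarith
  filter_upwards [main 0 zero_le_one, main 1 le_rfl] with n h0 h1
  by_cases h : ((n + (p * b + 0) : ℕ) : F) = 0
  · refine h1 ?_
    rw [← add_assoc, Nat.cast_add, Nat.cast_one, show n + p * b = n + (p * b + 0) from rfl, h,
      zero_add]
    exact one_ne_zero
  · exact h0 h

end Pool.Agent.MP_4fffd4_nt.Odd
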