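import Mathlib
import Pool.Agent.MP_4fffd4_nt.Odd.Defs2
import Pool.Agent.MP_4fffd4_nt.Odd.Surj

/- The total error over squarefree moduli. -/

set_option autoImplicit false

namespace Pool.Agent.MP_4fffd4_nt.Odd

open Polynomial Finset Filter Topology
open scoped BigOperators

variable {F : Type*} [Field F] [Fintype F] {p : ℕ} [Fact p.Prime] [CharP F p]

omit [Fintype F] [Fact p.Prime] [CharP F p] in
theorem xerr_ann {e : F[X]} (he : e ≠ 0) {β : F[X] →ₗ[F] F} (h2 : ∀ x, β (e * x) = 0)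
    (h1 : β ≠ 0) : ∃ d : F[X], d.Monic ∧ d ∣ e ∧ 0 < d.natDegree ∧
      ∀ s, (∀ x, β (s * x) = 0) ↔ d ∣ s := by
  let I : Ideal F[X] :=
    { carrier := {s | ∀ x, β (s * x) = 0}
      add_mem' := fun {a b} ha hb x => by rw [add_mul, map_add, ha x, hb x, add_zero]
      zero_mem' := fun x => by simp
      smul_mem' := fun c s hs x => by rw [smul_eq_mul, mul_comm c, mul_assoc]; exact hs _ }
  have heI : e ∈ I := h2
  set g := Submodule.IsPrincipal.generator I
  have hg : ∀ s, s ∈ I ↔ g ∣ s := fun s => Submodule.IsPrincipal.mem_iff_generator_dvd I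
  have hg0 : g ≠ 0 := ne_zero_of_dvd_ne_zero he ((hg e).1 heI)
  have hm : (g * C g.leadingCoeff⁻¹).Monic := monic_mul_leadingCoeff_inv hg0
  have hd : ∀ s, s ∈ I ↔ g * C g.leadingCoeff⁻¹ ∣ s := fun s => by
    rw [hg, IsUnit.mul_right_dvd
      (isUnit_C.2 (inv_ne_zero (leadingCoeff_ne_zero.2 hg0)).isUnit)]
  refine ⟨_, hm, (hd e).1 heI, Nat.pos_of_ne_zero fun h0 => h1 (LinearMap.ext fun x => ?_), hd⟩
  have := (hd 1).2 (by rw [hm.natDegree_eq_zero.1 h0]) x
  rwa [one_mul] at this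

/-- a primitive functional with prescribed truncation -/
def XTr (p ν : ℕ) (d : F[X]) (τ : Fin (ν / p) → F) : Prop :=
  ∃ γ, XPrim ν d γ ∧ ∀ i : Fin (ν / p), γ (X ^ (p * (i + 1) - 1)) = τ i

theorem xerr_fib {ν D : ℕ} (h1 : D < ν) (h2 : ν < 2 * D) (τ : Fin (ν / p) → F) :
    ∑ d ∈ monF F D, ind (XTr p ν d τ) ≤ (Fintype.card F : ℝ) ^ (2 * D + 1 - ν) := by
  classical
  have e0 : ∑ d ∈ monF F D, ind (XTr p ν d τ) =
      (((monF F D).filter fun d => XTr p ν d τ).card : ℝ) := by
    rw [card_filter]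
    push_cast
    exact sum_congr rfl fun d _ => by unfold ind; congr
  rw [e0, ← Nat.cast_pow, Nat.cast_le]
  rcases ((monF F D).filter fun d => XTr p ν d τ).eq_empty_or_nonempty with h | ⟨e₀, h₀⟩
  · simp [h]
  obtain ⟨h3, β₀, hβ₀, h4⟩ := mem_filter.1 h₀
  obtain ⟨h5, h6⟩ := mem_monF.1 h3
  have h7 := xsurj_ker h5 hβ₀.1 (r := ν - 1 - D) (by omega)
  rw [h6, show D - (ν - 1 - D) = 2 * D + 1 - ν by omega] at h7
  rw [← h7]
  refine card_le_card_of_injOn (fun e => e - e₀) (fun e he => ?_) fun a _ b _ h =>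
    sub_left_injective h
  obtain ⟨h8, β, hβ, h9⟩ := mem_filter.1 he
  obtain ⟨h10, h11⟩ := mem_monF.1 h8
  have hd : e.degree = D := by rw [degree_eq_natDegree h10.ne_zero, h11]
  refine mem_filter.2 ⟨mem_ltF.2 ?_, fun x hx => ?_⟩
  · rw [← hd]
    exact degree_sub_lt (by rw [hd, degree_eq_natDegree h5.ne_zero, h6]) h10.ne_zero
      (by rw [h10, h5])
  · have h12 : (e * x).degree < (ν - 1 : ℕ) := by
      rw [degree_mul, hd]
      refine (WithBot.add_lt_add_left (by simp) hx).trans_le ?_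
      exact_mod_cast (by omega : D + (ν - 1 - D) ≤ ν - 1)
    rw [sub_mul, map_sub, (hβ₀.1 e₀).2 dvd_rfl, sub_zero,
      ← xsurj_agree (p := p) hβ.2 hβ₀.2 (fun i => (h9 i).trans (h4 i).symm) h12]
    exact (hβ.1 e).2 dvd_rfl x

omit [Fact p.Prime] [CharP F p] in
theorem xerr_lin {U V : Type*} [AddCommGroup U] [Module F U] [Fintype U] [AddCommGroup V]
    [Module F V] [Fintype V] (f : U →ₗ[F] V) (y₀ : V) :
    |(𝔼 v, ind (f v = y₀)) - 1 / Fintype.card V| ≤
      ((Nat.card (LinearMap.range f).dualAnnihilator : ℝ) - 1) / Fintype.card V := by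
  classical
  set I := LinearMap.range f
  haveI : FiniteDimensional F V := Module.Finite.of_finite
  haveI : Finite (Module.Dual F V) := Module.finite_of_finite F
  letI : Fintype I.dualAnnihilator := Fintype.ofFinite _
  have hq := card_pos' (F := F)
  have h1 := Subspace.finrank_add_finrank_dualAnnihilator_eq I
  have h2 : (Fintype.card I : ℝ) * Nat.card I.dualAnnihilator = Fintype.card V := by
    rw [Nat.card_eq_fintype_card, Module.card_eq_pow_finrank (K := F) (V := I),
      Module.card_eq_pow_finrank (K := F) (V := I.dualAnnihilator),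
      Module.card_eq_pow_finrank (K := F) (V := V), ← h1]
    push_cast
    rw [pow_add]
  have hI : (0 : ℝ) < Fintype.card I := by exact_mod_cast Fintype.card_pos
  have hV : (0 : ℝ) < Fintype.card V := by exact_mod_cast Fintype.card_pos
  have h3 : 𝔼 v, ind (f v = y₀) = 𝔼 y : I, ind (y.1 = y₀) :=
    expect_surj f.rangeRestrict.toAddMonoidHom f.surjective_rangeRestrict fun y => ind (y.1 = y₀)
  rw [h3]
  by_cases h : y₀ ∈ I
  · rw [Fintype.expect_eq_sum_div_card, Finset.sum_eq_single ⟨y₀, h⟩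
      (fun y _ hy => ind_neg fun e => hy (Subtype.ext e)) (by simp), ind_pos rfl]
    have h4 : (1 : ℝ) ≤ Nat.card I.dualAnnihilator := by exact_mod_cast Nat.card_pos
    have h5 : 1 / (Fintype.card I : ℝ) - 1 / Fintype.card V =
        (Nat.card I.dualAnnihilator - 1) / Fintype.card V := by
      rw [← h2]; field_simp
    rw [h5, abs_of_nonneg (div_nonneg (by linarith) hV.le)]
  · rw [Finset.expect_congr rfl fun (y : I) _ => ind_neg fun e : y.1 = y₀ => h (e ▸ y.2),
      expect_const_zero,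
      zero_sub, abs_neg, abs_of_pos (by positivity)]
    have h4 : Nontrivial I.dualAnnihilator := by
      rw [Submodule.nontrivial_iff_ne_bot]
      intro h0
      exact h (by rw [Submodule.dualAnnihilator_eq_bot_iff.1 h0]; trivial)
    have h5 : (2 : ℝ) ≤ Nat.card I.dualAnnihilator := by
      exact_mod_cast Finite.one_lt_card
    exact div_le_div_of_nonneg_right (by linarith) hV.le

theorem xerr_one {ν : ℕ} {e Q : F[X]} (he : e.Monic) (hs : Squarefree e) (hQ : IsCoprime Q e)
    (hν : e.natDegree < ν) (D₀ : F[X]) :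
    er ν Q D₀ e ≤ (∑ τ : Fin (ν / p) → F, ∑ k ∈ range (e.natDegree + 1), ∑ d ∈ monF F k,
      ind (ν < 2 * k ∧ XTr p ν d τ ∧ d ∣ e)) / (Fintype.card F : ℝ) ^ e.natDegree := by
  classical
  let g : F[X] →ₗ[F] degreeLT F e.natDegree :=
    { toFun := fun v => ⟨(Q * v) %ₘ e, mem_degreeLT.2 (xsurj_mod he _)⟩
      map_add' := fun v w => Subtype.ext (by simp [mul_add, add_modByMonic])
      map_smul' := fun c v => Subtype.ext (by simp [smul_modByMonic]) }
  have hg : Function.Surjective g := by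
    intro x
    obtain ⟨a, b, hab⟩ := hQ
    refine ⟨a * x.1, Subtype.ext ?_⟩
    refine sub_eq_zero.1 (xsurj_zero he ?_ (mem_degreeLT.1 (sub_mem (g _).2 x.2)))
    have h3 := xsurj_dvd e (Q * (a * x.1)) he
    have : (Q * (a * x.1)) %ₘ e - x.1 = -(Q * (a * x.1) - (Q * (a * x.1)) %ₘ e) -
        e * (b * x.1) := by
      linear_combination (x.1) * hab
    change e ∣ (Q * (a * x.1)) %ₘ e - x.1
    rw [this]
    exact dvd_sub (dvd_neg.2 h3) (dvd_mul_right _ _)
  have hg0 : ∀ x, g (e * x) = 0 := fun x => Subtype.ext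
    ((modByMonic_eq_zero_iff_dvd he).2 ((dvd_mul_right e x).mul_left Q))
  let f : degreeLT F ν →ₗ[F] degreeLT F e.natDegree :=
    g ∘ₗ derivative ∘ₗ (degreeLT F ν).subtype
  let y₀ : degreeLT F e.natDegree := ⟨(-D₀) %ₘ e, mem_degreeLT.2 (xsurj_mod he _)⟩
  have key : ∀ y : degreeLT F e.natDegree, e ∣ D₀ + y.1 ↔ y = y₀ := by
    intro y
    have h3 := xsurj_dvd e (-D₀) he
    have h4 : D₀ + y.1 = (y.1 - y₀.1) - (-D₀ - (-D₀) %ₘ e) := by simp [y₀]; ring
    rw [h4, dvd_sub_left h3]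
    exact ⟨fun h5 => Subtype.ext (sub_eq_zero.1 (xsurj_zero he h5
      (mem_degreeLT.1 (sub_mem y.2 y₀.2)))), fun h5 => by simp [h5]⟩
  have h5 : ∀ v : degreeLT F ν, ind (e ∣ D₀ + Q * derivative v.1) = ind (f v = y₀) := by
    intro v
    refine ind_congr (Iff.trans ?_ (key _))
    have h3 := xsurj_dvd e (Q * derivative v.1) he
    have h4 : D₀ + Q * derivative v.1 = D₀ + (f v).1 +
        (Q * derivative v.1 - (Q * derivative v.1) %ₘ e) := by simp [f, g]
    rw [h4, dvd_add_left h3]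
  have h6 := xerr_lin f y₀
  rw [card_degreeLT, Nat.cast_pow] at h6
  rw [er, expect_ltF, Finset.expect_congr rfl fun v _ => h5 v]
  refine h6.trans (div_le_div_of_nonneg_right ?_ (pow_pos card_pos' _).le)
  set A := (LinearMap.range f).dualAnnihilator
  haveI : FiniteDimensional F (degreeLT F e.natDegree) := Module.Finite.of_finite
  haveI : Finite (Module.Dual F (degreeLT F e.natDegree)) := Module.finite_of_finite F
  letI : Fintype A := Fintype.ofFinite _
  have hA : ∀ β : A, ∀ v : F[X], v.degree < ν → (β.1 ∘ₗ g) (derivative v) = 0 := fun β v hv =>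
    (Submodule.mem_dualAnnihilator _).1 β.2 _ ⟨⟨v, mem_degreeLT.2 hv⟩, rfl⟩
  let τ : A → Fin (ν / p) → F := fun β i => (β.1 ∘ₗ g) (X ^ (p * (i + 1) - 1))
  have hτ : Function.Injective τ := by
    intro β γ h
    refine Subtype.ext (LinearMap.ext fun y => ?_)
    obtain ⟨x, rfl⟩ := hg y
    have h7 : g x = g (x %ₘ e) := by
      conv_lhs => rw [← modByMonic_add_div x e, map_add, hg0, add_zero]
    rw [h7]
    exact xsurj_agree (p := p) (hA β) (hA γ) (congrFun h)
      ((xsurj_mod he x).trans_le (by exact_mod_cast (by omega : e.natDegree ≤ ν - 1)))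
  have h7 : (Nat.card A : ℝ) - 1 = ∑ β ∈ (univ : Finset A).erase 0, (1 : ℝ) := by
    rw [sum_const, card_erase_of_mem (mem_univ _), card_univ, Nat.card_eq_fintype_card,
      nsmul_eq_mul, mul_one, Nat.cast_sub Fintype.card_pos, Nat.cast_one]
  rw [h7]
  refine le_trans (sum_le_sum fun β hβ => ?_) ((sum_image (s := univ.erase 0) (g := τ)
    (f := fun τ => ∑ k ∈ range (e.natDegree + 1), ∑ d ∈ monF F k,
      ind (ν < 2 * k ∧ XTr p ν d τ ∧ d ∣ e)) fun _ _ _ _ h => hτ h).symm.trans_le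
    (sum_le_sum_of_subset_of_nonneg (subset_univ _) fun _ _ _ =>
      sum_nonneg fun _ _ => sum_nonneg fun _ _ => ind_nonneg _))
  have h8 : β.1 ∘ₗ g ≠ 0 := fun h0 => (mem_erase.1 hβ).1 (Subtype.ext (LinearMap.ext fun y => by
    obtain ⟨x, rfl⟩ := hg y
    exact LinearMap.congr_fun h0 x))
  obtain ⟨d, h9, h10, h11, h12⟩ := xerr_ann he.ne_zero (β := β.1 ∘ₗ g)
    (fun x => by rw [LinearMap.comp_apply, hg0, map_zero]) h8
  have h13 := natDegree_le_of_dvd h10 he.ne_zero
  rw [← ind_pos trivial, sum_sigma']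
  exact ind_le_sum fun _ => ⟨⟨d.natDegree, d⟩, mem_sigma.2 ⟨mem_range.2 (by simp only; omega),
    mem_monF.2 ⟨h9, rfl⟩⟩, xsurj_lt h9 (hs.squarefree_of_dvd h10) h11 ⟨h12, hA β⟩,
    ⟨_, ⟨h12, hA β⟩, fun _ => rfl⟩, h10⟩

theorem sum_er {ν D : ℕ} (hD : D < ν) (Q D₀ : F[X]) :
    ∑ e ∈ monF F D, ind (Squarefree e ∧ IsCoprime Q e) * er ν Q D₀ e ≤
      (D + 1) * (Fintype.card F : ℝ) ^ (ν / p + 1 + D) / (Fintype.card F : ℝ) ^ ν := by
  have hq := card_pos' (F := F)
  have hq1 : (1 : ℝ) ≤ Fintype.card F := one_le_two.trans two_le_card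
  calc _ ≤ ∑ e ∈ monF F D, (∑ τ : Fin (ν / p) → F, ∑ k ∈ range (D + 1), ∑ d ∈ monF F k,
          ind (ν < 2 * k ∧ XTr p ν d τ ∧ d ∣ e)) / (Fintype.card F : ℝ) ^ D := by
        refine sum_le_sum fun e he => ?_
        obtain ⟨h1, rfl⟩ := mem_monF.1 he
        by_cases h : Squarefree e ∧ IsCoprime Q e
        · rw [ind_pos h, one_mul]
          exact xerr_one h1 h.1 h.2 hD D₀
        · rw [ind_neg h, zero_mul]
          exact div_nonneg (sum_nonneg fun _ _ => sum_nonneg fun _ _ => sum_nonneg fun _ _ =>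
            ind_nonneg _) (by positivity)
    _ ≤ (∑ τ : Fin (ν / p) → F, ∑ k ∈ range (D + 1),
          (Fintype.card F : ℝ) ^ (1 + 2 * D) / (Fintype.card F : ℝ) ^ ν) /
          (Fintype.card F : ℝ) ^ D := by
        rw [← sum_div, sum_comm]
        refine div_le_div_of_nonneg_right (sum_le_sum fun τ _ => ?_) (by positivity)
        rw [sum_comm]
        refine sum_le_sum fun k hk => ?_
        have hk' := mem_range.1 hk
        rw [sum_comm]
        by_cases h : ν < 2 * k
        swap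
        · rw [sum_eq_zero fun _ _ => sum_eq_zero fun _ _ => ind_neg fun h' => h h'.1]
          positivity
        have h1 : ∀ d ∈ monF F k, ∑ e ∈ monF F D, ind (ν < 2 * k ∧ XTr p ν d τ ∧ d ∣ e) ≤
            ind (XTr p ν d τ) * ((Fintype.card F : ℝ) ^ D / Fintype.card F ^ k) := by
          intro d hd
          obtain ⟨h2, h3⟩ := mem_monF.1 hd
          simp only [ind_and, ind_pos h, one_mul, ← mul_sum]
          refine mul_le_mul_of_nonneg_left ?_ (ind_nonneg _)
          rw [sum_monF, ← h3]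
          exact sum_dvd_monic (fun y : degreeLT F D => X ^ D + y.1)
            (fun _ _ h => Subtype.ext (add_left_cancel h)) monic_add_LT h2
        refine (sum_le_sum h1).trans ?_
        rw [← sum_mul]
        refine (mul_le_mul_of_nonneg_right (xerr_fib (by omega) h τ) (by positivity)).trans ?_
        rw [← mul_div_assoc, div_le_div_iff₀ (by positivity) (by positivity), ← pow_add, ← pow_add,
          ← pow_add]
        exact pow_le_pow_right₀ hq1 (by omega)
    _ = _ := by
        rw [sum_const, sum_const, card_range, card_univ, Fintype.card_fun, Fintype.card_fin,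
          nsmul_eq_mul, nsmul_eq_mul, two_mul]
        push_cast
        simp only [pow_add]
        field_simp

end Pool.Agent.MP_4fffd4_nt.Odd
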