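import Mathlib
import Pool.Agent.MP_4fffd4_nt.Odd.Err

/- The total error over products of tuples of primes. -/

set_option autoImplicit false

namespace Pool.Agent.MP_4fffd4_nt.Odd

open Polynomial Finset Filter Topology
open scoped BigOperators

variable {F : Type*} [Field F] [Fintype F] {p : ℕ} [Fact p.Prime] [CharP F p]

omit [Fintype F] [Fact p.Prime] [CharP F p] in
theorem xtup_coprime {R S : F[X]} (hR : R.Monic) (hR' : Irreducible R) (hS : S.Monic)
    (hS' : Irreducible S) (h : R ≠ S) : IsCoprime R S :=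
  hR'.coprime_iff_not_dvd.2 fun hd =>
    h (eq_of_monic_of_associated hR hS (hR'.associated_of_dvd hS' hd))

omit [Fintype F] [Fact p.Prime] [CharP F p] in
open Classical in
theorem xtup_card (S : Finset F[X]) (W : F[X]) :
    ∑ R ∈ S, ind (R ∣ W) = ((S.filter (· ∣ W)).card : ℝ) := by
  rw [card_filter]
  push_cast
  refine sum_congr rfl fun R _ => ?_
  by_cases h : R ∣ W
  · rw [ind_pos h, if_pos h]
  · rw [ind_neg h, if_neg h]

omit [Fact p.Prime] [CharP F p] in
/-- the number of prime divisors of degree above `a` -/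
theorem card_prime_dvd (S : Finset F[X]) {a : ℕ} {W : F[X]} (h0 : W ≠ 0)
    (hS : ∀ R ∈ S, R.Monic ∧ Irreducible R ∧ a < R.natDegree) :
    (a + 1) * ∑ R ∈ S, ind (R ∣ W) ≤ W.natDegree := by
  classical
  rw [xtup_card]
  have hm : ∀ R ∈ S.filter (· ∣ W), R.Monic ∧ Irreducible R ∧ a < R.natDegree :=
    fun R hR => hS R (mem_filter.1 hR).1
  have hd : ∏ R ∈ S.filter (· ∣ W), R ∣ W :=
    Finset.prod_dvd_of_coprime (fun R hR T hT hne =>
      xtup_coprime (hm R hR).1 (hm R hR).2.1 (hm T hT).1 (hm T hT).2.1 hne)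
      fun R hR => (mem_filter.1 hR).2
  have h1 := natDegree_le_of_dvd hd h0
  rw [natDegree_prod_of_monic _ _ fun R hR => (hm R hR).1] at h1
  have h2 : (S.filter (· ∣ W)).card * (a + 1) ≤ ∑ R ∈ S.filter (· ∣ W), R.natDegree := by
    rw [← smul_eq_mul]
    exact card_nsmul_le_sum _ _ _ fun R hR => (hm R hR).2.2
  have h3 := h2.trans h1
  rw [mul_comm] at h3
  exact_mod_cast h3

omit [Fact p.Prime] [CharP F p] in
open Classical in
theorem xtup_fib {σ κ : Type*} [Fintype κ] (T : Finset σ) (tup : σ → κ → F[X])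
    (hinj : Set.InjOn tup T) {D : ℕ} (Q : F[X])
    (hT : ∀ s ∈ T, Function.Injective (tup s) ∧
      (∀ i, (tup s i).Monic ∧ Irreducible (tup s i) ∧ ¬ tup s i ∣ Q) ∧
      (∏ i, tup s i).natDegree ≤ D) (e : F[X]) :
    ((T.filter fun s => ∏ i, tup s i = e).card : ℝ) ≤
      (D + 1) ^ Fintype.card κ * ind (Squarefree e ∧ IsCoprime Q e) := by
  rcases (T.filter fun s => ∏ i, tup s i = e).eq_empty_or_nonempty with h | ⟨s₀, h⟩
  · rw [h, card_empty, Nat.cast_zero]
    exact mul_nonneg (by positivity) (ind_nonneg _)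
  obtain ⟨hs₀, he⟩ := mem_filter.1 h
  obtain ⟨h1, h2, h3⟩ := hT s₀ hs₀
  have hsq : Squarefree e := by
    rw [← he]
    refine Finset.squarefree_prod_of_pairwise_isCoprime (fun i _ j _ hij => ?_)
      fun i _ => (h2 i).2.1.squarefree
    exact (xtup_coprime (h2 i).1 (h2 i).2.1 (h2 j).1 (h2 j).2.1 fun e' => hij (h1 e')).isRelPrime
  have hco : IsCoprime Q e := by
    rw [← he]
    exact IsCoprime.prod_right fun i _ => ((h2 i).2.1.coprime_iff_not_dvd.2 (h2 i).2.2).symm
  rw [ind_pos ⟨hsq, hco⟩, mul_one]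
  have hD : e.natDegree ≤ D := he ▸ h3
  have hc : (((prmI F 0 D).filter (· ∣ e)).card : ℝ) ≤ D + 1 := by
    have := card_prime_dvd (prmI F 0 D) (a := 0) hsq.ne_zero fun R hR =>
      ⟨(mem_prmI.1 hR).1, (mem_prmI.1 hR).2.1, (mem_prmI.1 hR).2.2.1⟩
    rw [xtup_card] at this
    have h4 : (e.natDegree : ℝ) ≤ D := by exact_mod_cast hD
    push_cast at this
    linarith
  have hle : (T.filter fun s => ∏ i, tup s i = e).card ≤
      (Fintype.piFinset fun _ : κ => (prmI F 0 D).filter (· ∣ e)).card := by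
    refine card_le_card_of_injOn tup (fun s hs => ?_)
      (hinj.mono fun s hs => (mem_filter.1 hs).1)
    obtain ⟨hs1, hs2⟩ := mem_filter.1 hs
    refine Fintype.mem_piFinset.2 fun i => ?_
    obtain ⟨a1, a2, -⟩ := (hT s hs1).2.1 i
    have hd : tup s i ∣ e := hs2 ▸ dvd_prod_of_mem _ (mem_univ i)
    exact mem_filter.2 ⟨mem_prmI.2 ⟨a1, a2, a2.natDegree_pos,
      (natDegree_le_of_dvd hd hsq.ne_zero).trans hD⟩, hd⟩
  rw [Fintype.card_piFinset, prod_const, card_univ] at hle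
  calc ((T.filter fun s => ∏ i, tup s i = e).card : ℝ)
      ≤ (((prmI F 0 D).filter (· ∣ e)).card : ℝ) ^ Fintype.card κ := by exact_mod_cast hle
    _ ≤ _ := pow_le_pow_left₀ (Nat.cast_nonneg _) hc _

theorem sum_er_tup {σ κ : Type*} [Fintype κ] (T : Finset σ) (tup : σ → κ → F[X])
    (hinj : Set.InjOn tup T) {ν D : ℕ} (hD : D < ν) (Q D₀ : F[X])
    (hT : ∀ s ∈ T, Function.Injective (tup s) ∧
      (∀ i, (tup s i).Monic ∧ Irreducible (tup s i) ∧ ¬ tup s i ∣ Q) ∧
      (∏ i, tup s i).natDegree ≤ D) :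
    ∑ s ∈ T, er ν Q D₀ (∏ i, tup s i) ≤ (D + 1) ^ (Fintype.card κ + 2) *
      (Fintype.card F : ℝ) ^ (ν / p + 1 + D) / (Fintype.card F : ℝ) ^ ν := by
  classical
  have hq : (1 : ℝ) ≤ Fintype.card F := by exact_mod_cast Fintype.card_pos
  have hmap : ∀ s ∈ T, ∏ i, tup s i ∈ monLE F D := fun s hs =>
    mem_monLE.2 ⟨monic_prod_of_monic _ _ fun i _ => ((hT s hs).2.1 i).1, (hT s hs).2.2⟩
  rw [← sum_fiberwise_of_maps_to hmap]
  calc ∑ e ∈ monLE F D, ∑ s ∈ T with ∏ i, tup s i = e, er ν Q D₀ (∏ i, tup s i)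
      ≤ ∑ e ∈ monLE F D, (D + 1) ^ Fintype.card κ *
          (ind (Squarefree e ∧ IsCoprime Q e) * er ν Q D₀ e) := by
        refine sum_le_sum fun e _ => ?_
        rw [sum_congr rfl fun s hs => by rw [(mem_filter.1 hs).2], sum_const, nsmul_eq_mul,
          ← mul_assoc]
        refine mul_le_mul_of_nonneg_right ?_ (abs_nonneg _)
        convert xtup_fib T tup hinj Q hT e
    _ = (D + 1) ^ Fintype.card κ * ∑ k ∈ range (D + 1), ∑ e ∈ monF F k,
          ind (Squarefree e ∧ IsCoprime Q e) * er ν Q D₀ e := by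
        rw [← mul_sum, sum_monLE]
    _ ≤ (D + 1) ^ Fintype.card κ * ∑ _k ∈ range (D + 1),
          (D + 1) * (Fintype.card F : ℝ) ^ (ν / p + 1 + D) / (Fintype.card F : ℝ) ^ ν := by
        refine mul_le_mul_of_nonneg_left (sum_le_sum fun k hk => ?_) (by positivity)
        have hk' : k ≤ D := Nat.lt_succ_iff.1 (mem_range.1 hk)
        refine (sum_er (p := p) (hk'.trans_lt hD) Q D₀).trans ?_
        have h1 : (k : ℝ) ≤ D := by exact_mod_cast hk'
        gcongr
    _ = _ := by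
        rw [sum_const, card_range, nsmul_eq_mul]
        push_cast
        ring

end Pool.Agent.MP_4fffd4_nt.Odd
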