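import Mathlib
import Pool.Agent.MP_4fffd4_nt.Odd.Tup
import Pool.Agent.MP_4fffd4_nt.Odd.Win1

/- The windows for smooth polynomials: degrees. -/

set_option autoImplicit false

namespace Pool.Agent.MP_4fffd4_nt.Odd

open Polynomial Finset Filter Topology
open scoped BigOperators

variable {F : Type*} [Field F] [Fintype F] {K p M : ℕ}

theorem xposa_mem (hp : 3 ≤ p) {r : ℕ} (hr : r ≤ 3 * p - 4)
    {P : Fin r → F[X]} (hP : P ∈ T3 F p M r) (j : Fin r) :
    (P j).Monic ∧ Irreducible (P j) ∧ M / p / 3 < (P j).natDegree + (j + 2) * tt p M ∧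
      (P j).natDegree + (j + 1) * tt p M ≤ M / p / 3 ∧ (j + 2) * tt p M ≤ 3 * (p * tt p M) := by
  obtain ⟨h1, h2, h3, h4⟩ := mem_prmI.1 (Fintype.mem_piFinset.1 hP j)
  have hj := j.2
  have h5 : (j + 2) * tt p M ≤ 3 * (p * tt p M) := by
    rw [← mul_assoc]
    exact Nat.mul_le_mul_right _ (by omega)
  have h6 : (j + 1) * tt p M ≤ (j + 2) * tt p M := Nat.mul_le_mul_right _ (by omega)
  have h7 := xwin1_tt (M := M) hp
  have h8 := xwin1_pt (M := M) hp
  rw [mul_assoc] at h7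
  exact ⟨h1, h2, by omega, by omega, h5⟩

theorem xposa_y (hK : 4 ≤ K) : 4 * yy K p M ≤ tt p M := by
  have h1 := Nat.mul_div_le (tt p M) K
  have h2 : 4 * (tt p M / K) ≤ K * (tt p M / K) := Nat.mul_le_mul_right _ hK
  rw [yy]
  omega

theorem mem_T3 (hp : 3 ≤ p) (hM : 100 ≤ tt p M) {r : ℕ} (hr : r ≤ 3 * p - 4)
    {P : Fin r → F[X]} (hP : P ∈ T3 F p M r) : Function.Injective P ∧
      ∀ j, (P j).Monic ∧ Irreducible (P j) ∧ M / p / 4 < (P j).natDegree ∧
        (P j).natDegree + tt p M ≤ M / p / 3 := by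
  constructor
  · intro i j e
    by_contra h
    obtain ⟨-, -, a3, a4, -⟩ := xposa_mem hp hr hP i
    obtain ⟨-, -, b3, b4, -⟩ := xposa_mem hp hr hP j
    rw [e] at a3 a4
    rcases lt_or_gt_of_ne (fun e' => h (Fin.ext e') : (i : ℕ) ≠ j) with hl | hl
    · have : (i + 2) * tt p M ≤ (j + 1) * tt p M := Nat.mul_le_mul_right _ (by omega)
      omega
    · have : (j + 2) * tt p M ≤ (i + 1) * tt p M := Nat.mul_le_mul_right _ (by omega)
      omega
  · intro j
    obtain ⟨a1, a2, a3, a4, a5⟩ := xposa_mem hp hr hP j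
    have h7 := xwin1_tt (M := M) hp
    have h8 := xwin1_pt (M := M) hp
    rw [mul_assoc] at h7
    have h6 : tt p M ≤ (j + 1) * tt p M := Nat.le_mul_of_pos_left _ (Nat.succ_pos _)
    exact ⟨a1, a2, by omega, by omega⟩

theorem mem_lastW (hp : 3 ≤ p) (hM : 100 ≤ tt p M) (hK : 4 ≤ K) {P : Fin (3 * p - 4) → F[X]}
    (hP : P ∈ T3 F p M (3 * p - 4)) :
    M / p / 3 + 3 * yy K p M + (∏ j, P j).natDegree ≤ M - M / p ∧
      M - M / p ≤ M / p / 2 + (∏ j, P j).natDegree := by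
  rw [natDegree_prod_of_monic _ _ fun j _ => (xposa_mem hp le_rfl hP j).1]
  have hc : ∀ b : ℕ, ∑ _j : Fin (3 * p - 4), b = (3 * p - 4) * b := fun b => by simp
  have hy := xposa_y (p := p) (M := M) hK
  have h7 := xwin1_tt (M := M) hp
  have h8 := xwin1_pt (M := M) hp
  rw [mul_assoc] at h7
  have hpl : p * (M / p) ≤ M := Nat.mul_div_le M p
  have h4 := xwin1_lt (M := M) hp
  obtain ⟨n, hn⟩ : ∃ n, p = n + 3 := ⟨p - 3, by omega⟩
  have hr : 3 * p - 4 = 3 * n + 5 := by omega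
  have e1 : p * (M / p) = n * (M / p) + 3 * (M / p) := by
    generalize M / p = l
    rw [hn]; ring
  constructor
  · have h1 : ∑ j : Fin (3 * p - 4), ((P j).natDegree + tt p M) ≤
        ∑ _j : Fin (3 * p - 4), M / p / 3 :=
      sum_le_sum fun j _ => ((mem_T3 hp hM le_rfl hP).2 j).2.2.2
    rw [hc, sum_add_distrib, hc] at h1
    have h2 : 5 * tt p M ≤ (3 * p - 4) * tt p M := Nat.mul_le_mul_right _ (by omega)
    have h3 : (3 * p - 4) * (M / p / 3) = n * (3 * (M / p / 3)) + 5 * (M / p / 3) := by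
      rw [hr]; ring
    have h5 : n * (3 * (M / p / 3)) ≤ n * (M / p) := Nat.mul_le_mul_left _ (by omega)
    omega
  · have h1 : ∑ _j : Fin (3 * p - 4), (M / p / 3 + 1) ≤
        ∑ j : Fin (3 * p - 4), ((P j).natDegree + 3 * (p * tt p M)) := sum_le_sum fun j _ => by
      obtain ⟨-, -, a3, -, a5⟩ := xposa_mem hp le_rfl hP j
      omega
    rw [hc, sum_add_distrib, hc] at h1
    have h3 : (3 * p - 4) * (M / p / 3 + 1) =
        n * (3 * (M / p / 3 + 1)) + 5 * (M / p / 3 + 1) := by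
      rw [hr]; ring
    have h5 : n * (M / p + 1) ≤ n * (3 * (M / p / 3 + 1)) := Nat.mul_le_mul_left _ (by omega)
    have h6 : (3 * p - 4) * (3 * (p * tt p M)) ≤ 9 * (p ^ 2 * tt p M) :=
      calc (3 * p - 4) * (3 * (p * tt p M)) ≤ (3 * p) * (3 * (p * tt p M)) :=
            Nat.mul_le_mul_right _ (by omega)
        _ = 9 * (p ^ 2 * tt p M) := by ring
    have e2 : p * (M / p + 1) = n * (M / p + 1) + 3 * (M / p + 1) := by
      generalize M / p + 1 = l
      rw [hn]; ring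
    omega

theorem xposa_count (hp : 3 ≤ p) {W : F[X]} (h0 : W ≠ 0) (hW : W.natDegree = M)
    (S : Finset F[X]) (hS : ∀ R ∈ S, R.Monic ∧ Irreducible R ∧ M / p / 4 < R.natDegree) :
    ∑ R ∈ S, ind (R ∣ W) ≤ (4 * p : ℝ) := by
  have h1 := card_prime_dvd S h0 hS
  have h4 := xwin1_lt (M := M) hp
  have h2 : p * (M / p + 1) ≤ (M / p / 4 + 1) * (4 * p) := by
    rw [mul_comm p, ← mul_assoc]
    exact Nat.mul_le_mul_right _ (by omega)
  have h3 : (W.natDegree : ℝ) ≤ (((M / p / 4 : ℕ) : ℝ) + 1) * (4 * p) := by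
    rw [hW]
    exact_mod_cast h4.le.trans h2
  have h5 : (0 : ℝ) < ((M / p / 4 : ℕ) : ℝ) + 1 := by positivity
  exact le_of_mul_le_mul_left (h1.trans h3) h5

theorem xposa_last (hp : 3 ≤ p) (hM : 100 ≤ tt p M) (hK : 4 ≤ K) {P : Fin (3 * p - 4) → F[X]}
    (hP : P ∈ T3 F p M (3 * p - 4)) {R : F[X]} (hR : R ∈ lastW F K p M (∏ j, P j).natDegree) :
    R.Monic ∧ Irreducible R ∧ M / p / 3 < R.natDegree ∧ R.natDegree ≤ M / p / 2 ∧
      M < M / p + 3 * yy K p M + (∏ j, P j).natDegree + R.natDegree := by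
  obtain ⟨h1, h2, h3, h4⟩ := mem_prmI.1 hR
  obtain ⟨h5, h6⟩ := mem_lastW hp hM hK hP
  exact ⟨h1, h2, by omega, by omega, by omega⟩

theorem xposa_lhs (hp : 3 ≤ p) (hM : 100 ≤ tt p M) (hK : 4 ≤ K) {W : F[X]} (h0 : W ≠ 0)
    (hW : W.natDegree = M) :
    ∑ P ∈ T3 F p M (3 * p - 4), ∑ R ∈ lastW F K p M (∏ j, P j).natDegree,
        ind ((∏ j, P j) * R ∣ W) ≤ (4 * p : ℝ) ^ (3 * p) := by
  have hp' : (1 : ℝ) ≤ 4 * p := by
    have : (3 : ℝ) ≤ p := by exact_mod_cast hp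
    linarith
  have h7 := xwin1_tt (M := M) hp
  have h8 := xwin1_pt (M := M) hp
  rw [mul_assoc] at h7
  calc ∑ P ∈ T3 F p M (3 * p - 4), ∑ R ∈ lastW F K p M (∏ j, P j).natDegree,
        ind ((∏ j, P j) * R ∣ W)
      ≤ ∑ P ∈ T3 F p M (3 * p - 4), (∏ j, ind (P j ∣ W)) * (4 * p : ℝ) :=
        sum_le_sum fun P hP => by
          have hn : 0 ≤ ∏ j, ind (P j ∣ W) := prod_nonneg fun j _ => ind_nonneg _
          refine le_trans ?_ (mul_le_mul_of_nonneg_left
            (xposa_count hp h0 hW (lastW F K p M (∏ j, P j).natDegree) fun R hR => ?_) hn)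
          · rw [mul_sum]
            refine sum_le_sum fun R _ => ?_
            by_cases h : (∏ j, P j) * R ∣ W
            · rw [ind_pos h, prod_eq_one fun j _ => ind_pos
                ((dvd_prod_of_mem P (mem_univ j)).trans ((dvd_mul_right _ _).trans h)),
                ind_pos ((dvd_mul_left _ _).trans h), mul_one]
            · rw [ind_neg h]
              exact mul_nonneg hn (ind_nonneg _)
          · obtain ⟨a1, a2, a3, -⟩ := xposa_last hp hM hK hP hR
            exact ⟨a1, a2, by omega⟩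
    _ = (∏ j : Fin (3 * p - 4), ∑ R ∈ prmI F (M / p / 3 - (j + 2) * tt p M)
          (M / p / 3 - (j + 1) * tt p M), ind (R ∣ W)) * (4 * p : ℝ) := by
        rw [← sum_mul, prod_univ_sum]
        rfl
    _ ≤ (∏ _j : Fin (3 * p - 4), (4 * p : ℝ)) * (4 * p : ℝ) := by
        refine mul_le_mul_of_nonneg_right (prod_le_prod
          (fun j _ => sum_nonneg fun R _ => ind_nonneg _) fun j _ =>
            xposa_count hp h0 hW _ fun R hR => ?_) (by linarith)
        obtain ⟨h1, h2, h3, -⟩ := mem_prmI.1 hR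
        have hj := j.2
        have h5 : (j + 2) * tt p M ≤ 3 * (p * tt p M) := by
          rw [← mul_assoc]
          exact Nat.mul_le_mul_right _ (by omega)
        exact ⟨h1, h2, by omega⟩
    _ = (4 * p : ℝ) ^ (3 * p - 4 + 1) := by simp [pow_succ]
    _ ≤ (4 * p : ℝ) ^ (3 * p) := pow_le_pow_right₀ hp' (by omega)

omit [Fintype F] in
theorem xposa_deg {S R : F[X]} (hS : Irreducible S) (hR : Irreducible R) (h : S ∣ R) :
    R.natDegree ≤ S.natDegree :=
  natDegree_le_of_dvd (hS.associated_of_dvd hR h).symm.dvd hS.ne_zero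

theorem xposa_one (hp : 3 ≤ p) (hM : 100 ≤ tt p M) (hK : 4 ≤ K) {W : F[X]} (h0 : W ≠ 0)
    (hW : W.natDegree = M) {P : Fin (3 * p - 4) → F[X]} (hP : P ∈ T3 F p M (3 * p - 4))
    {R : F[X]} (hR : R ∈ lastW F K p M (∏ j, P j).natDegree) (hd : (∏ j, P j) * R ∣ W) :
    GoodS (SI p) (tt p M) (M / p - yy K p M) W ∨
      ∃ P' ∈ T3 F p M (3 * p - 7), ∃ R' ∈ bigW F K p M,
        (∏ j, P' j) * R' ∣ W ∧ ∀ S ∈ prmI F (4 * yy K p M) (tt p M), ¬ S ∣ W := by
  classical
  obtain ⟨W', e⟩ := hd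
  have h0' : W' ≠ 0 := fun h => h0 (by rw [e, h, mul_zero])
  have hl : W'.leadingCoeff ≠ 0 := leadingCoeff_ne_zero.2 h0'
  obtain ⟨c, hc, ec, hcd⟩ : ∃ c : F[X], c.Monic ∧ W' = C W'.leadingCoeff * c ∧
      c.natDegree = W'.natDegree := by
    refine ⟨W' * C W'.leadingCoeff⁻¹, monic_mul_leadingCoeff_inv h0', ?_,
      natDegree_mul_leadingCoeff_inv _ h0'⟩
    rw [mul_left_comm, ← C_mul, mul_inv_cancel₀ hl, C_1, mul_one]
  obtain ⟨hinj, hPj⟩ := mem_T3 hp hM le_rfl hP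
  obtain ⟨r1, r2, r3, r4, r5⟩ := xposa_last hp hM hK hP hR
  have hm : (∏ j, P j).Monic := monic_prod_of_monic _ _ fun j _ => (hPj j).1
  have hdeg : (∏ j, P j).natDegree + R.natDegree + c.natDegree = M := by
    rw [← hW, e, natDegree_mul (hm.mul r1).ne_zero h0', hm.natDegree_mul r1, hcd]
  have hy := xposa_y (p := p) (M := M) hK
  have h7 := xwin1_tt (M := M) hp
  have h8 := xwin1_pt (M := M) hp
  rw [mul_assoc] at h7
  have hcop : ∀ i j, i ≠ j → IsCoprime (P i) (P j) := fun i j h =>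
    xwin1_coprime (hPj i).1 (hPj i).2.1 (hPj j).1 (hPj j).2.1 fun e => h (hinj e)
  by_cases hA : ∃ R' : F[X], R'.Monic ∧ Irreducible R' ∧ R' ∣ c ∧
      M / p - yy K p M < R'.natDegree
  · obtain ⟨R', s1, s2, ⟨d, ed⟩, s4⟩ := hA
    have md : d.Monic := s1.of_mul_monic_left (ed ▸ hc)
    have hdd : c.natDegree = R'.natDegree + d.natDegree := by rw [ed, s1.natDegree_mul md]
    have hle : 3 * p - 7 ≤ 3 * p - 4 := by omega
    refine Or.inr ⟨fun j => P (Fin.castLE hle j), Fintype.mem_piFinset.2 fun j =>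
      Fintype.mem_piFinset.1 hP (Fin.castLE hle j), R', mem_prmI.2 ⟨s1, s2, s4, by omega⟩,
      ?_, fun S hS hSW => ?_⟩
    · have h1 : (∏ j : Fin (3 * p - 7), P (Fin.castLE hle j)) ∣ ∏ j, P j := by
        have h2 := prod_dvd_prod_of_subset (univ.map (Fin.castLEEmb hle)) univ P (subset_univ _)
        rwa [prod_map] at h2
      rw [e, mul_assoc]
      refine mul_dvd_mul h1 (Dvd.dvd.mul_left ?_ _)
      rw [ec, ed]
      exact Dvd.dvd.mul_left (dvd_mul_right _ _) _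
    · obtain ⟨t1, t2, t3, t4⟩ := mem_prmI.1 hS
      have hpr := t2.prime
      rw [e] at hSW
      rcases hpr.dvd_or_dvd hSW with h | h
      · rcases hpr.dvd_or_dvd h with h | h
        · obtain ⟨j, -, hj⟩ := (Prime.dvd_finsetProd_iff hpr _).1 h
          have h1 := xposa_deg t2 (hPj j).2.1 hj
          have h2 := (hPj j).2.2.1
          omega
        · have h1 := xposa_deg t2 r2 h
          omega
      · rw [ec] at h
        rcases hpr.dvd_or_dvd h with h | h
        · exact t2.not_isUnit (isUnit_of_dvd_unit h (isUnit_C.2 hl.isUnit))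
        · rw [ed] at h
          rcases hpr.dvd_or_dvd h with h | h
          · have h1 := xposa_deg t2 s2 h
            omega
          · have h1 := natDegree_le_of_dvd h md.ne_zero
            omega
  · have hs : ∀ R' : F[X], Irreducible R' → R' ∣ c → R'.natDegree ≤ M / p - yy K p M := by
      intro R' s1 s2
      obtain ⟨S, t1, t2, t3⟩ := exists_monic_irreducible_factor R' s1.not_isUnit
      have h1 := xposa_deg t2 s1 t3
      by_contra h
      exact hA ⟨S, t1, t2, t3.trans s2, by omega⟩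
    obtain ⟨c₁, c₂, m1, m2, e12, d1, d2⟩ :=
      split_two hc (lo := 4 * yy K p M) (by omega) (by omega) hs
    obtain ⟨j₀, hj₀⟩ : ∃ j₀, ¬ P j₀ ∣ c := by
      by_contra h
      push Not at h
      have h1 := natDegree_le_of_dvd
        (prod_dvd_of_coprime (fun i _ j _ hij => hcop i j hij) fun j (_ : j ∈ univ) => h j)
        hc.ne_zero
      have h2 := (mem_lastW hp hM hK hP).2
      have hpl : p * (M / p) ≤ M := Nat.mul_div_le M p
      have h3 : 3 * (M / p) ≤ p * (M / p) := Nat.mul_le_mul_right _ hp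
      omega
    obtain ⟨a1, a2, a3, a4⟩ := hPj j₀
    refine Or.inl ⟨W'.leadingCoeff, P j₀, Sum.elim (fun j => if j = j₀ then 1 else P j)
      ![R, c₁, c₂], hl, a1, a2, ?_, by omega, by omega, ?_⟩
    · rw [Fintype.prod_sum_type, Fin.prod_univ_three]
      simp only [Sum.elim_inl, Sum.elim_inr, Matrix.cons_val_zero, Matrix.cons_val_one,
        Matrix.cons_val]
      have e1 : ∏ j, P j = P j₀ * ∏ j, (if j = j₀ then 1 else P j) := by
        have : P j₀ = ∏ j, (if j = j₀ then P j else 1) := by simp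
        rw [this, ← prod_mul_distrib]
        refine prod_congr rfl fun j _ => ?_
        split_ifs <;> simp
      rw [e, e1]
      conv_lhs => rw [ec, e12]
      ring
    · rintro (j | b)
      · simp only [Sum.elim_inl]
        split_ifs with hj
        · exact ⟨monic_one, by simp, fun h => a2.not_isUnit (isUnit_of_dvd_one h)⟩
        · have h1 := (hPj j).2.2.2
          exact ⟨(hPj j).1, by omega, a2.coprime_iff_not_dvd.1 (hcop _ _ (Ne.symm hj))⟩
      · have k0 : R.Monic ∧ R.natDegree ≤ M / p - yy K p M ∧ ¬ P j₀ ∣ R :=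
          ⟨r1, by omega, fun h => by have h1 := xposa_deg a2 r2 h; omega⟩
        have k1 : c₁.Monic ∧ c₁.natDegree ≤ M / p - yy K p M ∧ ¬ P j₀ ∣ c₁ :=
          ⟨m1, d1, fun h => hj₀ (e12 ▸ dvd_mul_of_dvd_left h _)⟩
        have k2 : c₂.Monic ∧ c₂.natDegree ≤ M / p - yy K p M ∧ ¬ P j₀ ∣ c₂ :=
          ⟨m2, d2, fun h => hj₀ (e12 ▸ dvd_mul_of_dvd_right h _)⟩
        fin_cases b
        · exact k0
        · exact k1
        · exact k2

theorem raw_le (hp : 3 ≤ p) (hM : 100 ≤ tt p M) (hK : 4 ≤ K) {W : F[X]} (h0 : W ≠ 0)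
    (hW : W.natDegree = M) :
    ∑ P ∈ T3 F p M (3 * p - 4), ∑ R ∈ lastW F K p M (∏ j, P j).natDegree,
        ind ((∏ j, P j) * R ∣ W) ≤
      (4 * p : ℝ) ^ (3 * p) * (ind (GoodS (SI p) (tt p M) (M / p - yy K p M) W) +
        ∑ P ∈ T3 F p M (3 * p - 7), ∑ R ∈ bigW F K p M,
          ind ((∏ j, P j) * R ∣ W ∧ ∀ S ∈ prmI F (4 * yy K p M) (tt p M), ¬ S ∣ W)) := by
  have hp' : (0 : ℝ) ≤ (4 * p) ^ (3 * p) := by positivity
  have hn : 0 ≤ ∑ P ∈ T3 F p M (3 * p - 7), ∑ R ∈ bigW F K p M,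
      ind ((∏ j, P j) * R ∣ W ∧ ∀ S ∈ prmI F (4 * yy K p M) (tt p M), ¬ S ∣ W) :=
    sum_nonneg fun P _ => sum_nonneg fun R _ => ind_nonneg _
  have hg := ind_nonneg (GoodS (SI p) (tt p M) (M / p - yy K p M) W)
  by_cases hz : ∃ P ∈ T3 F p M (3 * p - 4), ∃ R ∈ lastW F K p M (∏ j, P j).natDegree,
      (∏ j, P j) * R ∣ W
  · obtain ⟨P, hP, R, hR, hd⟩ := hz
    refine (xposa_lhs hp hM hK h0 hW).trans (le_mul_of_one_le_right hp' ?_)
    rcases xposa_one hp hM hK h0 hW hP hR hd with h | ⟨P', hP', R', hR', h⟩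
    · rw [ind_pos h]
      linarith
    · have h1 : (1 : ℝ) ≤ ∑ R ∈ bigW F K p M,
          ind ((∏ j, P' j) * R ∣ W ∧ ∀ S ∈ prmI F (4 * yy K p M) (tt p M), ¬ S ∣ W) := by
        rw [← ind_pos h]
        exact single_le_sum (f := fun R => ind ((∏ j, P' j) * R ∣ W ∧
          ∀ S ∈ prmI F (4 * yy K p M) (tt p M), ¬ S ∣ W)) (fun R _ => ind_nonneg _) hR'
      have h2 := single_le_sum (f := fun P : Fin (3 * p - 7) → F[X] => ∑ R ∈ bigW F K p M,
          ind ((∏ j, P j) * R ∣ W ∧ ∀ S ∈ prmI F (4 * yy K p M) (tt p M), ¬ S ∣ W))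
        (fun P _ => sum_nonneg fun R _ => ind_nonneg _) hP'
      linarith
  · rw [sum_eq_zero fun P hP => sum_eq_zero fun R hR => ind_neg fun h => hz ⟨P, hP, R, hR, h⟩]
    exact mul_nonneg hp' (add_nonneg hg hn)

end Pool.Agent.MP_4fffd4_nt.Odd
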