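import Mathlib
import Pool.Agent.MP_4fffd4_nt.Odd.PosA
import Pool.Agent.MP_4fffd4_nt.Odd.Win2

/- The windows for smooth polynomials: mean values. -/

set_option autoImplicit false

namespace Pool.Agent.MP_4fffd4_nt.Odd

open Polynomial Finset Filter Topology
open scoped BigOperators

variable {F : Type*} [Field F] [Fintype F] {K p M : ℕ}

theorem xposb_eq (a b : ℕ) : LL F a b =
    ∑ d ∈ Ioc a b, ((prm F d).card : ℝ) / (Fintype.card F : ℝ) ^ d := by
  rw [LL, sum_prmI]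
  refine sum_congr rfl fun d _ => ?_
  rw [sum_congr rfl fun R hR => by rw [(mem_prm.1 hR).2.2], sum_const, nsmul_eq_mul, mul_one_div]

theorem xposb_nonneg (a b : ℕ) : 0 ≤ LL F a b :=
  sum_nonneg fun _ _ => by positivity

theorem xposb_add {a b c : ℕ} (h1 : a ≤ b) (h2 : b ≤ c) : LL F a c = LL F a b + LL F b c := by
  rw [xposb_eq, xposb_eq, xposb_eq, sum_Ioc_consecutive _ h1 h2]

theorem xposb_mono {a b c : ℕ} (h1 : a ≤ b) (h2 : b ≤ c) : LL F a b ≤ LL F a c := by
  rw [xposb_add h1 h2]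
  exact le_add_of_nonneg_right (xposb_nonneg _ _)

theorem LL_ge : ∀ᶠ a : ℕ in atTop, ∀ b : ℕ, a ≤ b → ((b : ℝ) - a) / (2 * b) ≤ LL F a b := by
  obtain ⟨d₀, hd₀⟩ := eventually_atTop.1 (card_prm_ge (F := F))
  filter_upwards [eventually_ge_atTop (d₀ + 1)] with a ha b hb
  have hq := card_pos' (F := F)
  have hb0 : (0 : ℝ) < b := by exact_mod_cast (by omega : 0 < b)
  rw [xposb_eq]
  refine le_trans ?_ (card_nsmul_le_sum _ _ (1 / (2 * (b : ℝ))) fun d hd => ?_)
  · rw [Nat.card_Ioc, nsmul_eq_mul, Nat.cast_sub hb, mul_one_div]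
  · rw [mem_Ioc] at hd
    have h1 : (Fintype.card F : ℝ) ^ d ≤ 2 * d * (prm F d).card := by
      exact_mod_cast hd₀ d (by omega)
    have h2 : (d : ℝ) ≤ b := by exact_mod_cast hd.2
    rw [div_le_div_iff₀ (by positivity) (by positivity), one_mul]
    refine h1.trans ?_
    rw [mul_comm]
    gcongr

theorem LL_le (a b : ℕ) : LL F a b ≤ ((b - a : ℕ) : ℝ) / (a + 1) := by
  have hq := card_pos' (F := F)
  rw [xposb_eq]
  refine (sum_le_card_nsmul _ _ (1 / ((a : ℝ) + 1)) fun d hd => ?_).trans_eq ?_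
  · rw [mem_Ioc] at hd
    have h1 : (d : ℝ) * (prm F d).card ≤ (Fintype.card F : ℝ) ^ d := by
      exact_mod_cast card_prm_le (F := F) (d := d) (by omega)
    have h2 : (a : ℝ) + 1 ≤ d := by exact_mod_cast hd.1
    rw [div_le_div_iff₀ (by positivity) (by positivity), one_mul]
    refine le_trans ?_ h1
    rw [mul_comm]
    gcongr
  · rw [Nat.card_Ioc, nsmul_eq_mul, mul_one_div]

/-- harmonic lower bound along multiples of `y` -/
theorem xposb_harm : ∀ᶠ a : ℕ in atTop, ∀ y c : ℕ, 1 ≤ y → a ≤ c * y → ∀ k : ℕ, c ≤ k →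
    (∑ i ∈ range k, (1 / ((i : ℝ) + 1)) - ∑ i ∈ range c, (1 / ((i : ℝ) + 1))) / 2 ≤
      LL F (c * y) (k * y) := by
  obtain ⟨a₀, ha₀⟩ := eventually_atTop.1 (LL_ge (F := F))
  filter_upwards [eventually_ge_atTop a₀] with a ha y c hy hc k hk
  induction k, hk using Nat.le_induction with
  | base => rw [sub_self, zero_div]; exact xposb_nonneg _ _
  | succ k hk ih =>
    have h1 : c * y ≤ k * y := Nat.mul_le_mul_right _ hk
    have h2 : k * y ≤ (k + 1) * y := Nat.mul_le_mul_right _ (Nat.le_succ k)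
    have h3 := ha₀ (k * y) (by omega) _ h2
    have hy' : (0 : ℝ) < y := by exact_mod_cast hy
    have h4 : ((((k + 1) * y : ℕ) : ℝ) - (k * y : ℕ)) / (2 * ((k + 1) * y : ℕ)) =
        1 / ((k : ℝ) + 1) / 2 := by
      push_cast
      field_simp
      ring
    rw [xposb_add h1 h2, sum_range_succ]
    rw [h4] at h3
    linarith

theorem LL_top (a : ℕ) : Tendsto (LL F a) atTop atTop := by
  obtain ⟨c, hc, hac⟩ := ((xposb_harm (F := F)).and (eventually_ge_atTop a)).exists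
  have h0 := (tendsto_atTop_add_const_right _ (-∑ i ∈ range c, (1 / ((i : ℝ) + 1)))
    Real.tendsto_sum_range_one_div_nat_succ_atTop).atTop_div_const (two_pos (α := ℝ))
  refine tendsto_atTop_mono' _ ?_ h0
  filter_upwards [eventually_ge_atTop c] with k hk
  have h1 := hc 1 c le_rfl (by omega) k hk
  rw [mul_one, mul_one] at h1
  rw [xposb_add hac hk, ← sub_eq_add_neg]
  have := xposb_nonneg (F := F) a c
  linarith

theorem yy_top (hp : 3 ≤ p) (hK : 0 < K) : Tendsto (yy K p) atTop atTop :=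
  (Nat.tendsto_div_const_atTop hK.ne').comp (xwin2_top hp)

theorem xposb_win (hp : 3 ≤ p) : ∀ᶠ M in atTop, ∀ j : ℕ, j + 2 ≤ 3 * p →
    1 / (400 * (p : ℝ) ^ 2) ≤
        LL F (M / p / 3 - (j + 2) * tt p M) (M / p / 3 - (j + 1) * tt p M) ∧
      LL F (M / p / 3 - (j + 2) * tt p M) (M / p / 3 - (j + 1) * tt p M) ≤ 1 := by
  obtain ⟨a₀, ha₀⟩ := eventually_atTop.1 (LL_ge (F := F))
  filter_upwards [(xwin2_top hp).eventually_ge_atTop (a₀ + 1)] with M hM j hj
  obtain ⟨h1, h2⟩ := xwin2_t hp M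
  have h3 : (j + 2) * tt p M ≤ 3 * p * tt p M := Nat.mul_le_mul_right _ hj
  have h4 : (j + 2) * tt p M = (j + 1) * tt p M + tt p M := by ring
  have h5 : (9 * p + 6) * tt p M ≤ 100 * p ^ 2 * tt p M :=
    Nat.mul_le_mul_right _ (by nlinarith)
  have h6 : (9 * p + 6) * tt p M = 3 * (3 * p * tt p M) + 6 * tt p M := by ring
  set t := tt p M
  set l := M / p
  have e : l / 3 - (j + 1) * t = (l / 3 - (j + 2) * t) + t := by omega
  have ha : t ≤ l / 3 - (j + 2) * t := by omega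
  have hb : 2 * (l / 3 - (j + 2) * t + t) ≤ 100 * p ^ 2 * (t + 1) := by omega
  rw [e]
  generalize l / 3 - (j + 2) * t = a at ha hb
  have ht : (1 : ℝ) ≤ t := by exact_mod_cast (by omega : 1 ≤ t)
  have hp' : (0 : ℝ) < p := by exact_mod_cast (by omega : 0 < p)
  have ha' : (t : ℝ) ≤ a := by exact_mod_cast ha
  have hb' : 2 * ((a : ℝ) + t) ≤ 100 * p ^ 2 * (t + 1) := by exact_mod_cast hb
  constructor
  · refine le_trans ?_ (ha₀ a (by omega) _ (Nat.le_add_right _ _))
    push_cast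
    rw [div_le_div_iff₀ (by positivity) (by linarith), add_sub_cancel_left]
    nlinarith [sq_nonneg (p : ℝ)]
  · refine (LL_le _ _).trans ?_
    rw [Nat.add_sub_cancel_left, div_le_one (by positivity)]
    linarith

theorem xposb_mon {r : ℕ} {P : Fin r → F[X]} (hP : P ∈ T3 F p M r) (j : Fin r) : (P j).Monic :=
  (mem_prmI.1 (Fintype.mem_piFinset.1 hP j)).1

theorem xposb_T3 (hp : 3 ≤ p) : ∀ᶠ M in atTop, ∀ r : ℕ, r ≤ 3 * p - 4 →
    (1 / (400 * (p : ℝ) ^ 2)) ^ r ≤
        ∑ P ∈ T3 F p M r, 1 / (Fintype.card F : ℝ) ^ (∏ j, P j).natDegree ∧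
      ∑ P ∈ T3 F p M r, 1 / (Fintype.card F : ℝ) ^ (∏ j, P j).natDegree ≤ 1 := by
  filter_upwards [xposb_win (F := F) hp] with M hM r hr
  have hq := card_pos' (F := F)
  have e : ∑ P ∈ T3 F p M r, 1 / (Fintype.card F : ℝ) ^ (∏ j, P j).natDegree =
      ∏ j : Fin r, LL F (M / p / 3 - (j + 2) * tt p M) (M / p / 3 - (j + 1) * tt p M) := by
    simp only [LL]
    rw [prod_univ_sum]
    refine sum_congr rfl fun P hP => ?_
    rw [natDegree_prod_of_monic _ _ fun j _ => xposb_mon hP j, ← prod_pow_eq_pow_sum,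
      prod_div_distrib, prod_const_one]
  have h : ∀ j : Fin r, (j : ℕ) + 2 ≤ 3 * p := fun j => by
    have := j.2
    omega
  rw [e]
  constructor
  · refine le_trans (le_of_eq ?_) (prod_le_prod (f := fun _ => 1 / (400 * (p : ℝ) ^ 2))
      (fun _ _ => by positivity) fun j _ => (hM j (h j)).1)
    rw [prod_const, card_univ, Fintype.card_fin]
  · exact prod_le_one (fun j _ => xposb_nonneg _ _) fun j _ => (hM j (h j)).2

theorem xposb_split {G : F[X]} (hG : G.Monic) (a b : ℕ) :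
    ∑ R ∈ prmI F a b, 1 / (Fintype.card F : ℝ) ^ (G * R).natDegree =
      1 / (Fintype.card F : ℝ) ^ G.natDegree * LL F a b := by
  rw [LL, mul_sum]
  refine sum_congr rfl fun R hR => ?_
  rw [hG.natDegree_mul (mem_prmI.1 hR).1, pow_add, one_div_mul_one_div]

theorem xposb_y (hK : 0 < K) (p M : ℕ) :
    K * yy K p M ≤ tt p M ∧ tt p M < K * (yy K p M + 1) :=
  ⟨Nat.mul_div_le _ _, Nat.lt_mul_div_succ _ hK⟩

theorem main_ge (hp : 3 ≤ p) (hK : 4 ≤ K) : ∀ᶠ M in atTop,
    (1 / (400 * (p : ℝ) ^ 2)) ^ (3 * p) / K ≤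
      ∑ P ∈ T3 F p M (3 * p - 4), ∑ R ∈ lastW F K p M (∏ j, P j).natDegree,
        1 / (Fintype.card F : ℝ) ^ ((∏ j, P j) * R).natDegree := by
  obtain ⟨a₀, ha₀⟩ := eventually_atTop.1 (LL_ge (F := F))
  filter_upwards [xposb_T3 (F := F) hp, (xwin2_top hp).eventually_ge_atTop (a₀ + 100),
    (yy_top hp (by omega : 0 < K)).eventually_ge_atTop 1] with M hT hM hy
  have hq := card_pos' (F := F)
  have hp' : (3 : ℝ) ≤ p := by exact_mod_cast hp
  have hK' : (4 : ℝ) ≤ K := by exact_mod_cast hK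
  obtain ⟨h1, h2⟩ := xwin2_t hp M
  obtain ⟨-, h4⟩ := xposb_y (by omega : 0 < K) p M
  have h5 : 6 * tt p M ≤ 100 * p ^ 2 * tt p M := Nat.mul_le_mul_right _ (by nlinarith)
  have h6 : M / p ≤ 100 * p ^ 2 * (K * (2 * yy K p M)) :=
    h2.le.trans (Nat.mul_le_mul_left _ (le_trans h4 (Nat.mul_le_mul_left _ (by omega))))
  have key : ∀ P ∈ T3 F p M (3 * p - 4),
      1 / (Fintype.card F : ℝ) ^ (∏ j, P j).natDegree * (1 / (400 * (p : ℝ) ^ 2) / K) ≤
        ∑ R ∈ lastW F K p M (∏ j, P j).natDegree,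
          1 / (Fintype.card F : ℝ) ^ ((∏ j, P j) * R).natDegree := by
    intro P hP
    obtain ⟨h7, h8⟩ := mem_lastW hp (by omega) hK hP
    rw [lastW, xposb_split (monic_prod_of_monic _ _ fun j _ => xposb_mon hP j)]
    refine mul_le_mul_of_nonneg_left ?_ (by positivity)
    generalize (∏ j, P j).natDegree = S at h7 h8
    have e : M - M / p - 2 * yy K p M - S = (M - M / p - 3 * yy K p M - S) + yy K p M := by omega
    have ha : a₀ + 1 ≤ M - M / p - 3 * yy K p M - S := by omega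
    have hb : 2 * (M - M / p - 3 * yy K p M - S + yy K p M) ≤
      100 * p ^ 2 * (K * (2 * yy K p M)) := by omega
    rw [e]
    generalize M - M / p - 3 * yy K p M - S = a at ha hb
    generalize yy K p M = y at hb hy
    have hy' : (1 : ℝ) ≤ y := by exact_mod_cast hy
    have hb' : 2 * ((a : ℝ) + y) ≤ 100 * p ^ 2 * (K * (2 * y)) := by exact_mod_cast hb
    refine le_trans ?_ (ha₀ a (by omega) _ (Nat.le_add_right _ _))
    push_cast
    rw [div_div, div_le_div_iff₀ (by positivity) (by positivity), add_sub_cancel_left]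
    have : (0 : ℝ) ≤ p ^ 2 * K * y := by positivity
    nlinarith
  refine le_trans ?_ (sum_le_sum key)
  rw [← sum_mul]
  refine le_trans ?_ (mul_le_mul_of_nonneg_right (hT _ le_rfl).1 (by positivity))
  rw [← mul_div_assoc, ← pow_succ]
  refine div_le_div_of_nonneg_right ?_ (by positivity)
  refine pow_le_pow_of_le_one (by positivity) ?_ (by omega)
  rw [div_le_one (by positivity)]
  nlinarith

theorem bad_le (hp : 3 ≤ p) (hK : 4 ≤ K) : ∀ᶠ M in atTop,
    ∑ P ∈ T3 F p M (3 * p - 7), ∑ R ∈ bigW F K p M,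
        1 / (Fintype.card F : ℝ) ^ ((∏ j, P j) * R).natDegree ≤ 1 / K := by
  filter_upwards [xposb_T3 (F := F) hp] with M hT
  have hK' : (4 : ℝ) ≤ K := by exact_mod_cast hK
  obtain ⟨h1, -⟩ := xwin2_t hp M
  obtain ⟨h3, -⟩ := xposb_y (by omega : 0 < K) p M
  have h5 : 6 * tt p M ≤ 100 * p ^ 2 * tt p M := Nat.mul_le_mul_right _ (by nlinarith)
  have h6 : 1 * yy K p M ≤ K * yy K p M := Nat.mul_le_mul_right _ (by omega)
  rw [sum_congr rfl fun P hP => by
    rw [bigW, xposb_split (monic_prod_of_monic _ _ fun j _ => xposb_mon hP j)], ← sum_mul]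
  refine (mul_le_of_le_one_left (xposb_nonneg _ _) (hT _ (by omega)).2).trans
    ((LL_le _ _).trans ?_)
  have e : M / p + 3 * yy K p M - (M / p - yy K p M) = 4 * yy K p M := by omega
  have hb : 4 * (K * yy K p M) ≤ M / p - yy K p M := by omega
  rw [e]
  generalize M / p - yy K p M = a at hb
  have hb' : 4 * ((K : ℝ) * yy K p M) ≤ a := by exact_mod_cast hb
  rw [div_le_div_iff₀ (by positivity) (by positivity)]
  push_cast
  linarith

theorem LL_big (hp : 3 ≤ p) (A : ℝ) :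
    ∃ K, 4 ≤ K ∧ ∀ᶠ M in atTop, A ≤ LL F (4 * yy K p M) (tt p M) := by
  obtain ⟨c, hc⟩ := (xposb_harm (F := F)).exists
  have h0 := (tendsto_atTop_add_const_right _ (-∑ i ∈ range 4, (1 / ((i : ℝ) + 1)))
    Real.tendsto_sum_range_one_div_nat_succ_atTop).atTop_div_const (two_pos (α := ℝ))
  obtain ⟨K, hK, hA⟩ := ((eventually_ge_atTop 4).and (h0.eventually_ge_atTop A)).exists
  refine ⟨K, hK, ?_⟩
  filter_upwards [(yy_top hp (by omega : 0 < K)).eventually_ge_atTop (c + 1)] with M hy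
  have h1 := hc (yy K p M) 4 (by omega) (by omega) K hK
  rw [← sub_eq_add_neg] at hA
  exact hA.trans (h1.trans (xposb_mono (Nat.mul_le_mul_right _ hK)
    (xposb_y (by omega : 0 < K) p M).1))

end Pool.Agent.MP_4fffd4_nt.Odd
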