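import Mathlib
import Pool.Agent.MP_4fffd4_nt.Odd.Tup

/- The inequality of Turan and Kubilius with a modulus. -/

set_option autoImplicit false

namespace Pool.Agent.MP_4fffd4_nt.Odd

open Polynomial Finset Filter Topology
open scoped BigOperators

variable {F : Type*} [Field F] [Fintype F] {p : ℕ} [Fact p.Prime] [CharP F p]

omit [Fact p.Prime] [CharP F p] in
theorem xtkm_sum {a : F[X]} (ha : a.Monic) (n : ℕ) (G : F[X] → ℝ) :
    ∑ x ∈ monF F (n + a.natDegree), ind (a ∣ x) * G x = ∑ f ∈ monF F n, G (a * f) := by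
  classical
  rw [← sum_filter_add_sum_filter_not _ (a ∣ ·),
    sum_eq_zero (s := filter (fun x => ¬ a ∣ x) _) fun x hx => by
      rw [ind_neg (mem_filter.1 hx).2, zero_mul], add_zero]
  symm
  refine sum_bij (fun f _ => a * f) (fun f hf => ?_) (fun f _ g _ => mul_left_cancel₀ ha.ne_zero)
    (fun x hx => ?_) fun f _ => by rw [ind_pos (dvd_mul_right _ _), one_mul]
  · obtain ⟨h1, h2⟩ := mem_monF.1 hf
    exact mem_filter.2 ⟨mem_monF.2 ⟨ha.mul h1, by rw [ha.natDegree_mul h1, h2, add_comm]⟩,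
      dvd_mul_right _ _⟩
  · obtain ⟨h1, f, rfl⟩ := mem_filter.1 hx
    obtain ⟨h2, h3⟩ := mem_monF.1 h1
    have h4 := ha.of_mul_monic_left h2
    rw [ha.natDegree_mul h4] at h3
    exact ⟨f, mem_monF.2 ⟨h4, by omega⟩, rfl⟩

omit [Fintype F] [Fact p.Prime] [CharP F p] in
theorem xtkm_cop {R P : F[X]} (h1 : R.Monic) (h2 : Irreducible R) (h3 : P.Monic)
    (h4 : Irreducible P) (h : R ≠ P) : IsCoprime R P :=
  h2.coprime_iff_not_dvd.2 fun hd => h (eq_of_monic_of_associated h1 h3 (h2.associated_of_dvd h4 hd))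

omit [Fintype F] [Fact p.Prime] [CharP F p] in
theorem xtkm_ind {R m : F[X]} (h : IsCoprime R m) (W : F[X]) :
    ind (R * m ∣ W) = ind (R ∣ W) * ind (m ∣ W) := by
  rw [← ind_and]
  exact ind_congr ⟨fun h' => ⟨dvd_of_mul_right_dvd h', dvd_of_mul_left_dvd h'⟩,
    fun h' => h.mul_dvd h'.1 h'.2⟩

/-- the reciprocal of the norm -/
noncomputable def xtkmW (e : F[X]) : ℝ := 1 / (Fintype.card F : ℝ) ^ e.natDegree

omit [Fact p.Prime] [CharP F p] in
theorem xtkmW_nonneg (e : F[X]) : 0 ≤ xtkmW e := by unfold xtkmW; positivity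

omit [Fact p.Prime] [CharP F p] in
theorem xtkmW_mul {e f : F[X]} (he : e.Monic) (hf : f.Monic) :
    xtkmW (e * f) = xtkmW e * xtkmW f := by
  rw [xtkmW, he.natDegree_mul hf, pow_add, xtkmW, xtkmW, one_div_mul_one_div]

omit [Fact p.Prime] [CharP F p] in
open Classical in
theorem xtkm_var {α : Type*} (U : Finset α) (W : α → F[X]) (S : Finset F[X])
    (hS : ∀ R ∈ S, R.Monic ∧ Irreducible R) {m : F[X]} (hm : m.Monic)
    (hc : ∀ R ∈ S, IsCoprime R m) (E : F[X] → ℝ)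
    (hE : ∀ e, E e = |(𝔼 v ∈ U, ind (e ∣ W v)) - xtkmW e|) {L : ℝ} (hL : L = ∑ R ∈ S, xtkmW R) :
    𝔼 v ∈ U, ind (m ∣ W v) * ((∑ R ∈ S, ind (R ∣ W v)) - L) ^ 2 ≤ xtkmW m * L +
      ((∑ R ∈ S, ∑ R' ∈ S, if R' ≠ R then E (R' * (R * m)) else 0) +
        (1 + 2 * L) * ∑ R ∈ S, E (R * m) + L ^ 2 * E m) := by
  have hL0 : 0 ≤ L := hL ▸ sum_nonneg fun R _ => xtkmW_nonneg R
  have hpt : ∀ Z : F[X], ind (m ∣ Z) * ((∑ R ∈ S, ind (R ∣ Z)) - L) ^ 2 =
      (∑ R ∈ S, ∑ R' ∈ S, if R' ≠ R then ind (R' * (R * m) ∣ Z) else 0) +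
        (1 - 2 * L) * ∑ R ∈ S, ind (R * m ∣ Z) + L ^ 2 * ind (m ∣ Z) := by
    intro Z
    have h1 : ∑ R ∈ S, ind (R * m ∣ Z) = (∑ R ∈ S, ind (R ∣ Z)) * ind (m ∣ Z) := by
      rw [sum_mul]
      exact sum_congr rfl fun R hR => xtkm_ind (hc R hR) Z
    have h2 : ∀ R ∈ S, (∑ R' ∈ S, if R' ≠ R then ind (R' * (R * m) ∣ Z) else 0) +
        ind (R * m ∣ Z) = (∑ R' ∈ S, ind (R' ∣ Z)) * ind (R * m ∣ Z) := by
      intro R hR
      have h3 : ind (R * m ∣ Z) = ∑ R' ∈ S, if R' = R then ind (R * m ∣ Z) else 0 := by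
        rw [sum_ite_eq', if_pos hR]
      rw [sum_mul]
      conv_lhs => rw [h3]
      rw [← sum_add_distrib]
      refine sum_congr rfl fun R' hR' => ?_
      by_cases h : R' = R
      · rw [if_neg (not_not.2 h), if_pos h, zero_add, h, xtkm_ind (hc R hR), ← mul_assoc,
          ← ind_and (R ∣ Z) (R ∣ Z), and_self]
      · rw [if_pos h, if_neg h, add_zero]
        exact xtkm_ind ((xtkm_cop (hS _ hR').1 (hS _ hR').2 (hS _ hR).1 (hS _ hR).2 h).mul_right
          (hc R' hR')) Z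
    have h4 := sum_congr rfl h2
    rw [sum_add_distrib, ← mul_sum, h1] at h4
    rw [h1]
    linear_combination -h4
  set P : F[X] → ℝ := fun e => 𝔼 v ∈ U, ind (e ∣ W v) with hP
  have hex : 𝔼 v ∈ U, ind (m ∣ W v) * ((∑ R ∈ S, ind (R ∣ W v)) - L) ^ 2 =
      (∑ R ∈ S, ∑ R' ∈ S, if R' ≠ R then P (R' * (R * m)) else 0) +
        ∑ R ∈ S, (1 - 2 * L) * P (R * m) + L ^ 2 * P m := by
    simp only [hpt, expect_add_distrib, ← mul_expect, expect_sum_comm, ← mul_sum, hP]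
    congr 2
    refine sum_congr rfl fun R _ => sum_congr rfl fun R' _ => ?_
    split_ifs
    · rfl
    · simp
  have hle : ∀ e, P e ≤ xtkmW e + E e := fun e => by
    have := le_abs_self (P e - xtkmW e)
    rw [hE]
    linarith
  have hge : ∀ e, xtkmW e - E e ≤ P e := fun e => by
    have := neg_abs_le (P e - xtkmW e)
    rw [hE]
    linarith
  have a2 : (∑ R ∈ S, ∑ R' ∈ S, if R' ≠ R then P (R' * (R * m)) else 0) ≤ L ^ 2 * xtkmW m +
      ∑ R ∈ S, ∑ R' ∈ S, if R' ≠ R then E (R' * (R * m)) else 0 := by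
    rw [hL, sq, sum_mul_sum, sum_mul, ← sum_add_distrib]
    refine sum_le_sum fun R hR => ?_
    rw [sum_mul, ← sum_add_distrib]
    refine sum_le_sum fun R' hR' => ?_
    split_ifs
    · refine (hle _).trans_eq ?_
      rw [xtkmW_mul (hS _ hR').1 ((hS _ hR).1.mul hm), xtkmW_mul (hS _ hR).1 hm]
      ring
    · rw [add_zero]
      exact mul_nonneg (mul_nonneg (xtkmW_nonneg _) (xtkmW_nonneg _)) (xtkmW_nonneg _)
  have a1 : ∑ R ∈ S, (1 - 2 * L) * P (R * m) ≤
      (1 - 2 * L) * (L * xtkmW m) + (1 + 2 * L) * ∑ R ∈ S, E (R * m) := by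
    have : L * xtkmW m = ∑ R ∈ S, xtkmW (R * m) := by
      rw [hL, sum_mul]
      exact sum_congr rfl fun R hR => (xtkmW_mul (hS _ hR).1 hm).symm
    rw [this, mul_sum, mul_sum, ← sum_add_distrib]
    refine sum_le_sum fun R _ => ?_
    have h1 := hle (R * m)
    have h2 := mul_le_mul_of_nonneg_left (hge (R * m)) hL0
    linarith
  have a0 := mul_le_mul_of_nonneg_left (hle m) (sq_nonneg L)
  rw [hex]
  linarith

omit [Fintype F] [Fact p.Prime] [CharP F p] in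
theorem xtkm_ext {κ : Type*} {t : κ → F[X]} {Q R : F[X]} (h1 : Function.Injective t)
    (h2 : ∀ i, (t i).Monic ∧ Irreducible (t i) ∧ ¬ t i ∣ Q)
    (h3 : R.Monic ∧ Irreducible R ∧ ¬ R ∣ Q) (h4 : ∀ i, t i ≠ R) :
    Function.Injective (fun o : Option κ => o.elim R t) ∧
      ∀ o : Option κ, (o.elim R t).Monic ∧ Irreducible (o.elim R t) ∧ ¬ o.elim R t ∣ Q := by
  refine ⟨?_, ?_⟩
  · rintro (_ | i) (_ | j) h
    · rfl
    · exact absurd h.symm (h4 j)
    · exact absurd h (h4 i)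
    · exact congrArg some (h1 h)
  · rintro (_ | i)
    · exact h3
    · exact h2 i

omit [Fintype F] [Fact p.Prime] [CharP F p] in
theorem xtkm_inj {σ κ : Type*} {T : Finset σ} {tup : σ → κ → F[X]} (hinj : Set.InjOn tup T)
    {T' : Finset (σ × F[X])} (h : ∀ x ∈ T', x.1 ∈ T) :
    Set.InjOn (fun (x : σ × F[X]) (o : Option κ) => o.elim x.2 (tup x.1)) T' :=
  fun x hx y hy e => Prod.ext (hinj (h x hx) (h y hy) (funext fun i => congrFun e (some i)))
    (congrFun e none)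

theorem tk_mod {σ κ : Type*} [Fintype κ] (T : Finset σ) (tup : σ → κ → F[X])
    (hinj : Set.InjOn tup T) {ν D a b : ℕ} (hD : D < ν) (Q D₀ : F[X])
    (hQ : ∀ R : F[X], Irreducible R → R ∣ Q → R.natDegree ≤ a) (hab : a ≤ b)
    (hL : 1 ≤ LL F a b)
    (hT : ∀ s ∈ T, Function.Injective (tup s) ∧
      (∀ i, (tup s i).Monic ∧ Irreducible (tup s i) ∧ b < (tup s i).natDegree) ∧
      (∏ i, tup s i).natDegree + 2 * b ≤ D) :
    ∑ s ∈ T, 𝔼 v ∈ ltF F ν, ind (∏ i, tup s i ∣ D₀ + Q * derivative v ∧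
        ∀ R ∈ prmI F a b, ¬ R ∣ D₀ + Q * derivative v) ≤
      (∑ s ∈ T, 1 / (Fintype.card F : ℝ) ^ (∏ i, tup s i).natDegree) / LL F a b +
        5 * ((D + 1) ^ (Fintype.card κ + 4) *
          (Fintype.card F : ℝ) ^ (ν / p + 1 + D) / (Fintype.card F : ℝ) ^ ν) := by
  classical
  set S := prmI F a b with hS
  set L := LL F a b with hLL
  set B : ℝ := (Fintype.card F : ℝ) ^ (ν / p + 1 + D) / (Fintype.card F : ℝ) ^ ν with hB
  have hB0 : 0 ≤ B := by positivity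
  have hL0 : 0 < L := one_pos.trans_le hL
  have hSm : ∀ R ∈ S, (R.Monic ∧ Irreducible R ∧ ¬ R ∣ Q) ∧ R.natDegree ≤ b := fun R hR => by
    obtain ⟨h1, h2, h3, h4⟩ := mem_prmI.1 hR
    exact ⟨⟨h1, h2, fun h => absurd (hQ R h2 h) (by omega)⟩, h4⟩
  have hTm : ∀ s ∈ T, ∀ i, (tup s i).Monic ∧ Irreducible (tup s i) ∧ ¬ tup s i ∣ Q :=
    fun s hs i => by
      obtain ⟨h1, h2, h3⟩ := (hT s hs).2.1 i
      exact ⟨h1, h2, fun h => absurd (hQ _ h2 h) (by omega)⟩
  have hne : ∀ s ∈ T, ∀ R ∈ S, ∀ i, tup s i ≠ R := fun s hs R hR i e => by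
    have h1 := ((hT s hs).2.1 i).2.2
    have h2 := (hSm R hR).2
    rw [e] at h1
    omega
  have hpow : ∀ k : ℕ, k ≤ Fintype.card κ + 4 →
      ((D : ℝ) + 1) ^ k * (Fintype.card F : ℝ) ^ (ν / p + 1 + D) / (Fintype.card F : ℝ) ^ ν ≤
        ((D : ℝ) + 1) ^ (Fintype.card κ + 4) * B := fun k hk => by
    rw [mul_div_assoc]
    exact mul_le_mul_of_nonneg_right
      (pow_le_pow_right₀ (le_add_of_nonneg_left (Nat.cast_nonneg D)) hk) hB0
  have e0 := (sum_er_tup (p := p) T tup hinj hD Q D₀ fun s hs =>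
    ⟨(hT s hs).1, hTm s hs, by have := (hT s hs).2.2; omega⟩).trans (hpow _ (by omega))
  have hinj1 := xtkm_inj hinj (T' := T ×ˢ S) fun x hx => (mem_product.1 hx).1
  have hdeg : ∀ f g : F[X], (f * g).natDegree ≤ f.natDegree + g.natDegree :=
    fun _ _ => natDegree_mul_le
  have hok1 : ∀ x ∈ T ×ˢ S, _ := fun x hx => xtkm_ext (hT x.1 (mem_product.1 hx).1).1
    (hTm x.1 (mem_product.1 hx).1) (hSm x.2 (mem_product.1 hx).2).1
    (hne x.1 (mem_product.1 hx).1 x.2 (mem_product.1 hx).2)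
  have e1 := (sum_er_tup (p := p) (T ×ˢ S) _ hinj1 hD Q D₀ fun x hx =>
    ⟨(hok1 x hx).1, (hok1 x hx).2, by
      have h1 := (hT x.1 (mem_product.1 hx).1).2.2
      have h2 := (hSm x.2 (mem_product.1 hx).2).2
      have h3 := hdeg x.2 (∏ i, tup x.1 i)
      simp only [Fintype.prod_option, Option.elim_none, Option.elim_some]
      omega⟩).trans (hpow _ (by rw [Fintype.card_option]; omega))
  have hinj2 := xtkm_inj hinj1 (T' := ((T ×ˢ S) ×ˢ S).filter fun x => x.2 ≠ x.1.2)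
    fun x hx => (mem_product.1 (mem_filter.1 hx).1).1
  have e2 := (sum_er_tup (p := p) _ _ hinj2 hD Q D₀ fun x hx => by
    obtain ⟨h1, h2⟩ := mem_filter.1 hx
    obtain ⟨h3, h4⟩ := mem_product.1 h1
    obtain ⟨h5, h6⟩ := mem_product.1 h3
    have h7 := xtkm_ext (hok1 _ h3).1 (hok1 _ h3).2 (hSm _ h4).1 (by
      rintro (_ | i)
      · exact h2.symm
      · exact hne _ h5 _ h4 i)
    refine ⟨h7.1, h7.2, ?_⟩
    have h8 := (hT _ h5).2.2
    have h9 := (hSm _ h4).2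
    have h10 := (hSm _ h6).2
    have h11 := hdeg x.1.2 (∏ i, tup x.1.1 i)
    have h12 := hdeg x.2 (x.1.2 * ∏ i, tup x.1.1 i)
    simp only [Fintype.prod_option, Option.elim_none, Option.elim_some]
    omega).trans (hpow _ (by rw [Fintype.card_option, Fintype.card_option]))
  simp only [Fintype.prod_option, Option.elim_none, Option.elim_some, sum_filter,
    sum_product] at e1 e2
  have key : ∀ s ∈ T, L ^ 2 * 𝔼 v ∈ ltF F ν, ind (∏ i, tup s i ∣ D₀ + Q * derivative v ∧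
      ∀ R ∈ S, ¬ R ∣ D₀ + Q * derivative v) ≤ _ := fun s hs => le_trans (by
        rw [mul_expect]
        refine expect_le_expect fun v _ => ?_
        by_cases h : ∏ i, tup s i ∣ D₀ + Q * derivative v ∧
            ∀ R ∈ S, ¬ R ∣ D₀ + Q * derivative v
        · rw [ind_pos h, ind_pos h.1, sum_eq_zero fun R hR => ind_neg (h.2 R hR)]
          exact le_of_eq (by ring)
        · rw [ind_neg h, mul_zero]
          exact mul_nonneg (ind_nonneg _) (sq_nonneg _))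
      (xtkm_var (ltF F ν) (fun v => D₀ + Q * derivative v) S
        (fun R hR => ⟨(hSm R hR).1.1, (hSm R hR).1.2.1⟩)
        (monic_prod_of_monic _ _ fun i _ => (hTm s hs i).1)
        (fun R hR => IsCoprime.prod_right fun i _ => xtkm_cop (hSm R hR).1.1 (hSm R hR).1.2.1
          (hTm s hs i).1 (hTm s hs i).2.1 (hne s hs R hR i).symm)
        (er ν Q D₀) (fun _ => rfl) (L := L) rfl)
  have tot := sum_le_sum key
  simp only [sum_add_distrib, ← mul_sum, ← sum_mul] at tot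
  set C : ℝ := ((D : ℝ) + 1) ^ (Fintype.card κ + 4) * B with hC
  have hC0 : 0 ≤ C := by positivity
  rw [mul_div_assoc, ← hC]
  refine le_of_mul_le_mul_left (tot.trans ?_) (pow_pos hL0 2)
  have b1 := mul_le_mul_of_nonneg_left e1 (by linarith : 0 ≤ 1 + 2 * L)
  have b0 := mul_le_mul_of_nonneg_left e0 (sq_nonneg L)
  have b3 : L ^ 2 * ((∑ s ∈ T, xtkmW (∏ i, tup s i)) / L) =
      (∑ s ∈ T, xtkmW (∏ i, tup s i)) * L := by field_simp
  have b4 : C ≤ L * C := le_mul_of_one_le_left hC0 hL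
  have b5 : L * C ≤ L * (L * C) := mul_le_mul_of_nonneg_left b4 hL0.le
  rw [mul_add]
  change _ ≤ L ^ 2 * ((∑ s ∈ T, xtkmW (∏ i, tup s i)) / L) + _
  rw [b3]
  nlinarith

omit [Fact p.Prime] [CharP F p] in
/-- the inequality for monic polynomials of fixed degree -/
theorem tk_fix {a b n : ℕ} (hn : 2 * b ≤ n) :
    𝔼 y ∈ monF F n, ((∑ R ∈ prmI F a b, ind (R ∣ y)) - LL F a b) ^ 2 ≤ LL F a b := by
  classical
  have hq := card_pos' (F := F)
  have hE : ∀ e : F[X], e.Monic → e.natDegree ≤ n →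
      |(𝔼 y ∈ monF F n, ind (e ∣ y)) - xtkmW e| = 0 := by
    intro e he hd
    obtain ⟨k, rfl⟩ : ∃ k, n = k + e.natDegree := ⟨n - e.natDegree, by omega⟩
    have h := xtkm_sum he k fun _ => 1
    simp only [mul_one, sum_const, card_monF, nsmul_eq_mul, Nat.cast_pow] at h
    rw [expect_monF_eq, h, xtkmW, pow_add, abs_eq_zero]
    field_simp
    ring
  have hS : ∀ R ∈ prmI F a b, R.Monic ∧ R.natDegree ≤ b := fun R hR =>
    ⟨(mem_prmI.1 hR).1, (mem_prmI.1 hR).2.2.2⟩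
  have h := xtkm_var (monF F n) (fun y => y) (prmI F a b)
    (fun R hR => ⟨(mem_prmI.1 hR).1, (mem_prmI.1 hR).2.1⟩) monic_one
    (fun R _ => isCoprime_one_right) _ (fun _ => rfl) (L := LL F a b) rfl
  rw [hE 1 monic_one (by simp), sum_eq_zero (s := prmI F a b) (f := fun R => |_ - xtkmW (R * 1)|)
    fun R hR => hE _ ((hS R hR).1.mul monic_one) (by
      have := (hS R hR).2
      rw [mul_one]
      omega), sum_eq_zero fun R hR => sum_eq_zero fun R' hR' => by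
        rw [hE _ ((hS R' hR').1.mul ((hS R hR).1.mul monic_one)) (by
          have h1 := (hS R hR).2
          have h2 := (hS R' hR').2
          rw [mul_one, (hS R' hR').1.natDegree_mul (hS R hR).1]
          omega), ite_self]] at h
  simpa [xtkmW, ind_pos] using h

end Pool.Agent.MP_4fffd4_nt.Odd
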