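import Mathlib
import Pool.Agent.MP_4fffd4_nt.Odd.PosB
import Pool.Agent.MP_4fffd4_nt.Odd.Tkm

/- Positive density of smooth derivatives. -/

set_option autoImplicit false

namespace Pool.Agent.MP_4fffd4_nt.Odd

open Polynomial Finset Filter Topology
open scoped BigOperators

variable {F : Type*} [Field F] [Fintype F] {p : ℕ} [Fact p.Prime] [CharP F p]

omit [Fact p.Prime] in
theorem xpos_num (hp : 3 ≤ p) {K : ℕ} (hK : 4 ≤ K) (M : ℕ) :
    900 * tt p M ≤ M / p ∧ 4 * yy K p M ≤ tt p M ∧ 3 * (M / p) ≤ M ∧ p * (M / p) ≤ M ∧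
      M + 1 ≤ 100 * p ^ 3 * K * (yy K p M + 1) := by
  have h1 := (xwin2_t hp M).1
  have h2 : 900 ≤ 100 * p ^ 2 := by nlinarith
  have h3 : p * (M / p) ≤ M := Nat.mul_div_le M p
  refine ⟨(Nat.mul_le_mul_right _ h2).trans h1,
    (Nat.mul_le_mul_right _ hK).trans (Nat.mul_div_le _ K),
    (Nat.mul_le_mul_right _ hp).trans h3, h3, ?_⟩
  have e : yy K p M = M / (100 * p ^ 3 * K) := by rw [yy, tt, Nat.div_div_eq_div_mul]
  rw [e]
  exact Nat.lt_mul_div_succ M (by positivity)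

omit [Fact p.Prime] [CharP F p] in
theorem xpos_err_top (hp : 3 ≤ p) {K : ℕ} (hK : 4 ≤ K) (c : ℕ) :
    Tendsto (fun M : ℕ => ((M : ℝ) + 1) ^ (3 * p) * (Fintype.card F : ℝ) ^ (c + 1) /
      (Fintype.card F : ℝ) ^ (2 * yy K p M)) atTop (𝓝 0) := by
  have hq := card_pos' (F := F)
  have hq2 := two_le_card (F := F)
  have hy := yy_top (K := K) hp (by omega)
  have h := ((tendsto_pow_const_div_const_pow_of_one_lt (3 * p) (r := 2) one_lt_two).comp
    ((tendsto_add_atTop_nat 1).comp hy)).const_mul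
    ((100 * (p : ℝ) ^ 3 * K) ^ (3 * p) * (Fintype.card F : ℝ) ^ (c + 1))
  rw [mul_zero] at h
  refine squeeze_zero' (Eventually.of_forall fun M => by positivity) ?_ h
  filter_upwards [hy.eventually_ge_atTop 1] with M hM
  have h1 : (M : ℝ) + 1 ≤ 100 * (p : ℝ) ^ 3 * K * ((yy K p M + 1 : ℕ) : ℝ) := by
    exact_mod_cast (xpos_num hp hK M).2.2.2.2
  have h2 : (2 : ℝ) ^ (yy K p M + 1) ≤ (Fintype.card F : ℝ) ^ (2 * yy K p M) :=
    (pow_le_pow_right₀ one_le_two (by omega)).trans (pow_le_pow_left₀ zero_le_two hq2 _)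
  calc ((M : ℝ) + 1) ^ (3 * p) * (Fintype.card F : ℝ) ^ (c + 1) /
        (Fintype.card F : ℝ) ^ (2 * yy K p M)
      ≤ (100 * (p : ℝ) ^ 3 * K * ((yy K p M + 1 : ℕ) : ℝ)) ^ (3 * p) *
          (Fintype.card F : ℝ) ^ (c + 1) / 2 ^ (yy K p M + 1) := by gcongr
    _ = _ := by
        simp only [Function.comp]
        rw [mul_pow _ ((yy K p M + 1 : ℕ) : ℝ)]
        ring

omit [Fact p.Prime] [CharP F p] in
theorem xpos_err_le {M ν c y D k : ℕ} (hD : D ≤ M) (hk : k ≤ 3 * p)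
    (he : ν / p + 1 + D + 2 * y ≤ ν + (c + 1)) :
    ((D : ℝ) + 1) ^ k * (Fintype.card F : ℝ) ^ (ν / p + 1 + D) / (Fintype.card F : ℝ) ^ ν ≤
      ((M : ℝ) + 1) ^ (3 * p) * (Fintype.card F : ℝ) ^ (c + 1) /
        (Fintype.card F : ℝ) ^ (2 * y) := by
  have hq := card_pos' (F := F)
  have hq2 := two_le_card (F := F)
  have hD' : (D : ℝ) ≤ M := by exact_mod_cast hD
  have h1 : ((D : ℝ) + 1) ^ k ≤ ((M : ℝ) + 1) ^ (3 * p) :=
    (pow_le_pow_left₀ (by positivity) (by linarith) _).trans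
      (pow_le_pow_right₀ (by linarith [(Nat.cast_nonneg M : (0 : ℝ) ≤ M)]) hk)
  rw [mul_div_assoc, mul_div_assoc]
  refine mul_le_mul h1 ?_ (by positivity) (by positivity)
  rw [div_le_div_iff₀ (by positivity) (by positivity), ← pow_add, ← pow_add]
  exact pow_le_pow_right₀ (by linarith) (by omega)

omit [Fintype F] [Fact p.Prime] [CharP F p] in
theorem xpos_deg {Q D₀ v : F[X]} {M ν : ℕ} (hD : D₀.natDegree = M)
    (h1 : ν + p * Q.natDegree ≤ M) (hν : 0 < ν) (hv : v.degree < ν) :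
    D₀ + Q ^ p * derivative v ≠ 0 ∧ (D₀ + Q ^ p * derivative v).natDegree = M := by
  have h2 : v.natDegree < ν := by
    by_cases h : v = 0
    · rw [h, natDegree_zero]; exact hν
    · exact (natDegree_lt_iff_degree_lt h).2 hv
  have h3 : (Q ^ p * derivative v).natDegree < D₀.natDegree := by
    have a := natDegree_mul_le (p := Q ^ p) (q := derivative v)
    have b := natDegree_pow_le (p := Q) (n := p)
    have c := natDegree_derivative_le v
    omega
  have h4 := natDegree_add_eq_left_of_natDegree_lt h3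
  refine ⟨fun h => ?_, h4.trans hD⟩
  rw [h, natDegree_zero] at h4
  omega

omit [Fintype F] in
theorem xpos_inj {ι : Type*} {P : ι → F[X]} {R : F[X]} (hP : Function.Injective P)
    (hR : ∀ j, (P j).natDegree < R.natDegree) :
    Function.Injective fun o : Option ι => o.elim R P := by
  rintro (_ | i) (_ | j) h
  · rfl
  · have := hR j
    simp only [Option.elim] at h
    rw [h] at this
    omega
  · have := hR i
    simp only [Option.elim] at h
    rw [h] at this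
    omega
  · exact congrArg some (hP h)

omit [Fintype F] in
theorem xpos_prod {ι : Type*} [Fintype ι] (P : ι → F[X]) (R : F[X]) :
    ∏ o : Option ι, o.elim R P = (∏ j, P j) * R := by
  rw [Fintype.prod_option, mul_comm]
  rfl

omit [Fintype F] [Fact p.Prime] [CharP F p] in
theorem xpos_dvd {Q R : F[X]} (hQ : Q ≠ 0) (hR : Irreducible R) (h : R ∣ Q ^ p) :
    R.natDegree ≤ Q.natDegree :=
  natDegree_le_of_dvd (hR.prime.dvd_of_dvd_pow h) hQ

theorem xpos_raw (hp : 3 ≤ p) {K M ν : ℕ} (hM : 100 ≤ tt p M) (hK : 4 ≤ K) {Q : F[X]}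
    (hQ : Q ≠ 0) (hQy : Q.natDegree ≤ yy K p M) (D₀ : F[X])
    (hD : M - M / p - 2 * yy K p M < ν) :
    ∑ P ∈ T3 F p M (3 * p - 4), ∑ R ∈ lastW F K p M (∏ j, P j).natDegree,
        1 / (Fintype.card F : ℝ) ^ ((∏ j, P j) * R).natDegree -
      (((M - M / p - 2 * yy K p M : ℕ) : ℝ) + 1) ^ (3 * p - 4 + 1 + 2) *
        (Fintype.card F : ℝ) ^ (ν / p + 1 + (M - M / p - 2 * yy K p M)) /
          (Fintype.card F : ℝ) ^ ν ≤
      𝔼 v ∈ ltF F ν, ∑ P ∈ T3 F p M (3 * p - 4), ∑ R ∈ lastW F K p M (∏ j, P j).natDegree,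
        ind ((∏ j, P j) * R ∣ D₀ + Q ^ p * derivative v) := by
  obtain ⟨n1, n2, n3, n4, -⟩ := xpos_num hp hK M
  have h := sum_er_tup (p := p) ((T3 F p M (3 * p - 4)).sigma
      fun P => lastW F K p M (∏ j, P j).natDegree)
    (fun z (o : Option (Fin (3 * p - 4))) => o.elim z.2 z.1) ?_ hD (Q ^ p) D₀ ?_
  · rw [Fintype.card_option, Fintype.card_fin, sum_sigma] at h
    simp only [xpos_prod] at h
    rw [sub_le_iff_le_add]
    refine le_trans ?_ (add_le_add_right h _)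
    rw [expect_sum_comm, ← sum_add_distrib]
    refine sum_le_sum fun P _ => ?_
    rw [expect_sum_comm, ← sum_add_distrib]
    refine sum_le_sum fun R _ => ?_
    have := neg_abs_le ((𝔼 v ∈ ltF F ν, ind ((∏ j, P j) * R ∣ D₀ + Q ^ p * derivative v)) -
      1 / (Fintype.card F : ℝ) ^ ((∏ j, P j) * R).natDegree)
    rw [er]
    linarith
  · rintro ⟨P, R⟩ - ⟨P', R'⟩ - h
    have h1 : R = R' := congrFun h none
    have h2 : P = P' := funext fun j => congrFun h (some j)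
    rw [h1, h2]
  · rintro ⟨P, R⟩ hz
    obtain ⟨hP, hR⟩ := mem_sigma.1 hz
    obtain ⟨a1, a2⟩ := mem_T3 hp hM le_rfl hP
    obtain ⟨b1, b2⟩ := mem_lastW hp hM hK hP
    obtain ⟨r1, r2, r3, r4⟩ := mem_prmI.1 hR
    dsimp only at *
    refine ⟨xpos_inj a1 fun j => ?_, ?_, ?_⟩
    · have := (a2 j).2.2.2
      omega
    · rintro (_ | j)
      · refine ⟨r1, r2, fun hd => ?_⟩
        have := xpos_dvd hQ r2 hd
        omega
      · refine ⟨(a2 j).1, (a2 j).2.1, fun hd => ?_⟩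
        have := xpos_dvd hQ (a2 j).2.1 hd
        have := (a2 j).2.2.1
        omega
    · rw [xpos_prod, (monic_prod_of_monic _ _ fun j _ => (a2 j).1).natDegree_mul r1]
      omega

theorem xpos_bad (hp : 3 ≤ p) {K M ν : ℕ} (hM : 100 ≤ tt p M) (hK : 4 ≤ K) {Q : F[X]}
    (hQ : Q ≠ 0) (hQy : Q.natDegree ≤ yy K p M) (D₀ : F[X])
    (hD : M - M / p - 2 * yy K p M < ν) (hL : 1 ≤ LL F (4 * yy K p M) (tt p M)) :
    𝔼 v ∈ ltF F ν, ∑ P ∈ T3 F p M (3 * p - 7), ∑ R ∈ bigW F K p M,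
        ind ((∏ j, P j) * R ∣ D₀ + Q ^ p * derivative v ∧
          ∀ S ∈ prmI F (4 * yy K p M) (tt p M), ¬ S ∣ D₀ + Q ^ p * derivative v) ≤
      (∑ P ∈ T3 F p M (3 * p - 7), ∑ R ∈ bigW F K p M,
        1 / (Fintype.card F : ℝ) ^ ((∏ j, P j) * R).natDegree) / LL F (4 * yy K p M) (tt p M) +
      5 * ((((M - M / p - 2 * yy K p M : ℕ) : ℝ) + 1) ^ (3 * p - 7 + 1 + 4) *
        (Fintype.card F : ℝ) ^ (ν / p + 1 + (M - M / p - 2 * yy K p M)) /
          (Fintype.card F : ℝ) ^ ν) := by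
  obtain ⟨n1, n2, n3, n4, -⟩ := xpos_num hp hK M
  have h := tk_mod (p := p) (T3 F p M (3 * p - 7) ×ˢ bigW F K p M)
    (fun z (o : Option (Fin (3 * p - 7))) => o.elim z.2 z.1) ?_ hD (Q ^ p) D₀
    (fun R hR hd => (xpos_dvd hQ hR hd).trans (by omega)) n2 hL ?_
  · rw [Fintype.card_option, Fintype.card_fin, sum_product, sum_product] at h
    simp only [xpos_prod] at h
    refine le_trans (le_of_eq ?_) h
    rw [expect_sum_comm]
    exact sum_congr rfl fun P _ => expect_sum_comm _ _ _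
  · rintro ⟨P, R⟩ - ⟨P', R'⟩ - h
    have h1 : R = R' := congrFun h none
    have h2 : P = P' := funext fun j => congrFun h (some j)
    rw [h1, h2]
  · rintro ⟨P, R⟩ hz
    obtain ⟨hP, hR⟩ := mem_product.1 hz
    obtain ⟨a1, a2⟩ := mem_T3 hp hM (by omega) hP
    obtain ⟨r1, r2, r3, r4⟩ := mem_prmI.1 hR
    dsimp only at *
    refine ⟨xpos_inj a1 fun j => ?_, ?_, ?_⟩
    · have := (a2 j).2.2.2
      omega
    · rintro (_ | j)
      · exact ⟨r1, r2, by dsimp only [Option.elim]; omega⟩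
      · refine ⟨(a2 j).1, (a2 j).2.1, ?_⟩
        have := (a2 j).2.2.1
        dsimp only [Option.elim]
        omega
    · rw [xpos_prod, (monic_prod_of_monic _ _ fun j _ => (a2 j).1).natDegree_mul r1,
        natDegree_prod_of_monic _ _ fun j _ => (a2 j).1]
      have h1 : ∑ j, (P j).natDegree ≤ (3 * p - 7) * (M / p / 3) := by
        refine (sum_le_card_nsmul _ _ (M / p / 3) fun j _ => ?_).trans_eq (by simp)
        have := (a2 j).2.2.2
        omega
      have h2 : (3 * p - 7) * (M / p / 3) + 7 * (M / p / 3) = p * (3 * (M / p / 3)) := by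
        rw [← Nat.add_mul, Nat.sub_add_cancel (by omega)]
        ring
      have h3 : p * (3 * (M / p / 3)) ≤ p * (M / p) :=
        Nat.mul_le_mul_left _ (Nat.mul_div_le _ 3)
      omega

theorem exists_posW (hp : p ≠ 2) : ∃ (δ : ℝ) (hi : ℕ → ℕ), PosW F p (SI p) δ (tt p) hi := by
  have h3 : 3 ≤ p := by
    have := (Fact.out : p.Prime).two_le
    omega
  have hq := card_pos' (F := F)
  have hp' : (3 : ℝ) ≤ p := by exact_mod_cast h3
  obtain ⟨B, hB, hB0⟩ : ∃ B : ℝ, B = (4 * p : ℝ) ^ (3 * p) ∧ 0 < B := ⟨_, rfl, by positivity⟩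
  obtain ⟨a, ha, ha0⟩ : ∃ a : ℝ, a = (1 / (400 * (p : ℝ) ^ 2)) ^ (3 * p) ∧ 0 < a :=
    ⟨_, rfl, by positivity⟩
  obtain ⟨K, hK, hL⟩ := LL_big (F := F) h3 (max 1 (2 * B / a))
  have hK0 : (0 : ℝ) < K := by exact_mod_cast (by omega : 0 < K)
  have hy := yy_top (K := K) h3 (by omega)
  refine ⟨a / (4 * B * K), fun M => M / p - yy K p M, by positivity, xwin2_top h3,
    fun c => ?_, fun Q c hQ => ?_⟩
  · filter_upwards [hy.eventually_ge_atTop c] with M hM
    obtain ⟨n1, n2, -⟩ := xpos_num h3 hK M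
    omega
  have hε : 0 < a / (4 * K) / (1 + 5 * B) := by positivity
  filter_upwards [hL, main_ge (F := F) h3 hK, bad_le (F := F) h3 hK,
    (xwin2_top h3).eventually_ge_atTop 100, hy.eventually_ge_atTop (c + 1),
    hy.eventually_ge_atTop Q.natDegree,
    (xpos_err_top (F := F) h3 hK c).eventually (ge_mem_nhds hε)]
    with M l1 l2 l3 l4 l5 l6 l7 D₀ ν hD h1 h2
  obtain ⟨n1, n2, n3, n4, -⟩ := xpos_num h3 hK M
  have hDν : M - M / p - 2 * yy K p M < ν := by omega
  have hνp : ν / p ≤ M / p := Nat.div_le_div_right (by omega)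
  have r1 := xpos_raw h3 l4 hK hQ l6 D₀ hDν
  have r2 := xpos_bad h3 l4 hK hQ l6 D₀ hDν ((le_max_left _ _).trans l1)
  have e1 := (xpos_err_le (F := F) (p := p) (M := M) (ν := ν) (c := c) (y := yy K p M)
    (D := M - M / p - 2 * yy K p M) (k := 3 * p - 4 + 1 + 2) (by omega) (by omega)
    (by omega)).trans l7
  have e2 := (xpos_err_le (F := F) (p := p) (M := M) (ν := ν) (c := c) (y := yy K p M)
    (D := M - M / p - 2 * yy K p M) (k := 3 * p - 7 + 1 + 4) (by omega) (by omega)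
    (by omega)).trans l7
  have r3 := expect_le_expect (s := ltF F ν) fun v hv =>
    raw_le (K := K) h3 l4 hK (xpos_deg hD h1 (by omega) (mem_ltF.1 hv)).1
      (xpos_deg hD h1 (by omega) (mem_ltF.1 hv)).2
  rw [← mul_expect, expect_add_distrib, ← hB] at r3
  rw [← ha] at l2
  have hL2 : 2 * B / a ≤ LL F (4 * yy K p M) (tt p M) := (le_max_right _ _).trans l1
  have r4 : (∑ P ∈ T3 F p M (3 * p - 7), ∑ R ∈ bigW F K p M,
      1 / (Fintype.card F : ℝ) ^ ((∏ j, P j) * R).natDegree) / LL F (4 * yy K p M) (tt p M) ≤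
      1 / K / (2 * B / a) := div_le_div₀ (by positivity) l3 (by positivity) hL2
  have r5 := mul_le_mul_of_nonneg_left (r2.trans (add_le_add r4
    (mul_le_mul_of_nonneg_left e2 (by norm_num)))) hB0.le
  have f1 : B * (1 / K / (2 * B / a) + 5 * (a / (4 * K) / (1 + 5 * B))) +
      a / (4 * K) / (1 + 5 * B) + B * (a / (4 * B * K)) = a / K := by
    field_simp
    ring
  rw [mul_add] at r3
  exact le_of_mul_le_mul_left (by linarith) hB0

end Pool.Agent.MP_4fffd4_nt.Odd
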