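import Mathlib
import Pool.Agent.MP_4fffd4_nt.Odd.Gram
import Pool.Agent.MP_4fffd4_nt.Odd.Pos
import Pool.Agent.MP_4fffd4_nt.Odd.Fin

/- Correlations of at most two values in every degree. -/

set_option autoImplicit false

namespace Pool.Agent.MP_4fffd4_nt.Odd

open Polynomial Finset Filter Topology
open scoped BigOperators

variable {F : Type*} [Field F] [Fintype F] {p : ℕ} [Fact p.Prime] [CharP F p]

theorem xtwopt_tend {u : ℕ → ℝ} (h : ∀ ε : ℝ, 0 < ε → ∀ᶠ n in atTop, |u n| ≤ ε) :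
    Tendsto u atTop (𝓝 0) := by
  rw [Metric.tendsto_nhds]
  intro ε hε
  filter_upwards [h _ (half_pos hε)] with n hn
  rw [Real.dist_eq, sub_zero]
  linarith

omit [Fintype F] in
theorem xtwopt_deg {h : F[X]} {n : ℕ} (hn : h.natDegree < n) : h.degree < n :=
  degree_le_natDegree.trans_lt (by exact_mod_cast hn)

theorem xtwopt_dil {P : F[X]} {d : ℕ} (hP : P ∈ prm F d) (m : ℕ) (Ψ : F[X] → ℝ) :
    𝔼 y ∈ monF F (m + d), ind (P ∣ y) * (lam y * Ψ y) =
      -(𝔼 z ∈ monF F m, lam z * Ψ (P * z)) / (Fintype.card F : ℝ) ^ d := by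
  obtain ⟨h1, h2, rfl⟩ := mem_prm.1 hP
  have hq := card_pos' (F := F)
  rw [expect_monF_eq, expect_monF_eq, xfin_sum h1 m fun y => lam y * Ψ y,
    sum_congr rfl (g := fun z => -(lam z * Ψ (P * z))) fun z hz => by
      rw [lam_mul h1.ne_zero (mem_monF.1 hz).1.ne_zero, xcorr_lam_irr h2]
      ring,
    sum_neg_distrib, pow_add]
  field_simp

theorem xtwopt_num {δ : ℝ} (hδ : 0 < δ) (d : ℕ) :
    (√(prm F d).card / δ + 1) / (Fintype.card F : ℝ) ^ d ≤ (1 / δ + 1) * (3 / 4) ^ d := by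
  classical
  have hq := two_le_card (F := F)
  obtain ⟨r, hr, hr'⟩ : ∃ r : ℝ, 4 / 3 ≤ r ∧ (Fintype.card F : ℝ) = r * r :=
    ⟨√(Fintype.card F), Real.le_sqrt_of_sq_le (by linarith),
      (Real.mul_self_sqrt (by linarith)).symm⟩
  have h1 : ((prm F d).card : ℝ) ≤ (r ^ d) ^ 2 := by
    rw [sq, ← mul_pow, ← hr', ← Nat.cast_pow, ← card_monF]
    exact_mod_cast card_le_card (filter_subset _ _)
  have h0 : 0 < r ^ d := by positivity
  have h2 : √(prm F d).card ≤ r ^ d := Real.sqrt_le_iff.2 ⟨h0.le, h1⟩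
  have h3 : 1 ≤ r ^ d := one_le_pow₀ (by linarith)
  have h4 : 1 ≤ (3 / 4) ^ d * r ^ d := by
    rw [← mul_pow]
    exact one_le_pow₀ (by linarith)
  rw [hr', mul_pow, div_le_iff₀ (by positivity)]
  calc √(prm F d).card / δ + 1 ≤ r ^ d / δ + r ^ d := by gcongr
    _ = (1 / δ + 1) * 1 * r ^ d := by ring
    _ ≤ (1 / δ + 1) * ((3 / 4) ^ d * r ^ d) * r ^ d := by gcongr
    _ = _ := by ring

theorem xtwopt_geom (b : ℕ) : ∑ d ∈ Ioc 0 b, (3 / 4 : ℝ) ^ d ≤ 4 := by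
  have h := (hasSum_geometric_of_lt_one (r := (3 / 4 : ℝ)) (by norm_num) (by norm_num))
  exact (sum_le_hasSum _ (fun _ _ => by positivity) h).trans (by norm_num)

theorem xtwopt_main (hp : p ≠ 2) {a : F[X]} (ha : a.Monic) (h₁ : F[X]) {h : F[X]} (hh : h ≠ 0) :
    Tendsto (fun n => 𝔼 y ∈ monF F n, lam y * (ind (a ∣ y - h₁) * lam (y + h))) atTop (𝓝 0) := by
  classical
  obtain ⟨δ, hi, hw⟩ := exists_posW (F := F) hp
  have hδ := hw.pos
  have hq := card_pos' (F := F)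
  obtain ⟨Φ, hΦ⟩ : ∃ Φ : F[X] → ℝ, Φ = fun y => lam y * (ind (a ∣ y - h₁) * lam (y + h)) :=
    ⟨_, rfl⟩
  have hb : ∀ y, |Φ y| ≤ 1 := fun y => by
    rw [hΦ, abs_mul, abs_mul, abs_lam, abs_lam, one_mul, mul_one]
    exact abs_ind_le _
  have key : ∀ d, ∀ᶠ n in atTop,
      |∑ P ∈ prm F d, 𝔼 y ∈ monF F n, ind (P ∣ y) * Φ y| ≤ (1 / δ + 1) * (3 / 4) ^ d := by
    intro d
    obtain ⟨m₀, hm⟩ := eventually_atTop.1
      (gram hp hw (prm F d) (D := d) (filter_subset _ _) hh ha one_pos)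
    filter_upwards [eventually_ge_atTop (m₀ + d)] with n hn
    obtain ⟨m, rfl⟩ : ∃ m, n = m + d := ⟨n - d, by omega⟩
    have h1 := hm m (by omega) lam (fun A z => ind (a ∣ A * z - h₁)) (fun z => (abs_lam z).le)
      (fun A z => abs_ind_le _) fun A z v => ind_congr (by
        rw [mul_add, add_sub_right_comm, mul_left_comm]
        exact dvd_add_left (dvd_mul_right a _))
    rw [hΦ, sum_congr rfl fun P hP =>
      xtwopt_dil hP m fun y => ind (a ∣ y - h₁) * lam (y + h), ← sum_div, sum_neg_distrib,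
      abs_div, abs_neg, abs_of_pos (pow_pos hq d)]
    exact (div_le_div_of_nonneg_right h1 (pow_pos hq d).le).trans (xtwopt_num hδ d)
  simp only [← show ∀ y, Φ y = lam y * (ind (a ∣ y - h₁) * lam (y + h)) from fun y => by rw [hΦ]]
  refine xtwopt_tend fun ε hε => ?_
  obtain ⟨b, hb1, hb2⟩ := (((LL_top (F := F) 0).eventually_ge_atTop ((2 / ε) ^ 2)).and
    ((LL_top (F := F) 0).eventually_ge_atTop (8 * (1 / δ + 1) / ε))).exists
  obtain ⟨L, hL⟩ : ∃ L, L = LL F 0 b := ⟨_, rfl⟩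
  rw [← hL] at hb1 hb2
  have hL0 : 0 < L := lt_of_lt_of_le (by positivity) hb1
  have hs : 0 < √L := Real.sqrt_pos.2 hL0
  filter_upwards [(eventually_all_finset (Ioc 0 b)).2 fun d _ => key d,
    eventually_ge_atTop (2 * b)] with n h1 h2
  have h3 : 𝔼 y ∈ monF F n, |(∑ R ∈ prmI F 0 b, ind (R ∣ y)) - L| ≤ √L :=
    xloc2_amgm n _ hs (by rw [Real.sq_sqrt hL0.le, hL]; exact tk_fix h2)
  have h4 : |𝔼 y ∈ monF F n, ((∑ R ∈ prmI F 0 b, ind (R ∣ y)) - L) * Φ y| ≤ √L := by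
    refine (abs_expect_le _ _).trans ((expect_le_expect fun y _ => ?_).trans h3)
    rw [abs_mul]
    exact mul_le_of_le_one_right (abs_nonneg _) (hb y)
  have h5 : |𝔼 y ∈ monF F n, (∑ R ∈ prmI F 0 b, ind (R ∣ y)) * Φ y| ≤ 4 * (1 / δ + 1) := by
    simp only [sum_mul]
    rw [expect_sum_comm, sum_prmI]
    refine (abs_sum_le_sum_abs _ _).trans ((sum_le_sum h1).trans ?_)
    rw [← mul_sum, mul_comm]
    exact mul_le_mul_of_nonneg_right (xtwopt_geom b) (by positivity)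
  have h6 : L * 𝔼 y ∈ monF F n, Φ y =
      (𝔼 y ∈ monF F n, (∑ R ∈ prmI F 0 b, ind (R ∣ y)) * Φ y) -
        𝔼 y ∈ monF F n, ((∑ R ∈ prmI F 0 b, ind (R ∣ y)) - L) * Φ y := by
    rw [mul_expect, ← expect_sub_distrib]
    exact expect_congr rfl fun y _ => by ring
  have h7 : L * |𝔼 y ∈ monF F n, Φ y| ≤ 4 * (1 / δ + 1) + √L := by
    rw [← abs_of_pos hL0, ← abs_mul, h6, abs_of_pos hL0]
    exact (abs_sub _ _).trans (add_le_add h5 h4)
  have h8 : 2 ≤ √L * ε := by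
    rw [← div_le_iff₀ hε]
    exact Real.le_sqrt_of_sq_le hb1
  have h9 : 2 * √L ≤ L * ε := by
    calc 2 * √L ≤ √L * ε * √L := by gcongr
      _ = √L * √L * ε := by ring
      _ = L * ε := by rw [Real.mul_self_sqrt hL0.le]
  rw [div_le_iff₀ hε] at hb2
  exact le_of_mul_le_mul_left (by linarith) hL0

theorem one_pt (hp : p ≠ 2) {a : F[X]} (ha : a.Monic) (h : F[X]) :
    Tendsto (fun n => 𝔼 x ∈ monF F n, ind (a ∣ x) * lam (x + h)) atTop (𝓝 0) := by
  obtain ⟨ρ₀, hw⟩ := exists_weight (F := F) hp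
  refine xtwopt_tend fun ε hε => ?_
  obtain ⟨D, h1, hD⟩ := ((loc_unif hp hw (fun _ : Unit => a) (fun _ => 0) (fun _ => ha.ne_zero)
    hε).and (eventually_ge_atTop 1)).exists
  filter_upwards [h1, eventually_gt_atTop h.natDegree] with n h2 hn
  have h3 := h2 (fun _ y _ => ind (a ∣ y - h)) fun _ => ⟨fun y d => abs_ind_le _,
    fun y d v => ind_congr (by
      rw [add_sub_right_comm]
      exact dvd_add_left (dvd_mul_right a v))⟩
  have e : TT n D lam (fun (_ : Unit) y _ => ind (a ∣ y - h)) =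
      𝔼 x ∈ monF F n, ind (a ∣ x) * lam (x + h) := by
    rw [TT, expect_const (monF_nonempty D), ← expect_monF_add (xtwopt_deg hn)]
    refine expect_congr rfl fun y _ => ?_
    rw [Fintype.prod_unique, add_sub_cancel_right, mul_comm]
  rw [e] at h3
  exact (le_mul_of_one_le_left (abs_nonneg _) (by exact_mod_cast hD)).trans h3

theorem two_pt (hp : p ≠ 2) {a : F[X]} (ha : a.Monic) {h₁ h₂ : F[X]} (hh : h₁ ≠ h₂) :
    Tendsto (fun n => 𝔼 x ∈ monF F n, ind (a ∣ x) * (lam (x + h₁) * lam (x + h₂))) atTop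
      (𝓝 0) := by
  refine (xtwopt_main hp ha h₁ (sub_ne_zero.2 hh.symm)).congr' ?_
  filter_upwards [eventually_gt_atTop h₁.natDegree] with n hn
  rw [← expect_monF_add (xtwopt_deg hn)]
  refine expect_congr rfl fun y _ => ?_
  rw [add_sub_cancel_right, add_assoc, add_sub_cancel]
  ring

end Pool.Agent.MP_4fffd4_nt.Odd
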