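import Mathlib
import Pool.Agent.MP_4fffd4_nt.Odd.TwoPt

/- Two-point Chowla in every degree, for every finite field. -/

set_option autoImplicit false

namespace Pool.Agent.MP_4fffd4_nt.Odd

open Polynomial Finset Filter Topology
open scoped BigOperators

variable {F : Type*} [Field F] [Fintype F]

theorem corr_two {p : ℕ} [Fact p.Prime] [CharP F p] (hp : p ≠ 2) {I : Type*} [Fintype I]
    (i₀ : I) (hI : Fintype.card I ≤ 2) {a : F[X]} (ha : a.Monic) {h : I → F[X]}
    (hh : Function.Injective h) :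
    Tendsto (fun n => 𝔼 x ∈ monF F n, ind (a ∣ x) * ∏ i, lam (x + h i)) atTop (𝓝 0) := by
  classical
  by_cases h1 : ∃ i₁, i₁ ≠ i₀
  · obtain ⟨i₁, h1⟩ := h1
    have h2 : ({i₀, i₁} : Finset I) = univ :=
      eq_of_subset_of_card_le (subset_univ _) (by rw [card_pair h1.symm]; exact hI)
    simp only [← h2, prod_pair h1.symm]
    exact two_pt hp ha fun e => h1 (hh e).symm
  · push Not at h1
    have h2 : ({i₀} : Finset I) = univ := eq_univ_of_forall fun i => mem_singleton.2 (h1 i)
    simp only [← h2, prod_singleton]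
    exact one_pt hp ha _

theorem chowla_two {I : Type*} [Fintype I] (i₀ : I) (hI : Fintype.card I ≤ 2) (a h : I → F[X])
    (ha : ∀ i, a i ≠ 0) (hind : ∀ i j, i ≠ j → a i * h j ≠ a j * h i) :
    Tendsto (fun n => (∑ f ∈ monF F n, ∏ i, (liou (a i * f + h i) : ℝ)) / Fintype.card F ^ n)
      atTop (𝓝 0) := by
  obtain ⟨p, hp⟩ := CharP.exists F
  haveI : Fact p.Prime := ⟨CharP.char_is_prime F p⟩
  by_cases h2 : p = 2
  · subst h2
    exact chowla i₀ a h ha fun i hi => hind i i₀ hi
  have hA : ∏ i, a i ≠ 0 := prod_ne_zero_iff.2 fun i _ => ha i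
  set A := (∏ i, a i) * C (∏ i, a i).leadingCoeff⁻¹
  have hm : A.Monic := monic_mul_leadingCoeff_inv hA
  choose c hc using fun i => show a i ∣ A from (dvd_prod_of_mem a (mem_univ i)).mul_right _
  have hc0 : ∀ i, c i ≠ 0 := fun i h0 => hm.ne_zero (by rw [hc i, h0, mul_zero])
  have hinj : Function.Injective fun i => c i * h i := by
    intro i j e
    by_contra hij
    refine hind i j hij (mul_left_cancel₀ hm.ne_zero ?_)
    simp only at e
    linear_combination (a i * h j) * hc j - (a j * h i) * hc i - (a i * a j) * e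
  have hq := card_pos' (F := F)
  have h0 := ((corr_two h2 i₀ hI hm hinj).comp (tendsto_add_atTop_nat A.natDegree)).const_mul
    ((∏ i, lam (c i)) * Fintype.card F ^ A.natDegree)
  rw [mul_zero] at h0
  refine h0.congr' ?_
  filter_upwards [eventually_gt_atTop (∑ i, (h i).natDegree)] with n hn
  rw [Function.comp_apply, expect_monF_eq, xfin_sum hm n fun x => ∏ i, lam (x + c i * h i),
    pow_add]
  have : ∑ f ∈ monF F n, ∏ i, (liou (a i * f + h i) : ℝ) =
      (∏ i, lam (c i)) * ∑ f ∈ monF F n, ∏ i, lam (A * f + c i * h i) := by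
    rw [mul_sum]
    refine sum_congr rfl fun f hf => ?_
    obtain ⟨h3, h4⟩ := mem_monF.1 hf
    rw [← prod_mul_distrib]
    refine prod_congr rfl fun i _ => ?_
    have := single_le_sum (f := fun i => (h i).natDegree) (fun _ _ => Nat.zero_le _) (mem_univ i)
    rw [show A * f + c i * h i = c i * (a i * f + h i) by rw [hc i]; ring,
      lam_mul (hc0 i) (lin_ne_zero (ha i) h3 (by omega)), ← mul_assoc, lam_mul_self, one_mul, lam]
  rw [this]
  field_simp

theorem pattern_two {I : Type*} [Fintype I] (hI : Fintype.card I ≤ 2) (a h : I → F[X])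
    (ha : ∀ i, a i ≠ 0) (hind : ∀ i j, i ≠ j → a i * h j ≠ a j * h i) (ε : I → ℤ)
    (hε : ∀ i, ε i = 1 ∨ ε i = -1) :
    Tendsto (fun n : ℕ => (Set.ncard {f : F[X] | f.Monic ∧ f.natDegree = n ∧
      ∀ i, a i * f + h i ≠ 0 ∧ liou (a i * f + h i) = ε i} : ℝ) / Fintype.card F ^ n)
      atTop (𝓝 (1 / 2 ^ Fintype.card I)) := by
  classical
  have hq := card_pos' (F := F)
  have h1 : Tendsto (fun n : ℕ => 1 / 2 ^ Fintype.card I * ∑ S ∈ (univ : Finset I).powerset,
      (∏ i ∈ S, (ε i : ℝ)) *
        ((∑ f ∈ monF F n, ∏ i ∈ S, (liou (a i * f + h i) : ℝ)) / Fintype.card F ^ n)) atTop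
      (𝓝 (1 / 2 ^ Fintype.card I * ∑ S ∈ (univ : Finset I).powerset,
        if S = ∅ then 1 else 0)) := by
    refine (tendsto_finset_sum _ fun S _ => ?_).const_mul _
    split_ifs with hS
    · subst hS
      refine tendsto_const_nhds.congr fun n => ?_
      simp only [prod_empty, sum_const, card_monF, nsmul_eq_mul]
      push_cast
      field_simp
    · obtain ⟨i₀, hi₀⟩ := nonempty_iff_ne_empty.2 hS
      have := (chowla_two (I := S) ⟨i₀, hi₀⟩ ((Fintype.card_subtype_le _).trans hI)
        (fun i => a i) (fun i => h i) (fun i => ha i)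
        (fun i j hi => hind _ _ fun e => hi (Subtype.ext e))).const_mul (∏ i ∈ S, (ε i : ℝ))
      rw [mul_zero] at this
      refine this.congr fun n => ?_
      congr 2
      exact sum_congr rfl fun f _ => prod_coe_sort S fun i => (liou (a i * f + h i) : ℝ)
  rw [sum_ite_eq', if_pos (empty_mem_powerset _), mul_one] at h1
  refine h1.congr' ?_
  filter_upwards [eventually_gt_atTop (∑ i, (h i).natDegree)] with n hn
  have h2 : {f : F[X] | f.Monic ∧ f.natDegree = n ∧
      ∀ i, a i * f + h i ≠ 0 ∧ liou (a i * f + h i) = ε i} =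
      ((monF F n).filter fun f => ∀ i, liou (a i * f + h i) = ε i : Finset F[X]) := by
    ext f
    simp only [Set.mem_setOf_eq, coe_filter, mem_monF]
    refine ⟨fun ⟨x, y, z⟩ => ⟨⟨x, y⟩, fun i => (z i).2⟩, fun ⟨⟨x, y⟩, z⟩ =>
      ⟨x, y, fun i => ⟨lin_ne_zero (ha i) x ?_, z i⟩⟩⟩
    have := single_le_sum (f := fun i => (h i).natDegree) (fun _ _ => Nat.zero_le _) (mem_univ i)
    omega
  rw [h2, Set.ncard_coe_finset, card_filter]
  simp only [← mul_div_assoc, ← sum_div, mul_sum, ← prod_mul_distrib]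
  congr 1
  rw [sum_comm]
  push_cast
  refine sum_congr rfl fun f _ => ?_
  rw [← mul_sum, ← prod_one_add]
  split_ifs with hf
  · rw [prod_congr rfl (g := fun _ => 2), prod_const, card_univ]
    · field_simp
    · intro i _
      rw [hf i]
      rcases hε i with e | e <;> rw [e] <;> norm_num
  · push Not at hf
    obtain ⟨i, hi⟩ := hf
    rw [prod_eq_zero (mem_univ i), mul_zero]
    rcases hε i with e | e <;> rcases liou_cases (a i * f + h i) with e' | e' <;>
      rw [e, e'] at hi ⊢ <;> simp at hi ⊢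

end Pool.Agent.MP_4fffd4_nt.Odd
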