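import Mathlib
import Pool.Agent.MP_4fffd4_nt.Odd.Defs2

/- Definitions for Chowla's conjecture in every degree. -/

set_option autoImplicit false

namespace Pool.Agent.MP_4fffd4_nt.Odd

open Polynomial Finset Filter Topology
open scoped BigOperators

variable {F : Type*} [Field F]

open Classical in
/-- the monic greatest common divisor -/
noncomputable def gc (α u : F[X]) : F[X] := GCDMonoid.gcd α u

theorem gc_dvd_left (α u : F[X]) : gc α u ∣ α := by
  classical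
  exact GCDMonoid.gcd_dvd_left α u

theorem gc_dvd_right (α u : F[X]) : gc α u ∣ u := by
  classical
  exact GCDMonoid.gcd_dvd_right α u

theorem dvd_gc {d α u : F[X]} (h1 : d ∣ α) (h2 : d ∣ u) : d ∣ gc α u := by
  classical
  exact GCDMonoid.dvd_gcd h1 h2

theorem gc_monic {α : F[X]} (hα : α ≠ 0) (u : F[X]) : (gc α u).Monic := by
  classical
  have h0 : gc α u ≠ 0 := fun e => hα (zero_dvd_iff.1 (e ▸ gc_dvd_left α u))
  have h1 : normalize (gc α u) = gc α u := normalize_gcd α u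
  rw [← h1]
  exact monic_normalize h0

/-- a monic common divisor that is divisible by all common divisors is the gcd -/
theorem gc_eq {α u d : F[X]} (hα : α ≠ 0) (hd : d.Monic) (h1 : d ∣ α) (h2 : d ∣ u)
    (h : ∀ e, e ∣ α → e ∣ u → e ∣ d) : gc α u = d :=
  eq_of_monic_of_associated (gc_monic hα u) hd
    (associated_of_dvd_dvd (h _ (gc_dvd_left α u) (gc_dvd_right α u)) (dvd_gc h1 h2))

/-- the degree of the gcd -/
noncomputable def sg (α u : F[X]) : ℕ := (gc α u).natDegree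

/-- the primitive form attached to the form `α * x + u` -/
noncomputable def rt (α u : F[X]) : F[X] × F[X] := (α /ₘ gc α u, u /ₘ gc α u)

theorem rt_fst {α : F[X]} (hα : α ≠ 0) (u : F[X]) : gc α u * (rt α u).1 = α := by
  have h := modByMonic_add_div α (gc α u)
  rwa [(modByMonic_eq_zero_iff_dvd (gc_monic hα u)).2 (gc_dvd_left α u), zero_add] at h

theorem rt_snd {α : F[X]} (hα : α ≠ 0) (u : F[X]) : gc α u * (rt α u).2 = u := by
  have h := modByMonic_add_div u (gc α u)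
  rwa [(modByMonic_eq_zero_iff_dvd (gc_monic hα u)).2 (gc_dvd_right α u), zero_add] at h

/-- the form number `i₀` has the gcd of least degree `s`, with a gap `Δ` -/
def Low {I : Type*} (h : I → F[X]) (Δ : ℕ) (i₀ : I) (s : ℕ) (α β : F[X]) : Prop :=
  sg α (β + h i₀) = s ∧ ∀ j, j ≠ i₀ → s + Δ ≤ sg α (β + h j)

variable [Fintype F]

open Classical in
/-- the primitive forms obtained by removing a gcd of degree at least `r` -/
noncomputable def rts (𝒜 : Finset F[X]) (A r : ℕ) : Finset (F[X] × F[X]) :=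
  ((𝒜 ×ˢ ltF F A).filter fun z => r ≤ sg z.1 z.2).image fun z => rt z.1 z.2

/-- a family of moduli with many prime factors and few divisors -/
structure Fam (a : F[X]) (D₀ D₁ A : ℕ) (Λ : ℝ) (𝒜 : Finset F[X]) : Prop where
  ne : 𝒜.Nonempty
  mon : ∀ α ∈ 𝒜, α ∈ monF F A
  shape : ∀ α ∈ 𝒜, ∃ T ⊆ prmI F D₀ D₁, ∃ j : ℕ, α = a * X ^ j * ∏ P ∈ T, P ∧
    LL F D₀ D₁ ≤ 2 * ∑ P ∈ T, 1 / (Fintype.card F : ℝ) ^ P.natDegree
  divs : ∀ r, ∑ α' ∈ monF F r, ind (∃ α ∈ 𝒜, α' ∣ α) ≤ Λ * 𝒜.card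

variable (F) in
/-- the values of the Liouville function at independent forms behave like random signs -/
def Rnd (δ : ℝ) : Prop :=
  ∀ (T : Finset (F[X] × F[X])) (D : ℕ), (∀ ψ ∈ T, ψ.1 ∈ monF F D) →
    (∀ ψ ∈ T, ∀ ψ' ∈ T, ψ ≠ ψ' → ψ.1 * ψ'.2 ≠ ψ'.1 * ψ.2) →
    ∀ (Sg : Finset (F[X] × F[X] → ℝ)) (V E w ε : ℝ), 1 ≤ E → 0 < w → V * E ≤ w ^ 2 →
      (Sg.card : ℝ) ≤ Real.exp E → (∀ c ∈ Sg, ∑ ψ ∈ T, c ψ ^ 2 ≤ V) → 0 < ε →
      ∀ᶠ n in atTop, ∀ c : F[X] → F[X] × F[X] → ℝ, (∀ x, c x ∈ Sg) →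
        𝔼 x ∈ monF F n, |∑ ψ ∈ T, c x ψ * lam (ψ.1 * x + ψ.2)| ≤ 4 * w / δ + ε

end Pool.Agent.MP_4fffd4_nt.Odd
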