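import Mathlib
import Pool.Agent.MP_4fffd4_nt.Odd.Defs3
import Pool.Agent.MP_4fffd4_nt.Odd.Tkm
import Pool.Agent.MP_4fffd4_nt.Odd.PosB

/- First and second moments for divisibility in a residue system. -/

set_option autoImplicit false

namespace Pool.Agent.MP_4fffd4_nt.Odd

open Polynomial Finset Filter Topology
open scoped BigOperators

variable {F : Type*} [Field F] [Fintype F]

theorem prob_dvd {e : F[X]} (he : e.Monic) {A : ℕ} (hA : e.natDegree ≤ A) (h : F[X]) :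
    𝔼 β ∈ ltF F A, ind (e ∣ β + h) = 1 / (Fintype.card F : ℝ) ^ e.natDegree := by
  have hq := card_pos' (F := F)
  have hv : ((h - X ^ A) %ₘ e).degree < A :=
    (degree_modByMonic_lt _ he).trans_le (by
      rw [degree_eq_natDegree he.ne_zero]
      exact_mod_cast hA)
  have h1 : 𝔼 β ∈ ltF F A, ind (e ∣ β + h) = 𝔼 x ∈ monF F A, ind (e ∣ x) := by
    rw [expect_monF, ← expect_ltF A fun β => ind (e ∣ X ^ A + β), expect_ltF_eq, expect_ltF_eq,
      ← sum_ltF_add hv fun β => ind (e ∣ X ^ A + β)]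
    congr 1
    refine sum_congr rfl fun β _ => ind_congr ?_
    have h3 : β + h = X ^ A + (β + (h - X ^ A) %ₘ e) + e * ((h - X ^ A) /ₘ e) := by
      linear_combination -modByMonic_add_div (h - X ^ A) e
    rw [h3]
    exact dvd_add_left (dvd_mul_right _ _)
  obtain ⟨k, rfl⟩ : ∃ k, A = k + e.natDegree := ⟨A - e.natDegree, by omega⟩
  have h2 := xtkm_sum he k fun _ => 1
  simp only [mul_one, sum_const, card_monF, nsmul_eq_mul, Nat.cast_pow] at h2
  rw [h1, expect_monF_eq, h2, pow_add]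
  field_simp

theorem none_le (T : Finset F[X]) (hT : ∀ P ∈ T, P.Monic ∧ Irreducible P) {A : ℕ}
    (hA : (∏ P ∈ T, P).natDegree ≤ A) (h : F[X]) {L : ℝ} (hL : 0 < L)
    (hLT : L ≤ ∑ P ∈ T, 1 / (Fintype.card F : ℝ) ^ P.natDegree) :
    𝔼 β ∈ ltF F A, ind (∀ P ∈ T, ¬ P ∣ β + h) ≤ 1 / L := by
  classical
  have h0 : (∏ P ∈ T, P) ≠ 0 := (monic_prod_of_monic _ _ fun P hP => (hT P hP).1).ne_zero
  have hE : ∀ e : F[X], e.Monic → e ∣ ∏ P ∈ T, P →
      |(𝔼 β ∈ ltF F A, ind (e ∣ β + h)) - xtkmW e| = 0 := fun e he hd => by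
    rw [prob_dvd he ((natDegree_le_of_dvd hd h0).trans hA), xtkmW, sub_self, abs_zero]
  set M : ℝ := ∑ P ∈ T, 1 / (Fintype.card F : ℝ) ^ P.natDegree with hM
  have hM0 : 0 < M := hL.trans_le hLT
  have hv := xtkm_var (ltF F A) (fun β => β + h) T hT monic_one
    (fun R _ => isCoprime_one_right) _ (fun _ => rfl) (L := M) rfl
  rw [hE 1 monic_one (one_dvd _), sum_eq_zero (s := T) (f := fun R => |_ - xtkmW (R * 1)|)
    fun R hR => hE _ ((hT R hR).1.mul monic_one) (by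
      rw [mul_one]
      exact dvd_prod_of_mem _ hR), sum_eq_zero fun R hR => sum_eq_zero fun R' hR' => by
        split_ifs with hne
        · refine hE _ ((hT R' hR').1.mul ((hT R hR).1.mul monic_one)) ?_
          rw [mul_one]
          exact (xtkm_cop (hT R' hR').1 (hT R' hR').2 (hT R hR).1 (hT R hR).2 hne).mul_dvd
            (dvd_prod_of_mem _ hR') (dvd_prod_of_mem _ hR)
        · rfl] at hv
  have key : M ^ 2 * 𝔼 β ∈ ltF F A, ind (∀ P ∈ T, ¬ P ∣ β + h) ≤ M := by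
    refine le_trans ?_ (hv.trans_eq (by simp [xtkmW]))
    rw [mul_expect]
    refine expect_le_expect fun β _ => ?_
    by_cases hb : ∀ P ∈ T, ¬ P ∣ β + h
    · rw [ind_pos hb, ind_pos (one_dvd _), sum_eq_zero fun R hR => ind_neg (hb R hR)]
      exact le_of_eq (by ring)
    · rw [ind_neg hb, mul_zero]
      exact mul_nonneg (ind_nonneg _) (sq_nonneg _)
  refine le_trans ?_ (one_div_le_one_div_of_le hL hLT)
  rw [le_div_iff₀ hM0]
  refine le_of_mul_le_mul_left ?_ hM0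
  nlinarith

omit [Fintype F] in
theorem xmom_le {α : F[X]} (hα : α ≠ 0) (u : F[X]) : sg α u ≤ α.natDegree :=
  natDegree_le_of_dvd (gc_dvd_left α u) hα

omit [Fintype F] in
theorem xmom_mul {α γ : F[X]} (hα : α ≠ 0) (hγ : γ ≠ 0) (u : F[X]) :
    sg (α * γ) u ≤ sg α u + sg γ u := by
  obtain ⟨d₁, d₂, h1, h2, h3⟩ := exists_dvd_and_dvd_of_dvd_mul (gc_dvd_left (α * γ) u)
  have h4 : d₁ * d₂ ∣ u := h3 ▸ gc_dvd_right (α * γ) u
  rw [sg, h3]
  exact natDegree_mul_le.trans (add_le_add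
    (natDegree_le_of_dvd (dvd_gc h1 (dvd_of_mul_right_dvd h4)) (gc_monic hα u).ne_zero)
    (natDegree_le_of_dvd (dvd_gc h2 (dvd_of_mul_left_dvd h4)) (gc_monic hγ u).ne_zero))

omit [Fintype F] in
theorem xmom_irr {P : F[X]} (hP : Irreducible P) (u : F[X]) :
    (sg P u : ℝ) ≤ P.natDegree * ind (P ∣ u) := by
  by_cases h : P ∣ u
  · rw [ind_pos h, mul_one]
    exact_mod_cast xmom_le hP.ne_zero u
  · rw [ind_neg h, mul_zero, sg, natDegree_eq_zero_of_isUnit
      ((hP.coprime_iff_not_dvd.2 h).isUnit_of_dvd' (gc_dvd_left P u) (gc_dvd_right P u)),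
      Nat.cast_zero]

omit [Fintype F] in
theorem xmom_prod (T : Finset F[X]) (hT : ∀ P ∈ T, Irreducible P) (u : F[X]) :
    (sg (∏ P ∈ T, P) u : ℝ) ≤ ∑ P ∈ T, P.natDegree * ind (P ∣ u) := by
  classical
  induction T using Finset.induction_on with
  | empty =>
    have := xmom_le (one_ne_zero (α := F[X])) u
    rw [natDegree_one] at this
    rw [prod_empty, sum_empty]
    exact_mod_cast this
  | insert P T hP ih =>
    have h1 := ih fun R hR => hT R (mem_insert_of_mem hR)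
    have h2 := xmom_irr (hT P (mem_insert_self _ _)) u
    have h3 : (sg (P * ∏ R ∈ T, R) u : ℝ) ≤ sg P u + sg (∏ R ∈ T, R) u := by
      exact_mod_cast xmom_mul (hT P (mem_insert_self _ _)).ne_zero
        (prod_ne_zero_iff.2 fun R hR => (hT R (mem_insert_of_mem hR)).ne_zero) u
    rw [prod_insert hP, sum_insert hP]
    linarith

omit [Fintype F] in
theorem xmom_pow (j : ℕ) (u : F[X]) :
    (sg (X ^ j) u : ℝ) ≤ ∑ i ∈ Ico (0 + 1) (j + 1), ind (X ^ i ∣ u) := by
  obtain ⟨i, hi, h⟩ := (dvd_prime_pow prime_X j).1 (gc_dvd_left (X ^ j) u)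
  have h1 : X ^ i ∣ u := h.symm.dvd.trans (gc_dvd_right _ u)
  rw [sg, natDegree_eq_of_degree_eq (degree_eq_degree_of_associated h), natDegree_X_pow]
  refine le_trans (le_of_eq ?_) (sum_le_sum_of_subset_of_nonneg
    (Ico_subset_Ico_right (Nat.succ_le_succ hi)) fun _ _ _ => ind_nonneg _)
  rw [sum_congr rfl fun k hk => ind_pos
    ((pow_dvd_pow X (Nat.le_of_lt_succ (mem_Ico.1 hk).2)).trans h1)]
  simp

theorem xmom_sum (D₀ D₁ : ℕ) :
    ∑ P ∈ prmI F D₀ D₁, (P.natDegree : ℝ) * (1 / (Fintype.card F : ℝ) ^ P.natDegree) ≤ D₁ := by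
  have hq := card_pos' (F := F)
  rw [sum_prmI]
  refine (sum_le_card_nsmul _ _ 1 fun d hd => ?_).trans ?_
  · have h1 : (d : ℝ) * (prm F d).card ≤ (Fintype.card F : ℝ) ^ d := by
      exact_mod_cast card_prm_le (F := F) (d := d) (by have := (mem_Ioc.1 hd).1; omega)
    rw [sum_congr rfl fun P hP => by rw [(mem_prm.1 hP).2.2], sum_const, nsmul_eq_mul,
      mul_one_div, ← mul_div_assoc, div_le_one (by positivity), mul_comm]
    exact h1
  · rw [Nat.card_Ioc, nsmul_eq_mul, mul_one]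
    exact_mod_cast Nat.sub_le _ _

theorem mean_le {a : F[X]} (ha : a.Monic) {D₀ D₁ : ℕ} {T : Finset F[X]} (hT : T ⊆ prmI F D₀ D₁)
    (j : ℕ) {A : ℕ} (hA : (a * X ^ j * ∏ P ∈ T, P).natDegree = A) (h : F[X]) :
    𝔼 β ∈ ltF F A, (sg (a * X ^ j * ∏ P ∈ T, P) (β + h) : ℝ) ≤ a.natDegree + 1 + D₁ := by
  have hP : ∀ P ∈ T, P.Monic ∧ Irreducible P := fun P h =>
    ⟨(mem_prmI.1 (hT h)).1, (mem_prmI.1 (hT h)).2.1⟩
  have hm : (∏ P ∈ T, P).Monic := monic_prod_of_monic _ _ fun P h => (hP P h).1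
  have hX : (X ^ j : F[X]).Monic := monic_X_pow j
  rw [(ha.mul hX).natDegree_mul hm, ha.natDegree_mul hX, natDegree_X_pow] at hA
  have hpt : ∀ u : F[X], (sg (a * X ^ j * ∏ P ∈ T, P) u : ℝ) ≤ a.natDegree +
      ∑ i ∈ Ico (0 + 1) (j + 1), ind (X ^ i ∣ u) + ∑ P ∈ T, P.natDegree * ind (P ∣ u) := by
    intro u
    have h1 := xmom_mul (ha.mul hX).ne_zero hm.ne_zero u
    have h2 := xmom_mul ha.ne_zero hX.ne_zero u
    have h3 := xmom_le ha.ne_zero u
    have h4 : (sg (a * X ^ j * ∏ P ∈ T, P) u : ℝ) ≤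
        a.natDegree + sg (X ^ j) u + sg (∏ P ∈ T, P) u := by
      exact_mod_cast h1.trans (by omega)
    have h5 := xmom_pow j u
    have h6 := xmom_prod T (fun P h => (hP P h).2) u
    linarith
  refine (expect_le_expect fun β _ => hpt (β + h)).trans ?_
  rw [expect_add_distrib, expect_add_distrib, expect_const (ltF_nonempty A), expect_sum_comm,
    expect_sum_comm]
  refine add_le_add (add_le_add le_rfl ?_) ?_
  · refine (le_of_eq (sum_congr rfl fun i hi => ?_)).trans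
      ((geom_tail (F := F) 0 (j + 1)).trans_eq (by simp))
    have := (mem_Ico.1 hi).2
    rw [prob_dvd (monic_X_pow i) (by rw [natDegree_X_pow]; omega), natDegree_X_pow]
  · refine (le_of_eq (sum_congr rfl fun P hPT => ?_)).trans ((sum_le_sum_of_subset_of_nonneg hT
      fun _ _ _ => by positivity).trans (xmom_sum D₀ D₁))
    have := natDegree_le_of_dvd (dvd_prod_of_mem (fun P => P) hPT) hm.ne_zero
    rw [← mul_expect, prob_dvd (hP P hPT).1 (by omega)]

end Pool.Agent.MP_4fffd4_nt.Odd
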