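import Mathlib
import Pool.Agent.MP_4fffd4_nt.Odd.Mom

/- Two gcds rarely have almost the same degree. -/

set_option autoImplicit false

namespace Pool.Agent.MP_4fffd4_nt.Odd

open Polynomial Finset Filter Topology
open scoped BigOperators

variable {F : Type*} [Field F] [Fintype F]

omit [Fintype F] in
theorem xtie_pos {P a u : F[X]} (hP : P.Monic) (hPi : Irreducible P) (ha : a ≠ 0)
    (hc : ¬ P ∣ a) (hu : P ∣ u) : sg (P * a) u = sg a u + P.natDegree := by
  have h1 : gc (P * a) u = P * gc a u := by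
    refine gc_eq (mul_ne_zero hP.ne_zero ha) (hP.mul (gc_monic ha u))
      (mul_dvd_mul_left P (gc_dvd_left a u)) (IsCoprime.mul_dvd ?_ hu (gc_dvd_right a u))
      fun e h1 h2 => ?_
    · exact hPi.coprime_iff_not_dvd.2 fun h => hc (h.trans (gc_dvd_left a u))
    · obtain ⟨e1, e2, h3, h4, rfl⟩ := exists_dvd_and_dvd_of_dvd_mul h1
      exact mul_dvd_mul h3 (dvd_gc h4 ((dvd_mul_left e2 e1).trans h2))
  rw [sg, h1, hP.natDegree_mul (gc_monic ha u), add_comm, sg]

omit [Fintype F] in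
theorem xtie_neg {P a u : F[X]} (hP : P.Monic) (hPi : Irreducible P) (ha : a ≠ 0)
    (hu : ¬ P ∣ u) : sg (P * a) u = sg a u := by
  have h1 : gc (P * a) u = gc a u := by
    refine gc_eq (mul_ne_zero hP.ne_zero ha) (gc_monic ha u)
      ((gc_dvd_left a u).mul_left P) (gc_dvd_right a u) fun e h1 h2 => ?_
    obtain ⟨e1, e2, h3, h4, rfl⟩ := exists_dvd_and_dvd_of_dvd_mul h1
    have h5 : IsUnit e1 := (hPi.coprime_iff_not_dvd.2 hu).isUnit_of_dvd' h3
      ((dvd_mul_right e1 e2).trans h2)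
    exact (h5.mul_left_dvd).2 (dvd_gc h4 ((dvd_mul_left e2 e1).trans h2))
  rw [sg, h1, sg]

omit [Fintype F] in
theorem xtie_mod {a : F[X]} (ha : a ≠ 0) (β c h : F[X]) :
    sg a (β + a * c + h) = sg a (β + h) := by
  have e : β + a * c + h = β + h + a * c := by ring
  have h1 : gc a (β + a * c + h) = gc a (β + h) := by
    rw [e]
    exact gc_eq ha (gc_monic ha _) (gc_dvd_left _ _)
      ((gc_dvd_right _ _).add ((gc_dvd_left _ _).mul_right c))
      fun e h1 h2 => dvd_gc h1 ((dvd_add_left (h1.mul_right c)).1 h2)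
  rw [sg, h1, sg]

theorem xtie_shift {a : F[X]} {t A : ℕ} (hA : a.natDegree + t ≤ A) (f : F[X] → ℝ) :
    𝔼 β ∈ ltF F A, f β = 𝔼 β ∈ ltF F A, 𝔼 c ∈ ltF F t, f (β + a * c) := by
  rw [expect_comm, ← expect_const (ltF_nonempty (F := F) t) (𝔼 β ∈ ltF F A, f β)]
  refine expect_congr rfl fun c hc => ?_
  rw [expect_ltF_eq, expect_ltF_eq, sum_ltF_add]
  by_cases h0 : c = 0
  · rw [h0, mul_zero, degree_zero]
    exact WithBot.bot_lt_coe _
  have h1 := (natDegree_lt_iff_degree_lt h0).2 (mem_ltF.1 hc)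
  have h2 : (a * c).natDegree ≤ _ := natDegree_mul_le
  exact degree_le_natDegree.trans_lt (by exact_mod_cast (by omega))

theorem xtie_prob {P a : F[X]} (hP : P.Monic) (hPi : Irreducible P) (hc : ¬ P ∣ a) (β h : F[X]) :
    𝔼 c ∈ ltF F P.natDegree, ind (P ∣ β + a * c + h) =
      1 / (Fintype.card F : ℝ) ^ P.natDegree := by
  obtain ⟨r, s, hrs⟩ := hPi.coprime_iff_not_dvd.2 hc
  rw [← prob_dvd hP le_rfl (s * (β + h))]
  refine expect_congr rfl fun c _ => ind_congr ⟨fun h1 => ?_, fun h1 => ?_⟩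
  · have e : c + s * (β + h) = s * (β + a * c + h) + P * (r * c) := by
      linear_combination (-c) * hrs
    rw [e]
    exact (h1.mul_left s).add (dvd_mul_right _ _)
  · have e : β + a * c + h = a * (c + s * (β + h)) + P * (r * (β + h)) := by
      linear_combination (-(β + h)) * hrs
    rw [e]
    exact (h1.mul_left a).add (dvd_mul_right _ _)

theorem xtie_one {P a h h' : F[X]} (hP : P.Monic) (hPi : Irreducible P) (ha : a.Monic)
    (hc : ¬ P ∣ a) (hh : ¬ P ∣ h - h') (ht : 2 ≤ P.natDegree) (Δ : ℕ) :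
    𝔼 β ∈ ltF F (P * a).natDegree, ind (P ∣ β + h ∧
        sg (P * a) (β + h) < sg (P * a) (β + h') + Δ ∧
        sg (P * a) (β + h') < sg (P * a) (β + h) + Δ) ≤
      2 / (Fintype.card F : ℝ) ^ P.natDegree * 𝔼 β ∈ ltF F (P * a).natDegree,
        ind (sg (P * a) (β + h) + P.natDegree < sg (P * a) (β + h') + Δ ∧
          sg (P * a) (β + h') < sg (P * a) (β + h) + P.natDegree + Δ) := by
  have hq := card_pos' (F := F)
  have ha0 := ha.ne_zero
  have hA : a.natDegree + P.natDegree ≤ (P * a).natDegree := by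
    rw [hP.natDegree_mul ha, add_comm]
  set Y : F[X] → ℝ := fun β => ind (sg a (β + h) + P.natDegree < sg a (β + h') + Δ ∧
    sg a (β + h') < sg a (β + h) + P.natDegree + Δ) with hY
  have hY0 : 0 ≤ 𝔼 β ∈ ltF F (P * a).natDegree, Y β := expect_nonneg fun β _ => ind_nonneg _
  set x : ℝ := 1 / (Fintype.card F : ℝ) ^ P.natDegree with hx
  have hx0 : 0 ≤ x := by positivity
  have hx4 : x ≤ 1 / 4 := by
    refine one_div_le_one_div_of_le (by norm_num) ?_
    calc (4 : ℝ) = 2 ^ 2 := by norm_num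
      _ ≤ 2 ^ P.natDegree := pow_le_pow_right₀ one_le_two ht
      _ ≤ _ := pow_le_pow_left₀ two_pos.le two_le_card _
  have h1 : 𝔼 β ∈ ltF F (P * a).natDegree, ind (P ∣ β + h ∧
      sg (P * a) (β + h) < sg (P * a) (β + h') + Δ ∧
      sg (P * a) (β + h') < sg (P * a) (β + h) + Δ) ≤
      x * 𝔼 β ∈ ltF F (P * a).natDegree, Y β := by
    rw [xtie_shift hA, mul_expect]
    refine expect_le_expect fun β _ => ?_
    rw [hx, ← xtie_prob hP hPi hc β h, expect_mul]
    refine expect_le_expect fun c _ => ?_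
    rw [← ind_and]
    refine ind_mono fun ⟨k1, k2⟩ => ⟨k1, ?_⟩
    have k3 : ¬ P ∣ β + a * c + h' := fun k => hh (by simpa using k1.sub k)
    rwa [xtie_pos hP hPi ha0 k1 (hc := hc), xtie_neg hP hPi ha0 k3, xtie_mod ha0,
      xtie_mod ha0] at k2
  have h2 : (1 - 2 * x) * 𝔼 β ∈ ltF F (P * a).natDegree, Y β ≤
      𝔼 β ∈ ltF F (P * a).natDegree,
        ind (sg (P * a) (β + h) + P.natDegree < sg (P * a) (β + h') + Δ ∧
          sg (P * a) (β + h') < sg (P * a) (β + h) + P.natDegree + Δ) := by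
    rw [xtie_shift hA (fun β => ind (sg (P * a) (β + h) + P.natDegree < _ ∧ _)), mul_expect]
    refine expect_le_expect fun β _ => ?_
    have e : (1 - 2 * x) * Y β = 𝔼 c ∈ ltF F P.natDegree,
        (1 - ind (P ∣ β + a * c + h) - ind (P ∣ β + a * c + h')) * Y β := by
      rw [← expect_mul, expect_sub_distrib, expect_sub_distrib, xtie_prob hP hPi hc,
        xtie_prob hP hPi hc, expect_const (ltF_nonempty _), hx]
      ring
    rw [e]
    refine expect_le_expect fun c _ => ?_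
    have y0 : 0 ≤ Y β := ind_nonneg _
    by_cases k1 : P ∣ β + a * c + h
    · refine le_trans (mul_nonpos_of_nonpos_of_nonneg ?_ y0) (ind_nonneg _)
      rw [ind_pos k1]
      linarith [ind_nonneg (P ∣ β + a * c + h')]
    by_cases k2 : P ∣ β + a * c + h'
    · refine le_trans (mul_nonpos_of_nonpos_of_nonneg ?_ y0) (ind_nonneg _)
      rw [ind_pos k2]
      linarith [ind_nonneg (P ∣ β + a * c + h)]
    rw [ind_neg k1, ind_neg k2, xtie_neg hP hPi ha0 k1, xtie_neg hP hPi ha0 k2, xtie_mod ha0,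
      xtie_mod ha0, sub_zero, sub_zero, one_mul]
  refine h1.trans (le_trans ?_ (mul_le_mul_of_nonneg_left h2 (by positivity)))
  rw [← mul_one_div 2, ← hx, ← mul_assoc]
  refine mul_le_mul_of_nonneg_right ?_ hY0
  nlinarith

theorem xtie_count (s : Finset ℕ) (x y Δ : ℕ) :
    ∑ t ∈ s, ind (x + t < y + Δ ∧ y < x + t + Δ) ≤ 2 * Δ := by
  classical
  have h1 : ∑ t ∈ s, ind (x + t < y + Δ ∧ y < x + t + Δ) =
      ((s.filter fun t => x + t < y + Δ ∧ y < x + t + Δ).card : ℝ) := by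
    rw [card_filter]
    push_cast
    exact sum_congr rfl fun t _ => by unfold ind; congr
  have h2 : (s.filter fun t => x + t < y + Δ ∧ y < x + t + Δ) ⊆
      Ico (y - (x + Δ)) (y - (x + Δ) + 2 * Δ) := fun t ht => by
    have := (mem_filter.1 ht).2
    exact mem_Ico.2 (by omega)
  have h3 := card_le_card h2
  rw [Nat.card_Ico, Nat.add_sub_cancel_left] at h3
  rw [h1]
  exact_mod_cast h3

theorem tie_le {α : F[X]} (hα : α.Monic) {D₀ : ℕ} (hD : 2 ≤ D₀) (T : Finset F[X]) (h h' : F[X])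
    (hT : ∀ P ∈ T, P.Monic ∧ Irreducible P ∧ D₀ < P.natDegree ∧ P ∣ α ∧ ¬ P ^ 2 ∣ α ∧
      ¬ P ∣ h - h') (Δ : ℕ) :
    𝔼 β ∈ ltF F α.natDegree, ind ((∃ P ∈ T, P ∣ β + h) ∧ sg α (β + h) < sg α (β + h') + Δ ∧
      sg α (β + h') < sg α (β + h) + Δ) ≤ 4 * Δ / D₀ := by
  have hq := card_pos' (F := F)
  have hD0 : (0 : ℝ) < D₀ := by exact_mod_cast (by omega : 0 < D₀)
  set Z : ℕ → ℝ := fun t => 𝔼 β ∈ ltF F α.natDegree,
    ind (sg α (β + h) + t < sg α (β + h') + Δ ∧ sg α (β + h') < sg α (β + h) + t + Δ) with hZ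
  have hZ0 : ∀ t, 0 ≤ Z t := fun t => expect_nonneg fun β _ => ind_nonneg _
  have h1 : ∀ P ∈ T, 𝔼 β ∈ ltF F α.natDegree, ind (P ∣ β + h ∧
      sg α (β + h) < sg α (β + h') + Δ ∧ sg α (β + h') < sg α (β + h) + Δ) ≤
      2 / (Fintype.card F : ℝ) ^ P.natDegree * Z P.natDegree := by
    intro P hP
    obtain ⟨a1, a2, a3, ⟨a, rfl⟩, a5, a6⟩ := hT P hP
    exact xtie_one a1 a2 (a1.of_mul_monic_left hα)
      (fun k => a5 (by rw [sq]; exact mul_dvd_mul_left P k)) a6 (by omega) Δ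
  have h2 : T ⊆ prmI F D₀ α.natDegree := fun P hP => by
    obtain ⟨a1, a2, a3, a4, -⟩ := hT P hP
    exact mem_prmI.2 ⟨a1, a2, a3, natDegree_le_of_dvd a4 hα.ne_zero⟩
  calc _ ≤ 𝔼 β ∈ ltF F α.natDegree, ∑ P ∈ T, ind (P ∣ β + h ∧
        sg α (β + h) < sg α (β + h') + Δ ∧ sg α (β + h') < sg α (β + h) + Δ) :=
        expect_le_expect fun β _ => ind_le_sum fun ⟨⟨P, k1, k2⟩, k3⟩ => ⟨P, k1, k2, k3⟩
    _ ≤ ∑ P ∈ T, 2 / (Fintype.card F : ℝ) ^ P.natDegree * Z P.natDegree := by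
        rw [expect_sum_comm]
        exact sum_le_sum h1
    _ ≤ ∑ P ∈ prmI F D₀ α.natDegree, 2 / (Fintype.card F : ℝ) ^ P.natDegree * Z P.natDegree :=
        sum_le_sum_of_subset_of_nonneg h2 fun P _ _ => mul_nonneg (by positivity) (hZ0 _)
    _ ≤ ∑ t ∈ Ioc D₀ α.natDegree, 2 / D₀ * Z t := by
        rw [sum_prmI]
        refine sum_le_sum fun t ht => ?_
        have k1 := (mem_Ioc.1 ht).1
        rw [sum_congr rfl fun P hP => by rw [(mem_prm.1 hP).2.2], sum_const, nsmul_eq_mul,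
          ← mul_assoc]
        refine mul_le_mul_of_nonneg_right ?_ (hZ0 t)
        have k2 : (t : ℝ) * (prm F t).card ≤ (Fintype.card F : ℝ) ^ t := by
          exact_mod_cast card_prm_le (F := F) (d := t) (by omega)
        have k3 : (D₀ : ℝ) ≤ t := by exact_mod_cast k1.le
        have k4 : (0 : ℝ) ≤ (prm F t).card := Nat.cast_nonneg _
        rw [← mul_div_assoc, div_le_div_iff₀ (by positivity) hD0]
        nlinarith
    _ ≤ 4 * Δ / D₀ := by
        rw [← mul_sum, hZ, ← expect_sum_comm]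
        refine (mul_le_mul_of_nonneg_left (expect_le (ltF_nonempty _) fun β _ =>
          xtie_count _ _ _ Δ) (by positivity)).trans_eq ?_
        ring

end Pool.Agent.MP_4fffd4_nt.Odd
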