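import Mathlib
import Pool.Agent.MP_4fffd4_nt.Odd.Tie

/- The exceptional residues. -/

set_option autoImplicit false

namespace Pool.Agent.MP_4fffd4_nt.Odd

open Polynomial Finset Filter Topology
open scoped BigOperators

variable {F : Type*} [Field F] [Fintype F]

theorem xbad_pt {I : Type*} [Fintype I] (i₁ : I) (g : I → ℕ) (N : I → Prop) {Δ S : ℕ}
    (hΔ : 0 < Δ) (hS : 0 < S) :
    |1 - ∑ i₀, ∑ s ∈ range S, ind (g i₀ = s ∧ ∀ j, j ≠ i₀ → s + Δ ≤ g j)| ≤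
      ∑ i, ∑ j, (ind (¬ N i) + ind (i ≠ j ∧ N i ∧ g i < g j + Δ ∧ g j < g i + Δ)) + g i₁ / S := by
  have hnn : ∀ i j, 0 ≤ ind (¬ N i) + ind (i ≠ j ∧ N i ∧ g i < g j + Δ ∧ g j < g i + Δ) :=
    fun i j => add_nonneg (ind_nonneg _) (ind_nonneg _)
  have h1 : 0 ≤ ∑ i, ∑ j, (ind (¬ N i) + ind (i ≠ j ∧ N i ∧ g i < g j + Δ ∧ g j < g i + Δ)) :=
    sum_nonneg fun i _ => sum_nonneg fun j _ => hnn i j
  have h2 : (0 : ℝ) ≤ g i₁ / S := by positivity
  by_cases hex : ∃ i₀, ∃ s < S, g i₀ = s ∧ ∀ j, j ≠ i₀ → s + Δ ≤ g j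
  · obtain ⟨i₀, s, hs, e1, e2⟩ := hex
    have h3 : ∑ i, ∑ s ∈ range S, ind (g i = s ∧ ∀ j, j ≠ i → s + Δ ≤ g j) = 1 := by
      rw [sum_eq_single i₀, sum_eq_single s, ind_pos ⟨e1, e2⟩]
      · exact fun s' _ hne => ind_neg fun h => hne (h.1.symm.trans e1)
      · exact fun h => absurd (mem_range.2 hs) h
      · refine fun i _ hne => sum_eq_zero fun s' _ => ind_neg fun h => ?_
        have h4 := e2 i hne
        have h5 := h.2 i₀ hne.symm
        have h6 := h.1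
        omega
      · exact fun h => absurd (mem_univ _) h
    rw [h3, sub_self, abs_zero]
    linarith
  · have h3 : ∑ i, ∑ s ∈ range S, ind (g i = s ∧ ∀ j, j ≠ i → s + Δ ≤ g j) = 0 :=
      sum_eq_zero fun i _ => sum_eq_zero fun s hs => ind_neg fun h =>
        hex ⟨i, s, mem_range.1 hs, h⟩
    rw [h3, sub_zero, abs_one]
    obtain ⟨i₀, -, hmin⟩ := exists_min_image univ g ⟨i₁, mem_univ _⟩
    by_cases hs : g i₀ < S
    · obtain ⟨j, hj, hj'⟩ : ∃ j, j ≠ i₀ ∧ g j < g i₀ + Δ := by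
        by_contra hc
        push Not at hc
        exact hex ⟨i₀, g i₀, hs, rfl, hc⟩
      have h4 : 1 ≤ ind (¬ N i₀) + ind (i₀ ≠ j ∧ N i₀ ∧ g i₀ < g j + Δ ∧ g j < g i₀ + Δ) := by
        rw [← ind_pos trivial]
        refine ind_le_add fun _ => ?_
        have := hmin j (mem_univ _)
        by_cases hN : N i₀
        · exact Or.inr ⟨hj.symm, hN, by omega, hj'⟩
        · exact Or.inl hN
      have h5 := single_le_sum (fun j _ => hnn i₀ j) (mem_univ j)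
      have h6 := single_le_sum (fun i _ => sum_nonneg fun j (_ : j ∈ univ) => hnn i j) (mem_univ i₀)
      linarith
    · have h4 : (1 : ℝ) ≤ g i₁ / S := by
        rw [one_le_div (by exact_mod_cast hS)]
        have := hmin i₁ (mem_univ _)
        exact_mod_cast (by omega : S ≤ g i₁)
      linarith

omit [Fintype F] in
theorem xbad_ndvd {P u : F[X]} (hu : u ≠ 0) (h : u.natDegree < P.natDegree) : ¬ P ∣ u :=
  fun hd => absurd (natDegree_le_of_dvd hd hu) (by omega)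

theorem xbad_sq {a : F[X]} (ha : a.Monic) {D₀ D₁ : ℕ} (hD : 2 ≤ D₀) (haD : a.natDegree ≤ D₀)
    {T : Finset F[X]} (hT : T ⊆ prmI F D₀ D₁) (j : ℕ) {P : F[X]} (hP : P ∈ T) :
    ¬ P ^ 2 ∣ a * X ^ j * ∏ Q ∈ T, Q := by
  classical
  obtain ⟨h1, h2, h3, -⟩ := mem_prmI.1 (hT hP)
  intro hd
  rw [← mul_prod_erase T _ hP, mul_left_comm, pow_two, mul_dvd_mul_iff_left h1.ne_zero] at hd
  have hp := h2.prime
  rcases hp.dvd_or_dvd hd with hd | hd
  · rcases hp.dvd_or_dvd hd with hd | hd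
    · exact xbad_ndvd ha.ne_zero (by omega) hd
    · exact xbad_ndvd X_ne_zero (by rw [natDegree_X]; omega) (hp.dvd_of_dvd_pow hd)
  · obtain ⟨Q, hQ, hPQ⟩ := (Prime.dvd_finsetProd_iff hp _).1 hd
    obtain ⟨h4, h5, -⟩ := mem_prmI.1 (hT (mem_of_mem_erase hQ))
    exact (mem_erase.1 hQ).1
      (eq_of_monic_of_associated h1 h4 (h2.associated_of_dvd h5 hPQ)).symm

theorem bad_all {I : Type*} [Fintype I] (i₁ : I) {h : I → F[X]} (hh : Function.Injective h)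
    {a : F[X]} (ha : a.Monic) {D₀ D₁ A : ℕ} {Λ : ℝ} {𝒜 : Finset F[X]} (hF : Fam a D₀ D₁ A Λ 𝒜)
    (hD : 2 ≤ D₀) (haD : a.natDegree ≤ D₀) (hhD : ∀ i, (h i).natDegree ≤ D₀)
    (hL : 0 < LL F D₀ D₁) {Δ S : ℕ} (hΔ : 0 < Δ) (hS : 0 < S) {α : F[X]} (hα : α ∈ 𝒜) :
    𝔼 β ∈ ltF F A, |1 - ∑ i₀, ∑ s ∈ range S, ind (Low h Δ i₀ s α β)| ≤
      (Fintype.card I : ℝ) ^ 2 * (2 / LL F D₀ D₁ + 4 * Δ / D₀) +
        (a.natDegree + 1 + D₁) / S := by
  obtain ⟨hm, hA⟩ := mem_monF.1 (hF.mon α hα)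
  obtain ⟨T, hT, j, hαe, hLT⟩ := hF.shape α hα
  have hTm : ∀ P ∈ T, P.Monic ∧ Irreducible P := fun P hP =>
    ⟨(mem_prmI.1 (hT hP)).1, (mem_prmI.1 (hT hP)).2.1⟩
  have hTd : (∏ P ∈ T, P).natDegree ≤ A := by
    rw [← hA]
    exact natDegree_le_of_dvd (hαe ▸ dvd_mul_left _ _) hm.ne_zero
  have h1 : ∀ i, 𝔼 β ∈ ltF F A, ind (¬ ∃ P ∈ T, P ∣ β + h i) ≤ 2 / LL F D₀ D₁ := by
    intro i
    have h2 := none_le T hTm hTd (h i) (L := LL F D₀ D₁ / 2) (by linarith) (by linarith)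
    rw [one_div_div] at h2
    refine le_trans (le_of_eq (expect_congr rfl fun β _ => ind_congr ?_)) h2
    push Not
    rfl
  have h2 : ∀ i i', 𝔼 β ∈ ltF F A, ind (i ≠ i' ∧ (∃ P ∈ T, P ∣ β + h i) ∧
      sg α (β + h i) < sg α (β + h i') + Δ ∧ sg α (β + h i') < sg α (β + h i) + Δ) ≤
      4 * Δ / D₀ := by
    intro i i'
    by_cases hi : i = i'
    · refine expect_le (ltF_nonempty A) fun β _ => ?_
      rw [ind_neg fun hc => hc.1 hi]
      positivity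
    · have h3 := tie_le hm hD T (h i) (h i') (fun P hP => ?_) Δ
      · rw [hA] at h3
        exact le_trans (expect_le_expect fun β _ => ind_mono fun hc => hc.2) h3
      · obtain ⟨h4, h5, h6, -⟩ := mem_prmI.1 (hT hP)
        refine ⟨h4, h5, h6, hαe ▸ (dvd_prod_of_mem _ hP).mul_left _,
          hαe ▸ xbad_sq ha hD haD hT j hP, xbad_ndvd (sub_ne_zero.2 fun e => hi (hh e)) ?_⟩
        have h7 := natDegree_sub_le (h i) (h i')
        have := hhD i
        have := hhD i'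
        omega
  have h3 : 𝔼 β ∈ ltF F A, (sg α (β + h i₁) : ℝ) ≤ a.natDegree + 1 + D₁ := by
    have h4 := mean_le ha hT j (hαe ▸ hA) (h i₁)
    rwa [← hαe] at h4
  refine le_trans (expect_le_expect fun β _ => xbad_pt i₁ (fun i => sg α (β + h i))
    (fun i => ∃ P ∈ T, P ∣ β + h i) hΔ hS) ?_
  rw [expect_add_distrib, expect_sum_comm, ← expect_div]
  refine add_le_add ?_ (div_le_div_of_nonneg_right h3 (Nat.cast_nonneg _))
  calc _ ≤ ∑ _i : I, ∑ _j : I, (2 / LL F D₀ D₁ + 4 * Δ / D₀) := by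
        refine sum_le_sum fun i _ => ?_
        rw [expect_sum_comm]
        refine sum_le_sum fun i' _ => ?_
        rw [expect_add_distrib]
        exact add_le_add (h1 i) (h2 i i')
    _ = _ := by
        simp only [sum_const, card_univ, nsmul_eq_mul]
        ring

end Pool.Agent.MP_4fffd4_nt.Odd
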