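import Mathlib
import Pool.Agent.MP_4fffd4_nt.Odd.Defs3

/- Counting primitive forms. -/

set_option autoImplicit false

namespace Pool.Agent.MP_4fffd4_nt.Odd

open Polynomial Finset Filter Topology
open scoped BigOperators

variable {F : Type*} [Field F] [Fintype F]

omit [Fintype F] in
theorem xroots_monic {α : F[X]} (hα : α.Monic) (u : F[X]) : (rt α u).1.Monic :=
  (gc_monic hα.ne_zero u).of_mul_monic_left (by rwa [rt_fst hα.ne_zero])

omit [Fintype F] in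
theorem xroots_rel {α : F[X]} (hα : α ≠ 0) (u : F[X]) : IsRelPrime (rt α u).1 (rt α u).2 := by
  intro e h1 h2
  have h3 : gc α u * e ∣ gc α u * 1 := by
    rw [mul_one]
    refine dvd_gc ?_ ?_
    · conv_rhs => rw [← rt_fst hα u]
      exact mul_dvd_mul_left _ h1
    · conv_rhs => rw [← rt_snd hα u]
      exact mul_dvd_mul_left _ h2
  exact isUnit_of_dvd_one ((mul_dvd_mul_iff_left (gc_monic hα u).ne_zero).1 h3)

theorem xroots_sum_ind {ι : Type*} (s : Finset ι) (P : ι → Prop) [DecidablePred P] :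
    ∑ i ∈ s, ind (P i) = ((s.filter P).card : ℝ) := by
  rw [← Finset.sum_boole]
  refine Finset.sum_congr rfl fun i _ => ?_
  split_ifs with h
  · exact ind_pos h
  · exact ind_neg h

omit [Fintype F] in
theorem sg_le {α : F[X]} (hα : α ≠ 0) (u : F[X]) : sg α u ≤ α.natDegree :=
  natDegree_le_of_dvd (gc_dvd_left α u) hα

theorem rt_mon {α : F[X]} (hα : α.Monic) (u : F[X]) :
    (rt α u).1 ∈ monF F (α.natDegree - sg α u) := by
  refine mem_monF.2 ⟨xroots_monic hα u, ?_⟩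
  have h := (gc_monic hα.ne_zero u).natDegree_mul (xroots_monic hα u)
  rw [rt_fst hα.ne_zero] at h
  rw [sg]
  omega

omit [Fintype F] in
theorem rt_deg {α u : F[X]} (hα : α.Monic) (hu : u.degree < α.natDegree) :
    (rt α u).2.degree < (α.natDegree - sg α u : ℕ) := by
  by_cases hb : (rt α u).2 = 0
  · rw [hb, degree_zero]
    exact WithBot.bot_lt_coe _
  have hg := (gc_monic hα.ne_zero u).ne_zero
  have h := natDegree_mul hg hb
  have hu0 : u ≠ 0 := by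
    rw [← rt_snd hα.ne_zero u]
    exact mul_ne_zero hg hb
  rw [rt_snd hα.ne_zero] at h
  rw [← natDegree_lt_iff_degree_lt hu0] at hu
  rw [← natDegree_lt_iff_degree_lt hb, sg]
  omega

omit [Fintype F] in
theorem rt_cross {α α' u u' : F[X]} (hα : α.Monic) (hα' : α'.Monic) (hne : rt α u ≠ rt α' u') :
    (rt α u).1 * (rt α' u').2 ≠ (rt α' u').1 * (rt α u).2 := by
  intro e
  have h1 : (rt α u).1 ∣ (rt α' u').1 :=
    (xroots_rel hα.ne_zero u).dvd_of_dvd_mul_right ⟨_, e.symm⟩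
  have h2 : (rt α' u').1 ∣ (rt α u).1 :=
    (xroots_rel hα'.ne_zero u').dvd_of_dvd_mul_right ⟨_, e⟩
  have h3 := eq_of_monic_of_associated (xroots_monic hα u) (xroots_monic hα' u')
    (associated_of_dvd_dvd h1 h2)
  rw [← h3] at e
  exact hne (Prod.ext h3 (mul_left_cancel₀ (xroots_monic hα u).ne_zero e).symm)

omit [Fintype F] in
theorem lam_rt {α u x : F[X]} (hα : α.Monic) (hu : u.degree < α.natDegree) (hx : x.Monic) :
    lam (α * x + u) = lam (gc α u) * lam ((rt α u).1 * x + (rt α u).2) := by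
  have e : α * x + u = gc α u * ((rt α u).1 * x + (rt α u).2) := by
    rw [mul_add, ← mul_assoc, rt_fst hα.ne_zero, rt_snd hα.ne_zero]
  have h0 : α * x + u ≠ 0 := by
    refine ((hα.mul hx).add_of_left (hu.trans_le ?_)).ne_zero
    rw [← degree_eq_natDegree hα.ne_zero]
    exact degree_le_of_dvd (dvd_mul_right α x) (hα.mul hx).ne_zero
  rw [e] at h0 ⊢
  exact lam_mul (left_ne_zero_of_mul h0) (right_ne_zero_of_mul h0)

theorem xroots_geom (r A : ℕ) : ∑ s ∈ Icc r A, (Fintype.card F : ℝ) ^ (A - s) ≤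
    2 * (Fintype.card F : ℝ) ^ A / (Fintype.card F : ℝ) ^ r := by
  have h2 := two_le_card (F := F)
  have h0 := card_pos' (F := F)
  generalize (Fintype.card F : ℝ) = q at h2 h0 ⊢
  have hq : q⁻¹ ≤ 1 / 2 := by
    rw [one_div]
    exact inv_anti₀ two_pos h2
  have e : ∑ s ∈ Icc r A, q ^ (A - s) = q ^ A * ∑ s ∈ Ico r (A + 1), q⁻¹ ^ s := by
    rw [Finset.mul_sum, Finset.Ico_add_one_right_eq_Icc]
    refine Finset.sum_congr rfl fun s hs => ?_
    rw [pow_sub₀ _ h0.ne' (mem_Icc.1 hs).2, inv_pow]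
  have h3 := geom_sum_Ico_le_of_lt_one (m := r) (n := A + 1) (inv_pos.2 h0).le
    (hq.trans_lt (by norm_num))
  have h4 : q⁻¹ ^ r / (1 - q⁻¹) ≤ 2 * q⁻¹ ^ r := by
    have := pow_pos (inv_pos.2 h0) r
    rw [div_le_iff₀ (by linarith)]
    nlinarith
  rw [e]
  refine (mul_le_mul_of_nonneg_left (h3.trans h4) (pow_pos h0 A).le).trans_eq ?_
  rw [inv_pow, div_eq_mul_inv]
  ring

theorem card_rts {𝒜 : Finset F[X]} {A : ℕ} {Λ : ℝ} (hmon : ∀ α ∈ 𝒜, α ∈ monF F A)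
    (hdiv : ∀ r, ∑ α' ∈ monF F r, ind (∃ α ∈ 𝒜, α' ∣ α) ≤ Λ * 𝒜.card) (r : ℕ) :
    ((rts 𝒜 A r).card : ℝ) ≤
      2 * Λ * (𝒜.card * (Fintype.card F : ℝ) ^ A) / (Fintype.card F : ℝ) ^ r := by
  classical
  have hsub : rts 𝒜 A r ⊆ (Icc r A).biUnion fun s =>
      ((monF F (A - s)).filter fun α' => ∃ α ∈ 𝒜, α' ∣ α) ×ˢ ltF F (A - s) := by
    intro ψ hψ
    rw [rts, mem_image] at hψ
    obtain ⟨⟨α, u⟩, hz, rfl⟩ := hψ
    rw [mem_filter, mem_product] at hz
    obtain ⟨⟨hα, hu⟩, hr⟩ := hz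
    obtain ⟨hm, hd⟩ := mem_monF.1 (hmon α hα)
    refine mem_biUnion.2 ⟨sg α u, mem_Icc.2 ⟨hr, hd ▸ sg_le hm.ne_zero u⟩,
      mem_product.2 ⟨mem_filter.2 ⟨hd ▸ rt_mon hm u, α, hα, ?_⟩, mem_ltF.2 ?_⟩⟩
    · exact Dvd.intro_left _ (rt_fst hm.ne_zero u)
    · exact hd ▸ rt_deg hm (hd.symm ▸ mem_ltF.1 hu)
  have h0 : 0 ≤ Λ * 𝒜.card := (Finset.sum_nonneg fun _ _ => ind_nonneg _).trans (hdiv 0)
  have h1 := (card_le_card hsub).trans card_biUnion_le
  have h2 : ((rts 𝒜 A r).card : ℝ) ≤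
      ∑ s ∈ Icc r A, Λ * 𝒜.card * (Fintype.card F : ℝ) ^ (A - s) := by
    refine (Nat.cast_le.2 h1).trans ?_
    rw [Nat.cast_sum]
    refine Finset.sum_le_sum fun s _ => ?_
    rw [card_product, card_ltF, Nat.cast_mul, Nat.cast_pow]
    refine mul_le_mul_of_nonneg_right ?_ (pow_pos card_pos' _).le
    have := hdiv (A - s)
    rwa [xroots_sum_ind] at this
  rw [← Finset.mul_sum] at h2
  refine h2.trans ((mul_le_mul_of_nonneg_left (xroots_geom r A) h0).trans_eq ?_)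
  ring

theorem fibre_le {𝒜 : Finset F[X]} (hmon : ∀ α ∈ 𝒜, α.Monic) (h : F[X]) (ψ : F[X] × F[X])
    (s A : ℕ) : ∑ α ∈ 𝒜, ∑ β ∈ ltF F A, ind (sg α (β + h) = s ∧ rt α (β + h) = ψ) ≤
      (Fintype.card F : ℝ) ^ s := by
  classical
  rw [← Finset.sum_product', xroots_sum_ind, ← Nat.cast_pow, ← card_monF, Nat.cast_le]
  refine card_le_card_of_injOn (fun z => gc z.1 (z.2 + h)) (fun z hz => ?_) fun z hz z' hz' e => ?_
  · rw [mem_coe, mem_filter, mem_product] at hz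
    exact mem_coe.2 (mem_monF.2 ⟨gc_monic (hmon _ hz.1.1).ne_zero _, hz.2.1⟩)
  · rw [mem_coe, mem_filter, mem_product] at hz hz'
    have e' : gc z.1 (z.2 + h) = gc z'.1 (z'.2 + h) := e
    have a1 := rt_fst (hmon _ hz.1.1).ne_zero (z.2 + h)
    have a2 := rt_snd (hmon _ hz.1.1).ne_zero (z.2 + h)
    have b1 := rt_fst (hmon _ hz'.1.1).ne_zero (z'.2 + h)
    have b2 := rt_snd (hmon _ hz'.1.1).ne_zero (z'.2 + h)
    rw [hz.2.2, e'] at a1 a2
    rw [hz'.2.2] at b1 b2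
    exact Prod.ext (a1.symm.trans b1) (add_right_cancel (a2.symm.trans b2))

end Pool.Agent.MP_4fffd4_nt.Odd
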