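import Mathlib
import Pool.Agent.MP_4fffd4_nt.Odd.Roots

/- Compression: the forms with a large gcd carry little information. -/

set_option autoImplicit false

namespace Pool.Agent.MP_4fffd4_nt.Odd

open Polynomial Finset Filter Topology
open scoped BigOperators

variable {F : Type*} [Field F] [Fintype F]

theorem xcomp_one {Ψ : Type*} (T : Finset Ψ) (a : Ψ) : ∑ ψ ∈ T, ind (a = ψ) ≤ 1 := by
  by_cases ha : a ∈ T
  · rw [Finset.sum_eq_single_of_mem a ha fun b _ hb => ind_neg fun e => hb e.symm, ind_pos rfl]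
  · rw [Finset.sum_eq_zero fun b hb => ind_neg fun e : a = b => ha (e ▸ hb)]
    exact zero_le_one

theorem xcomp_sq {Y Ψ : Type*} (Z : Finset Y) (hZ : Z.Nonempty) (T : Finset Ψ) (ρ : Y → Ψ)
    (P : Y → Prop) (u : Y → ℝ) (hu : ∀ z, |u z| ≤ ind (P z)) {B : ℝ}
    (hB : ∀ ψ, ∑ z ∈ Z, ind (P z ∧ ρ z = ψ) ≤ B) :
    ∑ ψ ∈ T, ((∑ z ∈ Z, ind (ρ z = ψ) * u z) / Z.card) ^ 2 ≤ B / Z.card := by
  have hK : (0 : ℝ) < Z.card := by exact_mod_cast hZ.card_pos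
  obtain ⟨z₀, _⟩ := hZ
  have hB0 : 0 ≤ B := (Finset.sum_nonneg fun _ _ => ind_nonneg _).trans (hB (ρ z₀))
  have h1 : ∀ ψ, |∑ z ∈ Z, ind (ρ z = ψ) * u z| ≤ B := fun ψ => by
    refine (Finset.abs_sum_le_sum_abs _ _).trans (le_trans (Finset.sum_le_sum fun z _ => ?_) (hB ψ))
    rw [abs_mul, abs_of_nonneg (ind_nonneg _), ind_and, mul_comm]
    exact mul_le_mul_of_nonneg_right (hu z) (ind_nonneg _)
  have h2 : ∑ ψ ∈ T, |∑ z ∈ Z, ind (ρ z = ψ) * u z| ≤ Z.card := by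
    refine (Finset.sum_le_sum (g := fun ψ => ∑ z ∈ Z, ind (ρ z = ψ)) fun ψ _ => ?_).trans ?_
    · refine (Finset.abs_sum_le_sum_abs _ _).trans (Finset.sum_le_sum fun z _ => ?_)
      rw [abs_mul, abs_of_nonneg (ind_nonneg _)]
      exact mul_le_of_le_one_right (ind_nonneg _) ((hu z).trans (ind_le_one _))
    · rw [Finset.sum_comm]
      refine (Finset.sum_le_card_nsmul _ _ 1 fun z _ => xcomp_one T (ρ z)).trans_eq ?_
      rw [nsmul_eq_mul, mul_one]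
  calc _ ≤ ∑ ψ ∈ T, |∑ z ∈ Z, ind (ρ z = ψ) * u z| * (B / Z.card ^ 2) := by
        refine Finset.sum_le_sum fun ψ _ => ?_
        rw [div_pow, ← sq_abs, sq, mul_div_assoc]
        exact mul_le_mul_of_nonneg_left (div_le_div_of_nonneg_right (h1 ψ) (by positivity))
          (abs_nonneg _)
    _ ≤ Z.card * (B / Z.card ^ 2) := by
        rw [← Finset.sum_mul]
        exact mul_le_mul_of_nonneg_right h2 (by positivity)
    _ = _ := by field_simp

theorem xcomp_sum {Y Ψ : Type*} (Z : Finset Y) (T : Finset Ψ) (ρ : Y → Ψ) (u : Y → ℝ)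
    (hT : ∀ z ∈ Z, u z ≠ 0 → ρ z ∈ T) (g : Ψ → ℝ) :
    ∑ ψ ∈ T, (∑ z ∈ Z, ind (ρ z = ψ) * u z) / Z.card * g ψ = 𝔼 z ∈ Z, u z * g (ρ z) := by
  rw [expect_eq_sum_div_card]
  simp only [div_mul_eq_mul_div, ← Finset.sum_div, Finset.sum_mul]
  congr 1
  rw [Finset.sum_comm]
  refine Finset.sum_congr rfl fun z hz => ?_
  by_cases h0 : u z = 0
  · simp [h0]
  · rw [Finset.sum_eq_single_of_mem (ρ z) (hT z hz h0) fun b _ hb => by
      rw [ind_neg fun e => hb e.symm, zero_mul, zero_mul], ind_pos rfl, one_mul]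

/-- the weight of a pair, given the signs at the forms with a large gcd -/
noncomputable def xcompW {I : Type*} [Fintype I] (h : I → F[X]) (κ : F[X] → ℝ) (i₀ : I)
    (s Δ : ℕ) (σ : Finset (F[X] × F[X])) (z : F[X] × F[X]) : ℝ :=
  κ z.2 * ind (Low h Δ i₀ s z.1 z.2) * ∏ j, lam (gc z.1 (z.2 + h j)) *
    (2 * ind (j = i₀ ∨ rt z.1 (z.2 + h j) ∈ σ) - 1)

omit [Fintype F] in
theorem xcomp_abs {I : Type*} [Fintype I] (h : I → F[X]) {κ : F[X] → ℝ} (hκ : ∀ β, |κ β| ≤ 1)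
    (i₀ : I) (s Δ : ℕ) (σ : Finset (F[X] × F[X])) (z : F[X] × F[X]) :
    |xcompW h κ i₀ s Δ σ z| ≤ ind (sg z.1 (z.2 + h i₀) = s) := by
  have h1 : ∀ P : Prop, |2 * ind P - 1| = 1 := fun P => by
    by_cases hP : P
    · rw [ind_pos hP]; norm_num
    · rw [ind_neg hP]; norm_num
  rw [xcompW, abs_mul, abs_mul, Finset.abs_prod]
  simp only [abs_mul, abs_lam, h1, mul_one, Finset.prod_const_one]
  rw [abs_of_nonneg (ind_nonneg _)]
  exact (mul_le_of_le_one_left (ind_nonneg _) (hκ _)).trans (ind_mono fun hL => hL.1)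

theorem xcomp_eq {I : Type*} [Fintype I] {h : I → F[X]} {𝒜 : Finset F[X]} {A : ℕ}
    (hmon : ∀ α ∈ 𝒜, α ∈ monF F A) (hh : ∀ i, (h i).degree < A) (κ : F[X] → ℝ) (i₀ : I)
    (s Δ : ℕ) {x : F[X]} (hx : x.Monic) {σ : Finset (F[X] × F[X])}
    (hσ : ∀ ρ ∈ rts 𝒜 A (s + Δ), ρ ∈ σ ↔ lam (ρ.1 * x + ρ.2) = 1) {α β : F[X]} (hα : α ∈ 𝒜)
    (hβ : β ∈ ltF F A) :
    κ β * ind (Low h Δ i₀ s α β) * ∏ i, lam (α * x + (β + h i)) =
      xcompW h κ i₀ s Δ σ (α, β) *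
        lam ((rt α (β + h i₀)).1 * x + (rt α (β + h i₀)).2) := by
  classical
  rw [xcompW]
  by_cases hL : Low h Δ i₀ s α β
  swap
  · simp only [ind_neg hL, mul_zero, zero_mul]
  obtain ⟨h1, h2⟩ := mem_monF.1 (hmon α hα)
  have hd : ∀ j, (β + h j).degree < A := fun j =>
    (degree_add_le _ _).trans_lt (max_lt (mem_ltF.1 hβ) (hh j))
  rw [mul_assoc (κ β * _), ← Finset.mul_prod_erase _ _ (mem_univ i₀),
    ← Finset.mul_prod_erase _ _ (mem_univ i₀), lam_rt h1 (h2 ▸ hd i₀) hx,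
    ind_pos (Or.inl rfl : i₀ = i₀ ∨ _)]
  have h3 : ∀ j ∈ univ.erase i₀, lam (α * x + (β + h j)) = lam (gc α (β + h j)) *
      (2 * ind (j = i₀ ∨ rt α (β + h j) ∈ σ) - 1) := fun j hj => by
    have hj' := ne_of_mem_erase hj
    have hm : rt α (β + h j) ∈ rts 𝒜 A (s + Δ) := by
      rw [rts]
      exact mem_image.2 ⟨(α, β + h j), mem_filter.2
        ⟨mem_product.2 ⟨hα, mem_ltF.2 (hd j)⟩, hL.2 j hj'⟩, rfl⟩
    rw [lam_rt h1 (h2 ▸ hd j) hx, ind_congr (or_iff_right hj'), ind_congr (hσ _ hm)]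
    congr 1
    rcases liou_cases ((rt α (β + h j)).1 * x + (rt α (β + h j)).2) with e | e
    · have : lam ((rt α (β + h j)).1 * x + (rt α (β + h j)).2) = 1 := by simp [lam, e]
      rw [ind_pos this, this]; norm_num
    · have : lam ((rt α (β + h j)).1 * x + (rt α (β + h j)).2) = -1 := by simp [lam, e]
      rw [this, ind_neg (by norm_num)]; norm_num
  rw [Finset.prod_congr rfl h3]
  ring

theorem compress {δ : ℝ} (hR : Rnd F δ) {I : Type*} [Fintype I] (h : I → F[X])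
    {𝒜 : Finset F[X]} {A : ℕ} {Λ : ℝ} (hne : 𝒜.Nonempty) (hmon : ∀ α ∈ 𝒜, α ∈ monF F A)
    (hdiv : ∀ r, ∑ α' ∈ monF F r, ind (∃ α ∈ 𝒜, α' ∣ α) ≤ Λ * 𝒜.card)
    (hh : ∀ i, (h i).degree < A) (κ : F[X] → ℝ) (hκ : ∀ β, |κ β| ≤ 1) (i₀ : I) {s Δ : ℕ}
    (hs : s + Δ ≤ A) {w ε : ℝ} (hw : 0 < w)
    (hwΛ : (1 + 2 * Λ) / (Fintype.card F : ℝ) ^ Δ ≤ w ^ 2) (hε : 0 < ε) :
    ∀ᶠ n in atTop, |𝔼 α ∈ 𝒜, 𝔼 β ∈ ltF F A, 𝔼 x ∈ monF F n,
      κ β * ind (Low h Δ i₀ s α β) * ∏ i, lam (α * x + (β + h i))| ≤ 4 * w / δ + ε := by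
  classical
  have hq := card_pos' (F := F)
  have hq1 : (1 : ℝ) ≤ Fintype.card F := one_le_two.trans two_le_card
  set Z := 𝒜 ×ˢ ltF F A with hZ
  have hZne : Z.Nonempty := hne.product (ltF_nonempty A)
  have hK : (Z.card : ℝ) = 𝒜.card * (Fintype.card F : ℝ) ^ A := by
    rw [hZ, card_product, card_ltF]; push_cast; rfl
  have hA1 : (1 : ℝ) ≤ 𝒜.card := by exact_mod_cast hne.card_pos
  set ρ : F[X] × F[X] → F[X] × F[X] := fun z => rt z.1 (z.2 + h i₀) with hρ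
  set T := (Z.filter fun z => sg z.1 (z.2 + h i₀) = s).image ρ with hT
  set R := rts 𝒜 A (s + Δ) with hRd
  set c : Finset (F[X] × F[X]) → F[X] × F[X] → ℝ := fun σ ψ =>
    (∑ z ∈ Z, ind (ρ z = ψ) * xcompW h κ i₀ s Δ σ z) / Z.card with hc
  have hTm : ∀ ψ ∈ T, ∃ α u : F[X], α.Monic ∧ α.natDegree = A ∧ sg α u = s ∧ ψ = rt α u := by
    intro ψ hψ
    obtain ⟨z, hz, rfl⟩ := mem_image.1 hψ
    obtain ⟨h1, h2⟩ := mem_filter.1 hz
    obtain ⟨h3, h4⟩ := mem_monF.1 (hmon _ (mem_product.1 h1).1)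
    exact ⟨z.1, z.2 + h i₀, h3, h4, h2, rfl⟩
  have hVE : (Fintype.card F : ℝ) ^ s / Z.card * (1 + R.card) ≤ w ^ 2 := by
    refine le_trans ?_ hwΛ
    have h1 : (Fintype.card F : ℝ) ^ s / Z.card ≤ 1 / (Fintype.card F : ℝ) ^ Δ := by
      rw [hK, div_le_div_iff₀ (by positivity) (by positivity), ← pow_add, one_mul]
      exact (pow_le_pow_right₀ hq1 hs).trans (le_mul_of_one_le_left (by positivity) hA1)
    have h2 : (Fintype.card F : ℝ) ^ s / Z.card * R.card ≤ 2 * Λ / (Fintype.card F : ℝ) ^ Δ := by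
      refine (mul_le_mul_of_nonneg_left (card_rts hmon hdiv (s + Δ)) (by positivity)).trans_eq ?_
      rw [hK, pow_add]
      field_simp
    rw [mul_add, mul_one, add_div]
    exact add_le_add h1 h2
  have hS : ((R.powerset.image c).card : ℝ) ≤ Real.exp (1 + R.card) := by
    have h1 : ((R.powerset.image c).card : ℝ) ≤ 2 ^ R.card := by
      exact_mod_cast card_image_le.trans_eq (card_powerset R)
    refine h1.trans (le_trans ?_ (Real.exp_le_exp.2 (le_add_of_nonneg_left zero_le_one)))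
    rw [← mul_one (R.card : ℝ), Real.exp_nat_mul]
    refine pow_le_pow_left₀ zero_le_two ?_ _
    have := Real.add_one_le_exp 1
    linarith
  have hV : ∀ c' ∈ R.powerset.image c, ∑ ψ ∈ T, c' ψ ^ 2 ≤ (Fintype.card F : ℝ) ^ s / Z.card := by
    intro c' hc'
    obtain ⟨σ, -, rfl⟩ := mem_image.1 hc'
    refine xcomp_sq Z hZne T ρ (fun z => sg z.1 (z.2 + h i₀) = s) _
      (xcomp_abs h hκ i₀ s Δ σ) fun ψ => ?_
    rw [hZ, Finset.sum_product]
    exact fibre_le (fun α hα => (mem_monF.1 (hmon α hα)).1) (h i₀) ψ s A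
  have key := hR T (A - s) (fun ψ hψ => by
      obtain ⟨α, u, h1, h2, h3, rfl⟩ := hTm ψ hψ
      rw [← h2, ← h3]
      exact rt_mon h1 u)
    (fun ψ hψ ψ' hψ' hne' => by
      obtain ⟨α, u, h1, -, -, rfl⟩ := hTm ψ hψ
      obtain ⟨α', u', h1', -, -, rfl⟩ := hTm ψ' hψ'
      exact rt_cross h1 h1' hne')
    (R.powerset.image c) _ (1 + R.card) w ε (le_add_of_nonneg_right (Nat.cast_nonneg _)) hw hVE
    hS hV hε
  filter_upwards [key] with n hn
  refine le_trans ?_ (hn (fun x => c (R.filter fun r => lam (r.1 * x + r.2) = 1)) fun x =>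
    mem_image_of_mem _ (mem_powerset.2 (filter_subset _ _)))
  rw [← Finset.expect_product' (s := 𝒜) (t := ltF F A), Finset.expect_comm]
  refine (Finset.abs_expect_le _ _).trans (Finset.expect_le_expect fun x hx => le_of_eq ?_)
  congr 1
  rw [hc, xcomp_sum Z T ρ _ (fun z hz h0 => mem_image_of_mem _ (mem_filter.2 ⟨hz, ?_⟩))
    fun ψ => lam (ψ.1 * x + ψ.2)]
  · refine Finset.expect_congr rfl fun z hz => ?_
    exact xcomp_eq hmon hh κ i₀ s Δ (mem_monF.1 hx).1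
      (fun r hr => by rw [mem_filter, and_iff_right hr]) (mem_product.1 hz).1 (mem_product.1 hz).2
  · by_contra e
    have := xcomp_abs h hκ i₀ s Δ (R.filter fun r => lam (r.1 * x + r.2) = 1) z
    rw [ind_neg e] at this
    exact h0 (abs_nonpos_iff.1 this)

end Pool.Agent.MP_4fffd4_nt.Odd
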