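import Mathlib
import Pool.Agent.MP_4fffd4_nt.Odd.Defs3
import Pool.Agent.MP_4fffd4_nt.Odd.Tkm

/- Families of moduli with few divisors. -/

set_option autoImplicit false

namespace Pool.Agent.MP_4fffd4_nt.Odd

open Polynomial Finset Filter Topology
open scoped BigOperators

variable {F : Type*} [Field F] [Fintype F]

omit [Fintype F] in
theorem xfam_prod (T : Finset F[X]) (hT : ∀ P ∈ T, P.Monic ∧ Irreducible P) :
    ∀ d : F[X], d.Monic → d ∣ ∏ P ∈ T, P → ∃ T' ⊆ T, d = ∏ P ∈ T', P := by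
  classical
  induction T using Finset.induction_on with
  | empty =>
    intro d hd h
    rw [prod_empty] at h
    exact ⟨∅, Subset.refl _, by
      rw [prod_empty]; exact hd.isUnit_iff.1 (isUnit_of_dvd_one h)⟩
  | insert P T hP ih =>
    intro d hd h
    have ih' := ih fun Q hQ => hT Q (mem_insert_of_mem hQ)
    obtain ⟨hPm, hPi⟩ := hT P (mem_insert_self _ _)
    rw [prod_insert hP] at h
    by_cases hPd : P ∣ d
    · obtain ⟨e, rfl⟩ := hPd
      obtain ⟨T', h1, h2⟩ := ih' e (hPm.of_mul_monic_left hd)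
        ((mul_dvd_mul_iff_left hPm.ne_zero).1 h)
      refine ⟨insert P T', insert_subset_insert _ h1, ?_⟩
      rw [prod_insert fun hh => hP (h1 hh), h2]
    · have hc : IsCoprime d P := (hPi.coprime_iff_not_dvd.2 hPd).symm
      obtain ⟨T', h1, h2⟩ := ih' d hd (hc.dvd_of_dvd_mul_left h)
      exact ⟨T', h1.trans (subset_insert _ _), h2⟩

omit [Fintype F] in
theorem xfam_split {d x y : F[X]} (hd : d.Monic) (h : d ∣ x * y) :
    ∃ d₁ d₂ : F[X], d₁.Monic ∧ d₂.Monic ∧ d₁ ∣ x ∧ d₂ ∣ y ∧ d = d₁ * d₂ := by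
  classical
  obtain ⟨e₁, e₂, h1, h2, rfl⟩ := exists_dvd_and_dvd_of_dvd_mul h
  have hl : e₁.leadingCoeff * e₂.leadingCoeff = 1 := by
    rw [← leadingCoeff_mul]; exact hd
  have u1 : IsUnit (C e₁.leadingCoeff) :=
    isUnit_C.2 (IsUnit.mk0 _ (left_ne_zero_of_mul_eq_one hl))
  have u2 : IsUnit (C e₂.leadingCoeff) :=
    isUnit_C.2 (IsUnit.mk0 _ (right_ne_zero_of_mul_eq_one hl))
  refine ⟨e₁ * C e₂.leadingCoeff, e₂ * C e₁.leadingCoeff, ?_, ?_, u2.mul_right_dvd.2 h1,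
    u1.mul_right_dvd.2 h2, ?_⟩
  · rw [Monic.def, leadingCoeff_mul, leadingCoeff_C, hl]
  · rw [Monic.def, leadingCoeff_mul, leadingCoeff_C, mul_comm, hl]
  · have : C e₂.leadingCoeff * C e₁.leadingCoeff = 1 := by
      rw [← C_mul, mul_comm, hl, C_1]
    linear_combination (-(e₁ * e₂)) * this

omit [Fintype F] in
theorem xfam_pow {d : F[X]} (hd : d.Monic) {j : ℕ} (h : d ∣ X ^ j) : ∃ i : ℕ, d = X ^ i := by
  obtain ⟨i, -, hi⟩ := (dvd_prime_pow prime_X j).1 h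
  exact ⟨i, eq_of_monic_of_associated hd (monic_X_pow i) hi⟩

omit [Fintype F] in
theorem xfam_mem {a : F[X]} (ha : a.Monic) {D₀ : ℕ} (h0 : a.natDegree ≤ D₀) (h1 : 1 ≤ D₀)
    {T : Finset F[X]} (hT : ∀ P ∈ T, P.Monic ∧ Irreducible P) {P : F[X]} (hm : P.Monic)
    (hi : Irreducible P) (hP : D₀ < P.natDegree) {j : ℕ} (h : P ∣ a * X ^ j * ∏ Q ∈ T, Q) :
    P ∈ T := by
  have hp : Prime P := hi.prime
  rcases hp.dvd_or_dvd h with h | h
  · rcases hp.dvd_or_dvd h with h | h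
    · have := natDegree_le_of_dvd h ha.ne_zero
      omega
    · have := natDegree_le_of_dvd (hp.dvd_of_dvd_pow h) X_ne_zero
      rw [natDegree_X] at this
      omega
  · obtain ⟨Q, hQ, hPQ⟩ := (hp.dvd_finsetProd_iff _).1 h
    rwa [eq_of_monic_of_associated hm (hT Q hQ).1 (hi.associated_of_dvd (hT Q hQ).2 hPQ)]

open Classical in
theorem xfam_half {ι : Type*} (U : Finset ι) (w : ι → ℝ) :
    2 ^ U.card ≤ 2 * (U.powerset.filter fun T => ∑ P ∈ U, w P ≤ 2 * ∑ P ∈ T, w P).card := by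
  have h1 := card_filter_add_card_filter_not (s := U.powerset)
    (fun T => ∑ P ∈ U, w P ≤ 2 * ∑ P ∈ T, w P)
  have h2 : (U.powerset.filter fun T => ¬ ∑ P ∈ U, w P ≤ 2 * ∑ P ∈ T, w P).card ≤
      (U.powerset.filter fun T => ∑ P ∈ U, w P ≤ 2 * ∑ P ∈ T, w P).card := by
    refine card_le_card_of_injOn (fun T => U \ T) (fun T hT => ?_) (fun T hT T' hT' e => ?_)
    · obtain ⟨h3, h4⟩ := mem_filter.1 (mem_coe.1 hT)
      refine mem_coe.2 (mem_filter.2 ⟨mem_powerset.2 sdiff_subset, ?_⟩)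
      have := sum_sdiff (f := w) (mem_powerset.1 h3)
      linarith [not_le.1 h4]
    · have h3 := mem_powerset.1 (mem_filter.1 (mem_coe.1 hT)).1
      have h4 := mem_powerset.1 (mem_filter.1 (mem_coe.1 hT')).1
      have e' : U \ T = U \ T' := e
      rw [← Finset.sdiff_sdiff_eq_self h3, e', Finset.sdiff_sdiff_eq_self h4]
  rw [card_powerset] at h1
  omega

theorem exists_fam {a : F[X]} (ha : a.Monic) {D₀ : ℕ} (h0 : a.natDegree ≤ D₀) (h1 : 1 ≤ D₀)
    (D₁ N : ℕ) : ∃ (A : ℕ) (𝒜 : Finset F[X]), N ≤ A ∧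
      Fam a D₀ D₁ A (2 * (Fintype.card F : ℝ) ^ (a.natDegree + 1)) 𝒜 := by
  classical
  obtain ⟨U, hU⟩ : ∃ U, U = prmI F D₀ D₁ := ⟨_, rfl⟩
  have hUm : ∀ P ∈ U, P.Monic ∧ Irreducible P ∧ D₀ < P.natDegree := fun P hP => by
    obtain ⟨h2, h3, h4, -⟩ := mem_prmI.1 (hU ▸ hP)
    exact ⟨h2, h3, h4⟩
  have hsub : ∀ T ⊆ U, ∀ P ∈ T, P.Monic ∧ Irreducible P := fun T hT P hP =>
    ⟨(hUm P (hT hP)).1, (hUm P (hT hP)).2.1⟩
  have hmon : ∀ T ⊆ U, (∏ P ∈ T, P).Monic := fun T hT =>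
    monic_prod_of_monic _ _ fun P hP => (hsub T hT P hP).1
  obtain ⟨N₀, hN₀⟩ : ∃ N₀, N₀ = N + (∏ P ∈ U, P).natDegree := ⟨_, rfl⟩
  have hdeg : ∀ T ⊆ U, (∏ P ∈ T, P).natDegree ≤ N₀ := fun T hT => by
    have := natDegree_le_of_dvd (prod_dvd_prod_of_subset T U (fun P => P) hT)
      (hmon U (Subset.refl _)).ne_zero
    omega
  obtain ⟨f, hf⟩ : ∃ f : Finset F[X] → F[X],
      ∀ T, f T = a * X ^ (N₀ - (∏ P ∈ T, P).natDegree) * ∏ P ∈ T, P := ⟨_, fun _ => rfl⟩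
  obtain ⟨G, hG⟩ : ∃ G, G = U.powerset.filter fun T =>
      ∑ P ∈ U, 1 / (Fintype.card F : ℝ) ^ P.natDegree ≤
        2 * ∑ P ∈ T, 1 / (Fintype.card F : ℝ) ^ P.natDegree := ⟨_, rfl⟩
  have hGU : ∀ T ∈ G, T ⊆ U := fun T hT => mem_powerset.1 (mem_filter.1 (hG ▸ hT)).1
  have hhalf : 2 ^ U.card ≤ 2 * G.card := by
    rw [hG]
    convert xfam_half U fun P => 1 / (Fintype.card F : ℝ) ^ P.natDegree
  have hinj : Set.InjOn f G := by
    have key : ∀ T ⊆ U, ∀ T' ⊆ U, f T = f T' → T ⊆ T' := fun T hT T' hT' e P hP => by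
      have h2 : P ∣ f T' := by
        rw [← e, hf]
        exact (dvd_prod_of_mem (fun P => P) hP).mul_left _
      rw [hf] at h2
      exact xfam_mem ha h0 h1 (hsub T' hT') (hUm P (hT hP)).1 (hUm P (hT hP)).2.1
        (hUm P (hT hP)).2.2 h2
    intro T hT T' hT' e
    exact Subset.antisymm (key T (hGU T hT) T' (hGU T' hT') e)
      (key T' (hGU T' hT') T (hGU T hT) e.symm)
  have hcard : (G.image f).card = G.card := card_image_of_injOn hinj
  refine ⟨a.natDegree + N₀, G.image f, by omega, ?_, ?_, ?_, ?_⟩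
  · rw [← card_pos, hcard]
    have : 0 < 2 ^ U.card := by positivity
    omega
  · intro α hα
    obtain ⟨T, hT, rfl⟩ := mem_image.1 hα
    have h2 := hmon T (hGU T hT)
    have h3 := hdeg T (hGU T hT)
    rw [hf, mem_monF]
    refine ⟨(ha.mul (monic_X_pow _)).mul h2, ?_⟩
    rw [(ha.mul (monic_X_pow _)).natDegree_mul h2, ha.natDegree_mul (monic_X_pow _),
      natDegree_X_pow]
    omega
  · intro α hα
    obtain ⟨T, hT, rfl⟩ := mem_image.1 hα
    refine ⟨T, hU ▸ hGU T hT, _, hf T, ?_⟩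
    rw [LL, ← hU]
    rw [hG] at hT
    have h2 := mem_filter.1 hT
    exact h2.2
  · intro r
    have h2 : ∑ α' ∈ monF F r, ind (∃ α ∈ G.image f, α' ∣ α) =
        (((monF F r).filter fun α' => ∃ α ∈ G.image f, α' ∣ α).card : ℝ) := by
      rw [card_filter, Nat.cast_sum]
      refine sum_congr rfl fun α' _ => ?_
      by_cases h : ∃ α ∈ G.image f, α' ∣ α
      · rw [ind_pos h, if_pos h, Nat.cast_one]
      · rw [ind_neg h, if_neg h, Nat.cast_zero]
    have h3 : ((monF F r).filter fun α' => ∃ α ∈ G.image f, α' ∣ α) ⊆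
        (monLE F a.natDegree ×ˢ U.powerset).image fun z =>
          z.1 * X ^ (r - z.1.natDegree - (∏ P ∈ z.2, P).natDegree) * ∏ P ∈ z.2, P := by
      intro α' hα'
      obtain ⟨h4, α, hα, h5⟩ := mem_filter.1 hα'
      obtain ⟨T, hT, rfl⟩ := mem_image.1 hα
      obtain ⟨h6, h7⟩ := mem_monF.1 h4
      rw [hf] at h5
      obtain ⟨d₁, d₂, m1, m2, e1, e2, rfl⟩ := xfam_split h6 h5
      obtain ⟨d₃, d₄, m3, m4, e3, e4, rfl⟩ := xfam_split m1 e1
      obtain ⟨i, rfl⟩ := xfam_pow m4 e4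
      obtain ⟨T', hT', rfl⟩ := xfam_prod T (hsub T (hGU T hT)) d₂ m2 e2
      refine mem_image.2 ⟨(d₃, T'), mem_product.2 ⟨mem_monLE.2
        ⟨m3, natDegree_le_of_dvd e3 ha.ne_zero⟩, mem_powerset.2 (hT'.trans (hGU T hT))⟩, ?_⟩
      rw [m1.natDegree_mul m2, m3.natDegree_mul m4, natDegree_X_pow] at h7
      have : r - d₃.natDegree - (∏ P ∈ T', P).natDegree = i := by omega
      simp only [this]
    have h4 := (card_le_card h3).trans card_image_le
    rw [card_product, card_powerset] at h4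
    have h5 : ((monF F r).filter fun α' => ∃ α ∈ G.image f, α' ∣ α).card ≤
        2 * Fintype.card F ^ (a.natDegree + 1) * (G.image f).card := by
      refine h4.trans ((Nat.mul_le_mul (card_monLE _) hhalf).trans (le_of_eq ?_))
      rw [hcard]; ring
    rw [h2]
    exact_mod_cast h5

end Pool.Agent.MP_4fffd4_nt.Odd
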