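import Mathlib
import Pool.Agent.MP_4fffd4_nt.Odd.Coset2

/- Many forms on one coset. -/

set_option autoImplicit false

namespace Pool.Agent.MP_4fffd4_nt.Odd

open Polynomial Finset Filter Topology
open scoped BigOperators

variable {F : Type*} [Field F] [Fintype F] {p : ℕ} [Fact p.Prime] [CharP F p]

theorem coset_many (hp : p ≠ 2) {ι : Type} [Fintype ι] {I : Type*} [Fintype I] (i₀ : I)
    {B u y κ : I → F[X]} (hB : ∀ i, (B i).Monic) (hu : ∀ i, (u i).Monic) (hy : ∀ i, (y i).Monic)
    (hκ : (κ i₀).Monic) {lo hi N L : ℕ} (hW : ∀ i, GoodS ι lo hi (derivative (B i * y i)))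
    (hR : ∀ i, i ≠ i₀ → ∀ P : F[X], Irreducible P → lo < P.natDegree →
      P ∣ derivative (B i₀ * y i₀) → ¬ P ∣ derivative (B i * y i))
    (hN : ∀ i, (p - 1) * (B i).natDegree + p * ((u i).natDegree + ((κ i).natDegree + N)) ≤
      (y i).natDegree)
    (hhi : hi + L ≤ N) (hL : L ≤ lo) (hBlo : (B i₀).natDegree ≤ lo)
    (hulo : ∀ i, (u i).natDegree ≤ lo) (hκlo : (κ i₀).natDegree ≤ lo) :
    |𝔼 v ∈ ltF F N, ∏ i, piece (u i) (B i * (y i + B i ^ (p - 1) * (u i * (κ i * v)) ^ p))| ^
        2 ^ (Fintype.card I * (Fintype.card ι + 1)) ≤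
      4 ^ (Fintype.card I * (Fintype.card ι + 1)) / (Fintype.card F : ℝ) ^ L +
        2 ^ (Fintype.card I * (Fintype.card ι + 1) + 1) / √((Fintype.card F : ℝ) ^ lo) := by
  classical
  by_cases hw : ∃ i, ¬ u i ∣ B i * y i
  · obtain ⟨i, hi⟩ := hw
    have h0 : ∀ v : F[X],
        ∏ i, piece (u i) (B i * (y i + B i ^ (p - 1) * (u i * (κ i * v)) ^ p)) = 0 := fun v =>
      prod_eq_zero (mem_univ i) (xcoset2_zero hi _)
    simp only [h0, expect_const_zero, abs_zero]
    rw [zero_pow (by positivity)]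
    positivity
  have hw' : ∀ i, ∃ w, B i * y i = u i * w := fun i => not_not.1 fun h => hw ⟨i, h⟩
  choose w₀ hw₀ using hw'
  choose l P m hl hP hPi hW hlo hPhi hm using hW
  choose ρ hρ using fun i => exists_root_mod (p := p) (hP i) (hPi i) (B i * y i)
  have hPu : ∀ i, ¬ P i ∣ u i := fun i =>
    xcoset_ndvd (hu i).ne_zero (by have := hulo i; have := hlo i; omega)
  choose c hc e using fun i => xcoset_piece hp (hB i) (hu i) (hy i) (hw₀ i) (hP i) (hPi i) (hPu i)
    (hρ i) (fun j => (hm i j).1) (hW i) (hN i)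
  have hlo₀ := hlo i₀
  have hPhi₀ := hPhi i₀
  have hPW : ∀ i, i ≠ i₀ → ¬ P i₀ ∣ C (l i) * P i * ∏ j, m i j := fun i hi => by
    rw [← hW i]
    exact hR i hi (P i₀) (hPi i₀) (by omega)
      (hW i₀ ▸ (dvd_mul_left (P i₀) (C (l i₀))).mul_right _)
  set μ : I × Option ι → F[X] := fun z =>
    z.2.elim (if z.1 = i₀ then 1 else P z.1) (m z.1) with hμ
  have hθ : ∀ j : I × Option ι, ∃ θ : degreeLT F L →+ degreeLT F N,
      ∀ h, (θ h).1 = μ j * h.1 := by
    rintro ⟨i, _ | j⟩
    · refine xcoset2_theta ?_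
      simp only [hμ, Option.elim_none]
      split_ifs
      · rw [natDegree_one]
        omega
      · have := hPhi i
        omega
    · exact xcoset2_theta (μ := m i j) (by have := (hm i j).2.1; omega)
  choose θ hθ using hθ
  have key := box_ineq θ (fun x => jr (ρ i₀ + B i₀ * u i₀ * (κ i₀ * x.1)) (P i₀))
    (fun z x => z.2.elim
      (if z.1 = i₀ then 1 else jr (ρ z.1 + B z.1 * u z.1 * (κ z.1 * x.1)) (P z.1))
        fun j => jr (w₀ z.1 + u z.1 ^ (p - 1) * (B z.1 * (κ z.1 * x.1)) ^ p) (m z.1 j))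
    (by
      rintro ⟨i, _ | j⟩ x
      · simp only [Option.elim_none]
        split_ifs
        · exact abs_one.le
        · exact abs_jr_le _ _
      · exact abs_jr_le _ _)
    (by
      rintro ⟨i, _ | j⟩ x h
      · simp only [Submodule.coe_add, hθ, hμ, Option.elim_none]
        split_ifs
        · rfl
        · exact jr_congr hp (hP i) ⟨B i * u i * κ i * h.1, by ring⟩
      · simp only [Submodule.coe_add, hθ, hμ, Option.elim_some]
        exact xcoset2_inv hp (hm i j).1 ..)
  have loc := local_box hp (J := I × Option ι) (hP i₀) (hPi i₀) (N := N) (L := L) (lo := lo)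
    (by omega) hlo₀ (by omega) (ρ i₀) (B i₀ * u i₀ * κ i₀)
    (fun h => ((hPi i₀).prime.dvd_or_dvd h).elim
      (fun h => ((hPi i₀).prime.dvd_or_dvd h).elim
        (xcoset_ndvd (hB i₀).ne_zero (by omega)) (hPu i₀))
      (xcoset_ndvd hκ.ne_zero (by omega))) μ (by
      rintro ⟨i, _ | j⟩
      · simp only [hμ, Option.elim_none]
        split_ifs with hi
        · exact (hPi i₀).not_dvd_one
        · exact fun h => hPW i hi ((Dvd.dvd.mul_left h _).mul_right _)
      · simp only [hμ, Option.elim_some]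
        by_cases hi : i = i₀
        · rw [hi]
          exact (hm i₀ j).2.2
        · exact fun h => hPW i hi
            ((Dvd.dvd.trans h (dvd_prod_of_mem (m i) (mem_univ j))).mul_left _))
  have hcard : Fintype.card (I × Option ι) = Fintype.card I * (Fintype.card ι + 1) := by
    rw [Fintype.card_prod, Fintype.card_option]
  rw [hcard] at key loc
  have hcc : |∏ i, c i| ≤ 1 := by
    rw [abs_prod]
    exact prod_le_one (fun i _ => abs_nonneg _) fun i _ => hc i
  refine le_trans ?_ (key.trans (le_trans (le_of_eq ?_) loc))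
  · refine pow_le_pow_left₀ (abs_nonneg _) ?_ _
    refine le_trans (le_of_eq ?_) ((abs_mul (∏ i, c i) _).trans_le
      (mul_le_of_le_one_left (abs_nonneg _) hcc))
    rw [expect_ltF, mul_expect]
    refine congrArg _ (expect_congr rfl fun v _ => ?_)
    rw [prod_congr rfl fun i _ => e i _ (xcoset2_deg (κ i) (mem_degreeLT.1 v.2))]
    simp only [Fintype.prod_prod_type, Fintype.prod_option, Option.elim_none, Option.elim_some,
      prod_mul_distrib]
    congr 1
    rw [← mul_assoc]
    congr 1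
    rw [← mul_prod_erase univ _ (mem_univ i₀), ← mul_prod_erase univ (fun i => if i = i₀ then 1
      else jr (ρ i + B i * u i * (κ i * v.1)) (P i)) (mem_univ i₀), if_pos rfl, one_mul]
    congr 1
    exact prod_congr rfl fun i hi => (if_neg (ne_of_mem_erase hi)).symm
  · refine expect_congr rfl fun h _ => congrArg _ ?_
    refine expect_congr rfl fun v _ => ?_
    simp only [Submodule.coe_add, AddSubmonoidClass.coe_finsetSum, hθ, mul_assoc]

end Pool.Agent.MP_4fffd4_nt.Odd
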