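import Mathlib
import Pool.Agent.MP_4fffd4_nt.Odd.CosetM
import Pool.Agent.MP_4fffd4_nt.Odd.Pair

/- Many weighted forms, fixed squarefull parts. -/

set_option autoImplicit false

namespace Pool.Agent.MP_4fffd4_nt.Odd

open Polynomial Finset Filter Topology
open scoped BigOperators

variable {F : Type*} [Field F] [Fintype F] {p : ℕ} [Fact p.Prime] [CharP F p]

omit [Fintype F] [CharP F p] in
theorem xmanya_id (hp : p ≠ 2) (A B u κ v z h : F[X]) :
    A * (z + B ^ (p - 1) * (u * A ^ (p - 2) * κ * v) ^ p) + h =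
      A * z + h + (A ^ (p - 1) * B) ^ (p - 1) * (u * (κ * v)) ^ p := by
  have h2 := (Fact.out : p.Prime).two_le
  obtain ⟨s, hs⟩ : ∃ s, p = s + 2 := ⟨p - 2, by omega⟩
  have e1 : p - 1 = s + 1 := by omega
  have e2 : p - 2 = s := by omega
  rw [e1, e2, hs]
  ring

omit [Fintype F] in
theorem xmanya_res (A A' B h h' z : F[X]) :
    A' ^ p * derivative (A ^ (p - 1) * B * (A * z + h)) -
      A ^ p * derivative (A' ^ (p - 1) * B * (A' * z + h')) =
      derivative ((A * A') ^ (p - 1) * B * (A' * h - A * h')) := by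
  have h0 : ∀ x y : F[X], x ^ p * derivative y = derivative (x ^ p * y) := fun x y => by
    rw [derivative_mul, xvar_dpow, zero_mul, zero_add]
  rw [h0, h0, ← derivative_sub]
  congr 1
  have h2 := (Fact.out : p.Prime).two_le
  obtain ⟨s, hs⟩ : ∃ s, p = s + 1 := ⟨p - 1, by omega⟩
  have e1 : p - 1 = s := by omega
  rw [e1, hs]
  ring

theorem many_piece (hp : p ≠ 2) {ι : Type} [Fintype ι] {I : Type*} [Fintype I] (i₀ : I)
    {A h u : I → F[X]} {B : F[X]} (hA : ∀ i, (A i).Monic) (hB : B.Monic) (hu : ∀ i, (u i).Monic)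
    {n lo hi N L T : ℕ}
    (hR : ∀ i, i ≠ i₀ →
      derivative ((A i₀ * A i) ^ (p - 1) * B * (A i * h i₀ - A i₀ * h i)) ≠ 0 ∧
      (derivative ((A i₀ * A i) ^ (p - 1) * B * (A i * h i₀ - A i₀ * h i))).natDegree ≤ lo)
    {G : I → F[X] → ℝ} (hG : ∀ i W, |G i W| ≤ 1 ∧ (G i W ≠ 0 → GoodS ι lo hi W))
    (hh : ∀ i, (h i).natDegree < n)
    (hT : p * ∑ i, (A i).natDegree + B.natDegree + ∑ i, (u i).natDegree ≤ T)
    (hN : p * (3 * T + N) ≤ n) (hTlo : T ≤ lo) (hhi : hi + L ≤ N) (hL : L ≤ lo) {x : ℝ}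
    (hx : 0 ≤ x)
    (hxx : 4 ^ (Fintype.card I * (Fintype.card ι + 1)) / (Fintype.card F : ℝ) ^ L +
        2 ^ (Fintype.card I * (Fintype.card ι + 1) + 1) / √((Fintype.card F : ℝ) ^ lo) ≤
      x ^ 2 ^ (Fintype.card I * (Fintype.card ι + 1))) :
    |𝔼 z ∈ monF F n, ∏ i, G i (WA p B (A i) (h i) z) *
      piece (u i) (A i ^ (p - 1) * B * (A i * z + h i))| ≤ x := by
  classical
  have hp0 : 0 < p := (Fact.out : p.Prime).pos
  have d1 : ∀ {A : F[X]} (k : ℕ), A.Monic → (A ^ (p - k)).natDegree ≤ p * A.natDegree :=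
    fun k h => by rw [h.natDegree_pow]; exact Nat.mul_le_mul_right _ (Nat.sub_le _ _)
  have sA : ∀ i, p * (A i).natDegree ≤ p * ∑ i, (A i).natDegree := fun i =>
    Nat.mul_le_mul_left _ (single_le_sum (f := fun i => (A i).natDegree)
      (fun _ _ => Nat.zero_le _) (mem_univ i))
  have su : ∀ i, (u i).natDegree ≤ T := fun i => by
    have := single_le_sum (f := fun i => (u i).natDegree) (fun _ _ => Nat.zero_le _) (mem_univ i)
    omega
  have hB1 : ∀ i, (A i ^ (p - 1) * B).natDegree ≤ T := fun i =>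
    natDegree_mul_le.trans (by have := d1 1 (hA i); have := sA i; omega)
  have hc : ∀ i, (u i * A i ^ (p - 2)).Monic := fun i => (hu i).mul ((hA i).pow _)
  have hs : ∀ s : Finset I, (∏ j ∈ s, u j * A j ^ (p - 2)).natDegree ≤ T := fun s => by
    refine (natDegree_prod_le _ _).trans ((sum_le_sum_of_subset (subset_univ s)).trans
      ((sum_le_sum (g := fun j => p * (A j).natDegree + (u j).natDegree) fun j _ => ?_).trans ?_))
    · exact natDegree_mul_le.trans (by have := d1 2 (hA j); omega)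
    · rw [sum_add_distrib, ← mul_sum]; omega
  have key : ∀ b c d : ℕ, b ≤ T → c ≤ T → d ≤ T → (p - 1) * b + p * (c + (d + N)) ≤ n := by
    intro b c d h1 h2 h3
    refine le_trans ?_ hN
    have h4 : (p - 1) * b ≤ p * T := Nat.mul_le_mul (Nat.sub_le _ _) h1
    have h5 : p * (c + (d + N)) ≤ p * (T + (T + N)) := Nat.mul_le_mul_left _ (by omega)
    have h6 : p * (3 * T + N) = p * T + p * (T + (T + N)) := by ring
    omega
  set r := ∏ j, u j * A j ^ (p - 2) with hrdef
  set κ : I → F[X] := fun i => ∏ j ∈ univ.erase i, u j * A j ^ (p - 2) with hκ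
  have hrκ : ∀ i, r = u i * A i ^ (p - 2) * κ i := fun i =>
    (mul_prod_erase univ (fun j => u j * A j ^ (p - 2)) (mem_univ i)).symm
  set Ψ : F[X] → ℝ := fun z => ∏ i, G i (WA p B (A i) (h i) z) *
      piece (u i) (A i ^ (p - 1) * B * (A i * z + h i)) with hΨ
  have h1 : 𝔼 z ∈ monF F n, Ψ z =
      𝔼 z ∈ monF F n, 𝔼 v ∈ ltF F N, Ψ (z + B ^ (p - 1) * (r * v) ^ p) := by
    rw [expect_comm, ← expect_const (ltF_nonempty (F := F) N) (𝔼 z ∈ monF F n, Ψ z)]
    refine expect_congr rfl fun v hv => (expect_monF_add (xloc1_deg ?_ (mem_ltF.1 hv)) Ψ).symm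
    have := key B.natDegree 0 r.natDegree (by omega) (Nat.zero_le _) (hs univ)
    rwa [zero_add] at this
  change |𝔼 z ∈ monF F n, Ψ z| ≤ x
  rw [h1]
  refine xloc1_abs_le (monF_nonempty n) fun z hz => ?_
  obtain ⟨hz1, hz2⟩ := mem_monF.1 hz
  have hy := fun i => xpair_monic (hA i) hz1 (hz2.symm ▸ hh i)
  have h2 : ∀ v, Ψ (z + B ^ (p - 1) * (r * v) ^ p) =
      (∏ i, G i (WA p B (A i) (h i) z)) *
      ∏ i, piece (u i) (A i ^ (p - 1) * B * (A i * z + h i + (A i ^ (p - 1) * B) ^ (p - 1) *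
        (u i * (κ i * v)) ^ p)) := by
    intro v
    rw [← prod_mul_distrib]
    refine prod_congr rfl fun i _ => ?_
    simp only [WA]
    rw [hrκ i, xmanya_id hp, deriv_shift]
  simp only [h2, ← mul_expect]
  by_cases g1 : ∏ i, G i (WA p B (A i) (h i) z) = 0
  · rw [g1, zero_mul, abs_zero]; exact hx
  have h3 := coset_many hp i₀ (B := fun i => A i ^ (p - 1) * B) (y := fun i => A i * z + h i)
    (κ := κ) (fun i => ((hA i).pow _).mul hB) hu (fun i => (hy i).1)
    (monic_prod_of_monic _ _ fun j _ => hc j)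
    (fun i => (hG i _).2 (prod_ne_zero_iff.1 g1 i (mem_univ i)))
    (fun i hi P hP hlo c1 c2 => by
      have c3 : P ∣ derivative ((A i₀ * A i) ^ (p - 1) * B * (A i * h i₀ - A i₀ * h i)) := by
        rw [← xmanya_res (A i₀) (A i) B (h i₀) (h i) z]
        exact (c1.mul_left _).sub (c2.mul_left _)
      have := natDegree_le_of_dvd c3 (hR i hi).1
      have := (hR i hi).2
      omega)
    (fun i => (key _ _ _ (hB1 i) (su i) (hs _)).trans (by have := (hy i).2; omega))
    hhi hL ((hB1 i₀).trans hTlo) (fun i => (su i).trans hTlo) ((hs _).trans hTlo)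
  have h4 := (pow_le_pow_iff_left₀ (abs_nonneg _) hx (by positivity)).1 (h3.trans hxx)
  rw [abs_mul]
  refine (mul_le_mul ?_ h4 (abs_nonneg _) zero_le_one).trans_eq (one_mul x)
  rw [abs_prod]
  exact prod_le_one (fun _ _ => abs_nonneg _) fun i _ => (hG i _).1

end Pool.Agent.MP_4fffd4_nt.Odd
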