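import Mathlib
import Pool.Agent.MP_4fffd4_nt.Odd.ManyA

/- Correlations of many weighted forms. -/

set_option autoImplicit false

namespace Pool.Agent.MP_4fffd4_nt.Odd

open Polynomial Finset Filter Topology
open scoped BigOperators

theorem xmanyb_prod {I : Type*} [Fintype I] (l s : I → ℝ) (P : I → Prop) (hl : ∀ i, |l i| = 1)
    (h : ∀ i, |l i - s i| ≤ ind (P i)) :
    |∏ i, l i - ∏ i, s i| ≤ (1 + 2 ^ Fintype.card I) * ∑ i, ind (P i) := by
  by_cases hP : ∃ i, P i
  · obtain ⟨k, hk⟩ := hP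
    have h1 : (1 : ℝ) ≤ ∑ i, ind (P i) := by
      rw [← ind_pos hk]
      exact single_le_sum (f := fun i => ind (P i)) (fun i _ => ind_nonneg _) (mem_univ k)
    have h2 : |∏ i, l i| = 1 := by
      rw [abs_prod]
      exact prod_eq_one fun i _ => hl i
    have h3 : |∏ i, s i| ≤ 2 ^ Fintype.card I := by
      rw [abs_prod, ← card_univ, ← prod_const]
      refine prod_le_prod (fun i _ => abs_nonneg _) fun i _ => ?_
      have h4 := abs_sub_abs_le_abs_sub (s i) (l i)
      rw [abs_sub_comm, hl i] at h4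
      have h5 := h i
      have h6 := ind_le_one (P i)
      linarith
    refine (abs_sub _ _).trans ?_
    rw [h2]
    exact (add_le_add le_rfl h3).trans (le_mul_of_one_le_right (by positivity) h1)
  · have h1 : l = s := funext fun i => by
      have h2 := h i
      rw [ind_neg fun hi => hP ⟨i, hi⟩] at h2
      exact sub_eq_zero.1 (abs_nonpos_iff.1 h2)
    rw [h1, sub_self, abs_zero]
    exact mul_nonneg (by positivity) (sum_nonneg fun i _ => ind_nonneg _)

variable {F : Type*} [Field F] [Fintype F] {p : ℕ} [Fact p.Prime] [CharP F p]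

theorem many_avg (hp : p ≠ 2) {ι : Type} [Fintype ι] {lo hi : ℕ → ℕ}
    (hlo : Tendsto lo atTop atTop) (hhi : ∀ c : ℕ, ∀ᶠ M in atTop, hi M + c ≤ M / p)
    {I : Type*} [Fintype I] (i₀ : I) {A h : I → F[X]} {B : F[X]} {D : ℕ}
    (hA : ∀ i, A i ∈ monF F D) (hB : B.Monic)
    (hR : ∀ i, i ≠ i₀ →
      derivative ((A i₀ * A i) ^ (p - 1) * B * (A i * h i₀ - A i₀ * h i)) ≠ 0)
    {ε : ℝ} (hε : 0 < ε) :
    ∀ᶠ n in atTop, ∀ G : I → F[X] → ℝ,
      (∀ i W, |G i W| ≤ 1 ∧ (G i W ≠ 0 → GoodS ι (lo (n + p * D + B.natDegree - 1))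
        (hi (n + p * D + B.natDegree - 1)) W)) →
      |𝔼 z ∈ monF F n, ∏ i, G i (WA p B (A i) (h i) z) * lam (A i * z + h i)| ≤ ε := by
  classical
  have hq := card_pos' (F := F)
  have hp0 : 0 < p := (Fact.out : p.Prime).pos
  set q : ℝ := (Fintype.card F : ℝ) with hqdef
  have mA : ∀ i, (A i).Monic := fun i => (mem_monF.1 (hA i)).1
  have dA : ∀ i, (A i).natDegree = D := fun i => (mem_monF.1 (hA i)).2
  have mB : ∀ i, (A i ^ (p - 1) * B).Monic := fun i => ((mA i).pow _).mul hB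
  have half : Tendsto (fun k : ℕ => (1 : ℝ) / 2 ^ k) atTop (𝓝 0) := by
    simpa using tendsto_pow_atTop_nhds_zero_of_lt_one (r := (1 / 2 : ℝ)) (by norm_num)
      (by norm_num)
  obtain ⟨c, hc⟩ : ∃ c : ℝ, c = (1 + 2 ^ Fintype.card I) *
    ∑ i, q ^ ((A i ^ (p - 1) * B).natDegree + (A i).natDegree) := ⟨_, rfl⟩
  have hc0 : 0 < c := by
    rw [hc]
    exact mul_pos (by positivity) (sum_pos (fun i _ => pow_pos hq _) ⟨i₀, mem_univ _⟩)
  obtain ⟨K, hK⟩ := (half.eventually (ge_mem_nhds (show 0 < ε / 2 / c by positivity))).exists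
  obtain ⟨x, hx⟩ : ∃ x : ℝ, x = ε / 2 / (q ^ (3 * K + 1)) ^ Fintype.card I := ⟨_, rfl⟩
  have hx0 : 0 < x := by rw [hx]; positivity
  obtain ⟨j, hj⟩ : ∃ j, j = Fintype.card I * (Fintype.card ι + 1) := ⟨_, rfl⟩
  obtain ⟨m, hm⟩ := (half.eventually (ge_mem_nhds (show 0 < x ^ 2 ^ j by positivity))).exists
  obtain ⟨T, hT⟩ : ∃ T, T = p * ∑ i, (A i).natDegree + B.natDegree + Fintype.card I * (3 * K) :=
    ⟨_, rfl⟩
  obtain ⟨R, hRdef⟩ : ∃ R, R = ∑ i,
    (derivative ((A i₀ * A i) ^ (p - 1) * B * (A i * h i₀ - A i₀ * h i))).natDegree := ⟨_, rfl⟩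
  have hRle : ∀ i,
      (derivative ((A i₀ * A i) ^ (p - 1) * B * (A i * h i₀ - A i₀ * h i))).natDegree ≤ R :=
    fun i => hRdef ▸ single_le_sum (f := fun i =>
      (derivative ((A i₀ * A i) ^ (p - 1) * B * (A i * h i₀ - A i₀ * h i))).natDegree)
      (fun _ _ => Nat.zero_le _) (mem_univ i)
  have hM : Tendsto (fun n => n + p * D + B.natDegree - 1) atTop atTop :=
    (tendsto_sub_atTop_nat 1).comp ((tendsto_add_atTop_nat _).comp (tendsto_add_atTop_nat _))
  filter_upwards [hM.eventually (hhi (m + 2 * j + 1 + 3 * T + D + B.natDegree)),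
    (hlo.comp hM).eventually_ge_atTop (m + 2 * j + 1 + T + 2 * (m + j + 2) + R),
    eventually_gt_atTop (∑ i, (h i).natDegree)] with n h1 h2 h3 G hG
  simp only [Function.comp] at h2
  have hh : ∀ i, (h i).natDegree < n := fun i =>
    (single_le_sum (f := fun i => (h i).natDegree) (fun _ _ => Nat.zero_le _)
      (mem_univ i)).trans_lt h3
  set M := n + p * D + B.natDegree - 1 with hMdef
  have h4 : M / p ≤ n / p + (D + B.natDegree) := by
    rw [← Nat.add_mul_div_left _ _ hp0]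
    refine Nat.div_le_div_right ?_
    have := Nat.le_mul_of_pos_left B.natDegree hp0
    rw [mul_add]
    omega
  obtain ⟨N, hN⟩ : ∃ N, n / p = 3 * T + N := ⟨n / p - 3 * T, by omega⟩
  have h5 : p * (3 * T + N) ≤ n := hN ▸ Nat.mul_div_le n p
  set S : F[X] → ℝ := fun z => ∑ u ∈ fullLE F (3 * K), piece u z with hS
  have e1 : 𝔼 z ∈ monF F n, ∏ i, G i (WA p B (A i) (h i) z) * lam (A i * z + h i) =
      (∏ i, lam (A i ^ (p - 1) * B)) *
      (∑ u ∈ Fintype.piFinset fun _ : I => fullLE F (3 * K), 𝔼 z ∈ monF F n,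
        ∏ i, G i (WA p B (A i) (h i) z) * piece (u i) (A i ^ (p - 1) * B * (A i * z + h i)) +
       𝔼 z ∈ monF F n, (∏ i, G i (WA p B (A i) (h i) z)) *
        (∏ i, lam (A i ^ (p - 1) * B * (A i * z + h i)) -
          ∏ i, S (A i ^ (p - 1) * B * (A i * z + h i)))) := by
    rw [← expect_sum_comm, ← expect_add_distrib, mul_expect]
    refine expect_congr rfl fun z hz => ?_
    obtain ⟨hz1, hz2⟩ := mem_monF.1 hz
    rw [← prod_univ_sum (fun _ : I => fullLE F (3 * K)) fun i u =>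
      G i (WA p B (A i) (h i) z) * piece u (A i ^ (p - 1) * B * (A i * z + h i))]
    simp only [← Finset.mul_sum, hS]
    rw [prod_mul_distrib (f := fun i => G i (WA p B (A i) (h i) z))
      (g := fun i => ∑ u ∈ fullLE F (3 * K), piece u (A i ^ (p - 1) * B * (A i * z + h i))),
      ← mul_add, add_sub_cancel, ← prod_mul_distrib, ← prod_mul_distrib]
    refine prod_congr rfl fun i _ => ?_
    rw [lam_mul (mB i).ne_zero (xpair_monic (mA i) hz1 (hz2.symm ▸ hh i)).1.ne_zero]
    linear_combination (-(G i (WA p B (A i) (h i) z) * lam (A i * z + h i))) *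
      lam_mul_self (A i ^ (p - 1) * B)
  have hcard : ((fullLE F (3 * K)).card : ℝ) ≤ q ^ (3 * K + 1) := by
    have h4 : (fullLE F (3 * K)).card ≤ Fintype.card F ^ (3 * K + 1) :=
      (card_filter_le _ _).trans (card_monLE _)
    rw [hqdef]
    exact_mod_cast h4
  have e2 : |∑ u ∈ Fintype.piFinset fun _ : I => fullLE F (3 * K), 𝔼 z ∈ monF F n,
      ∏ i, G i (WA p B (A i) (h i) z) * piece (u i) (A i ^ (p - 1) * B * (A i * z + h i))| ≤
      ε / 2 := by
    refine (abs_sum_le_sum_abs _ _).trans ((sum_le_card_nsmul _ _ x fun u hu => ?_).trans ?_)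
    · have hu' := fun i => mem_fullLE.1 (Fintype.mem_piFinset.1 hu i)
      have hs : ∑ i, (u i).natDegree ≤ Fintype.card I * (3 * K) :=
        (sum_le_card_nsmul _ _ _ fun i _ => (hu' i).2.1).trans_eq (by rw [card_univ, smul_eq_mul])
      refine many_piece hp i₀ mA hB (fun i => (hu' i).1) (L := m + 2 * j + 1) (T := T) (N := N)
        (fun i hi => ⟨hR i hi, (hRle i).trans (by omega)⟩) hG hh (by omega) h5 (by omega)
        (by omega) (by omega) hx0.le ?_
      rw [← hj]
      exact (xloc2_hxx two_le_card j m _ _ le_rfl (by omega)).trans hm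
    · rw [nsmul_eq_mul, Fintype.card_piFinset, prod_const, card_univ, Nat.cast_pow]
      refine (mul_le_mul_of_nonneg_right
        (pow_le_pow_left₀ (Nat.cast_nonneg _) hcard _) hx0.le).trans_eq ?_
      rw [hx, mul_div_cancel₀ _ (by positivity)]
  have e3 : |𝔼 z ∈ monF F n, (∏ i, G i (WA p B (A i) (h i) z)) *
        (∏ i, lam (A i ^ (p - 1) * B * (A i * z + h i)) -
          ∏ i, S (A i ^ (p - 1) * B * (A i * z + h i)))| ≤ ε / 2 := by
    refine (abs_expect_le _ _).trans ((expect_le_expect (g := fun z =>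
      (1 + 2 ^ Fintype.card I) * ∑ i, ind (∃ δ : F[X], δ.Monic ∧ K < δ.natDegree ∧
        δ ^ 2 ∣ A i ^ (p - 1) * B * (A i * z + h i))) fun z hz => ?_).trans ?_)
    · obtain ⟨hz1, hz2⟩ := mem_monF.1 hz
      have a1 : |∏ i, G i (WA p B (A i) (h i) z)| ≤ 1 := by
        rw [abs_prod]
        exact prod_le_one (fun i _ => abs_nonneg _) fun i _ => (hG i _).1
      rw [abs_mul]
      refine (mul_le_of_le_one_left (abs_nonneg _) a1).trans ?_
      exact xmanyb_prod _ _ _ (fun i => abs_lam _) fun i =>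
        lam_decomp ((mB i).mul (xpair_monic (mA i) hz1 (hz2.symm ▸ hh i)).1) K
    · rw [← mul_expect, expect_sum_comm]
      have f3 : c * (1 / 2 ^ K) ≤ ε / 2 := by
        rw [le_div_iff₀ hc0] at hK
        linarith
      refine le_trans ?_ f3
      rw [hc, mul_assoc, sum_mul]
      refine mul_le_mul_of_nonneg_left (sum_le_sum fun i _ => ?_) (by positivity)
      rw [mul_one_div]
      exact xpair_err (mB i) (mA i) (hh i) K
  have e4 : |∏ i, lam (A i ^ (p - 1) * B)| = 1 := by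
    rw [abs_prod]
    exact prod_eq_one fun i _ => abs_lam _
  rw [e1, abs_mul, e4, one_mul]
  exact (abs_add_le _ _).trans ((add_le_add e2 e3).trans_eq (add_halves ε))

end Pool.Agent.MP_4fffd4_nt.Odd
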