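import Mathlib
import Pool.Agent.MP_4fffd4_nt.Odd.Defs

/- A maximal inequality for almost orthogonal bounded variables. -/

set_option autoImplicit false

namespace Pool.Agent.MP_4fffd4_nt.Odd

open Polynomial Finset Filter Topology
open scoped BigOperators

variable {F : Type*} [Field F] [Fintype F]

theorem xsubg_exp (a : ℝ) {z : ℝ} (hz : |z| ≤ 1) :
    Real.exp (a * z) ≤ Real.sinh a * z + Real.cosh a := by
  obtain ⟨h1, h2⟩ := abs_le.1 hz
  have h := convexOn_exp.2 (Set.mem_univ a) (Set.mem_univ (-a))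
    (show 0 ≤ (1 + z) / 2 by linarith) (show 0 ≤ (1 - z) / 2 by linarith) (by ring)
  simp only [smul_eq_mul] at h
  rw [show (1 + z) / 2 * a + (1 - z) / 2 * -a = a * z by ring] at h
  rw [Real.sinh_eq, Real.cosh_eq]
  linarith

theorem xsubg_mgf {Ψ X : Type*} (T : Finset Ψ) (a : Ψ → ℝ) :
    ∃ K : ℝ, 0 ≤ K ∧ ∀ (η : ℝ), 0 ≤ η → ∀ (s : Finset X), s.Nonempty → ∀ Z : Ψ → X → ℝ,
      (∀ ψ ∈ T, ∀ x, |Z ψ x| ≤ 1) → (∀ S ⊆ T, S.Nonempty → |𝔼 x ∈ s, ∏ ψ ∈ S, Z ψ x| ≤ η) →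
      𝔼 x ∈ s, Real.exp (∑ ψ ∈ T, a ψ * Z ψ x) ≤ Real.exp ((∑ ψ ∈ T, a ψ ^ 2) / 2) + η * K := by
  classical
  set k : Finset Ψ → ℝ := fun S => (∏ ψ ∈ S, Real.sinh (a ψ)) * ∏ ψ ∈ T \ S, Real.cosh (a ψ)
    with hk
  refine ⟨∑ S ∈ T.powerset, |k S|, sum_nonneg fun _ _ => abs_nonneg _, ?_⟩
  intro η hη s hs Z hZ hS
  calc _ ≤ 𝔼 x ∈ s, ∑ S ∈ T.powerset, k S * ∏ ψ ∈ S, Z ψ x := by
        refine expect_le_expect fun x _ => ?_
        rw [Real.exp_sum]
        refine (prod_le_prod (fun _ _ => (Real.exp_pos _).le)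
          fun ψ hψ => xsubg_exp (a ψ) (hZ ψ hψ x)).trans_eq ?_
        rw [prod_add]
        refine sum_congr rfl fun S _ => ?_
        rw [prod_mul_distrib, hk]
        ring
    _ = ∑ S ∈ T.powerset, k S * 𝔼 x ∈ s, ∏ ψ ∈ S, Z ψ x := by
        rw [expect_sum_comm]
        exact sum_congr rfl fun S _ => (mul_expect _ _ _).symm
    _ ≤ ∑ S ∈ T.powerset, ((if S = ∅ then k S else 0) + η * |k S|) := by
        refine sum_le_sum fun S hS' => ?_
        split_ifs with h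
        · subst h
          simp only [prod_empty, expect_const hs, mul_one, le_add_iff_nonneg_right]
          positivity
        · rw [zero_add, mul_comm η]
          refine (le_abs_self _).trans ?_
          rw [abs_mul]
          exact mul_le_mul_of_nonneg_left
            (hS S (mem_powerset.1 hS') (nonempty_iff_ne_empty.2 h)) (abs_nonneg _)
    _ ≤ _ := by
        rw [sum_add_distrib, ← mul_sum, sum_ite_eq', if_pos (empty_mem_powerset T), hk]
        simp only [prod_empty, sdiff_empty, one_mul]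
        rw [sum_div, Real.exp_sum]
        exact add_le_add_left (prod_le_prod (fun _ _ => (Real.cosh_pos _).le)
          fun ψ _ => Real.cosh_le_exp_half_sq _) _

theorem xsubg_pt {E w : ℝ} (hE : 0 < E) (hw : 0 < w) (y : ℝ) :
    |y| ≤ 2 * w + w / E * Real.exp (-2 * E) *
      (Real.exp (E / w * y) + Real.exp (-(E / w) * y)) := by
  have h1 : Real.exp (E / w * |y|) ≤ Real.exp (E / w * y) + Real.exp (-(E / w) * y) := by
    rcases abs_cases y with ⟨h, _⟩ | ⟨h, _⟩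
    · rw [h]
      exact le_add_of_nonneg_right (Real.exp_pos _).le
    · rw [h, mul_neg, neg_mul]
      exact le_add_of_nonneg_left (Real.exp_pos _).le
  have h2 : -2 * E + E / w * |y| ≤ Real.exp (-2 * E) * Real.exp (E / w * |y|) := by
    rw [← Real.exp_add]
    linarith [Real.add_one_le_exp (-2 * E + E / w * |y|)]
  have h3 := mul_le_mul_of_nonneg_left
    (h2.trans (mul_le_mul_of_nonneg_left h1 (Real.exp_pos _).le)) (div_pos hw hE).le
  have h4 : w / E * (-2 * E + E / w * |y|) = |y| - 2 * w := by field_simp; ring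
  rw [h4, ← mul_assoc] at h3
  linarith

theorem max_subg {Ψ : Type*} (T : Finset Ψ) (Sg : Finset (Ψ → ℝ)) {V E w ε : ℝ} (hE : 1 ≤ E)
    (hw : 0 < w) (hVE : V * E ≤ w ^ 2) (hS : (Sg.card : ℝ) ≤ Real.exp E)
    (hV : ∀ c ∈ Sg, ∑ ψ ∈ T, c ψ ^ 2 ≤ V) (hε : 0 < ε) :
    ∃ η : ℝ, 0 < η ∧ ∀ (n : ℕ) (Z : Ψ → F[X] → ℝ), (∀ ψ ∈ T, ∀ x, |Z ψ x| ≤ 1) →
      (∀ S ⊆ T, S.Nonempty → |𝔼 x ∈ monF F n, ∏ ψ ∈ S, Z ψ x| ≤ η) →
      ∀ c : F[X] → Ψ → ℝ, (∀ x, c x ∈ Sg) →
        𝔼 x ∈ monF F n, |∑ ψ ∈ T, c x ψ * Z ψ x| ≤ 4 * w + ε := by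
  have hE0 : 0 < E := by linarith
  choose K hK0 hK using fun a : Ψ → ℝ => xsubg_mgf (X := F[X]) T a
  set B : ℝ := w / E * Real.exp (-2 * E) with hB
  have hB0 : 0 < B := by positivity
  set M : ℝ := ∑ c ∈ Sg, (K (fun ψ => E / w * c ψ) + K fun ψ => -(E / w) * c ψ) with hM
  have hM0 : 0 ≤ M := sum_nonneg fun _ _ => add_nonneg (hK0 _) (hK0 _)
  refine ⟨ε / (B * M + 1), by positivity, fun n Z hZ hη c hc => ?_⟩
  set η : ℝ := ε / (B * M + 1) with hη'
  have hη0 : 0 ≤ η := by positivity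
  have hs : (monF F n).Nonempty := by
    rw [← card_pos, card_monF]
    positivity
  have key : ∀ c ∈ Sg, ∀ θ : ℝ, θ ^ 2 = (E / w) ^ 2 →
      𝔼 x ∈ monF F n, Real.exp (θ * ∑ ψ ∈ T, c ψ * Z ψ x) ≤
        Real.exp (E / 2) + η * K fun ψ => θ * c ψ := by
    intro c hc θ hθ
    have h := hK (fun ψ => θ * c ψ) η hη0 _ hs Z hZ hη
    simp only [mul_assoc, ← mul_sum, mul_pow] at h
    refine h.trans (add_le_add_left (Real.exp_le_exp.2 ?_) _)
    have h1 : (E / w) ^ 2 * V ≤ E := by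
      rw [div_pow, div_mul_eq_mul_div, div_le_iff₀ (by positivity)]
      nlinarith
    have h2 := mul_le_mul_of_nonneg_left (hV c hc) (sq_nonneg (E / w))
    rw [hθ]
    linarith
  calc _ ≤ 𝔼 x ∈ monF F n, (2 * w + B * ∑ c ∈ Sg, (Real.exp (E / w * ∑ ψ ∈ T, c ψ * Z ψ x) +
          Real.exp (-(E / w) * ∑ ψ ∈ T, c ψ * Z ψ x))) := by
        refine expect_le_expect fun x _ => (xsubg_pt hE0 hw _).trans ?_
        refine add_le_add_right (mul_le_mul_of_nonneg_left ?_ hB0.le) _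
        exact single_le_sum (f := fun c : Ψ → ℝ => Real.exp (E / w * ∑ ψ ∈ T, c ψ * Z ψ x) +
          Real.exp (-(E / w) * ∑ ψ ∈ T, c ψ * Z ψ x)) (fun _ _ => by positivity) (hc x)
    _ ≤ 2 * w + B * ∑ c ∈ Sg, (2 * Real.exp (E / 2) +
          η * (K (fun ψ => E / w * c ψ) + K fun ψ => -(E / w) * c ψ)) := by
        rw [expect_add_distrib, expect_const hs, ← mul_expect, expect_sum_comm]
        refine add_le_add_right (mul_le_mul_of_nonneg_left (sum_le_sum fun c hc => ?_) hB0.le) _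
        rw [expect_add_distrib]
        linarith [key c hc (E / w) rfl, key c hc (-(E / w)) (by ring)]
    _ ≤ _ := by
        rw [sum_add_distrib, ← mul_sum _ _ η, ← hM, sum_const, nsmul_eq_mul, mul_add]
        have h1 : B * (η * M) ≤ ε := by
          rw [hη', mul_left_comm, div_mul_eq_mul_div, div_le_iff₀ (by positivity)]
          nlinarith
        have h2 : B * (Sg.card * (2 * Real.exp (E / 2))) ≤ 2 * w := by
          have h3 : Real.exp (-2 * E) * Real.exp E * Real.exp (E / 2) ≤ 1 := by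
            rw [← Real.exp_add, ← Real.exp_add, Real.exp_le_one_iff]
            linarith
          have h4 : w / E ≤ w := div_le_self hw.le hE
          calc _ ≤ B * (Real.exp E * (2 * Real.exp (E / 2))) := by gcongr
            _ = 2 * (w / E) * (Real.exp (-2 * E) * Real.exp E * Real.exp (E / 2)) := by
              rw [hB]; ring
            _ ≤ 2 * w * 1 := by gcongr
            _ = _ := mul_one _
        linarith

end Pool.Agent.MP_4fffd4_nt.Odd
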