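import Mathlib
import Pool.Agent.MP_4fffd4_nt.Odd.ManyB
import Pool.Agent.MP_4fffd4_nt.Odd.Subg
import Pool.Agent.MP_4fffd4_nt.Odd.Gram
import Pool.Agent.MP_4fffd4_nt.Odd.Pos
import Pool.Agent.MP_4fffd4_nt.Odd.Defs3

/- The Liouville function at independent forms behaves like random signs. -/

set_option autoImplicit false

namespace Pool.Agent.MP_4fffd4_nt.Odd

open Polynomial Finset Filter Topology
open scoped BigOperators

section Aux

variable {F : Type*} [Field F] [Fintype F]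

theorem xrnd_core {Ψ : Type*} (n b : ℕ) (T : Finset Ψ) (c : F[X] → Ψ → ℝ) (u : Ψ → F[X] → ℝ)
    (γ : Ψ → F[X] → F[X] → ℝ) {δ s K R : ℝ} (hδ : 0 < δ) (hs : 0 < s) (hK : 0 ≤ K)
    (hc : ∀ x, ∀ ψ ∈ T, |c x ψ| ≤ K) (hu : ∀ ψ x, |u ψ x| ≤ 1)
    (h1 : ∀ ψ ∈ T, 𝔼 x ∈ monF F n, (𝔼 t ∈ monF F b, (γ ψ t x - δ)) ^ 2 ≤ s ^ 2)
    (h2 : ∀ t ∈ monF F b, 𝔼 x ∈ monF F n, |∑ ψ ∈ T, c x ψ * (γ ψ t x * u ψ x)| ≤ R) :
    δ * 𝔼 x ∈ monF F n, |∑ ψ ∈ T, c x ψ * u ψ x| ≤ R + T.card * (K * s) := by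
  have e0 : ∀ x, δ * ∑ ψ ∈ T, c x ψ * u ψ x =
      𝔼 t ∈ monF F b, ∑ ψ ∈ T, c x ψ * (γ ψ t x * u ψ x) -
        ∑ ψ ∈ T, c x ψ * u ψ x * 𝔼 t ∈ monF F b, (γ ψ t x - δ) := fun x => by
    rw [expect_sum_comm, ← sum_sub_distrib, mul_sum]
    refine sum_congr rfl fun ψ _ => ?_
    rw [← mul_expect, ← expect_mul, expect_sub_distrib, expect_const (monF_nonempty b)]
    ring
  have e1 : ∀ x, δ * |∑ ψ ∈ T, c x ψ * u ψ x| ≤
      𝔼 t ∈ monF F b, |∑ ψ ∈ T, c x ψ * (γ ψ t x * u ψ x)| +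
        ∑ ψ ∈ T, K * |𝔼 t ∈ monF F b, (γ ψ t x - δ)| := fun x => by
    rw [← abs_of_pos hδ, ← abs_mul, abs_of_pos hδ, e0]
    refine (abs_sub _ _).trans (add_le_add (abs_expect_le _ _) ?_)
    refine (abs_sum_le_sum_abs _ _).trans (sum_le_sum fun ψ hψ => ?_)
    rw [abs_mul, abs_mul]
    exact mul_le_mul_of_nonneg_right
      ((mul_le_of_le_one_right (abs_nonneg _) (hu ψ x)).trans (hc x ψ hψ)) (abs_nonneg _)
  rw [mul_expect]
  refine (expect_le_expect fun x _ => e1 x).trans ?_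
  rw [expect_add_distrib, expect_comm, expect_sum_comm, ← nsmul_eq_mul]
  refine add_le_add (expect_le (monF_nonempty b) h2) (sum_le_card_nsmul _ _ _ fun ψ hψ => ?_)
  rw [← mul_expect]
  exact mul_le_mul_of_nonneg_left (xloc2_amgm n _ hs (h1 ψ hψ)) hK

end Aux

variable {F : Type*} [Field F] [Fintype F] {p : ℕ} [Fact p.Prime] [CharP F p]

theorem xrnd_ne (hp : p ≠ 2) {A A' h h' t : F[X]} {D H b e : ℕ} (hA : A ∈ monF F D)
    (hA' : A' ∈ monF F D) (hne : A' * h ≠ A * h') (hh : h.natDegree ≤ H) (hh' : h'.natDegree ≤ H)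
    (ht : t ∈ monF F b) (he : e ≤ 1) (hb : 3 * D + H + 2 ≤ b) :
    derivative ((A * A') ^ (p - 1) * BB p e t * (A' * h - A * h')) ≠ 0 := by
  obtain ⟨a1, a2⟩ := mem_monF.1 hA
  obtain ⟨b1, b2⟩ := mem_monF.1 hA'
  have h0 := (monic_BB hp 0 (by omega) ht).2
  rw [BB, pow_zero, one_mul, add_zero] at h0
  have hm : ((A * A') ^ (p - 1) * X ^ e).Monic := ((a1.mul b1).pow _).mul (monic_X_pow e)
  have hs : A' * h - A * h' ≠ 0 := sub_ne_zero.2 hne
  have e1 : (A * A') ^ (p - 1) * BB p e t * (A' * h - A * h') =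
      (A * A') ^ (p - 1) * X ^ e * (A' * h - A * h') * (X + t ^ p) := by
    rw [BB]
    ring
  rw [e1]
  refine deriv_mul_ne (mul_ne_zero hm.ne_zero hs) ?_
  have e2 : (A' * h - A * h').natDegree ≤ D + H := (natDegree_sub_le _ _).trans (max_le
    (natDegree_mul_le.trans (by omega)) (natDegree_mul_le.trans (by omega)))
  rw [h0, natDegree_mul hm.ne_zero hs,
    ((a1.mul b1).pow _).natDegree_mul (monic_X_pow e), natDegree_X_pow,
    (a1.mul b1).natDegree_pow, a1.natDegree_mul b1, a2, b2]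
  obtain ⟨r, hr⟩ : ∃ r, p = r + 1 := ⟨p - 1, by have := (Fact.out : p.Prime).pos; omega⟩
  have e3 : r * (D + D) ≤ r * b := Nat.mul_le_mul_left _ (by omega)
  rw [hr, Nat.add_sub_cancel, add_mul r 1 b]
  omega

theorem exists_rnd (hp : p ≠ 2) : ∃ δ : ℝ, 0 < δ ∧ Rnd F δ := by
  classical
  obtain ⟨δ, hi, hw⟩ := exists_posW (F := F) hp
  have hδ := hw.pos
  refine ⟨δ, hδ, fun T D hT hT' Sg V E w ε hE hw0 hVE hS hV hε => ?_⟩
  obtain ⟨η, hη, hmax⟩ := max_subg (F := F) T Sg hE hw0 hVE hS hV (half_pos (mul_pos hδ hε))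
  have hK : 0 ≤ 1 + |V| := by positivity
  obtain ⟨s, hs, hs'⟩ : ∃ s : ℝ, 0 < s ∧ (T.card * (1 + |V|) + 1) * s = δ * ε / 2 :=
    ⟨δ * ε / 2 / (T.card * (1 + |V|) + 1), by positivity, by field_simp⟩
  obtain ⟨H, hH⟩ : ∃ H : ℕ, ∀ ψ ∈ T, ψ.2.natDegree ≤ H :=
    ⟨T.sup fun ψ => ψ.2.natDegree, fun ψ hψ => le_sup (f := fun ψ : F[X] × F[X] => ψ.2.natDegree) hψ⟩
  obtain ⟨b, hb1, hb2⟩ := ((xgram_small (F := F) p (pow_pos hs 2)).and
    (eventually_ge_atTop (3 * D + H + 2))).exists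
  have hb : 1 ≤ b := by omega
  have main : ∀ e ≤ 1, ∀ᶠ n in atTop, ((n + (p * b + e) : ℕ) : F) ≠ 0 →
      ∀ c : F[X] → F[X] × F[X] → ℝ, (∀ x, c x ∈ Sg) →
        𝔼 x ∈ monF F n, |∑ ψ ∈ T, c x ψ * lam (ψ.1 * x + ψ.2)| ≤ 4 * w / δ + ε := by
    intro e he
    have Vr := (eventually_all_finset T).2 fun ψ hψ =>
      variance_two hp hw hb e (mem_monF.1 (hT ψ hψ)).1 ψ.2
    have P := (eventually_all_finset (monF F b)).2 fun t ht =>
      (eventually_all_finset T.powerset).2 fun S hS => (eventually_all_finset S).2 fun ψ hψ =>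
        eventually_all.2 fun hψ' : ψ ∈ S =>
          many_avg (ι := SI p) hp hw.lo_top hw.hi_le (I := S) ⟨ψ, hψ'⟩ (A := fun i => i.1.1)
            (h := fun i => i.1.2) (fun i => hT _ (mem_powerset.1 hS i.2))
            (monic_BB hp e hb ht).1
            (fun i hi => xrnd_ne hp (hT _ (mem_powerset.1 hS hψ)) (hT _ (mem_powerset.1 hS i.2))
              (hT' _ (mem_powerset.1 hS i.2) _ (mem_powerset.1 hS hψ) fun k => hi (Subtype.ext k))
              (hH _ (mem_powerset.1 hS hψ)) (hH _ (mem_powerset.1 hS i.2)) ht he hb2) hη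
    filter_upwards [Vr, P] with n hV' hP hne c hc
    choose! G hG hG' using fun ψ hψ => hV' ψ hψ hne
    have key := xrnd_core n b T c (fun ψ x => lam (ψ.1 * x + ψ.2))
      (fun ψ t x => G ψ t (WA p (BB p e t) ψ.1 ψ.2 x)) hδ hs hK
      (fun x ψ hψ => by
        have k := (single_le_sum (fun ψ _ => sq_nonneg (c x ψ)) hψ).trans (hV _ (hc x))
        nlinarith [sq_abs (c x ψ), sq_nonneg (|c x ψ| - 1), le_abs_self V, abs_nonneg V])
      (fun ψ x => (abs_lam _).le) (fun ψ hψ => (hG' ψ hψ).trans hb1)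
      (fun t ht => hmax n
        (fun ψ x => G ψ t (WA p (BB p e t) ψ.1 ψ.2 x) * lam (ψ.1 * x + ψ.2))
        (fun ψ hψ x => xgram_mul_le (hG ψ hψ t _).1 (abs_lam _).le)
        (fun S hS ⟨ψ, hψ⟩ => by
          have k := hP t ht S (mem_powerset.2 hS) ψ hψ hψ (fun i => G i.1 t) fun i => by
            rw [(monic_BB hp e hb ht).2, ← (mem_monF.1 (hT _ (hS i.2))).2]
            exact hG _ (hS i.2) t
          refine le_of_eq_of_le (congrArg _ (expect_congr rfl fun z _ => ?_)) k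
          exact (prod_coe_sort S _).symm) c hc)
    rw [div_add' _ _ _ hδ.ne', le_div_iff₀ hδ]
    nlinarith
  filter_upwards [main 0 zero_le_one, main 1 le_rfl] with n h0 h1
  by_cases h : ((n + (p * b + 0) : ℕ) : F) = 0
  · refine h1 ?_
    rw [← add_assoc, Nat.cast_add, Nat.cast_one, show n + p * b = n + (p * b + 0) from rfl, h,
      zero_add]
    exact one_ne_zero
  · exact h0 h

end Pool.Agent.MP_4fffd4_nt.Odd
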