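import Mathlib
import Pool.Agent.MP_4fffd4_nt.Odd.Rnd
import Pool.Agent.MP_4fffd4_nt.Odd.Fam
import Pool.Agent.MP_4fffd4_nt.Odd.Bad
import Pool.Agent.MP_4fffd4_nt.Odd.Comp
import Pool.Agent.MP_4fffd4_nt.Odd.TwoPt

/- Chowla's conjecture in every degree. -/

set_option autoImplicit false

namespace Pool.Agent.MP_4fffd4_nt.Odd

open Polynomial Finset Filter Topology
open scoped BigOperators

variable {F : Type*} [Field F] [Fintype F]

theorem xall_div {α : F[X]} (hα : α.Monic) (n : ℕ) (f : F[X] → ℝ) :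
    𝔼 z ∈ monF F (n + α.natDegree), f z =
      𝔼 β ∈ ltF F α.natDegree, 𝔼 x ∈ monF F n, f (α * x + β) := by
  classical
  have hq := card_pos' (F := F)
  have h1 : ∑ z ∈ monF F (n + α.natDegree), f z =
      ∑ y ∈ ltF F α.natDegree ×ˢ monF F n, f (α * y.2 + y.1) := by
    symm
    refine sum_bij' (fun y _ => α * y.2 + y.1) (fun z _ => (z %ₘ α, z /ₘ α)) ?_ ?_ ?_ ?_ ?_
    · intro y hy
      obtain ⟨h2, h3⟩ := mem_product.1 hy
      obtain ⟨h4, h5⟩ := mem_monF.1 h3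
      have h6 : y.1.degree < (α * y.2).degree := by
        refine (mem_ltF.1 h2).trans_le ?_
        rw [degree_eq_natDegree (hα.mul h4).ne_zero, hα.natDegree_mul h4]
        exact_mod_cast Nat.le_add_right _ _
      refine mem_monF.2 ⟨(hα.mul h4).add_of_left h6, ?_⟩
      rw [natDegree_add_eq_left_of_degree_lt h6, hα.natDegree_mul h4, h5, add_comm]
    · intro z hz
      obtain ⟨h4, h5⟩ := mem_monF.1 hz
      refine mem_product.2 ⟨mem_ltF.2 ?_, mem_monF.2 ⟨?_, ?_⟩⟩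
      · rw [← degree_eq_natDegree hα.ne_zero]
        exact degree_modByMonic_lt z hα
      · have h6 : α.degree ≤ z.degree := by
          rw [degree_eq_natDegree hα.ne_zero, degree_eq_natDegree h4.ne_zero, h5]
          exact_mod_cast Nat.le_add_left _ _
        rw [Monic, leadingCoeff_divByMonic_of_monic hα h6]
        exact h4
      · rw [natDegree_divByMonic z hα, h5, Nat.add_sub_cancel]
    · intro y hy
      have h2 := mem_ltF.1 (mem_product.1 hy).1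
      rw [← degree_eq_natDegree hα.ne_zero] at h2
      obtain ⟨h3, h4⟩ := div_modByMonic_unique y.2 y.1 hα ⟨add_comm _ _, h2⟩
      exact Prod.ext h4 h3
    · intro z _
      rw [add_comm]
      exact modByMonic_add_div z α
    · intro y _
      rfl
  rw [expect_monF_eq, h1, sum_product, expect_ltF_eq]
  simp only [expect_monF_eq]
  rw [← sum_div, pow_add]
  field_simp

theorem xall_LL (L : ℝ) : ∃ K : ℕ, ∀ᶠ y : ℕ in atTop, L ≤ LL F y (K * y) := by
  obtain ⟨c, hc⟩ := (xposb_harm (F := F)).exists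
  have h0 := (tendsto_atTop_add_const_right _ (-∑ i ∈ range 1, (1 / ((i : ℝ) + 1)))
    Real.tendsto_sum_range_one_div_nat_succ_atTop).atTop_div_const (two_pos (α := ℝ))
  obtain ⟨K, h1, h2⟩ := ((h0.eventually_ge_atTop L).and (eventually_ge_atTop 1)).exists
  refine ⟨K, ?_⟩
  filter_upwards [eventually_ge_atTop c, eventually_ge_atTop 1] with y h3 h4
  have h5 := hc y 1 h4 (by omega) K h2
  rw [one_mul] at h5
  exact h1.trans (by rwa [← sub_eq_add_neg])

theorem xall_small (c : ℝ) {y : ℝ} (hy : 0 < y) :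
    ∀ᶠ Δ : ℕ in atTop, c * (Δ : ℝ) ^ 2 / (Fintype.card F : ℝ) ^ Δ ≤ y := by
  have h0 := (tendsto_pow_const_div_const_pow_of_one_lt 2
    (one_lt_two.trans_le (two_le_card (F := F)))).const_mul c
  rw [mul_zero] at h0
  simp only [mul_div_assoc]
  exact h0.eventually (ge_mem_nhds hy)

theorem xall_main {δ : ℝ} (hδ : 0 < δ) (hR : Rnd F δ) {I : Type*} [Fintype I] (i₁ : I)
    {a : F[X]} (ha : a.Monic) {h : I → F[X]} (hh : Function.Injective h) :
    Tendsto (fun n => 𝔼 x ∈ monF F n, ind (a ∣ x) * ∏ i, lam (x + h i)) atTop (𝓝 0) := by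
  classical
  refine xtwopt_tend fun ε hε => ?_
  have hq := card_pos' (F := F)
  have hk : (0 : ℝ) < Fintype.card I := by exact_mod_cast Fintype.card_pos_iff.2 ⟨i₁⟩
  set k : ℝ := (Fintype.card I : ℝ) with hkdef
  set Λ : ℝ := 2 * (Fintype.card F : ℝ) ^ (a.natDegree + 1) with hΛ
  obtain ⟨K, hK⟩ := xall_LL (F := F) (10 * k ^ 2 / ε)
  obtain ⟨R, hR1, hR2⟩ := ((tendsto_natCast_atTop_atTop (R := ℝ).eventually_ge_atTop
    (20 * k ^ 2 / ε)).and (eventually_ge_atTop 1)).exists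
  obtain ⟨U, hU1, hU2⟩ := ((tendsto_natCast_atTop_atTop (R := ℝ).eventually_ge_atTop
    (5 * (1 + K * R) / ε)).and (eventually_ge_atTop 1)).exists
  obtain ⟨h₀, hh₀⟩ := xcorr_deg h
  have hRT : Tendsto (fun Δ : ℕ => R * Δ) atTop atTop :=
    tendsto_atTop_mono (fun Δ => Nat.le_mul_of_pos_left Δ hR2) tendsto_id
  obtain ⟨Δ, ⟨d1, d2⟩, d3⟩ := (((hRT.eventually hK).and
    (xall_small (F := F) ((1 + 2 * Λ) * (20 * k * U / (ε * δ)) ^ 2) one_pos)).and
    (eventually_ge_atTop (a.natDegree + h₀ + 2))).exists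
  have hΔ : 0 < Δ := by omega
  have hΔR : Δ ≤ R * Δ := Nat.le_mul_of_pos_left Δ hR2
  have hΔ' : (0 : ℝ) < Δ := by exact_mod_cast hΔ
  have hU' : (0 : ℝ) < U := by exact_mod_cast hU2
  have hR' : (0 : ℝ) < R := by exact_mod_cast hR2
  have hL0 : 0 < LL F (R * Δ) (K * (R * Δ)) := lt_of_lt_of_le (by positivity) d1
  obtain ⟨A, 𝒜, hA, hF⟩ := exists_fam ha (D₀ := R * Δ) (by omega) (by omega) (K * (R * Δ))
    (U * Δ + Δ + h₀)
  set w : ℝ := ε * δ / (20 * k * U * Δ) with hw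
  have hw0 : 0 < w := by positivity
  have hwΛ : (1 + 2 * Λ) / (Fintype.card F : ℝ) ^ Δ ≤ w ^ 2 := by
    rw [div_le_one (by positivity)] at d2
    rw [div_le_iff₀ (by positivity), hw, div_pow, div_mul_eq_mul_div, le_div_iff₀ (by positivity)]
    have e : (1 + 2 * Λ) * (20 * k * U * Δ) ^ 2 =
        (ε * δ) ^ 2 * ((1 + 2 * Λ) * (20 * k * U / (ε * δ)) ^ 2 * (Δ : ℝ) ^ 2) := by
      field_simp
    rw [e]
    exact mul_le_mul_of_nonneg_left d2 (by positivity)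
  have hhA : ∀ i, (h i).degree < A := fun i => xtwopt_deg (by have := hh₀ i; omega)
  have key : ∀ᶠ n in atTop, ∀ i₀ ∈ (univ : Finset I), ∀ s ∈ range (U * Δ),
      |𝔼 α ∈ 𝒜, 𝔼 β ∈ ltF F A, 𝔼 x ∈ monF F n, ind (a ∣ β) * ind (Low h Δ i₀ s α β) *
        ∏ i, lam (α * x + (β + h i))| ≤ 4 * w / δ + ε / (5 * k * U * Δ) :=
    (eventually_all_finset _).2 fun i₀ _ => (eventually_all_finset _).2 fun s hs =>
      compress hR h hF.ne hF.mon hF.divs hhA (fun β => ind (a ∣ β)) (fun β => abs_ind_le _) i₀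
        (by have := mem_range.1 hs; omega) hw0 hwΛ (by positivity)
  obtain ⟨n₀, hn₀⟩ := eventually_atTop.1 key
  filter_upwards [eventually_ge_atTop (n₀ + A)] with m hm
  obtain ⟨n, rfl⟩ : ∃ n, m = n + A := ⟨m - A, by omega⟩
  have h1 := hn₀ n (by omega)
  set Φ : F[X] → F[X] → F[X] → ℝ := fun α β x => ind (a ∣ β) * ∏ i, lam (α * x + (β + h i))
    with hΦ
  set g : F[X] → F[X] → ℝ := fun α β => ∑ i₀, ∑ s ∈ range (U * Δ), ind (Low h Δ i₀ s α β)
    with hg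
  have e1 : 𝔼 x ∈ monF F (n + A), ind (a ∣ x) * ∏ i, lam (x + h i) =
      𝔼 α ∈ 𝒜, 𝔼 β ∈ ltF F A, 𝔼 x ∈ monF F n, Φ α β x := by
    rw [← expect_const hF.ne (𝔼 x ∈ monF F (n + A), ind (a ∣ x) * ∏ i, lam (x + h i))]
    refine expect_congr rfl fun α hα => ?_
    obtain ⟨a1, a2⟩ := mem_monF.1 (hF.mon α hα)
    obtain ⟨T, -, j, a3, -⟩ := hF.shape α hα
    have a4 : a ∣ α := ⟨X ^ j * ∏ P ∈ T, P, by rw [a3, mul_assoc]⟩
    rw [← a2, xall_div a1]
    refine expect_congr rfl fun β _ => expect_congr rfl fun x _ => ?_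
    simp only [hΦ, add_assoc]
    rw [ind_congr (dvd_add_right (a4.mul_right x))]
  have e2 : 𝔼 α ∈ 𝒜, 𝔼 β ∈ ltF F A, 𝔼 x ∈ monF F n, Φ α β x =
      (∑ i₀, ∑ s ∈ range (U * Δ), 𝔼 α ∈ 𝒜, 𝔼 β ∈ ltF F A, 𝔼 x ∈ monF F n,
        ind (a ∣ β) * ind (Low h Δ i₀ s α β) * ∏ i, lam (α * x + (β + h i))) +
      𝔼 α ∈ 𝒜, 𝔼 β ∈ ltF F A, (1 - g α β) * 𝔼 x ∈ monF F n, Φ α β x := by
    simp only [← expect_sum_comm, ← expect_add_distrib, mul_expect]
    refine expect_congr rfl fun α _ => expect_congr rfl fun β _ => expect_congr rfl fun x _ => ?_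
    simp only [hΦ, hg, ← sum_mul, ← mul_sum]
    ring
  have e3 : |∑ i₀, ∑ s ∈ range (U * Δ), 𝔼 α ∈ 𝒜, 𝔼 β ∈ ltF F A, 𝔼 x ∈ monF F n,
      ind (a ∣ β) * ind (Low h Δ i₀ s α β) * ∏ i, lam (α * x + (β + h i))| ≤ 2 * ε / 5 := by
    refine (abs_sum_le_sum_abs _ _).trans ((sum_le_sum fun i₀ hi =>
      (abs_sum_le_sum_abs _ _).trans (sum_le_sum (h1 i₀ hi))).trans_eq ?_)
    rw [sum_const, sum_const, card_range, card_univ, nsmul_eq_mul, nsmul_eq_mul, hw]
    push_cast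
    field_simp
    ring
  have e4 : |𝔼 α ∈ 𝒜, 𝔼 β ∈ ltF F A, (1 - g α β) * 𝔼 x ∈ monF F n, Φ α β x| ≤ 3 * ε / 5 := by
    refine xloc1_abs_le hF.ne fun α hα => (abs_expect_le _ _).trans
      ((expect_le_expect (g := fun β => |1 - g α β|) fun β _ => ?_).trans
        ((bad_all i₁ hh ha hF (by omega) (by omega) (fun i => by have := hh₀ i; omega) hL0 hΔ
          (S := U * Δ) (Nat.mul_pos hU2 hΔ) hα).trans ?_))
    · rw [abs_mul]
      exact mul_le_of_le_one_right (abs_nonneg _)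
        (xloc1_abs_le (monF_nonempty n) fun x _ => xcorr_abs _ _)
    · have b1 : k ^ 2 * (2 / LL F (R * Δ) (K * (R * Δ))) ≤ ε / 5 := by
        rw [div_le_iff₀ hε] at d1
        rw [← mul_div_assoc, div_le_div_iff₀ hL0 (by norm_num)]
        linarith
      have b2 : k ^ 2 * (4 * Δ / (R * Δ : ℕ)) ≤ ε / 5 := by
        rw [div_le_iff₀ hε] at hR1
        push_cast
        rw [mul_div_mul_right _ _ hΔ'.ne', ← mul_div_assoc, div_le_div_iff₀ hR' (by norm_num)]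
        linarith
      have b3 : ((a.natDegree : ℝ) + 1 + (K * (R * Δ) : ℕ)) / (U * Δ : ℕ) ≤ ε / 5 := by
        rw [div_le_iff₀ hε] at hU1
        have c1 : (a.natDegree : ℝ) + 1 ≤ Δ := by exact_mod_cast (by omega : a.natDegree + 1 ≤ Δ)
        push_cast
        rw [div_le_div_iff₀ (by positivity) (by norm_num)]
        have c2 := mul_le_mul_of_nonneg_right hU1 hΔ'.le
        nlinarith
      rw [mul_add]
      linarith
  rw [e1, e2]
  refine (abs_add_le _ _).trans ?_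
  linarith

theorem corr_all {p : ℕ} [Fact p.Prime] [CharP F p] (hp : p ≠ 2) {I : Type*} [Fintype I]
    (i₀ : I) {a : F[X]} (ha : a.Monic) {h : I → F[X]} (hh : Function.Injective h) :
    Tendsto (fun n => 𝔼 x ∈ monF F n, ind (a ∣ x) * ∏ i, lam (x + h i)) atTop (𝓝 0) := by
  obtain ⟨δ, hδ, hR⟩ := exists_rnd (F := F) hp
  exact xall_main hδ hR i₀ ha hh

end Pool.Agent.MP_4fffd4_nt.Odd
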